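import Mathlib

set_option autoImplicit false

open NumberField IsDedekindDomain AlgebraicGeometry CategoryTheory Filter Topology

namespace Pool.Agent.MP_14ad9d_nt

/-- the conclusion of the question for the number field `K` -/
def Conc (K : Type) [Field K] [NumberField K] : Prop :=
  ∃ (X : Scheme.{0}) (f : X ⟶ Spec (CommRingCat.of ℤ)),
    LocallyOfFiniteType f ∧ QuasiCompact f ∧
    Infinite (Spec (CommRingCat.of ℤ) ⟶ X) ∧
    Function.Bijective (fun g : Spec (CommRingCat.of ℤ) ⟶ X =>
      Spec.map (CommRingCat.ofHom (algebraMap ℤ (𝓞 K))) ≫ g)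

/-- `u` is integral over the localisation of the integers at `2` -/
def TwoInt {A : Type*} [CommRing A] (u : A) : Prop :=
  ∃ d : ℕ, Odd d ∧ IsIntegral ℤ ((d : A) * u)

/-- a set of natural numbers with positive lower Dirichlet density -/
def PosDens (𝒬 : Set ℕ) : Prop :=
  ∃ δ C : ℝ, 0 < δ ∧ ∀ᶠ s : ℝ in 𝓝[>] 1,
    δ * Real.log (1 / (s - 1)) - C ≤ ∑' n : ℕ, 𝒬.indicator (fun n => (n : ℝ) ^ (-s)) n

/-- a Gaussian integer congruent to `1` or `-1` modulo `4 (1 + i)` -/
def Prim (π : GaussianInt) : Prop :=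
  (⟨4, 4⟩ : GaussianInt) ∣ π - 1 ∨ (⟨4, 4⟩ : GaussianInt) ∣ π + 1

instance factRat : Fact (∀ r : ℚ, r ^ 2 ≠ -1 + 0 * r) :=
  ⟨fun r h => by nlinarith [sq_nonneg r]⟩

/-- the field of Gaussian numbers -/
abbrev Fi : Type := QuadraticAlgebra ℚ (-1) 0

instance : NumberField Fi where

/-- the square root of `-1` -/
def iF : Fi := ⟨0, 1⟩

theorem iF_sq : iF ^ 2 = -1 := by
  ext <;> simp [iF, sq, QuadraticAlgebra.re_one, QuadraticAlgebra.im_one]

/-- Gaussian integers inside Gaussian numbers -/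
noncomputable def gi : GaussianInt →+* Fi :=
  Zsqrtd.lift ⟨iF, by rw [← sq, iF_sq]; simp⟩

section Local

variable {M : Type*} [Field M] [NumberField M]

/-- the additive valuation -/
noncomputable def ord (P : HeightOneSpectrum (𝓞 M)) (x : M) : ℤ :=
  -WithZero.log (P.valuation M x)

/-- `P` divides `x` -/
def Dv (P : HeightOneSpectrum (𝓞 M)) (x : M) : Prop := P.valuation M x < 1

/-- the map to the completion -/
noncomputable abbrev loc (P : HeightOneSpectrum (𝓞 M)) : M →+* P.adicCompletion M :=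
  algebraMap M (P.adicCompletion M)

/-- local square -/
def LSq (P : HeightOneSpectrum (𝓞 M)) (x : M) : Prop := IsSquare (loc P x)

/-- local fourth power -/
def L4 (P : HeightOneSpectrum (𝓞 M)) (x : M) : Prop :=
  ∃ d : P.adicCompletion M, loc P x = d ^ 4

/-- the local Hilbert symbol of `x` and `y` is trivial -/
def Spl (P : HeightOneSpectrum (𝓞 M)) (x y : M) : Prop :=
  ∃ a b : P.adicCompletion M, loc P y = a ^ 2 - loc P x * b ^ 2

end Local

end Pool.Agent.MP_14ad9d_nt
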