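import Pool.Agent.MP_14ad9d_nt.Sark

set_option autoImplicit false

namespace Pool.Agent.MP_14ad9d_nt

namespace Add

open Finset Filter Topology

lemma sark {e : ℝ} (he : 0 < e) : ∃ K : ℝ, 0 < K ∧ ∀ (N : ℕ) (A : Finset ℕ), 2 ≤ N →
    A ⊆ range N → (∀ a ∈ A, ∀ t : ℕ, 0 < t → a + t ^ 2 ∉ A) →
    (A.card : ℝ) ≤ N * (K * Real.log N ^ (-(1 / (1 + e)))) := by
  obtain ⟨C, hC, h⟩ := sarkozy
  refine ⟨(C * 2 ^ e / e) ^ (1 / (1 + e)), by positivity, fun N A hN hA hs => ?_⟩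
  have hN' : (2 : ℝ) ≤ N := by exact_mod_cast hN
  have hL : 0 < Real.log N := Real.log_pos (by linarith)
  rcases Nat.eq_zero_or_pos A.card with h0 | h0
  · rw [h0, Nat.cast_zero]; positivity
  have h1 : (A.card : ℝ) ≤ N := by exact_mod_cast (card_le_card hA).trans (card_range N).le
  obtain ⟨α, hα⟩ : ∃ α : ℝ, α = A.card / N := ⟨_, rfl⟩
  have hα0 : 0 < α := by rw [hα]; positivity
  have e1 : α * N = A.card := by rw [hα]; field_simp
  have h2 := h N A α hA hs hα0 (by rw [hα, div_le_one (by linarith)]; exact h1) e1.le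
  have h3 := Real.log_le_rpow_div (x := 2 / α) (by positivity) he
  have h4 : α ^ (1 + e) ≤ C * 2 ^ e / e / Real.log N := by
    have h5 : Real.log N ≤ C / α * ((2 / α) ^ e / e) := h2.trans (by gcongr)
    have h6 : 0 < α ^ e := by positivity
    rw [Real.div_rpow (by norm_num) hα0.le] at h5
    rw [Real.rpow_add hα0, Real.rpow_one, le_div_iff₀ hL]
    calc α * α ^ e * Real.log N ≤ α * α ^ e * (C / α * (2 ^ e / α ^ e / e)) := by gcongr
      _ = _ := by field_simp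
  have h7 := Real.rpow_le_rpow (by positivity) h4 (by positivity : 0 ≤ 1 / (1 + e))
  rw [← Real.rpow_mul hα0.le, mul_one_div_cancel (by positivity), Real.rpow_one,
    Real.div_rpow (by positivity) hL.le, div_eq_mul_inv _ (Real.log N ^ _),
    ← Real.rpow_neg hL.le] at h7
  rw [← e1, mul_comm]
  gcongr

lemma count {r : GaussianInt} (hr : r ≠ 0) (S : Finset GaussianInt)
    (hS : ∀ β ∈ S, ∀ γ ∈ S, ∀ t : ℤ, t ≠ 0 → γ - β ≠ r * (t : GaussianInt) ^ 2) (R : ℕ)
    (hR : ∀ β ∈ S, β.norm ≤ (R : ℤ) ^ 2) {D : ℝ}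
    (hD : ∀ A ⊆ range (2 * R + 1), (∀ a ∈ A, ∀ t : ℕ, 0 < t → a + t ^ 2 ∉ A) → (A.card : ℝ) ≤ D) :
    (S.card : ℝ) ≤ (2 * r.norm * R + 1) * r.norm * D := by
  classical
  have hρ : 0 < r.norm := GaussianInt.norm_pos.mpr hr
  have hb : ∀ β ∈ S, |(β * star r).re| ≤ r.norm * R ∧ |(β * star r).im| ≤ r.norm * R := by
    intro β hβ
    have h1 : (β * star r).norm ≤ (r.norm * R) ^ 2 := by
      rw [Zsqrtd.norm_mul, Zsqrtd.norm_conj, mul_pow]
      have := hR β hβ
      nlinarith [sq_nonneg (R : ℤ), mul_nonneg (sq_nonneg (R : ℤ)) hρ.le]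
    rw [Zsqrtd.norm_def] at h1
    constructor <;> refine abs_le_of_sq_le_sq ?_ (by positivity) <;>
      nlinarith [sq_nonneg (β * star r).re, sq_nonneg (β * star r).im]
  set f : GaussianInt → ℤ × ℤ := fun β =>
    ((β * star r).im + r.norm * R, ((β * star r).re + r.norm * R) % r.norm) with hf
  set τ : GaussianInt → ℕ := fun β => (((β * star r).re + r.norm * R) / r.norm).toNat with hτ
  have hτ' : ∀ β ∈ S, (τ β : ℤ) = ((β * star r).re + r.norm * R) / r.norm := fun β hβ =>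
    Int.toNat_of_nonneg (Int.ediv_nonneg (by linarith [(abs_le.mp (hb β hβ).1).1]) hρ.le)
  have key : ∀ β ∈ S, ∀ γ ∈ S, f β = f γ → γ - β = r * (((τ γ : ℤ) - τ β : ℤ) : GaussianInt) := by
    intro β hβ γ hγ h
    obtain ⟨h1, h2⟩ := Prod.mk.inj h
    refine mul_right_cancel₀ (star_ne_zero.mpr hr) ?_
    rw [mul_right_comm, ← Zsqrtd.norm_eq_mul_conj, hτ' β hβ, hτ' γ hγ, sub_mul, ← Int.cast_mul]
    have a1 := Int.mul_ediv_add_emod ((β * star r).re + r.norm * R) r.norm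
    have a2 := Int.mul_ediv_add_emod ((γ * star r).re + r.norm * R) r.norm
    ext
    · rw [Zsqrtd.re_sub, Zsqrtd.re_intCast]; linarith
    · rw [Zsqrtd.im_sub, Zsqrtd.im_intCast]; linarith
  have hmap : (S : Set GaussianInt).MapsTo f
      (Ico (0 : ℤ) (2 * r.norm * R + 1) ×ˢ Ico (0 : ℤ) r.norm : Finset (ℤ × ℤ)) := by
    intro β hβ
    have := abs_le.mp (hb β hβ).2
    exact mem_coe.mpr (mem_product.mpr ⟨mem_Ico.mpr ⟨by simp only [hf]; linarith,
      by simp only [hf]; linarith⟩,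
      mem_Ico.mpr ⟨Int.emod_nonneg _ hρ.ne', Int.emod_lt_of_pos _ hρ⟩⟩)
  rw [card_eq_sum_card_fiberwise hmap, Nat.cast_sum]
  refine (sum_le_card_nsmul _ _ D fun c _ => ?_).trans (le_of_eq ?_)
  · rw [← card_image_of_injOn (f := τ) fun β hβ γ hγ h => by
      obtain ⟨a1, a2⟩ := mem_filter.mp hβ
      obtain ⟨a3, a4⟩ := mem_filter.mp hγ
      have := key β a1 γ a3 (a2.trans a4.symm)
      rw [h, sub_self, Int.cast_zero, mul_zero, sub_eq_zero] at this
      exact this.symm]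
    refine hD _ (fun a ha => ?_) fun a ha t ht hb' => ?_
    · obtain ⟨β, hβ, rfl⟩ := mem_image.mp ha
      have a1 := (mem_filter.mp hβ).1
      have a2 : (τ β : ℤ) ≤ 2 * R := by
        rw [hτ' β a1]
        exact Int.ediv_le_of_le_mul hρ (by linarith [(abs_le.mp (hb β a1).1).2])
      exact mem_range.mpr (by omega)
    · obtain ⟨β, hβ, rfl⟩ := mem_image.mp ha
      obtain ⟨γ, hγ, e⟩ := mem_image.mp hb'
      obtain ⟨a1, a2⟩ := mem_filter.mp hβ
      obtain ⟨a3, a4⟩ := mem_filter.mp hγ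
      refine hS β a1 γ a3 t (by omega) ?_
      rw [key β a1 γ a3 (a2.trans a4.symm), e]
      push_cast; ring
  · rw [card_product, Int.card_Ico, Int.card_Ico, nsmul_eq_mul, sub_zero, sub_zero, Nat.cast_mul,
      ← Int.cast_natCast, ← Int.cast_natCast (r.norm.toNat), Int.toNat_of_nonneg hρ.le,
      Int.toNat_of_nonneg (by positivity)]
    push_cast; ring

lemma weight {e σ : ℝ} (he : 0 < e) (he1 : e ≤ 1) (hσ : 0 < σ) (hσ1 : σ ≤ 1) (k : ℕ) :
    ((4 : ℝ) ^ k) ^ (-σ) ≤ 2 * σ ^ (-e) * ((k + 1 : ℕ) : ℝ) ^ (-e) := by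
  have hk : (0 : ℝ) ≤ k := k.cast_nonneg
  have h1 : (σ * (k + 1 : ℕ)) ^ e ≤ 2 * ((4 : ℝ) ^ k) ^ σ := by
    have a1 : (σ * (k + 1 : ℕ)) ^ e ≤ 1 + σ * (k + 1 : ℕ) := by
      rcases le_total (σ * (k + 1 : ℕ)) 1 with h | h
      · exact (Real.rpow_le_one (by positivity) h he.le).trans (le_add_of_nonneg_right (by positivity))
      · exact (Real.rpow_le_self_of_one_le h he1).trans (by linarith)
    have a2 : 1 + k * σ ≤ ((4 : ℝ) ^ k) ^ σ := by
      rw [← Real.rpow_natCast, ← Real.rpow_mul (by norm_num), Real.rpow_def_of_pos (by norm_num)]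
      have a3 : 1 ≤ Real.log 4 := by
        rw [show (4 : ℝ) = 2 ^ 2 by norm_num, Real.log_pow]
        push_cast
        linarith [Real.log_two_gt_d9]
      have a4 : 0 ≤ k * σ := by positivity
      nlinarith [Real.add_one_le_exp (Real.log 4 * (k * σ))]
    push_cast at a1 ⊢
    nlinarith
  rw [mul_assoc, ← Real.mul_rpow hσ.le (by positivity), Real.rpow_neg (by positivity),
    Real.rpow_neg (by positivity), ← div_eq_mul_inv, inv_eq_one_div,
    div_le_div_iff₀ (by positivity) (by positivity)]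
  linarith

/-- Dirichlet series of a set with few elements in every block. -/
lemma series {e K : ℝ} (he : 0 < e) (he1 : e ≤ 1) (hK : 0 < K) : ∃ C : ℝ, 0 < C ∧
    ∀ σ : ℝ, 0 < σ → σ ≤ 1 → ∀ S : Finset ℕ, 0 ∉ S →
      (∀ k : ℕ, ((S.filter fun n => Nat.log 4 n = k).card : ℝ)
        ≤ K * 4 ^ k * ((k + 1 : ℕ) : ℝ) ^ (-(1 / (1 + e)))) →
      ∑ n ∈ S, (n : ℝ) ^ (-(σ + 1)) ≤ C * σ ^ (-e) := by
  have hs : Summable fun k : ℕ => ((k + 1 : ℕ) : ℝ) ^ (-(1 / (1 + e)) + -e) :=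
    (summable_nat_add_iff 1).mpr (Real.summable_nat_rpow.mpr (by
      have : 1 - e < 1 / (1 + e) := by rw [lt_div_iff₀ (by positivity)]; nlinarith
      linarith))
  refine ⟨2 * K * (∑' k : ℕ, ((k + 1 : ℕ) : ℝ) ^ (-(1 / (1 + e)) + -e) + 1), ?_, ?_⟩
  · have : 0 ≤ ∑' k : ℕ, ((k + 1 : ℕ) : ℝ) ^ (-(1 / (1 + e)) + -e) :=
      tsum_nonneg fun k => by positivity
    positivity
  intro σ hσ hσ1 S h0 hS
  rw [← sum_fiberwise_of_maps_to (g := Nat.log 4) (t := S.image (Nat.log 4))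
    fun n hn => mem_image_of_mem _ hn]
  have h1 : ∀ k ∈ S.image (Nat.log 4), ∑ n ∈ S with Nat.log 4 n = k, (n : ℝ) ^ (-(σ + 1))
      ≤ 2 * K * σ ^ (-e) * ((k + 1 : ℕ) : ℝ) ^ (-(1 / (1 + e)) + -e) := by
    intro k _
    refine (sum_le_card_nsmul _ _ (((4 : ℝ) ^ k) ^ (-(σ + 1))) fun n hn => ?_).trans ?_
    · obtain ⟨a1, rfl⟩ := mem_filter.mp hn
      refine Real.rpow_le_rpow_of_nonpos (by positivity) ?_ (by linarith)
      exact_mod_cast Nat.pow_log_le_self 4 (fun h => h0 (h ▸ a1))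
    · rw [nsmul_eq_mul, neg_add, Real.rpow_add (by positivity), Real.rpow_neg_one,
        Real.rpow_add (by positivity)]
      calc _ ≤ (K * 4 ^ k * ((k + 1 : ℕ) : ℝ) ^ (-(1 / (1 + e)))) *
            ((2 * σ ^ (-e) * ((k + 1 : ℕ) : ℝ) ^ (-e)) * (4 ^ k)⁻¹) := by
            gcongr
            · exact hS k
            · exact weight he he1 hσ hσ1 k
        _ = _ := by field_simp
  refine (sum_le_sum h1).trans ?_
  rw [← mul_sum, mul_right_comm]
  gcongr
  exact (hs.sum_le_tsum _ fun k _ => by positivity).trans (by linarith)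

lemma exp_le {s : ℝ} (hs : 0 ≤ s) {F : Finset ℕ} (hF : ∀ p ∈ F, p.Prime) :
    Real.exp ((∑ p ∈ F, (p : ℝ) ^ (-s)) / 2)
      ≤ ∑ n ∈ F.powerset.image (fun G => ∏ p ∈ G, p), (n : ℝ) ^ (-s) := by
  rw [sum_image fun G hG G' hG' h => by
    rw [← Nat.primeFactors_prod fun p hp => hF p (mem_powerset.mp hG hp), h,
      Nat.primeFactors_prod fun p hp => hF p (mem_powerset.mp hG' hp)]]
  simp only [Nat.cast_prod, ← Real.finsetProd_rpow _ _ fun p _ => Nat.cast_nonneg p]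
  rw [← prod_one_add, sum_div, Real.exp_sum]
  refine prod_le_prod (fun p _ => by positivity) fun p hp => ?_
  have h0 : 0 ≤ (p : ℝ) ^ (-s) := by positivity
  have h1 : (p : ℝ) ^ (-s) ≤ 1 := Real.rpow_le_one_of_one_le_of_nonpos
    (by exact_mod_cast (hF p hp).one_le) (by linarith)
  refine (Real.exp_bound_div_one_sub_of_interval (by positivity) (by linarith)).trans ?_
  rw [div_le_iff₀ (by linarith)]
  nlinarith

end Add

open Finset Filter Topology in
/-- two products of Gaussian primes from a set of positive density differ by `r` times a square -/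
theorem add_main (𝒬 : Set ℕ) (hp : ∀ p ∈ 𝒬, p.Prime) (hd : PosDens 𝒬) (π : ℕ → GaussianInt)
    (hπ : ∀ p ∈ 𝒬, (π p).norm = p) (r : GaussianInt) (hr : r ≠ 0) :
    ∃ β ∈ Submonoid.closure (π '' 𝒬), ∃ γ ∈ Submonoid.closure (π '' 𝒬), ∃ t : ℤ, t ≠ 0 ∧
      γ - β = r * (t : GaussianInt) ^ 2 := by
  classical
  by_contra hno
  push Not at hno
  obtain ⟨δ, C, hδ, hd⟩ := hd
  obtain ⟨e, he, he1, he2⟩ : ∃ e : ℝ, 0 < e ∧ e ≤ 1 ∧ e ≤ δ / 4 :=
    ⟨min 1 (δ / 4), by positivity, min_le_left _ _, min_le_right _ _⟩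
  obtain ⟨K, hK, hA⟩ := Add.sark he
  have hρ : (1 : ℝ) ≤ r.norm := by exact_mod_cast GaussianInt.norm_pos.mpr hr
  obtain ⟨C', hC', hS⟩ := Add.series (K := 72 * (r.norm : ℝ) ^ 2 * K) he he1 (by positivity)
  have key : ∀ σ : ℝ, 0 < σ → σ ≤ 1 → ∀ F : Finset ℕ, (∀ p ∈ F, p ∈ 𝒬) →
      ∑ p ∈ F, (p : ℝ) ^ (-(σ + 1)) ≤ 2 * (Real.log C' + e * Real.log (1 / σ)) := by
    intro σ hσ hσ1 F hF
    have h1 := (Add.exp_le (s := σ + 1) (by linarith) fun p h => hp p (hF p h)).trans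
      (hS σ hσ hσ1 _ (fun h => ?_) fun k => ?_)
    · have h2 := (Real.le_log_iff_exp_le (by positivity)).mpr h1
      rw [Real.log_mul hC'.ne' (by positivity), Real.log_rpow hσ] at h2
      rw [one_div, Real.log_inv]
      linarith
    · obtain ⟨G, hG, h⟩ := mem_image.mp h
      exact prod_ne_zero_iff.mpr (fun p h => (hp p (hF p (mem_powerset.mp hG h))).ne_zero) h
    · have hex : ∀ n ∈ F.powerset.image (fun G => ∏ p ∈ G, p),
          ∃ β ∈ Submonoid.closure (π '' 𝒬), β.norm = n := by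
        intro n hn
        obtain ⟨G, hG, rfl⟩ := mem_image.mp hn
        refine ⟨∏ p ∈ G, π p, Submonoid.prod_mem _ fun p h =>
          Submonoid.subset_closure ⟨p, hF p (mem_powerset.mp hG h), rfl⟩, ?_⟩
        rw [Nat.cast_prod]
        exact (map_prod Zsqrtd.normMonoidHom _ _).trans
          (prod_congr rfl fun p h => hπ p (hF p (mem_powerset.mp hG h)))
      choose! b hb1 hb2 using hex
      generalize F.powerset.image (fun G => ∏ p ∈ G, p) = S at hb1 hb2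
      have hN : 2 ≤ 2 * 2 ^ (k + 1) + 1 := by have := Nat.one_le_two_pow (n := k + 1); omega
      have h3 := Add.count hr ((S.filter fun n => Nat.log 4 n = k).image b) (fun β hβ γ hγ t ht => by
        obtain ⟨n, hn, rfl⟩ := mem_image.mp hβ
        obtain ⟨m, hm, rfl⟩ := mem_image.mp hγ
        exact hno _ (hb1 n (mem_filter.mp hn).1) _ (hb1 m (mem_filter.mp hm).1) t ht) (2 ^ (k + 1))
        (fun β hβ => by
          obtain ⟨n, hn, rfl⟩ := mem_image.mp hβ
          obtain ⟨a1, rfl⟩ := mem_filter.mp hn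
          have := Nat.lt_pow_succ_log_self (b := 4) (by norm_num) n
          rw [hb2 n a1, ← Nat.cast_pow, Nat.cast_le, ← pow_mul, mul_comm, pow_mul]
          exact this.le) fun A h1 h2 => hA _ A hN h1 h2
      rw [card_image_of_injOn fun n hn m hm h => by
        have := hb2 n (mem_filter.mp hn).1
        rw [h, hb2 m (mem_filter.mp hm).1] at this
        exact_mod_cast this.symm] at h3
      refine h3.trans ?_
      have hk : (0 : ℝ) ≤ k := k.cast_nonneg
      have a1 : ((k + 1 : ℕ) : ℝ) / 2 ≤ Real.log (2 * 2 ^ (k + 1) + 1 : ℕ) := by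
        have a2 := Real.log_le_log (by positivity : (0 : ℝ) < 2 ^ (k + 1))
          (show (2 : ℝ) ^ (k + 1) ≤ (2 * 2 ^ (k + 1) + 1 : ℕ) by
            push_cast; linarith [show (0 : ℝ) < 2 ^ (k + 1) by positivity])
        rw [Real.log_pow] at a2
        nlinarith [Real.log_two_gt_d9, show (0 : ℝ) < (k + 1 : ℕ) by positivity]
      have a3 : Real.log (2 * 2 ^ (k + 1) + 1 : ℕ) ^ (-(1 / (1 + e)))
          ≤ 2 * ((k + 1 : ℕ) : ℝ) ^ (-(1 / (1 + e))) := by
        refine (Real.rpow_le_rpow_of_nonpos (by positivity) a1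
          (neg_nonpos.mpr (by positivity))).trans ?_
        rw [Real.div_rpow (by positivity) (by norm_num), Real.rpow_neg (by norm_num : (0 : ℝ) ≤ 2),
          div_inv_eq_mul, mul_comm]
        gcongr
        exact Real.rpow_le_self_of_one_le (by norm_num)
          (by rw [div_le_one (by positivity)]; linarith)
      have a4 : (1 : ℝ) ≤ 2 ^ k := one_le_pow₀ (by norm_num)
      have a5 : ((2 * 2 ^ (k + 1) + 1 : ℕ) : ℝ) ≤ 6 * 2 ^ k := by push_cast; rw [pow_succ]; linarith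
      have a6 : (2 * r.norm * (2 ^ (k + 1) : ℕ) + 1 : ℝ) ≤ 6 * 2 ^ k * r.norm := by
        push_cast; rw [pow_succ]; nlinarith
      calc _ ≤ (6 * 2 ^ k * r.norm : ℝ) * r.norm *
            (6 * 2 ^ k * (K * (2 * ((k + 1 : ℕ) : ℝ) ^ (-(1 / (1 + e)))))) := by gcongr
        _ = _ := by rw [show (4 : ℝ) = 2 * 2 by norm_num, mul_pow]; ring
  have h1 : Tendsto (fun s : ℝ => Real.log (1 / (s - 1))) (𝓝[>] 1) atTop := by
    simp only [one_div]
    refine Real.tendsto_log_atTop.comp (tendsto_inv_nhdsGT_zero.comp ?_)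
    refine tendsto_nhdsWithin_iff.mpr ⟨?_, eventually_mem_nhdsWithin.mono fun s hs =>
      Set.mem_Ioi.mpr (sub_pos.mpr hs)⟩
    simpa using (tendsto_nhdsWithin_of_tendsto_nhds (tendsto_id (x := 𝓝 (1 : ℝ)))).sub_const 1
  obtain ⟨s, h2, h3, h4, h5⟩ := (hd.and ((h1.eventually_gt_atTop
    (max 0 ((2 * Real.log C' + C) / (δ / 2)))).and (Ioo_mem_nhdsGT (show (1 : ℝ) < 2 by norm_num)))).exists
  have h6 := key (s - 1) (by linarith) (by linarith)
  rw [sub_add_cancel] at h6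
  have h7 : ∑' n : ℕ, 𝒬.indicator (fun n : ℕ => (n : ℝ) ^ (-s)) n ≤ _ := tsum_le_of_sum_le'
    (by simpa using h6 ∅ (by simp)) fun F => (le_of_eq (by
      rw [sum_filter]; exact sum_congr rfl fun n _ => Set.indicator_apply ..)).trans
        (h6 (F.filter (· ∈ 𝒬)) fun p h => (mem_filter.mp h).2)
  have h8 := (le_max_right _ _).trans_lt h3
  have h9 := (le_max_left _ _).trans_lt h3
  rw [div_lt_iff₀ (by positivity)] at h8
  nlinarith

end Pool.Agent.MP_14ad9d_nt
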