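import Pool.Agent.MP_14ad9d_nt.Places

set_option autoImplicit false
set_option linter.unusedSectionVars false

open NumberField IsDedekindDomain

namespace Pool.Agent.MP_14ad9d_nt

section General

variable {M : Type*} [Field M] [NumberField M] {P : HeightOneSpectrum (𝓞 M)}

theorem spl_norm (x a b : M) : Spl P x (a ^ 2 - x * b ^ 2) :=
  ⟨loc P a, loc P b, by simp⟩

theorem spl_of_val {x y a b : M}
    (h : P.valuation M (y - (a ^ 2 - x * b ^ 2)) < P.valuation M (4 * y)) : Spl P x y := by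
  set n := a ^ 2 - x * b ^ 2 with hn
  have h1 : P.valuation M (y - n) < P.valuation M y := by
    refine h.trans_le ?_
    rw [map_mul]
    exact mul_le_of_le_one_left' (LocAux.val_four_le _)
  have h2 : P.valuation M n = P.valuation M y := by
    rw [show n = y - (y - n) by ring]
    exact Valuation.map_sub_eq_of_lt_left _ h1
  have h3 : n ≠ 0 := by
    intro h0
    rw [h0, sub_zero] at h1
    exact lt_irrefl _ h1
  have h4 : LSq P (y * n) := by
    refine lsq_of_val (w := n) ?_
    rw [show y * n - n ^ 2 = (y - n) * n by ring, show 4 * (y * n) = (4 * y) * n by ring,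
      map_mul, map_mul _ (4 * y)]
    exact mul_lt_mul_of_pos_right h (zero_lt_iff.2 ((map_ne_zero _).2 h3))
  have h5 := ((spl_of_lsq_right h4 x).mul_right (spl_norm x a b)).mul_right
    (spl_of_lsq_right (LocAux.lsq_sq n⁻¹) x)
  rwa [← hn, show y * n * n * n⁻¹ ^ 2 = y by field_simp] at h5

theorem Spl.approx {x y : M} (h : Spl P x y) (hy : y ≠ 0) :
    ∃ a b : M, P.valuation M (y - (a ^ 2 - x * b ^ 2)) < P.valuation M (4 * y) := by
  obtain ⟨a, b, hab⟩ := h
  have hd := (HeightOneSpectrum.denseRange_algebraMap M P).prodMap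
    (HeightOneSpectrum.denseRange_algebraMap M P)
  have hc : Continuous fun q : P.adicCompletion M × P.adicCompletion M =>
      ‖loc P y - (q.1 ^ 2 - loc P x * q.2 ^ 2)‖ := by fun_prop
  have h4 : loc P (4 * y) ≠ 0 := LocAux.loc_ne (mul_ne_zero (by norm_num) hy)
  obtain ⟨⟨a', b'⟩, h1⟩ := hd.exists_mem_open (isOpen_lt hc (continuous_const (y := ‖loc P (4 * y)‖)))
    ⟨(a, b), by simpa [hab] using norm_pos_iff.2 h4⟩
  refine ⟨a', b', ?_⟩
  rw [← LocAux.v_loc, ← LocAux.v_loc, ← Valued.toNormedField.norm_lt_iff]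
  simpa using h1

theorem valuation_plc_equiv (h : M ≃+* M) (P : HeightOneSpectrum (𝓞 M)) (x : M) :
    P.valuation M (h x) = (plc (h : M →+* M) P).valuation M x := by
  obtain ⟨e, he, h1⟩ := exists_valuation_plc (h : M →+* M) P
  obtain ⟨ϖ, hϖ⟩ := P.valuation_exists_uniformizer M
  have h0 : h.symm ϖ ≠ 0 := by
    rw [map_ne_zero]
    rintro rfl
    rw [map_zero] at hϖ
    exact WithZero.exp_ne_zero hϖ.symm
  have h2 := h1 (h.symm ϖ)
  rw [RingHom.coe_coe, RingEquiv.apply_symm_apply, hϖ, valuation_eq_exp_ord h0,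
    ← WithZero.exp_nsmul, WithZero.exp_inj] at h2
  have h4 : (e : ℤ) * ord (plc (h : M →+* M) P) (h.symm ϖ) = 1 := by
    simp only [nsmul_eq_mul] at h2; linarith
  have h5 : e = 1 := by
    have := Int.eq_one_of_mul_eq_one_right (by positivity) h4
    exact_mod_cast this
  have := h1 x
  rwa [h5, pow_one] at this

theorem transfer {N : Type*} [Field N] [NumberField N] {Q : HeightOneSpectrum (𝓞 N)} (f : M →+* N)
    (hf : ∀ x, Q.valuation N (f x) = P.valuation M x) :
    (∀ x, Dv Q (f x) ↔ Dv P x) ∧ (∀ x, ord Q (f x) = ord P x) ∧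
      (∀ x, x ≠ 0 → LSq P x → LSq Q (f x)) ∧
      ∀ x y, y ≠ 0 → Spl P x y → Spl Q (f x) (f y) := by
  refine ⟨fun x => by unfold Dv; rw [hf], fun x => by unfold ord; rw [hf], fun x hx h => ?_,
    fun x y hy h => ?_⟩
  · obtain ⟨w, hw⟩ := h.approx hx
    refine lsq_of_val (w := f w) ?_
    rw [← hf, ← hf] at hw
    simpa [map_ofNat] using hw
  · obtain ⟨a, b, hab⟩ := h.approx hy
    refine spl_of_val (a := f a) (b := f b) ?_
    rw [← hf, ← hf] at hab
    simpa [map_ofNat] using hab

end General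

end Pool.Agent.MP_14ad9d_nt
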