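import Mathlib

set_option autoImplicit false
set_option linter.unusedSectionVars false

open MulAction

namespace Pool.Agent.MP_14ad9d_nt

section Cyc

variable {G X : Type*} [Group G] [MulAction G X]

variable (X) in
/-- `g` permutes the points cyclically -/
def Cyc (g : G) : Prop := ∀ x y : X, ∃ k : ℕ, g ^ k • x = y

/-- `g` fixes `x₀` and permutes the other points cyclically -/
def Cyc1 (g : G) (x₀ : X) : Prop :=
  g • x₀ = x₀ ∧ ∀ x y : X, x ≠ x₀ → y ≠ x₀ → ∃ k : ℕ, g ^ k • x = y

theorem pow_smul_of_fixed {g : G} {x : X} (h : g • x = x) (k : ℕ) : g ^ k • x = x := by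
  induction k with
  | zero => simp
  | succ k ih => rw [pow_succ, mul_smul, h, ih]

theorem period_pos [Finite X] (g : G) (x : X) : 0 < period g x := by
  have h : x ∈ Function.periodicPts (fun y : X => g • y) :=
    (MulAction.injective g).mem_periodicPts x
  rw [period_eq_minimalPeriod]
  exact Function.minimalPeriod_pos_of_mem_periodicPts h

theorem injOn_period (g : G) (x : X) :
    Set.InjOn (fun k : ℕ => g ^ k • x) (Finset.range (period g x)) := by
  intro a ha b hb h
  rw [Finset.coe_range, period_eq_minimalPeriod] at ha hb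
  refine Function.iterate_injOn_Iio_minimalPeriod ha hb ?_
  simpa [smul_iterate] using h

theorem image_period [Fintype X] [DecidableEq X] (g : G) (x : X) (A : Finset X)
    (hA : ∀ y, y ∈ A ↔ ∃ k : ℕ, g ^ k • x = y) :
    (Finset.range (period g x)).image (fun k : ℕ => g ^ k • x) = A := by
  ext y
  rw [hA, Finset.mem_image]
  constructor
  · rintro ⟨k, -, h⟩; exact ⟨k, h⟩
  · rintro ⟨k, h⟩
    exact ⟨k % period g x, Finset.mem_range.2 (Nat.mod_lt _ (period_pos g x)), by
      rw [pow_mod_period_smul, h]⟩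

theorem Cyc.period_eq [Fintype X] {g : G} (h : Cyc X g) (x : X) : period g x = Fintype.card X := by
  classical
  have := congrArg Finset.card (image_period g x Finset.univ fun y => by simpa using h x y)
  rwa [Finset.card_image_of_injOn (injOn_period g x), Finset.card_range] at this

theorem Cyc.sq [Fintype X] {g : G} (h : Cyc X g) (hodd : Odd (Fintype.card X)) :
    Cyc X (g ^ 2) := by
  intro x y
  obtain ⟨k, hk⟩ := h x y
  rcases Nat.even_or_odd k with ⟨j, rfl⟩ | hk2
  · exact ⟨j, by rw [← pow_mul, ← hk]; congr 2; ring⟩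
  · obtain ⟨j, hj⟩ := hk2.add_odd hodd
    refine ⟨j, ?_⟩
    rw [← pow_mul, show 2 * j = k + Fintype.card X by omega, pow_add, mul_smul, ← h.period_eq x,
      pow_period_smul, hk]

theorem Cyc1.mem_iff {g : G} {x₀ x : X} (h : Cyc1 g x₀) (hx : x ≠ x₀) (y : X) :
    y ≠ x₀ ↔ ∃ k : ℕ, g ^ k • x = y := by
  refine ⟨h.2 x y hx, ?_⟩
  rintro ⟨k, rfl⟩ hc
  exact hx (MulAction.injective (g ^ k) (hc.trans (pow_smul_of_fixed h.1 k).symm))

theorem Cyc1.congr {g g' : G} {x₀ : X} (h : Cyc1 g x₀) (hg : ∀ x : X, g' • x = g • x) :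
    Cyc1 g' x₀ := by
  have : ∀ (k : ℕ) (x : X), g' ^ k • x = g ^ k • x := by
    intro k
    induction k with
    | zero => simp
    | succ k ih => intro x; rw [pow_succ, pow_succ, mul_smul, mul_smul, hg, ih]
  exact ⟨(hg _).trans h.1, fun x y hx hy => by simpa only [this] using h.2 x y hx hy⟩

/-- a transitive action on a set of prime size contains a full cycle -/
theorem exists_cyc_of_prime [Fintype X] (hp : (Fintype.card X).Prime)
    (ht : ∀ x y : X, ∃ g : G, g • x = y) : ∃ g : G, Cyc X g := by
  classical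
  have := Fact.mk hp
  let H := (toPermHom G X).range
  have : Nonempty X := Fintype.card_pos_iff.1 hp.pos
  let x₀ : X := Classical.arbitrary X
  have h1 : orbit H x₀ = Set.univ := by
    refine Set.eq_univ_of_forall fun y => ?_
    obtain ⟨g, hg⟩ := ht x₀ y
    exact ⟨⟨toPermHom G X g, g, rfl⟩, hg⟩
  have h2 : Fintype.card X ∣ Nat.card H := by
    rw [← Subgroup.index_mul_card (stabilizer H x₀), index_stabilizer, h1, Set.ncard_univ,
      Nat.card_eq_fintype_card]
    exact Dvd.intro _ rfl
  obtain ⟨⟨c, hcH⟩, hc⟩ := exists_prime_orderOf_dvd_card' (G := H) _ h2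
  rw [Subgroup.orderOf_mk] at hc
  obtain ⟨g, rfl⟩ := hcH
  have h3 : ∃ x : X, g • x ≠ x := by
    by_contra h
    push Not at h
    have : toPermHom G X g = 1 := Equiv.ext h
    rw [this, orderOf_one] at hc
    exact hp.one_lt.ne hc
  obtain ⟨x, hx⟩ := h3
  have h4 : period g x = Fintype.card X := by
    have h5 : period g x ∣ Fintype.card X := by
      rw [← pow_smul_eq_iff_period_dvd, ← hc]
      have := pow_orderOf_eq_one (toPermHom G X g)
      rw [← map_pow] at this
      exact congrArg (fun e : Equiv.Perm X => e x) this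
    rcases (Nat.dvd_prime hp).1 h5 with h6 | h6
    · exact (hx (period_eq_one_iff.1 h6)).elim
    · exact h6
  have h5 : (Finset.range (period g x)).image (fun k : ℕ => g ^ k • x) = Finset.univ := by
    refine Finset.eq_univ_of_card _ ?_
    rw [Finset.card_image_of_injOn (injOn_period g x), Finset.card_range, h4]
  have h6 : ∀ y, ∃ k : ℕ, g ^ k • x = y := fun y => by
    obtain ⟨k, -, hk⟩ := Finset.mem_image.1 (h5 ▸ Finset.mem_univ y)
    exact ⟨k, hk⟩
  refine ⟨g, fun y z => ?_⟩
  obtain ⟨a, rfl⟩ := h6 y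
  obtain ⟨b, rfl⟩ := h6 z
  refine ⟨b + (period g x - 1) * a, ?_⟩
  rw [← mul_smul, ← pow_add, show b + (period g x - 1) * a + a = b + period g x * a by
    obtain ⟨m, hm⟩ := Nat.exists_eq_succ_of_ne_zero (period_pos g x).ne'
    rw [hm]; simp; ring, pow_add, mul_smul, pow_mul, pow_smul_of_fixed (pow_period_smul g x)]

end Cyc

/-- translates of a nonzero function of sum zero span all functions of sum zero -/
theorem exists_translates {G : Type*} [Group G] [Fintype G] {l : ℕ} (hl : l.Prime) (hodd : Odd l)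
    (hG : Fintype.card G = l) (h2 : orderOf (2 : ZMod l) = l - 1) (χ : G → ZMod 2) (hχ : χ ≠ 0)
    (hs : ∑ g, χ g = 0) (a : G → ZMod 2) (ha : ∑ g, a g = 0) :
    ∃ B : Finset G, ∀ g, ∑ h ∈ B, χ (g * h) = a g := by
  classical
  have := Fact.mk hl
  let T : (G → ZMod 2) →ₗ[ZMod 2] (G → ZMod 2) :=
    { toFun := fun c g => ∑ h, c h * χ (g * h)
      map_add' := fun c d => by ext g; simp [add_mul, Finset.sum_add_distrib]
      map_smul' := fun r c => by ext g; simp [Finset.mul_sum, mul_assoc] }
  let sm : (G → ZMod 2) →ₗ[ZMod 2] ZMod 2 :=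
    { toFun := fun c => ∑ g, c g
      map_add' := fun c d => by simp [Finset.sum_add_distrib]
      map_smul' := fun r c => by simp [Finset.mul_sum] }
  have hle : LinearMap.range T ≤ LinearMap.ker sm := by
    rintro _ ⟨c, rfl⟩
    change ∑ g, ∑ h, c h * χ (g * h) = 0
    rw [Finset.sum_comm]
    refine Finset.sum_eq_zero fun h _ => ?_
    have := Equiv.sum_comp (Equiv.mulRight h) χ
    simp only [Equiv.coe_mulRight] at this
    rw [← Finset.mul_sum, this, hs, mul_zero]
  have hW : Module.finrank (ZMod 2) (LinearMap.ker sm) = l - 1 := by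
    have h1 := LinearMap.finrank_range_add_finrank_ker sm
    have h3 : LinearMap.range sm = ⊤ := by
      rw [LinearMap.range_eq_top]
      intro r
      exact ⟨Pi.single 1 r, by simp [sm]⟩
    rw [h3, finrank_top, Module.finrank_self, Module.finrank_fintype_fun_eq_card, hG] at h1
    omega
  let act : MulAction G (LinearMap.range T) :=
    { smul := fun k f => ⟨fun g => f.1 (g * k), by
        obtain ⟨c, hc⟩ := f.2
        refine ⟨fun h => c (k⁻¹ * h), ?_⟩
        ext g
        rw [← hc]
        change ∑ h, c (k⁻¹ * h) * χ (g * h) = ∑ h, c h * χ (g * k * h)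
        rw [← Equiv.sum_comp (Equiv.mulLeft k)]
        simp [mul_assoc]⟩
      one_smul := fun f => Subtype.ext (funext fun g => congrArg f.1 (mul_one g))
      mul_smul := fun k k' f => Subtype.ext (funext fun g => congrArg f.1 (mul_assoc g k k').symm) }
  have hP : IsPGroup l G := IsPGroup.of_card (n := 1) (by rw [Nat.card_eq_fintype_card, hG, pow_one])
  have h3 := hP.card_modEq_card_fixedPoints (LinearMap.range T)
  have h4 : Nat.card (fixedPoints G (LinearMap.range T)) = 1 := by
    rw [Nat.card_eq_one_iff_exists]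
    refine ⟨⟨0, fun k => rfl⟩, fun ⟨f, hf⟩ => Subtype.ext (Subtype.ext ?_)⟩
    have h5 : ∀ g, f.1 g = f.1 1 := fun g => by
      have := congrArg (fun u : LinearMap.range T => u.1 1) (hf g)
      exact (congrArg f.1 (one_mul g).symm).trans this
    have h6 : ∑ g, f.1 g = 0 := hle f.2
    simp only [h5, Finset.sum_const, Finset.card_univ, hG, nsmul_eq_mul] at h6
    rw [(ZMod.natCast_eq_one_iff_odd).2 hodd, one_mul] at h6
    funext g
    exact (h5 g).trans h6
  rw [h4, Module.natCard_eq_pow_finrank (K := ZMod 2), Nat.card_zmod] at h3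
  have h5 : l - 1 ∣ Module.finrank (ZMod 2) (LinearMap.range T) := by
    rw [← h2, orderOf_dvd_iff_pow_eq_one]
    have := (ZMod.natCast_eq_natCast_iff _ _ _).2 h3
    simpa using this
  have h6 : 0 < Module.finrank (ZMod 2) (LinearMap.range T) := by
    rw [Module.finrank_pos_iff_exists_ne_zero]
    refine ⟨⟨T (Pi.single 1 1), _, rfl⟩, fun h => hχ ?_⟩
    have h7 := congrArg Subtype.val h
    funext g
    have h8 := congrFun h7 g
    simpa [T, Pi.single_apply] using h8
  have h7 : LinearMap.range T = LinearMap.ker sm :=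
    Submodule.eq_of_le_of_finrank_le hle (hW ▸ Nat.le_of_dvd h6 h5)
  obtain ⟨c, hc⟩ : a ∈ LinearMap.range T := by rw [h7]; exact ha
  refine ⟨Finset.univ.filter fun h => c h = 1, fun g => ?_⟩
  rw [← hc, Finset.sum_filter]
  refine Finset.sum_congr rfl fun h _ => ?_
  have : ∀ u : ZMod 2, u = 0 ∨ u = 1 := by decide
  rcases this (c h) with h8 | h8 <;> simp [h8]

end Pool.Agent.MP_14ad9d_nt
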