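import Pool.Agent.MP_14ad9d_nt.Kill
import Pool.Agent.MP_14ad9d_nt.Grp

set_option autoImplicit false
set_option linter.unusedSectionVars false

open NumberField IsDedekindDomain

namespace Pool.Agent.MP_14ad9d_nt

theorem map_eq_or_neg (g : Gam) {s : Om} (h : g (s ^ 2) = s ^ 2) : g s = s ∨ g s = -s := by
  rw [map_pow] at h
  exact sq_eq_sq_iff_eq_or_eq_neg.1 h

theorem kummer_step (H : Subgroup Gam) {s w : Om} (hs : ∀ g ∈ H, g (s ^ 2) = s ^ 2)
    (hw : ∀ g ∈ H, g (w ^ 2) = w ^ 2) (h : ∀ g ∈ H, g w = w → g s = s) :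
    (∀ g ∈ H, g s = s) ∨ ∀ g ∈ H, g (s * w) = s * w := by
  by_cases h1 : ∀ g ∈ H, g s = s
  · exact Or.inl h1
  right
  push Not at h1
  obtain ⟨g₀, hg₀, h1⟩ := h1
  have h2 : g₀ s = -s := (map_eq_or_neg g₀ (hs g₀ hg₀)).resolve_left h1
  have h3 : g₀ w = -w := (map_eq_or_neg g₀ (hw g₀ hg₀)).resolve_left fun hc => h1 (h g₀ hg₀ hc)
  intro g hg
  rcases map_eq_or_neg g (hw g hg) with h4 | h4
  · rw [map_mul, h4, h g hg h4]
  · have h5 := h (g * g₀) (H.mul_mem hg hg₀) (by rw [AlgEquiv.mul_apply, h3, map_neg, h4, neg_neg])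
    rw [AlgEquiv.mul_apply, h2, map_neg, neg_eq_iff_eq_neg] at h5
    rw [map_mul, h4, h5]; ring

theorem fix0_iff {w₁ w₂ : Om} (h₁ : w₁ ^ 2 = iO) (h₂ : w₂ ^ 2 = 1 + iO) (g : Gam) :
    Fix0 g ↔ g w₁ = w₁ ∧ g w₂ = w₂ := by
  refine ⟨fun h => ⟨h.1 _ h₁, h.2 _ h₂⟩, fun h => ⟨fun w hw => ?_, fun w hw => ?_⟩⟩
  · rcases sq_eq_sq_iff_eq_or_eq_neg.1 (hw.trans h₁.symm) with rfl | rfl
    · exact h.1
    · rw [map_neg, h.1]
  · rcases sq_eq_sq_iff_eq_or_eq_neg.1 (hw.trans h₂.symm) with rfl | rfl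
    · exact h.2
    · rw [map_neg, h.2]

theorem map_iO (g : Gam) : g iO = iO := g.commutes iF

theorem sq_fix (g : Gam) {s : Om} (h : g (s ^ 2) = s ^ 2) : (g ^ 2) s = s := by
  rw [sq, AlgEquiv.mul_apply]
  rcases map_eq_or_neg g h with h1 | h1
  · rw [h1, h1]
  · rw [h1, map_neg, h1, neg_neg]

theorem fix0_sq (g : Gam) : Fix0 (g ^ 2) :=
  ⟨fun w hw => sq_fix g (by rw [hw, map_iO]),
    fun w hw => sq_fix g (by rw [hw, map_add, map_one, map_iO])⟩

theorem Fix0.mul {g h : Gam} (hg : Fix0 g) (hh : Fix0 h) : Fix0 (g * h) :=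
  ⟨fun w hw => by rw [AlgEquiv.mul_apply, hh.1 w hw, hg.1 w hw],
    fun w hw => by rw [AlgEquiv.mul_apply, hh.2 w hw, hg.2 w hw]⟩

theorem Fix0.inv {g : Gam} (hg : Fix0 g) : Fix0 g⁻¹ :=
  ⟨fun w hw => by
      conv_lhs => rw [← hg.1 w hw]
      exact g.symm_apply_apply w,
    fun w hw => by
      conv_lhs => rw [← hg.2 w hw]
      exact g.symm_apply_apply w⟩

theorem fix0_one : Fix0 1 := ⟨fun _ _ => rfl, fun _ _ => rfl⟩

variable {M : Type} [Field M] [NumberField M] [Algebra Fi M]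

theorem kummer (σ₀ : Emb M) {x : M} {s : Om} (hs : s ^ 2 = σ₀.hom x)
    (h : ∀ g : Gam, Fix0 g → g • σ₀ = σ₀ → g s = s) :
    ∃ d : Fi, (d = 1 ∨ d = iF ∨ d = 1 + iF ∨ d = (1 + iF) * iF) ∧
      IsSquare (x * algebraMap Fi M d) := by
  obtain ⟨w₁, hw₁⟩ := IsAlgClosed.exists_pow_nat_eq iO (n := 2) (by norm_num)
  obtain ⟨w₂, hw₂⟩ := IsAlgClosed.exists_pow_nat_eq (1 + iO) (n := 2) (by norm_num)
  let H := MulAction.stabilizer Gam σ₀
  have hH : ∀ g ∈ H, ∀ y : M, g (σ₀.hom y) = σ₀.hom y := fun g hg y => by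
    rw [← Emb.smul_apply, MulAction.mem_stabilizer_iff.1 hg]
  have fin : ∀ (d : Fi) (t : Om), t ^ 2 = σ₀.hom (x * algebraMap Fi M d) → (∀ g ∈ H, g t = t) →
      IsSquare (x * algebraMap Fi M d) := by
    intro d t ht hfix
    obtain ⟨u, rfl⟩ := σ₀.mem_range t hfix
    refine ⟨u, σ₀.hom.injective ?_⟩
    change σ₀.hom _ = σ₀.hom _
    rw [← ht, map_mul, sq]
  have step : ∀ (d : Fi) (t : Om), t ^ 2 = σ₀.hom (x * algebraMap Fi M d) →
      (∀ g ∈ H, g w₁ = w₁ → g t = t) →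
      IsSquare (x * algebraMap Fi M d) ∨ IsSquare (x * algebraMap Fi M (d * iF)) := by
    intro d t ht hfix
    rcases kummer_step H (fun g hg => by rw [ht, hH g hg]) (fun g _ => by rw [hw₁, map_iO]) hfix
      with h1 | h1
    · exact Or.inl (fin d t ht h1)
    · refine Or.inr (fin _ _ ?_ h1)
      rw [mul_pow, ht, hw₁, map_mul (algebraMap Fi M), ← mul_assoc, map_mul σ₀.hom _ (algebraMap _ _ iF),
        AlgHom.commutes, iO]
  rcases kummer_step (H ⊓ MulAction.stabilizer Gam w₁) (s := s) (w := w₂)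
    (fun g hg => by rw [hs, hH g hg.1]) (fun g _ => by rw [hw₂, map_add, map_one, map_iO])
    (fun g hg h2 => h g ((fix0_iff hw₁ hw₂ g).2 ⟨hg.2, h2⟩) hg.1) with h1 | h1
  · rcases step 1 s (by simpa using hs) (fun g hg h2 => h1 g ⟨hg, h2⟩) with h2 | h2
    · exact ⟨1, by simp, h2⟩
    · exact ⟨iF, by simp, by simpa using h2⟩
  · rcases step (1 + iF) (s * w₂) (by
      rw [mul_pow, hs, hw₂, map_mul, AlgHom.commutes, map_add, map_one, iO])
      (fun g hg h2 => h1 g ⟨hg, h2⟩) with h2 | h2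
    · exact ⟨1 + iF, by simp, h2⟩
    · exact ⟨(1 + iF) * iF, by simp, h2⟩

theorem isSquare_of_odd_pow {F : Type*} [Field F] {d : F} {n : ℕ} (hn : Odd n)
    (h : IsSquare (d ^ n)) : IsSquare d := by
  rcases eq_or_ne d 0 with rfl | hd
  · exact IsSquare.zero
  obtain ⟨k, rfl⟩ := hn
  obtain ⟨u, hu⟩ := h
  refine ⟨u / d ^ k, ?_⟩
  field_simp
  rw [sq u, ← hu]; ring

theorem isSquare_base (hodd : Odd (Module.finrank Fi M)) {d : Fi}
    (h : IsSquare (algebraMap Fi M d)) : IsSquare d := by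
  have := h.map (Algebra.norm Fi)
  rw [Algebra.norm_algebraMap] at this
  exact isSquare_of_odd_pow hodd this

theorem New.isSquare (hodd : Odd (Module.finrank Fi M)) {x : M} (hx : x ≠ 0) (hn : New M x)
    {d : Fi} (hd : d ≠ 0) (h : IsSquare (x * algebraMap Fi M d)) : IsSquare x := by
  have h1 := h.map (Algebra.norm Fi)
  rw [map_mul, Algebra.norm_algebraMap] at h1
  have h2 : Algebra.norm Fi x ≠ 0 := Algebra.norm_ne_zero_iff.2 hx
  have h3 := h1.mul hn.inv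
  rw [mul_comm, ← mul_assoc, inv_mul_cancel₀ h2, one_mul] at h3
  have h4 := h.mul ((isSquare_of_odd_pow hodd h3).map (algebraMap Fi M)).inv
  rwa [mul_assoc, mul_inv_cancel₀ ((map_ne_zero _).2 hd), mul_one] at h4

theorem iF_ne_zero : iF ≠ 0 := by
  intro h
  have := iF_sq
  rw [h] at this
  norm_num at this

theorem one_add_iF_ne_zero : 1 + iF ≠ 0 := by
  intro h
  have h1 : iF = -1 := by linear_combination h
  have := iF_sq
  rw [h1] at this
  norm_num at this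

/-- a new element that is not a square has a square root moved by a suitable automorphism -/
theorem exists_neg_root (hodd : Odd (Module.finrank Fi M)) (σ₀ : Emb M) {x : M} (hx : x ≠ 0)
    (hn : New M x) (hsq : ¬ IsSquare x) {s : Om} (hs : s ^ 2 = σ₀.hom x) :
    ∃ g : Gam, Fix0 g ∧ g • σ₀ = σ₀ ∧ g s = -s := by
  by_contra hc
  push Not at hc
  obtain ⟨d, hd, h⟩ := kummer σ₀ hs fun g h1 h2 =>
    (map_eq_or_neg g (by rw [hs, ← Emb.smul_apply, h2])).resolve_right (hc g h1 h2)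
  refine hsq (hn.isSquare hodd hx ?_ h)
  rcases hd with rfl | rfl | rfl | rfl
  exacts [one_ne_zero, iF_ne_zero, one_add_iF_ne_zero, mul_ne_zero one_add_iF_ne_zero iF_ne_zero]

theorem Pl.inv_pow {g : Gam} {S : Set Om} {p : ℕ} {π : GaussianInt}
    {pl : Emb M → HeightOneSpectrum (𝓞 M)} (h : Pl g S p π pl) (k : ℕ) (σ : Emb M) :
    pl (g ^ k • σ) = pl σ := by
  induction k with
  | zero => simp
  | succ k ih => rw [pow_succ', mul_smul, h.inv, ih]

theorem silent_of_cyc (hodd : Odd (Module.finrank Fi M)) {g : Gam} (hc : Cyc (Emb M) g) :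
    PosDens {p | ∃ π, Silent M p π} := by
  have hc2 := hc.sq (by rwa [Emb.card])
  refine (places (M := M) (g ^ 2) (fix0_sq g) ∅ Set.finite_empty).mono ∅ ?_
  rintro p ⟨π, pl, h⟩ -
  refine ⟨π, h.prime, h.ne_two, h.norm, h.prim, fun P hP x hx hn => ?_⟩
  obtain ⟨σ, rfl⟩ := h.surj P hP
  have h1 := h.new x hx hn
  have h2 : ∀ τ, pl τ = pl σ := fun τ => by
    obtain ⟨k, rfl⟩ := hc2 σ τ
    exact h.inv_pow k σ
  simp only [h2, Finset.sum_const, Finset.card_univ, Emb.card, nsmul_eq_mul] at h1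
  rcases Int.even_mul.1 h1 with h3 | h3
  · exact absurd (by exact_mod_cast h3) (Nat.not_even_iff_odd.2 hodd)
  · exact h3

theorem prod_root_fixed {x : M} (hn : New M x) {z : Om} (hz : z ^ 2 = ∏ σ : Emb M, σ.hom x)
    (g : Gam) : g z = z := by
  obtain ⟨f, hf⟩ := hn
  rw [Emb.prod_eq, hf, map_mul, ← sq] at hz
  rcases sq_eq_sq_iff_eq_or_eq_neg.1 hz with rfl | rfl
  · exact g.commutes f
  · rw [map_neg, g.commutes]

variable (M) in
/-- the stabiliser of an embedding is generated modulo squares by long cycles -/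
def Hb : Prop := ∃ σ₀ : Emb M, (∃ τ : Gam, Fix0 τ ∧ Cyc1 τ σ₀) ∧
  ∀ Λ : Subgroup Gam, (∀ g, Fix0 g → g • σ₀ = σ₀ → g ^ 2 ∈ Λ) →
    (∀ g, Fix0 g → (∀ σ : Emb M, g • σ = σ) → g ∈ Λ) → (∀ g, Fix0 g → Cyc1 g σ₀ → g ∈ Λ) →
    ∀ g, Fix0 g → g • σ₀ = σ₀ → g ∈ Λ

theorem auxHyp_of_hb (hodd : Odd (Module.finrank Fi M)) (h : Hb M) : AuxHyp M := by
  classical
  obtain ⟨σ₀, ⟨τ₀, τ₀1, τ₀2⟩, hΛ⟩ := h
  rintro S hS ⟨y, hy, hsq⟩ B
  have y0 := hS.ne y hy
  choose s hs using fun σ : Emb M =>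
    IsAlgClosed.exists_pow_nat_eq (σ.hom y) (n := 2) (by norm_num)
  have s0 : ∀ σ, s σ ≠ 0 := fun σ h0 => by
    have := hs σ
    rw [h0, zero_pow two_ne_zero] at this
    exact y0 ((map_eq_zero _).1 this.symm)
  have hne : ∀ σ, s σ ≠ -s σ := fun σ h0 => s0 σ (by linear_combination h0 / 2)
  have hpm : ∀ (g : Gam) σ, g • σ = σ → g (s σ) = s σ ∨ g (s σ) = -s σ := fun g σ hg =>
    map_eq_or_neg g (by rw [hs, ← Emb.smul_apply, hg])
  have hτ : ∃ τ : Gam, Fix0 τ ∧ Cyc1 τ σ₀ ∧ τ (s σ₀) = -s σ₀ := by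
    by_contra hc
    push Not at hc
    have h1 : ∀ τ : Gam, Fix0 τ → Cyc1 τ σ₀ → τ (s σ₀) = s σ₀ := fun τ h1 h2 =>
      (hpm τ σ₀ h2.1).resolve_right (hc τ h1 h2)
    obtain ⟨g, g1, g2, g3⟩ := exists_neg_root hodd σ₀ y0 (hS.new y hy) hsq (hs σ₀)
    refine hne σ₀ ((hΛ (MulAction.stabilizer Gam (s σ₀)) (fun g _ h2 => ?_) (fun g h2 h3 => ?_)
      h1 g g1 g2).symm.trans g3)
    · exact sq_fix g (by rw [hs, ← Emb.smul_apply, h2])
    · have h4 := h1 (τ₀ * g) (τ₀1.mul h2) (τ₀2.congr fun σ => by rw [mul_smul, h3])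
      rw [AlgEquiv.mul_apply, ← h1 τ₀ τ₀1 τ₀2] at h4
      have h5 := τ₀.injective h4
      rwa [h1 τ₀ τ₀1 τ₀2] at h5
  obtain ⟨τ, τ1, τ2, τ3⟩ := hτ
  obtain ⟨p, ⟨π, pl, h⟩, hp⟩ :=
    (places (M := M) τ τ1 (Set.range s) (Set.finite_range s)).exists_notMem B
  have hsame : ∀ σ σ', σ ≠ σ₀ → σ' ≠ σ₀ → pl σ' = pl σ := fun σ σ' h1 h2 => by
    obtain ⟨k, rfl⟩ := τ2.2 σ σ' h1 h2
    exact h.inv_pow k σ
  refine ⟨p, hp, π, h.prime, h.ne_two, h.disc, h.norm, h.prim, fun P hP => ?_,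
    fun x hx hn ⟨P, hP, hodd'⟩ => ?_, y, hy, pl σ₀, h.dv σ₀, ?_⟩
  · obtain ⟨σ, rfl⟩ := h.surj P hP
    exact h.ord_eq σ
  · obtain ⟨σ, rfl⟩ := h.surj P hP
    have hev : Even (ord (pl σ₀) x) := by
      obtain ⟨c, hc⟩ : ∃ c : ℤ, ∀ σ', σ' ≠ σ₀ → ord (pl σ') x = c := by
        by_cases h1 : ∃ σ₁, σ₁ ≠ σ₀
        · obtain ⟨σ₁, h1⟩ := h1
          exact ⟨_, fun σ' h2 => by rw [hsame σ₁ σ' h1 h2]⟩
        · exact ⟨0, fun σ' h2 => (h1 ⟨σ', h2⟩).elim⟩
      have h1 := h.new x hx hn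
      rw [← Finset.add_sum_erase _ _ (Finset.mem_univ σ₀),
        Finset.sum_congr rfl fun σ' h2 => hc σ' (Finset.ne_of_mem_erase h2), Finset.sum_const,
        Finset.card_erase_of_mem (Finset.mem_univ _), Finset.card_univ, Emb.card,
        nsmul_eq_mul] at h1
      refine (Int.even_add.1 h1).2 (Even.mul_right ?_ _)
      exact_mod_cast Nat.Odd.sub_odd hodd odd_one
    have hσ : σ ≠ σ₀ := by
      rintro rfl
      exact Int.not_even_iff_odd.2 hodd' hev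
    refine ⟨y, hy, pl σ, hP, hodd', ?_, fun P' h1 h2 h3 => ?_⟩
    · set m := MulAction.period τ σ with hm
      have h1 : (τ ^ m) • σ = σ := MulAction.pow_period_smul τ σ
      refine h.neg σ y (s σ) m y0 (Submonoid.subset_closure ⟨σ, rfl⟩) (hs σ) h1
        ((hpm _ σ h1).resolve_left fun h2 => ?_)
      set z := ∏ j ∈ Finset.range m, (τ ^ j) (s σ) with hz
      have h3 : τ z = z := by
        have h4 := Finset.prod_range_succ' (fun j => (τ ^ j) (s σ)) m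
        rw [Finset.prod_range_succ, h2, ← hz, pow_zero, AlgEquiv.one_apply] at h4
        rw [mul_right_cancel₀ (s0 σ) h4]
        conv_lhs => rw [← mul_right_cancel₀ (s0 σ) h4, hz, map_prod]
        exact Finset.prod_congr rfl fun j _ => by rw [pow_succ', AlgEquiv.mul_apply]
      have h4 : (s σ₀ * z) ^ 2 = ∏ σ' : Emb M, σ'.hom y := by
        rw [← Finset.mul_prod_erase _ _ (Finset.mem_univ σ₀), mul_pow, hs,
          ← image_period τ σ (Finset.univ.erase σ₀) (fun σ' => by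
            rw [← τ2.mem_iff hσ]; simp),
          Finset.prod_image (injOn_period τ σ), hz, ← Finset.prod_pow]
        congr 1
        exact Finset.prod_congr rfl fun j _ => by rw [← map_pow, hs, Emb.smul_apply]
      have h5 := prod_root_fixed (hS.new y hy) h4 τ
      have h6 : z ≠ 0 := Finset.prod_ne_zero_iff.2 fun j _ => (map_ne_zero _).2 (s0 σ)
      rw [map_mul, h3, τ3] at h5
      exact hne σ₀ (mul_right_cancel₀ h6 h5).symm
    · obtain ⟨σ', rfl⟩ := h.surj P' h1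
      by_cases h4 : σ' = σ₀
      · subst h4
        exact (Int.not_even_iff_odd.2 h3 hev).elim
      · exact (h2 (hsame σ σ' hσ h4)).elim
  · exact h.neg σ₀ y (s σ₀) 1 y0 (Submonoid.subset_closure ⟨σ₀, rfl⟩) (hs σ₀)
      (by rw [pow_one]; exact τ2.1) (by rw [pow_one]; exact τ3)

theorem Adm.prod {S : Set M} (hS : Adm S) {ι : Type*} (B : Finset ι) (f : ι → M)
    (h : ∀ i ∈ B, f i ∈ S) : ∏ i ∈ B, f i ∈ S :=
  Finset.prod_induction f (· ∈ S) (fun a b ha hb => hS.mul a ha b hb) hS.one h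

theorem auxHyp_of_cyclic [IsGalois Fi M] {l : ℕ} (hl : l.Prime) (hodd : Odd l)
    (hM : Module.finrank Fi M = l) (h2 : orderOf (2 : ZMod l) = l - 1) : AuxHyp M := by
  classical
  rintro S hS ⟨y, hy, hsq⟩ B
  have y0 := hS.ne y hy
  let σ₀ : Emb M := Classical.arbitrary _
  let e : (M ≃ₐ[Fi] M) → Emb M := fun h => Emb.mk (σ₀.hom.comp h)
  have he : ∀ h x, (e h).hom x = σ₀.hom (h x) := fun _ _ => rfl
  have hcard : Fintype.card (M ≃ₐ[Fi] M) = l := by
    rw [← Nat.card_eq_fintype_card, IsGalois.card_aut_eq_finrank, hM]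
  have hbij : Function.Bijective e := by
    rw [Fintype.bijective_iff_injective_and_card, hcard, Emb.card, hM]
    refine ⟨fun a b hab => AlgEquiv.ext fun x => σ₀.hom.injective ?_, rfl⟩
    exact (he a x).symm.trans (by rw [hab]; rfl)
  choose s hs using fun h : M ≃ₐ[Fi] M =>
    IsAlgClosed.exists_pow_nat_eq (σ₀.hom (h y)) (n := 2) (by norm_num)
  have s0 : ∀ h, s h ≠ 0 := fun h h0 => by
    have := hs h
    rw [h0, zero_pow two_ne_zero] at this
    exact y0 ((map_eq_zero _).1 ((map_eq_zero _).1 this.symm))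
  have hne : ∀ {z : Om}, z ≠ 0 → z ≠ -z := fun hz h0 => hz (by linear_combination h0 / 2)
  obtain ⟨τ, τ1, τ2, τ3⟩ := exists_neg_root (hM ▸ hodd) σ₀ y0 (hS.new y hy) hsq (hs 1)
  have hτ : ∀ x, τ (σ₀.hom x) = σ₀.hom x := fun x => by rw [← Emb.smul_apply, τ2]
  have hτe : ∀ h, τ • e h = e h := fun h => Emb.ext fun x => hτ _
  let χ : (M ≃ₐ[Fi] M) → ZMod 2 := fun h => if τ (s h) = s h then 0 else 1
  have hχ : ∀ h, τ (s h) = (-1) ^ (χ h).val * s h := fun h => by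
    simp only [χ]
    split_ifs with h1
    · simpa using h1
    · rw [(map_eq_or_neg τ (by rw [hs, hτ])).resolve_left h1, ZMod.val_one]; ring
  have hprod : ∀ (B : Finset (M ≃ₐ[Fi] M)) (f : (M ≃ₐ[Fi] M) → (M ≃ₐ[Fi] M)),
      τ (∏ h ∈ B, s (f h)) = (-1) ^ (∑ h ∈ B, χ (f h)).val * ∏ h ∈ B, s (f h) := by
    intro B f
    rw [map_prod, Finset.prod_congr rfl fun h _ => hχ (f h), Finset.prod_mul_distrib,
      Finset.prod_pow_eq_pow_sum, neg_one_pow_eq_pow_mod_two]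
    congr 2
    rw [← ZMod.val_natCast]
    simp
  have hsum : ∑ h, χ h = 0 := by
    have h1 : (∏ h, s h) ^ 2 = ∏ σ : Emb M, σ.hom y := by
      rw [← Finset.prod_pow, ← hbij.prod_comp fun σ : Emb M => σ.hom y]
      exact Finset.prod_congr rfl fun h _ => hs h
    have h3 := prod_root_fixed (hS.new y hy) h1 τ
    rw [hprod Finset.univ fun h => h] at h3
    have h4 : ∀ u : ZMod 2, u = 0 ∨ u = 1 := by decide
    refine (h4 _).resolve_right fun h5 => ?_
    rw [h5, ZMod.val_one, pow_one, neg_one_mul] at h3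
    exact hne (Finset.prod_ne_zero_iff.2 fun h _ => s0 h) h3.symm
  have hχ1 : χ ≠ 0 := fun h0 => by
    have := hχ 1
    rw [h0, τ3] at this
    exact hne (s0 1) (by simpa using this.symm)
  obtain ⟨p, ⟨π, pl, h⟩, hp⟩ :=
    (places (M := M) τ τ1 (Set.range s) (Set.finite_range s)).exists_notMem B
  refine ⟨p, hp, π, h.prime, h.ne_two, h.disc, h.norm, h.prim, fun P hP => ?_,
    fun x hx hn ⟨P, hP, hodd'⟩ => ?_, y, hy, pl (e 1), h.dv _, ?_⟩
  · obtain ⟨σ, rfl⟩ := h.surj P hP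
    exact h.ord_eq σ
  · obtain ⟨σ, rfl⟩ := h.surj P hP
    obtain ⟨j, rfl⟩ := hbij.2 σ
    obtain ⟨k, hk⟩ : ∃ k, Even (ord (pl (e k)) x) := by
      by_contra hc
      push Not at hc
      have h1 := h.new x hx hn
      rw [← hbij.sum_comp fun σ => ord (pl σ) x] at h1
      have h3 := (ZMod.intCast_eq_zero_iff_even).2 h1
      push_cast at h3
      rw [Finset.sum_congr rfl fun k _ => (ZMod.intCast_eq_one_iff_odd).2
        (Int.not_even_iff_odd.1 (hc k)), Finset.sum_const, Finset.card_univ, hcard,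
        nsmul_eq_mul, mul_one, (ZMod.natCast_eq_one_iff_odd).2 hodd] at h3
      exact one_ne_zero h3
    have hjk : j ≠ k := by
      rintro rfl
      exact Int.not_even_iff_odd.2 hodd' hk
    obtain ⟨C, hC⟩ := exists_translates hl hodd hcard h2 χ hχ1 hsum
      (Pi.single j 1 + Pi.single k 1) (by
        simp only [Pi.add_apply, Finset.sum_add_distrib, Finset.sum_pi_single', Finset.mem_univ,
          if_true]
        decide)
    have hy' : ∏ c ∈ C, c y ∈ S := hS.prod C _ fun c _ => hS.aut c y hy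
    have hroot : ∀ g, (∏ c ∈ C, s (g * c)) ^ 2 = (e g).hom (∏ c ∈ C, c y) := fun g => by
      rw [← Finset.prod_pow, map_prod]
      exact Finset.prod_congr rfl fun c _ => hs _
    have hmem : ∀ g, ∏ c ∈ C, s (g * c) ∈ Submonoid.closure (Set.range s) := fun g =>
      prod_mem fun c _ => Submonoid.subset_closure ⟨_, rfl⟩
    refine ⟨_, hy', pl (e j), hP, hodd', ?_, fun P' h1 h3 h4 => ?_⟩
    · refine h.neg _ _ _ 1 (hS.ne _ hy') (hmem j) (hroot j) (by rw [pow_one, hτe]) ?_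
      rw [pow_one, hprod C fun c => j * c, hC]
      simp [hjk, ZMod.val_one]
    · obtain ⟨σ, rfl⟩ := h.surj P' h1
      obtain ⟨g, rfl⟩ := hbij.2 σ
      have g1 : g ≠ j := by rintro rfl; exact h3 rfl
      have g2 : g ≠ k := by rintro rfl; exact Int.not_even_iff_odd.2 h4 hk
      refine h.pos _ _ _ (hS.ne _ hy') (hmem g) (hroot g) (hτe g) ?_ (hS.even _ hy' _
        (not_dv_two h.prime h.ne_two (dv_norm h.norm h1)))
      rw [hprod C fun c => g * c, hC]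
      simp [g1, g2]
  · exact h.neg _ y (s 1) 1 y0 (Submonoid.subset_closure ⟨1, rfl⟩) (hs 1)
      (by rw [pow_one, hτe]) (by rw [pow_one]; exact τ3)

end Pool.Agent.MP_14ad9d_nt
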