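import Pool.Agent.MP_14ad9d_nt.GalK

set_option autoImplicit false
set_option linter.unusedSectionVars false

open NumberField Equiv

namespace Pool.Agent.MP_14ad9d_nt

section Aff

variable {G X : Type*} [Group G] [MulAction G X] [Fintype X]

open MulAction

theorem Cyc.orderOf_eq {g : G} (h : Cyc X g) :
    orderOf (toPermHom G X g) = Fintype.card X ∨ IsEmpty X := by
  rcases isEmpty_or_nonempty X with h0 | ⟨⟨x⟩⟩
  · exact Or.inr h0
  refine Or.inl (Nat.dvd_antisymm (orderOf_dvd_of_pow_eq_one ?_) ?_)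
  · rw [← map_pow]
    refine Equiv.ext fun y => ?_
    rw [← h.period_eq y]
    exact pow_period_smul g y
  · rw [← h.period_eq x, ← pow_smul_eq_iff_period_dvd]
    have := pow_orderOf_eq_one (toPermHom G X g)
    rw [← map_pow] at this
    exact congrArg (fun e : Equiv.Perm X => e x) this

/-- a full cycle of prime length in a small group generates a normal subgroup -/
theorem Cyc.conj {p m : ℕ} (hp : p.Prime) (hX : Fintype.card X = p) (hm : m < p)
    (hG : Nat.card (toPermHom G X).range = p * m) {u : G} (hu : Cyc X u) (g : G) :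
    ∃ a : ℕ, ∀ x : X, g • u • x = u ^ a • g • x := by
  classical
  have := Fact.mk hp
  have : Nonempty X := Fintype.card_pos_iff.1 (hX ▸ hp.pos)
  let H := (toPermHom G X).range
  let φ : G →* H := (toPermHom G X).rangeRestrict
  have h1 : orderOf (φ u) = p := by
    rw [← Subgroup.orderOf_coe, ← hX]
    exact hu.orderOf_eq.resolve_right (not_isEmpty_of_nonempty X)
  have hm0 : m ≠ 0 := by
    rintro rfl
    exact Nat.card_pos.ne' hG
  have h2 : (Nat.card H).factorization p = 1 := by
    rw [hG, Nat.factorization_mul hp.ne_zero hm0, Finsupp.add_apply, hp.factorization_self,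
      Nat.factorization_eq_zero_of_not_dvd (Nat.not_dvd_of_pos_of_lt (Nat.pos_of_ne_zero hm0) hm)]
  let P : Sylow p H := Sylow.ofCard (Subgroup.zpowers (φ u)) (by
    rw [h2, pow_one, Nat.card_zpowers, h1])
  have h3 : (P : Subgroup H).index = m := by
    have h4 := (P : Subgroup H).card_mul_index
    rw [Sylow.coe_ofCard, Nat.card_zpowers, h1, hG] at h4
    exact Nat.eq_of_mul_eq_mul_left hp.pos h4
  have h4 : Nat.card (Sylow p H) = 1 := by
    have h5 := Nat.le_of_dvd (Nat.pos_of_ne_zero hm0) (h3 ▸ P.card_dvd_index)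
    have h6 := card_sylow_modEq_one p H
    rwa [Nat.ModEq, Nat.mod_eq_of_lt (h5.trans_lt hm), Nat.mod_eq_of_lt hp.one_lt] at h6
  have := (Nat.card_eq_one_iff_unique.1 h4).1
  have h5 := P.normal_of_subsingleton.conj_mem (φ u) (Subgroup.mem_zpowers _) (φ g)
  rw [Sylow.coe_ofCard, ← mem_powers_iff_mem_zpowers] at h5
  obtain ⟨a, ha⟩ := h5
  refine ⟨a, fun x => ?_⟩
  have h6 : φ (g * u) = φ (u ^ a * g) := by
    rw [map_mul, map_mul, map_pow, show φ u ^ a = _ from ha]; simp
  rw [← mul_smul, ← mul_smul]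
  exact congrArg (fun e : H => (e : Perm X) x) h6

/-- the structure of the affine group of a prime field -/
theorem exists_aff {p : ℕ} (hp : p.Prime) (hX : Fintype.card X = p)
    (hG : Nat.card (toPermHom G X).range = p * (p - 1)) {u : G} (hu : Cyc X u) (x₀ : X) :
    ∃ c : G, Cyc1 c x₀ ∧ ∀ g : G, g • x₀ = x₀ → ∃ j : ℕ, ∀ x : X, g • x = c ^ j • x := by
  classical
  have := Fact.mk hp
  choose a ha using hu.conj hp hX (Nat.sub_lt hp.pos one_pos) hG
  have h1 : ∀ (g : G) (k : ℕ) (x : X), g • u ^ k • x = u ^ (a g * k) • g • x := by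
    intro g k x
    induction k with
    | zero => simp
    | succ k ih => rw [pow_succ', mul_smul, ha, ih, ← mul_smul, ← pow_add]; congr 2; ring
  let e : ZMod p → X := fun k => u ^ k.val • x₀
  have he : ∀ k : ℕ, e k = u ^ k • x₀ := fun k => by
    simp only [e, ZMod.val_natCast]
    rw [← hX, ← hu.period_eq x₀, pow_mod_period_smul]
  have hes : Function.Surjective e := fun x => by
    obtain ⟨k, hk⟩ := hu x₀ x
    exact ⟨k, by rw [he, hk]⟩
  have hei : Function.Injective e :=
    ((Fintype.bijective_iff_surjective_and_card e).2 ⟨hes, by rw [ZMod.card, hX]⟩).1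
  have he0 : e 0 = x₀ := by simpa using he 0
  have h2 : ∀ g : G, g • x₀ = x₀ → ∀ k, g • e k = e (a g * k) := fun g hg k => by
    conv_rhs => rw [← ZMod.natCast_zmod_val k, ← Nat.cast_mul, he]
    rw [h1, hg]
  have hne : ∀ g : G, g • x₀ = x₀ → (a g : ZMod p) ≠ 0 := fun g hg h0 => by
    have h6 := h2 _ hg 1
    rw [h0, zero_mul, he0, ← hg, smul_left_cancel_iff, ← he0] at h6
    exact one_ne_zero (hei h6)
  let H := (toPermHom G X).range
  have h3 : Nat.card (stabilizer H x₀) = p - 1 := by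
    have h4 := (stabilizer H x₀).index_mul_card
    have h5 : orbit H x₀ = Set.univ := by
      refine Set.eq_univ_of_forall fun y => ?_
      obtain ⟨k, hk⟩ := hu x₀ y
      exact ⟨⟨toPermHom G X (u ^ k), u ^ k, rfl⟩, hk⟩
    rw [index_stabilizer, h5, Set.ncard_univ, Nat.card_eq_fintype_card, hX, hG] at h4
    exact Nat.eq_of_mul_eq_mul_left hp.pos h4
  have hf0 : ∀ s : stabilizer H x₀, s.1.2.choose • x₀ = x₀ := fun s =>
    (congrArg (fun e : Perm X => e x₀) s.1.2.choose_spec).trans s.2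
  let f : stabilizer H x₀ → {k : ZMod p // k ≠ 0} := fun s =>
    ⟨(a s.1.2.choose : ZMod p), hne _ (hf0 s)⟩
  have hfi : Function.Injective f := fun s t hst => by
    refine Subtype.ext (Subtype.ext (Equiv.ext fun x => ?_))
    obtain ⟨k, rfl⟩ := hes x
    rw [← s.1.2.choose_spec, ← t.1.2.choose_spec]
    change s.1.2.choose • e k = t.1.2.choose • e k
    rw [h2 _ (hf0 s), h2 _ (hf0 t), show (a s.1.2.choose : ZMod p) = _ from congrArg Subtype.val hst]
  have hfs : Function.Surjective f :=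
    (hfi.bijective_of_nat_card_le (by
      rw [h3, Nat.card_eq_fintype_card, Fintype.card_subtype_compl, ZMod.card]; simp)).2
  obtain ⟨r, hr⟩ := IsCyclic.exists_monoid_generator (α := (ZMod p)ˣ)
  obtain ⟨s, hs⟩ := hfs ⟨r, r.ne_zero⟩
  set c := s.1.2.choose
  have hc : (a c : ZMod p) = r := congrArg Subtype.val hs
  have h4 : ∀ (j : ℕ) k, c ^ j • e k = e (r ^ j * k) := by
    intro j k
    induction j with
    | zero => simp
    | succ j ih => rw [pow_succ', mul_smul, ih, h2 _ (hf0 s), hc]; congr 1; ring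
  have h5 : ∀ k : ZMod p, k ≠ 0 → ∃ j : ℕ, (r : ZMod p) ^ j = k := fun k hk => by
    obtain ⟨j, hj⟩ := hr (Units.mk0 k hk)
    exact ⟨j, by simpa using congrArg Units.val hj⟩
  refine ⟨c, ⟨hf0 s, fun x y hx hy => ?_⟩, fun g hg => ?_⟩
  · obtain ⟨k, rfl⟩ := hes x
    obtain ⟨l, rfl⟩ := hes y
    have hk : k ≠ 0 := by rintro rfl; exact hx he0
    have hl : l ≠ 0 := by rintro rfl; exact hy he0
    obtain ⟨j, hj⟩ := h5 (l / k) (div_ne_zero hl hk)
    exact ⟨j, by rw [h4, hj, div_mul_cancel₀ _ hk]⟩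
  · obtain ⟨j, hj⟩ := h5 (a g) (hne g hg)
    refine ⟨j, fun x => ?_⟩
    obtain ⟨k, rfl⟩ := hes x
    rw [h4, hj, h2 _ hg]

theorem Cyc1.sign [DecidableEq X] {c : G} {x₀ : X} (h : Cyc1 c x₀) (hodd : Odd (Fintype.card X))
    (h1 : Fintype.card X ≠ 1) : Perm.sign (toPerm c : Perm X) = -1 := by
  have h3 : 2 < Fintype.card X := by
    obtain ⟨k, hk⟩ := hodd
    omega
  have h4 : ∀ x, x ≠ x₀ → c • x ≠ x := fun x hx hc => by
    obtain ⟨y, hy1, hy2⟩ : ∃ y, y ≠ x₀ ∧ y ≠ x := by
      by_contra hcon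
      push Not at hcon
      have : (Finset.univ : Finset X) ⊆ {x₀, x} := fun y _ => by
        by_cases hy : y = x₀
        · simp [hy]
        · simp [hcon y hy]
      exact absurd ((Finset.card_le_card this).trans Finset.card_le_two) (not_le.2 h3)
    obtain ⟨k, hk⟩ := h.2 x y hx hy1
    exact hy2 (hk.symm.trans (pow_smul_of_fixed hc k))
  obtain ⟨x, hx⟩ := Fintype.exists_ne_of_one_lt_card (by omega) x₀
  have h5 : (toPerm c : Perm X).IsCycle := ⟨x, h4 x hx, fun y hy => by
    obtain ⟨k, hk⟩ := h.2 x y hx (by rintro rfl; exact hy h.1)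
    exact ⟨k, by rw [zpow_natCast]; exact (congrArg (fun e : Perm X => e x)
      (map_pow (toPermHom G X) c k)).symm.trans hk⟩⟩
  have h6 : (toPerm c : Perm X).support = Finset.univ.erase x₀ := by
    ext y
    simp only [Perm.mem_support, Finset.mem_erase, Finset.mem_univ, and_true]
    exact ⟨by rintro hy rfl; exact hy h.1, h4 y⟩
  rw [h5.sign, h6, Finset.card_erase_of_mem (Finset.mem_univ _), Finset.card_univ,
    (Nat.Odd.sub_odd hodd odd_one).neg_one_pow]

end Aff

theorem index_eq_finrank {F K Ω L : Type*} [Field F] [Field K] [Field Ω] [Field L] [Algebra F K]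
    [Algebra F Ω] [Algebra F L] [FiniteDimensional F K] [IsGalois F Ω] [Nonempty (K →ₐ[F] Ω)]
    [IsNormalClosure F K L] (H : Subgroup (Ω ≃ₐ[F] Ω))
    (hH : ∀ g, g ∈ H ↔ ∀ (σ : K →ₐ[F] Ω) (x : K), g (σ x) = σ x) :
    H.index = Module.finrank F L := by
  let N := IntermediateField.normalClosure F K Ω
  have e : N ≃ₐ[F] L := IsNormalClosure.equiv (K := K)
  have : IsGalois F N := IsGalois.mk
  have hker : H = (AlgEquiv.restrictNormalHom N).ker := by
    rw [IntermediateField.restrictNormalHom_ker]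
    ext g
    rw [hH]
    constructor
    · intro h
      have h1 : N ≤ IntermediateField.fixedField (Subgroup.zpowers g) := by
        rw [normalClosure_le_iff]
        rintro σ _ ⟨x, rfl⟩
        rw [IntermediateField.mem_fixedField_iff]
        intro f hf
        exact (Subgroup.zpowers_le_of_mem (H := MulAction.stabilizer _ (σ x)) (h σ x)) hf
      exact (IntermediateField.le_iff_le _ _).1 h1 (Subgroup.mem_zpowers g)
    · intro h σ x
      exact (IntermediateField.mem_fixingSubgroup_iff _ _).1 h _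
        (σ.fieldRange_le_normalClosure ⟨x, rfl⟩)
  rw [← e.toLinearEquiv.finrank_eq, ← IsGalois.card_aut_eq_finrank, hker,
    Subgroup.index_ker, MonoidHom.range_eq_top.2 (AlgEquiv.restrictNormalHom_surjective Ω),
    Subgroup.card_top]

variable (K L : Type) [Field K] [NumberField K] [Field L] [NumberField L] [IsNormalClosure ℚ K L]

theorem card_range : Nat.card (MulAction.toPermHom GQ (EK K)).range = Module.finrank ℚ L := by
  have : Nonempty (K →ₐ[ℚ] Om) := inferInstanceAs (Nonempty (EK K))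
  have : Normal ℚ Om := IsAlgClosure.normal ℚ Om
  have : IsGalois ℚ Om := IsGalois.mk
  rw [← Subgroup.index_ker]
  refine index_eq_finrank (K := K) _ fun g => ⟨fun h σ x => ?_, fun h => ?_⟩
  · exact congrArg (fun s : Perm (EK K) => (s (EK.mk σ)).hom x) h
  · exact Equiv.ext fun σ => EK.ext fun x => h σ.hom x

open Classical in
theorem not_isSquare_discr (g : GQ) (hg : Perm.sign (MulAction.toPerm g : Perm (EK K)) = -1) :
    ¬ IsSquare (discr K : ℚ) := by
  obtain ⟨δ, hδ, hsign⟩ := exists_disc_root K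
  rintro ⟨s, hs⟩
  have h1 := hsign g
  have h2 : δ ^ 2 = (s : Om) ^ 2 := by rw [hδ, hs]; push_cast; ring
  have h3 : g δ = δ := by
    rcases sq_eq_sq_iff_eq_or_eq_neg.1 h2 with h | h
    · rw [h, map_ratCast]
    · rw [h, map_neg, map_ratCast]
  rw [hg, h3] at h1
  have h4 : δ = 0 := by
    simp only [Units.val_neg, Units.val_one, Int.cast_neg, Int.cast_one] at h1
    linear_combination h1 / 2
  rw [h4] at hδ
  have h5 : ((discr K : ℚ) : Om) = 0 := by rw [← hδ]; simp
  exact discr_ne_zero K (by exact_mod_cast h5)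

theorem conc_of_one (h : Module.finrank ℚ K = 1) : Conc K := by
  have hodd : Odd (Module.finrank ℚ K) := by rw [h]; exact odd_one
  have := fact_of_odd K hodd
  have : Subsingleton (Emb (Mi K)) :=
    Fintype.card_le_one_iff_subsingleton.1 (by rw [Emb.card, finrank_Mi, h])
  refine conc_of_aux K hodd (auxHyp_of_hb (by rwa [finrank_Mi]) ⟨Classical.arbitrary _,
    ⟨1, fix0_one, Subsingleton.elim _ _, fun x y _ _ => ⟨0, Subsingleton.elim _ _⟩⟩,
    fun Λ _ h2 _ g g1 _ => h2 g g1 fun σ => Subsingleton.elim _ _⟩)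
    ⟨1, fun x y => ⟨0, Subsingleton.elim _ _⟩⟩

theorem conc_sym (hodd : Odd (Module.finrank ℚ K))
    (hL : Module.finrank ℚ L = (Module.finrank ℚ K).factorial) (h2 : ¬ IsSquare (-(discr K : ℚ)))
    (h3 : ¬ IsSquare (2 * (discr K : ℚ))) (h4 : ¬ IsSquare (-2 * (discr K : ℚ))) : Conc K := by
  classical
  by_cases h1 : Module.finrank ℚ K = 1
  · exact conc_of_one K h1
  have := fact_of_odd K hodd
  have htop : (MulAction.toPermHom GQ (EK K)).range = ⊤ :=
    Subgroup.eq_top_of_card_eq _ (by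
      rw [card_range K L, hL, Nat.card_eq_fintype_card, Fintype.card_perm, EK.card])
  have hs : ∀ s : Perm (EK K), ∃ g : GQ, ∀ σ, g • σ = s σ := fun s => by
    obtain ⟨g, hg⟩ := MonoidHom.range_eq_top.1 htop s
    exact ⟨g, fun σ => congrArg (fun e : Perm (EK K) => e σ) hg⟩
  have : Nontrivial (EK K) := Fintype.one_lt_card_iff_nontrivial.1 (by
    rw [EK.card]; have := hodd.pos; omega)
  obtain ⟨σ, τ, hne⟩ := exists_pair_ne (EK K)
  obtain ⟨g, hg⟩ := hs (swap σ τ)
  have hsym := symM_of_sym hodd hs (not_isSquare_discr K g (by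
    rw [show MulAction.toPerm g = swap σ τ from Equiv.ext hg, Perm.sign_swap hne])) h2 h3 h4
  exact conc_of_aux K hodd (auxHyp_of_hb (by rwa [finrank_Mi])
    (hsym.hb (by rwa [finrank_Mi]) (by rwa [finrank_Mi]))) hsym.cyc

theorem conc_aff {p : ℕ} (hp : p.Prime) (hodd : Odd p) (hK : Module.finrank ℚ K = p)
    (hL : Module.finrank ℚ L = p * (p - 1)) (h2 : ¬ IsSquare (-(discr K : ℚ)))
    (h3 : ¬ IsSquare (2 * (discr K : ℚ))) (h4 : ¬ IsSquare (-2 * (discr K : ℚ))) : Conc K := by
  classical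
  subst hK
  have := fact_of_odd K hodd
  obtain ⟨u, hu⟩ := exists_cyc_of_prime (G := GQ) (X := EK K) (by rwa [EK.card]) EK.exists_smul
  let σ₀ : EK K := Classical.arbitrary _
  obtain ⟨c, hc, hpow⟩ := exists_aff hp EK.card (by rw [card_range K L, hL]) hu σ₀
  obtain ⟨δ, hδ, hsign⟩ := exists_disc_root K
  refine conc_of_aux K hodd (auxHyp_of_hb (by rwa [finrank_Mi]) (hb_of_affK hodd σ₀ c hc hpow hδ
    (not_isSquare_discr K c (hc.sign (by rwa [EK.card]) (by rw [EK.card]; exact hp.ne_one)))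
    h2 h3 h4 fun g hg => ?_)) (exists_cyc_prime hp)
  rw [hsign, show MulAction.toPerm g = 1 from Equiv.ext hg]
  simp

theorem conc_of_stab {l : ℕ} (hl : l.Prime) (hodd : Odd l) (hK : Module.finrank ℚ K = l)
    (h2 : orderOf (2 : ZMod l) = l - 1) (σ₀ : EK K)
    (h : ∀ g : Gam, res g • σ₀ = σ₀ → ∀ σ : EK K, res g • σ = σ) : Conc K := by
  subst hK
  have := fact_of_odd K hodd
  have := isGalois_up σ₀ h
  exact conc_of_aux K hodd (auxHyp_of_cyclic hl hodd (finrank_Mi K) h2) (exists_cyc_prime hl)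

theorem conc_gal [IsGalois ℚ K] {l : ℕ} (hl : l.Prime) (hodd : Odd l)
    (hK : Module.finrank ℚ K = l) (h2 : orderOf (2 : ZMod l) = l - 1) : Conc K := by
  let σ₀ : EK K := Classical.arbitrary _
  refine conc_of_stab K hl hodd hK h2 σ₀ fun g hg σ => EK.ext fun x => ?_
  let : Algebra K Om := σ₀.hom.toRingHom.toAlgebra
  have : IsScalarTower ℚ K Om :=
    IsScalarTower.of_algebraMap_eq fun x => (σ₀.hom.commutes x).symm
  have h1 : σ.hom x = σ₀.hom (σ.hom.restrictNormal K x) :=
    (σ.hom.restrictNormal_commutes K x).symm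
  rw [EK.smul_apply, h1, ← EK.smul_apply, hg]

theorem conc_cubic (hK : Module.finrank ℚ K = 3) (h3 : ¬ IsSquare (2 * (discr K : ℚ)))
    (h4 : ¬ IsSquare (-2 * (discr K : ℚ))) : Conc K := by
  classical
  have hodd : Odd (Module.finrank ℚ K) := by rw [hK]; decide
  have := fact_of_odd K hodd
  obtain ⟨δ, hδ, hsign⟩ := exists_disc_root K
  have hcard : Fintype.card (EK K) = 3 := by rw [EK.card, hK]
  obtain ⟨x, y, z, hxy, hxz, hyz, huniv⟩ := Finset.card_eq_three.1 hcard
  have hall : ∀ σ : EK K, σ = x ∨ σ = y ∨ σ = z := fun σ => by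
    simpa [huniv] using Finset.mem_univ σ
  have hcase : ∀ g : GQ, g • x = x → (∀ σ : EK K, g • σ = σ) ∨ (g • y = z ∧ g • z = y) := by
    intro g hg
    have h1 : g • y ≠ x := fun h => hxy (MulAction.injective g (hg.trans h.symm))
    have h2 : g • z ≠ x := fun h => hxz (MulAction.injective g (hg.trans h.symm))
    have h5 : g • y ≠ g • z := (MulAction.injective g).ne hyz
    rcases (hall (g • y)).resolve_left h1 with h6 | h6 <;>
      rcases (hall (g • z)).resolve_left h2 with h7 | h7
    · exact (h5 (h6.trans h7.symm)).elim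
    · exact Or.inl fun σ => by rcases hall σ with rfl | rfl | rfl <;> assumption
    · exact Or.inr ⟨h6, h7⟩
    · exact (h5 (h6.trans h7.symm)).elim
  have hcyc : ∀ g : GQ, g • x = x → g • y = z → g • z = y → Cyc1 g x := by
    refine fun g hg h1 h2 => ⟨hg, fun a b ha hb => ?_⟩
    rcases (hall a).resolve_left ha with rfl | rfl <;>
      rcases (hall b).resolve_left hb with rfl | rfl
    · exact ⟨0, by simp⟩
    · exact ⟨1, by simpa using h1⟩
    · exact ⟨1, by simpa using h2⟩
    · exact ⟨0, by simp⟩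
  by_cases hst : ∀ g : Gam, res g • x = x → ∀ σ : EK K, res g • σ = σ
  · exact conc_of_stab K Nat.prime_three (by decide) hK (by
      rw [orderOf_eq_iff (by decide)]; decide) x hst
  push Not at hst
  obtain ⟨g, hg, hg'⟩ := hst
  obtain ⟨h1, h2⟩ := (hcase _ hg).resolve_left (not_forall.2 hg')
  have hc := hcyc _ hg h1 h2
  have hs := hc.sign (by rwa [EK.card]) (by rw [hcard]; decide)
  refine conc_of_aux K hodd (auxHyp_of_hb (by rwa [finrank_Mi]) (hb_of_affK hodd x _ hc
    (fun g' hg' => ?_) hδ (not_isSquare_discr K _ hs) ?_ h3 h4 fun g hg => ?_))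
    (exists_cyc_prime (by rw [hK]; exact Nat.prime_three))
  · rcases hcase g' hg' with h | ⟨h5, h6⟩
    · exact ⟨0, by simpa using h⟩
    · refine ⟨1, fun σ => ?_⟩
      rcases hall σ with rfl | rfl | rfl <;> simp [*]
  · rintro ⟨s, hs'⟩
    have h5 := hsign (res g)
    have h6 : δ ^ 2 = (s * iO) ^ 2 := by
      rw [hδ, mul_pow, iO_sq, ← neg_neg (discr K : ℚ), hs']; push_cast; ring
    have h7 : res g δ = δ := by
      rcases sq_eq_sq_iff_eq_or_eq_neg.1 h6 with h | h
      · rw [h, map_mul, map_ratCast, res_apply, map_iO]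
      · rw [h, map_neg, map_mul, map_ratCast, res_apply, map_iO]
    rw [hs, h7] at h5
    have h8 : δ = 0 := by
      simp only [Units.val_neg, Units.val_one, Int.cast_neg, Int.cast_one] at h5
      linear_combination h5 / 2
    rw [h8] at hδ
    have h9 : ((discr K : ℚ) : Om) = 0 := by rw [← hδ]; simp
    exact discr_ne_zero K (by exact_mod_cast h9)
  · rw [hsign, show MulAction.toPerm g = 1 from Equiv.ext hg]
    simp

end Pool.Agent.MP_14ad9d_nt
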