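import Pool.Agent.MP_14ad9d_nt.Defs

set_option autoImplicit false

open NumberField IsDedekindDomain

namespace Pool.Agent.MP_14ad9d_nt

namespace LocAux

open Filter Topology

/-- root of `z ^ 2 + z = c` in a complete ultrametric field -/
theorem exists_root {L : Type*} [NormedField L] [IsUltrametricDist L] [CompleteSpace L] (c : L)
    (hc : ‖c‖ < 1) : ∃ z : L, ‖z‖ ≤ ‖c‖ ∧ z ^ 2 + z = c := by
  let f : ℕ → L := fun n => (fun z => c - z ^ 2)^[n] 0
  have hs : ∀ n, f (n + 1) = c - f n ^ 2 := fun n => Function.iterate_succ_apply' _ _ _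
  have h0 : f 0 = 0 := rfl
  have hc0 := norm_nonneg c
  have h1 : ∀ n, ‖f n‖ ≤ ‖c‖ := by
    intro n
    induction n with
    | zero => simp [h0]
    | succ n ih =>
      rw [hs, sub_eq_add_neg]
      refine (IsUltrametricDist.norm_add_le_max _ _).trans (max_le le_rfl ?_)
      rw [norm_neg, norm_pow]
      nlinarith [norm_nonneg (f n)]
  have h2 : ∀ n, dist (f n) (f (n + 1)) ≤ ‖c‖ * ‖c‖ ^ n := by
    intro n
    induction n with
    | zero => simp [hs, h0]
    | succ n ih =>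
      rw [dist_eq_norm] at ih ⊢
      have e : f (n + 1) - f (n + 1 + 1) = -((f n - f (n + 1)) * (f n + f (n + 1))) := by
        rw [hs (n + 1)]
        nth_rewrite 1 [hs n]
        ring
      rw [e, norm_neg, norm_mul, pow_succ, ← mul_assoc]
      refine mul_le_mul ih ?_ (norm_nonneg _) (by positivity)
      exact (IsUltrametricDist.norm_add_le_max _ _).trans (max_le (h1 _) (h1 _))
  obtain ⟨z, hz⟩ := cauchySeq_tendsto_of_complete (cauchySeq_of_le_geometric _ _ hc h2)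
  refine ⟨z, le_of_tendsto' hz.norm h1, ?_⟩
  have h3 : Tendsto (fun n => f (n + 1)) atTop (𝓝 z) := (tendsto_add_atTop_iff_nat 1).2 hz
  have h4 : Tendsto (fun n => f (n + 1)) atTop (𝓝 (c - z ^ 2)) := by
    simp only [hs]
    exact tendsto_const_nhds.sub (hz.pow 2)
  have h5 := tendsto_nhds_unique h3 h4
  linear_combination h5

/-- `y` is a value of the norm form attached to `x` -/
def Nm {L : Type*} [Field L] (x y : L) : Prop := ∃ a b : L, y = a ^ 2 - x * b ^ 2

section Nm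
variable {L : Type*} [Field L]

theorem Nm.mul {x y y' : L} (h : Nm x y) (h' : Nm x y') : Nm x (y * y') := by
  obtain ⟨a, b, rfl⟩ := h
  obtain ⟨a', b', rfl⟩ := h'
  exact ⟨a * a' + x * b * b', a * b' + b * a', by ring⟩

theorem nm_sq (x c : L) : Nm x (c ^ 2) := ⟨c, 0, by ring⟩

theorem nm_of_sq (h2 : (2 : L) ≠ 0) {s : L} (hs : s ≠ 0) (y : L) : Nm (s ^ 2) y :=
  ⟨(y + 1) / 2, (y - 1) / (2 * s), by field_simp; ring⟩

theorem Nm.symm (h2 : (2 : L) ≠ 0) {x y : L} (h : Nm x y) (hy : y ≠ 0) : Nm y x := by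
  obtain ⟨a, b, rfl⟩ := h
  by_cases hb : b = 0
  · subst hb
    have e : a ^ 2 - x * 0 ^ 2 = a ^ 2 := by ring
    rw [e] at hy ⊢
    exact nm_of_sq h2 (fun h => hy (by simp [h])) x
  · exact ⟨a / b, 1 / b, by field_simp; ring⟩

theorem Nm.left {x y c : L} (h : Nm x y) (hc : c ≠ 0) : Nm (x * c ^ 2) y := by
  obtain ⟨a, b, rfl⟩ := h
  exact ⟨a, b / c, by field_simp⟩

theorem Nm.right {x y : L} (h : Nm x y) (c : L) : Nm x (y * c ^ 2) := h.mul (nm_sq x c)

theorem nm_curve (h2 : (2 : L) ≠ 0) {i d₁ d₂ x₁ y₁ x₂ y₂ : L} (hi : i ^ 2 = -1) (hd₁ : d₁ ≠ 0)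
    (hd₂ : d₂ ≠ 0) (hx₁ : x₁ ≠ 0) (hx₂ : x₂ ≠ 0) (e₁ : y₁ ^ 2 = x₁ ^ 3 - d₁ ^ 4 * x₁)
    (e₂ : y₂ ^ 2 = x₂ ^ 3 - d₂ ^ 4 * x₂) : Nm x₁ x₂ := by
  have hj : (1 + i) ^ 2 = 2 * i := by linear_combination hi
  have hi0 : i ≠ 0 := by
    rintro rfl
    simp at hi
  have hj0 : 1 + i ≠ 0 := by
    intro h
    rw [h] at hj
    exact mul_ne_zero h2 hi0 (by linear_combination -hj)
  obtain ⟨u, rfl⟩ : ∃ u, x₁ = u * d₁ ^ 2 := ⟨x₁ / d₁ ^ 2, by field_simp⟩
  obtain ⟨X, rfl⟩ : ∃ X, x₂ = X * (d₂ / (1 + i)) ^ 2 := ⟨x₂ / (d₂ / (1 + i)) ^ 2, by field_simp⟩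
  have hu : u ≠ 0 := left_ne_zero_of_mul hx₁
  have hX : X ≠ 0 := left_ne_zero_of_mul hx₂
  refine Nm.left (Nm.right ?_ _) hd₁
  obtain ⟨t, rfl⟩ : ∃ t, y₁ = t * u * d₁ ^ 3 := ⟨y₁ / (u * d₁ ^ 3), by field_simp⟩
  obtain ⟨T, rfl⟩ : ∃ T, y₂ = T * X * (d₂ / (1 + i)) ^ 3 :=
    ⟨y₂ / (X * (d₂ / (1 + i)) ^ 3), by field_simp⟩
  have ht : t ^ 2 * u = u ^ 2 - 1 := by
    apply mul_left_cancel₀ (mul_ne_zero hu (pow_ne_zero 6 hd₁))
    linear_combination e₁
  have hT : T ^ 2 * X = X ^ 2 + 4 := by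
    obtain ⟨w, rfl⟩ : ∃ w, d₂ = w * (1 + i) := ⟨d₂ / (1 + i), by field_simp⟩
    have hw : w ≠ 0 := left_ne_zero_of_mul hd₂
    rw [mul_div_cancel_right₀ _ hj0] at e₂
    have h4 : (1 + i) ^ 4 = -4 := by
      linear_combination ((1 + i) ^ 2 + 2 * i) * hj + 4 * hi
    apply mul_left_cancel₀ (mul_ne_zero hX (pow_ne_zero 6 hw))
    linear_combination e₂ - w ^ 6 * X * h4
  by_cases h : T ^ 2 - u * 2 ^ 2 = 0
  · have e : u = (T / 2) ^ 2 := by field_simp; linear_combination -h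
    rw [e] at hu ⊢
    exact nm_of_sq h2 (fun h => hu (by simp [h])) X
  · have n1 : Nm u (X * (T ^ 2 - u * 2 ^ 2)) :=
      ⟨X - 2 * u, 2 * t, by linear_combination hT + 4 * ht⟩
    have n2 : Nm u (T ^ 2 - u * 2 ^ 2) := ⟨T, 2, rfl⟩
    have n3 := (n1.mul n2).right (T ^ 2 - u * 2 ^ 2)⁻¹
    convert n3 using 1
    field_simp

end Nm

theorem val_two_le {L Γ : Type*} [CommRing L] [LinearOrderedCommMonoidWithZero Γ]
    (v : Valuation L Γ) : v 2 ≤ 1 := by
  rw [← one_add_one_eq_two]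
  exact v.map_add_le v.map_one.le v.map_one.le

theorem val_four {L Γ : Type*} [CommRing L] [LinearOrderedCommMonoidWithZero Γ]
    (v : Valuation L Γ) : v 4 = v 2 * v 2 := by
  rw [← map_mul]; norm_num

theorem val_four_le {L Γ : Type*} [CommRing L] [LinearOrderedCommMonoidWithZero Γ]
    (v : Valuation L Γ) : v 4 ≤ 1 := by
  rw [val_four]
  exact mul_le_one' (val_two_le v) (val_two_le v)

variable {M : Type*} [Field M] [NumberField M] {P : HeightOneSpectrum (𝓞 M)}

theorem v_loc (x : M) : Valued.v (loc P x) = P.valuation M x :=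
  HeightOneSpectrum.valuedAdicCompletion_eq_valuation' P x

theorem loc_ne {x : M} (hx : x ≠ 0) : loc P x ≠ 0 := (map_ne_zero _).2 hx

theorem two_ne : (2 : P.adicCompletion M) ≠ 0 := by
  have := loc_ne (P := P) (two_ne_zero (α := M))
  rwa [map_ofNat] at this

theorem four_ne : (4 : P.adicCompletion M) ≠ 0 := by
  have : (4 : P.adicCompletion M) = 2 * 2 := by norm_num
  rw [this]
  exact mul_ne_zero two_ne two_ne

theorem v_four : Valued.v (4 : P.adicCompletion M) = P.valuation M 4 := by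
  rw [← v_loc, map_ofNat (loc P)]

theorem exists_near (a : P.adicCompletion M) {δ : P.adicCompletion M} (hδ : δ ≠ 0) :
    ∃ x : M, Valued.v (loc P x - a) < Valued.v δ := by
  obtain ⟨x, hx⟩ := (HeightOneSpectrum.denseRange_algebraMap M P).exists_dist_lt a
    (norm_pos_iff.2 hδ)
  rw [dist_comm, dist_eq_norm] at hx
  exact ⟨x, Valued.toNormedField.norm_lt_iff.1 hx⟩

end LocAux

open LocAux

variable {M : Type*} [Field M] [NumberField M] {P : HeightOneSpectrum (𝓞 M)}

theorem valuation_eq_exp_ord {x : M} (hx : x ≠ 0) :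
    P.valuation M x = WithZero.exp (-ord P x) := by
  rw [ord, neg_neg, WithZero.exp_log ((map_ne_zero _).2 hx)]

theorem ord_mul {x y : M} (hx : x ≠ 0) (hy : y ≠ 0) : ord P (x * y) = ord P x + ord P y := by
  simp only [ord]
  rw [map_mul, WithZero.log_mul ((map_ne_zero _).2 hx) ((map_ne_zero _).2 hy)]
  ring

theorem ord_pow (x : M) (n : ℕ) : ord P (x ^ n) = n * ord P x := by
  simp only [ord]
  rw [map_pow, WithZero.log_pow]
  simp

theorem ord_inv (x : M) : ord P x⁻¹ = -ord P x := by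
  simp only [ord]
  rw [map_inv₀, WithZero.log_inv]

theorem ord_neg (x : M) : ord P (-x) = ord P x := by
  simp only [ord]
  rw [Valuation.map_neg]

theorem ord_eq_zero_of_valuation {x : M} (h : P.valuation M x = 1) : ord P x = 0 := by
  simp [ord, h]

/-- Hensel lemma for square roots, with control of the root -/
theorem exists_sqrt (e : P.adicCompletion M)
    (he : Valued.v e < Valued.v (4 : P.adicCompletion M)) :
    ∃ z : P.adicCompletion M, Valued.v (4 * z) ≤ Valued.v e ∧ (1 + 2 * z) ^ 2 = 1 + e := by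
  have h4 : 0 < ‖(4 : P.adicCompletion M)‖ := norm_pos_iff.2 four_ne
  have hc : ‖e / 4‖ < 1 := by
    rw [norm_div, div_lt_one h4]
    exact Valued.toNormedField.norm_lt_iff.2 he
  have : IsUltrametricDist (P.adicCompletion M) := Valued.instIsUltrametricDist _ _
  obtain ⟨z, h1, h2⟩ := exists_root (e / 4) hc
  refine ⟨z, Valued.toNormedField.norm_le_iff.1 ?_, ?_⟩
  · rw [norm_div, le_div_iff₀ h4] at h1
    rw [norm_mul, mul_comm]
    exact h1
  · rw [eq_div_iff four_ne] at h2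
    linear_combination h2

theorem lsq_of_val {x w : M} (h : P.valuation M (x - w ^ 2) < P.valuation M (4 * x)) :
    LSq P x := by
  have hx : x ≠ 0 := by
    rintro rfl
    simp at h
  have hv : 0 < P.valuation M x := zero_lt_iff.2 ((map_ne_zero _).2 hx)
  have h1 : P.valuation M ((w ^ 2 - x) / x) < P.valuation M 4 := by
    rw [map_div₀, div_lt_iff₀ hv, ← map_mul, Valuation.map_sub_swap]
    exact h
  obtain ⟨z, -, hz⟩ := exists_sqrt (loc P ((w ^ 2 - x) / x)) (by rw [v_loc, v_four]; exact h1)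
  have h2 : (1 + 2 * z) ≠ 0 := by
    intro h0
    have h3 : Valued.v (1 + loc P ((w ^ 2 - x) / x)) = 1 :=
      Valuation.map_one_add_of_lt _ (by rw [v_loc]; exact h1.trans_le (val_four_le _))
    rw [← hz, h0] at h3
    simp at h3
  have h3 := loc_ne (P := P) hx
  refine ⟨loc P w / (1 + 2 * z), ?_⟩
  rw [map_div₀, map_sub, map_pow] at hz
  rw [← sq, div_pow, hz]
  have h4 : 1 + (loc P w ^ 2 - loc P x) / loc P x = loc P w ^ 2 / loc P x := by
    field_simp
    ring
  have h5 : loc P w ≠ 0 := by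
    intro h0
    rw [h4, h0] at hz
    exact h2 (by simpa using hz)
  rw [h4]
  field_simp

theorem LSq.approx {x : M} (h : LSq P x) (hx : x ≠ 0) :
    ∃ w : M, P.valuation M (x - w ^ 2) < P.valuation M (4 * x) := by
  obtain ⟨s, hs⟩ := h
  have hs0 : s ≠ 0 := by
    rintro rfl
    exact hx (by simpa using hs)
  obtain ⟨w, hw⟩ := exists_near s (mul_ne_zero four_ne hs0)
  refine ⟨w, ?_⟩
  have hv : 0 < Valued.v s := zero_lt_iff.2 ((map_ne_zero _).2 hs0)
  have h1 : Valued.v (loc P w - s + 2 * s) ≤ Valued.v s := by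
    refine Valuation.map_add_le _ (hw.le.trans ?_) ?_
    · rw [map_mul]; exact mul_le_of_le_one_left' (val_four_le _)
    · rw [map_mul]; exact mul_le_of_le_one_left' (val_two_le _)
  have e : loc P (x - w ^ 2) = -((loc P w - s) * (loc P w - s + 2 * s)) := by
    rw [map_sub, map_pow, hs]; ring
  have e' : loc P (4 * x) = 4 * s * s := by
    rw [map_mul, map_ofNat, hs]; ring
  rw [← v_loc, ← v_loc, e, e', Valuation.map_neg, map_mul, map_mul _ (4 * s)]
  exact (mul_le_mul_right h1 _).trans_lt (mul_lt_mul_of_pos_right hw hv)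

theorem LSq.even {x : M} (h : LSq P x) (hx : x ≠ 0) : Even (ord P x) := by
  obtain ⟨s, hs⟩ := h
  have hs0 : s ≠ 0 := by
    rintro rfl
    exact hx (by simpa using hs)
  have hv : Valued.v s ≠ 0 := (map_ne_zero _).2 hs0
  rw [ord, ← v_loc, hs, map_mul, WithZero.log_mul hv hv]
  exact ⟨-WithZero.log (Valued.v s), by ring⟩

theorem LSq.mul {x y : M} (hx : LSq P x) (hy : LSq P y) : LSq P (x * y) := by
  unfold LSq at *
  rw [map_mul]
  exact hx.mul hy

theorem LSq.inv {x : M} (hx : LSq P x) : LSq P x⁻¹ := by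
  unfold LSq at *
  rw [map_inv₀]
  exact hx.inv

theorem lsq_of_isSquare {x : M} (hx : IsSquare x) : LSq P x := hx.map (loc P)

theorem Spl.symm {x y : M} (h : Spl P x y) (hy : y ≠ 0) : Spl P y x :=
  Nm.symm two_ne h (loc_ne hy)

theorem Spl.mul_right {x y y' : M} (h : Spl P x y) (h' : Spl P x y') : Spl P x (y * y') := by
  have := Nm.mul h h'
  rwa [← map_mul] at this

theorem Spl.mul_left {x x' y : M} (h : Spl P x y) (h' : Spl P x' y) (hx : x ≠ 0) (hx' : x' ≠ 0)
    (hy : y ≠ 0) : Spl P (x * x') y :=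
  ((h.symm hy).mul_right (h'.symm hy)).symm (mul_ne_zero hx hx')

theorem spl_of_lsq_left {x : M} (h : LSq P x) (hx : x ≠ 0) (y : M) : Spl P x y := by
  obtain ⟨s, hs⟩ := h
  have hs0 : s ≠ 0 := by
    rintro rfl
    exact hx (by simpa using hs)
  have := nm_of_sq two_ne hs0 (loc P y)
  rwa [sq, ← hs] at this

theorem spl_of_lsq_right {y : M} (h : LSq P y) (x : M) : Spl P x y := by
  obtain ⟨s, hs⟩ := h
  exact ⟨s, 0, by rw [hs]; ring⟩

namespace LocAux

theorem val_two_eq (h2 : ¬ Dv P 2) : P.valuation M 2 = 1 :=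
  le_antisymm (val_two_le _) (not_lt.1 h2)

theorem val_four_eq (h2 : ¬ Dv P 2) : P.valuation M 4 = 1 := by
  rw [val_four, val_two_eq h2, mul_one]

theorem exists_unit {x : M} (hx : x ≠ 0) (ex : Even (ord P x)) :
    ∃ u c : M, c ≠ 0 ∧ P.valuation M u = 1 ∧ x = u * c ^ 2 := by
  obtain ⟨k, hk⟩ := ex
  obtain ⟨c, hc⟩ := P.valuation_surjective M (WithZero.exp (-k))
  have hc0 : c ≠ 0 := by
    rintro rfl
    rw [map_zero] at hc
    exact WithZero.exp_ne_zero hc.symm
  refine ⟨x / c ^ 2, c, hc0, ?_, by field_simp⟩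
  rw [map_div₀, map_pow, hc, valuation_eq_exp_ord hx, hk, sq, ← WithZero.exp_add,
    ← WithZero.exp_sub, WithZero.exp_eq_one]
  ring

theorem exists_norm_near (h2 : ¬ Dv P 2) {x y : M} (hx : P.valuation M x = 1)
    (hy : P.valuation M y ≤ 1) : ∃ a b : M, P.valuation M (a ^ 2 - x * b ^ 2 - y) < 1 := by
  classical
  obtain ⟨r, hr⟩ := P.exists_valuation_sub_lt_of_integer hx.le 1
  obtain ⟨s, hs⟩ := P.exists_valuation_sub_lt_of_integer hy 1
  rw [Units.val_one] at hr hs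
  have := P.isMaximal
  let : Field (𝓞 M ⧸ P.asIdeal) := Ideal.Quotient.field _
  have : Finite (𝓞 M ⧸ P.asIdeal) := Ideal.finiteQuotientOfFreeOfNeBot _ P.ne_bot
  let : Fintype (𝓞 M ⧸ P.asIdeal) := Fintype.ofFinite _
  have hchar : ringChar (𝓞 M ⧸ P.asIdeal) ≠ 2 := by
    intro h
    have h3 : ((2 : ℕ) : 𝓞 M ⧸ P.asIdeal) = 0 := (ringChar.spec _ 2).2 (by rw [h])
    rw [← map_natCast (Ideal.Quotient.mk P.asIdeal), Ideal.Quotient.eq_zero_iff_mem,
      ← HeightOneSpectrum.valuation_lt_one_iff_mem (K := M)] at h3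
    change P.valuation M (algebraMap (𝓞 M) M ((2 : ℕ) : 𝓞 M)) < 1 at h3
    rw [map_natCast] at h3
    exact h2 (by simpa [Dv] using h3)
  have hr0 : Ideal.Quotient.mk P.asIdeal r ≠ 0 := by
    rw [Ne, Ideal.Quotient.eq_zero_iff_mem, ← HeightOneSpectrum.valuation_lt_one_iff_mem (K := M)]
    intro h3
    have h4 := Valuation.map_sub_lt _ h3 hr
    rw [sub_sub_cancel, hx] at h4
    exact lt_irrefl _ h4
  obtain ⟨a, b, hab⟩ := FiniteField.exists_root_sum_quadratic
    (f := Polynomial.X ^ 2 - Polynomial.C (Ideal.Quotient.mk P.asIdeal s))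
    (g := Polynomial.C (-Ideal.Quotient.mk P.asIdeal r) * Polynomial.X ^ 2)
    (Polynomial.degree_X_pow_sub_C (by norm_num) _)
    (Polynomial.degree_C_mul_X_pow 2 (neg_ne_zero.2 hr0))
    (FiniteField.odd_card_of_char_ne_two hchar)
  obtain ⟨a, rfl⟩ := Ideal.Quotient.mk_surjective a
  obtain ⟨b, rfl⟩ := Ideal.Quotient.mk_surjective b
  have h3 : Ideal.Quotient.mk P.asIdeal (a ^ 2 - r * b ^ 2 - s) = 0 := by
    simp only [Polynomial.eval_sub, Polynomial.eval_pow, Polynomial.eval_X, Polynomial.eval_C,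
      Polynomial.eval_mul] at hab
    simp only [map_sub, map_mul, map_pow]
    linear_combination hab
  rw [Ideal.Quotient.eq_zero_iff_mem, ← HeightOneSpectrum.valuation_lt_one_iff_mem (K := M)] at h3
  refine ⟨algebraMap _ M a, algebraMap _ M b, ?_⟩
  have e : algebraMap (𝓞 M) M a ^ 2 - x * algebraMap (𝓞 M) M b ^ 2 - y =
      algebraMap (𝓞 M) M (a ^ 2 - r * b ^ 2 - s) +
        ((algebraMap (𝓞 M) M r - x) * algebraMap (𝓞 M) M (b ^ 2) +
          (algebraMap (𝓞 M) M s - y)) := by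
    simp only [map_sub, map_mul, map_pow]
    ring
  rw [e]
  refine Valuation.map_add_lt _ h3 (Valuation.map_add_lt _ ?_ hs)
  rw [map_mul]
  exact (mul_le_of_le_one_right' (P.valuation_le_one _)).trans_lt hr

theorem val_lt_iff {x y : M} (hx : x ≠ 0) (hy : y ≠ 0) :
    P.valuation M y < P.valuation M x ↔ ord P x < ord P y := by
  rw [valuation_eq_exp_ord hx, valuation_eq_exp_ord hy, WithZero.exp_lt_exp, neg_lt_neg_iff]

theorem ord_sub {x y : M} (hx : x ≠ 0) (hy : y ≠ 0) (h : ord P x < ord P y) :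
    x - y ≠ 0 ∧ ord P (x - y) = ord P x := by
  have h1 := Valuation.map_sub_eq_of_lt_left _ ((val_lt_iff hx hy).2 h)
  refine ⟨fun h0 => ?_, by simp only [ord, h1]⟩
  rw [h0, map_zero] at h1
  exact (map_ne_zero _).2 hx h1.symm

theorem lsq_one_sub (h2 : ¬ Dv P 2) {x y : M} (hx : x ≠ 0) (hy : y ≠ 0)
    (h : ord P x < ord P y) : LSq P (1 - y / x) := by
  have hv : 0 < P.valuation M x := zero_lt_iff.2 ((map_ne_zero _).2 hx)
  have h1 : P.valuation M (y / x) < 1 := by
    rw [map_div₀, div_lt_one₀ hv]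
    exact (val_lt_iff hx hy).2 h
  refine lsq_of_val (w := 1) ?_
  have e : 1 - y / x - 1 ^ 2 = -(y / x) := by ring
  rw [e, Valuation.map_neg, map_mul, val_four_eq h2, Valuation.map_one_sub_of_lt _ h1, mul_one]
  exact h1

theorem lsq_sq (x : M) : LSq P (x ^ 2) := lsq_of_isSquare ⟨x, sq x⟩

end LocAux

theorem spl_of_even {x y : M} (h2 : ¬ Dv P 2) (hx : x ≠ 0) (hy : y ≠ 0) (ex : Even (ord P x))
    (ey : Even (ord P y)) : Spl P x y := by
  obtain ⟨u, c, hc, hu, rfl⟩ := exists_unit hx ex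
  obtain ⟨u', c', hc', hu', rfl⟩ := exists_unit hy ey
  obtain ⟨a, b, hab⟩ := exists_norm_near h2 hu hu'.le
  set N := a ^ 2 - u * b ^ 2 with hN
  have h1 : P.valuation M N = 1 := by
    have := Valuation.map_add_eq_of_lt_left (P.valuation M) (hab.trans_eq hu'.symm)
    rwa [add_sub_cancel, hu'] at this
  have hN0 : N ≠ 0 := by
    intro h0
    rw [h0] at h1
    simp at h1
  have h3 : LSq P (u' * N) := by
    refine lsq_of_val (w := N) ?_
    have e : u' * N - N ^ 2 = -(N * (N - u')) := by ring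
    rw [e, Valuation.map_neg, map_mul, map_mul, map_mul, h1, hu', val_four_eq h2]
    simpa using hab
  have h4 : Nm (loc P u) (loc P N) :=
    ⟨loc P a, loc P b, by rw [hN, map_sub, map_mul, map_pow, map_pow]⟩
  have h5 : Nm (loc P u) (loc P (u' * N)) := spl_of_lsq_right h3 u
  have h6 := ((h5.mul h4).right (loc P c' / loc P N)).left (loc_ne (P := P) hc)
  have h7 := loc_ne (P := P) hN0
  change Nm (loc P (u * c ^ 2)) (loc P (u' * c' ^ 2))
  simp only [map_mul, map_pow] at h6 ⊢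
  convert h6 using 1
  field_simp

/-- local isotropy of the descent image -/
theorem spl_of_curve {i D₁ D₂ x₁ y₁ x₂ y₂ : M} (hi : i ^ 2 = -1) (hD₁ : D₁ ≠ 0) (hD₂ : D₂ ≠ 0)
    (h₁ : L4 P D₁) (h₂ : L4 P D₂) (hx₁ : x₁ ≠ 0) (hx₂ : x₂ ≠ 0)
    (e₁ : y₁ ^ 2 = x₁ ^ 3 - D₁ * x₁) (e₂ : y₂ ^ 2 = x₂ ^ 3 - D₂ * x₂) : Spl P x₁ x₂ := by
  obtain ⟨d₁, hd₁⟩ := h₁
  obtain ⟨d₂, hd₂⟩ := h₂
  have f₁ := congrArg (loc P) e₁
  have f₂ := congrArg (loc P) e₂
  have fi := congrArg (loc P) hi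
  simp only [map_sub, map_mul, map_pow, map_neg, map_one, hd₁, hd₂] at f₁ f₂ fi
  refine nm_curve two_ne fi ?_ ?_ (loc_ne hx₁) (loc_ne hx₂) f₁ f₂
  · rintro rfl
    exact hD₁ (by simpa using hd₁)
  · rintro rfl
    exact hD₂ (by simpa using hd₂)

theorem l4_of_lsq {c e : M} (h2 : Dv P 2) (hc : LSq P c)
    (he : P.valuation M e ≤ P.valuation M 64) : L4 P (c ^ 2 * (1 + e)) := by
  obtain ⟨s, hs⟩ := hc
  have h2' : Valued.v (2 : P.adicCompletion M) < 1 := by
    have := v_loc (P := P) (2 : M)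
    rw [map_ofNat] at this
    rw [this]
    exact h2
  have h4 : 0 < Valued.v (4 : P.adicCompletion M) := zero_lt_iff.2 ((map_ne_zero _).2 four_ne)
  have hle := val_two_le (Valued.v : Valuation (P.adicCompletion M) _)
  have hle4 := val_four_le (Valued.v : Valuation (P.adicCompletion M) _)
  have he' : Valued.v (loc P e) ≤
      Valued.v (4 : P.adicCompletion M) * Valued.v (4 : P.adicCompletion M) := by
    rw [v_loc, v_four]
    refine he.trans ?_
    have : (64 : M) = 4 * 4 * 4 := by norm_num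
    rw [this, map_mul, map_mul]
    exact mul_le_of_le_one_right' (val_four_le _)
  have h41 : Valued.v (4 : P.adicCompletion M) < 1 := by
    rw [val_four]
    exact (mul_le_of_le_one_right' hle).trans_lt h2'
  obtain ⟨z, hz, hz'⟩ := exists_sqrt (loc P e)
    (he'.trans_lt (by simpa using mul_lt_mul_of_pos_left h41 h4))
  have hz4 : Valued.v z ≤ Valued.v (4 : P.adicCompletion M) := by
    have := hz.trans he'
    rw [map_mul] at this
    exact le_of_mul_le_mul_left this h4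
  obtain ⟨z', -, hz''⟩ := exists_sqrt (2 * z) (by
    rw [map_mul]
    exact (mul_le_mul_right hz4 _).trans_lt (by simpa using mul_lt_mul_of_pos_right h2' h4))
  refine ⟨s * (1 + 2 * z'), ?_⟩
  rw [map_mul, map_pow, map_add, map_one, hs, ← hz', ← hz'']
  ring

theorem even_ord_of_curve {D x y : M} (hD : D ≠ 0) (hx : x ≠ 0) (e : y ^ 2 = x ^ 3 - D * x)
    (h4 : (4 : ℤ) ∣ ord P D) : Even (ord P x) := by
  by_contra hodd
  rw [Int.even_iff] at hodd
  have hx2 := pow_ne_zero 2 hx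
  have h1 := ord_pow (P := P) x 2
  have h2 := ord_pow (P := P) y 2
  push_cast at h1 h2
  rcases lt_trichotomy (ord P (x ^ 2)) (ord P D) with h | h | h
  · obtain ⟨h5, h6⟩ := ord_sub hx2 hD h
    have e' : y ^ 2 = x * (x ^ 2 - D) := by rw [e]; ring
    rw [e', ord_mul hx h5] at h2
    omega
  · omega
  · obtain ⟨h5, h6⟩ := ord_sub hD hx2 h
    have e' : y ^ 2 = -(x * (D - x ^ 2)) := by rw [e]; ring
    rw [e', ord_neg, ord_mul hx h5] at h2
    omega

theorem lsq_of_curve {D x y : M} (h2 : ¬ Dv P 2) (hD : D ≠ 0) (hx : x ≠ 0)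
    (e : y ^ 2 = x ^ 3 - D * x) (hs : LSq P (-D)) (k : ℤ) (hk : Odd k) (h4 : ord P D = 2 * k)
    (hev : Even (ord P x)) : LSq P x := by
  rw [Int.even_iff] at hev
  rw [Int.odd_iff] at hk
  have hx2 := pow_ne_zero 2 hx
  have h1 := ord_pow (P := P) x 2
  push_cast at h1
  rcases lt_trichotomy (ord P (x ^ 2)) (ord P D) with h | h | h
  · obtain ⟨h5, -⟩ := ord_sub hx2 hD h
    have h6 := ((lsq_sq y).mul (lsq_sq x).inv).mul (lsq_one_sub h2 hx2 hD h).inv
    convert h6 using 1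
    rw [e]
    field_simp
  · omega
  · obtain ⟨h5, -⟩ := ord_sub hD hx2 h
    have h6 := ((lsq_sq y).mul hs.inv).mul (lsq_one_sub h2 hD hx2 h).inv
    convert h6 using 1
    rw [e]
    field_simp
    ring

/-- approximation at finitely many primes, integral at the other primes -/
theorem weak_approx (S : Finset (HeightOneSpectrum (𝓞 M)))
    (a : ∀ P : HeightOneSpectrum (𝓞 M), P.adicCompletion M) (n : ℕ) :
    ∃ x : M, (∀ P ∈ S, Valued.v (loc P x - a P) ≤ WithZero.exp (-(n : ℤ))) ∧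
      ∀ P ∉ S, P.valuation M x ≤ 1 := by
  classical
  have h1 : ∀ P : HeightOneSpectrum (𝓞 M), ∃ b : M,
      Valued.v (loc P b - a P) ≤ WithZero.exp (-(n : ℤ)) := by
    intro P
    obtain ⟨δ, hδ⟩ := HeightOneSpectrum.valuedAdicCompletion_surjective M P
      (WithZero.exp (-(n : ℤ)))
    have h0 : δ ≠ 0 := by
      rintro rfl
      rw [map_zero] at hδ
      exact WithZero.exp_ne_zero hδ.symm
    obtain ⟨b, hb⟩ := exists_near (a P) h0
    exact ⟨b, hδ ▸ hb.le⟩
  choose b hb using h1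
  obtain ⟨⟨d, hd⟩, hc⟩ := IsLocalization.exist_integer_multiples (nonZeroDivisors (𝓞 M)) S b
  have hd0 : d ≠ 0 := nonZeroDivisors.ne_zero hd
  have hd1 : algebraMap (𝓞 M) M d ≠ 0 := by simpa using hd0
  have h2 : ∀ P : HeightOneSpectrum (𝓞 M), ∃ c : 𝓞 M,
      (P ∈ S → algebraMap (𝓞 M) M c = algebraMap (𝓞 M) M d * b P) ∧ (P ∉ S → c = 0) := by
    intro P
    by_cases hP : P ∈ S
    · obtain ⟨c, hc'⟩ := hc P hP
      exact ⟨c, fun _ => by rw [hc', Algebra.smul_def], fun h => absurd hP h⟩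
    · exact ⟨0, fun h => absurd h hP, fun _ => rfl⟩
  choose c hc1 hc2 using h2
  have hfin := Ideal.finite_factors (I := Ideal.span {d}) (by simpa using hd0)
  obtain ⟨y, hy⟩ := IsDedekindDomain.exists_forall_sub_mem_ideal (s := S ∪ hfin.toFinset)
    (fun P => P.asIdeal) (fun P => n + (ord P (algebraMap (𝓞 M) M d)).toNat)
    (fun P _ => P.prime) (fun P _ Q _ h h' => h (HeightOneSpectrum.ext h')) (fun P => c P.1)
  have h3 : ∀ P ∈ S ∪ hfin.toFinset,
      P.valuation M (algebraMap (𝓞 M) M (y - c P) / algebraMap (𝓞 M) M d) ≤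
        WithZero.exp (-(n : ℤ)) := by
    intro P hP
    have h4 := (P.intValuation_le_pow_iff_mem _ _).2 (hy P hP)
    rw [← P.valuation_of_algebraMap (K := M)] at h4
    have hv : 0 < P.valuation M (algebraMap (𝓞 M) M d) := zero_lt_iff.2 ((map_ne_zero _).2 hd1)
    rw [map_div₀, div_le_iff₀ hv]
    refine h4.trans ?_
    rw [valuation_eq_exp_ord hd1, ← WithZero.exp_add, WithZero.exp_le_exp]
    push_cast
    omega
  refine ⟨algebraMap (𝓞 M) M y / algebraMap (𝓞 M) M d, fun P hP => ?_, fun P hP => ?_⟩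
  · have e : algebraMap (𝓞 M) M y / algebraMap (𝓞 M) M d =
        algebraMap (𝓞 M) M (y - c P) / algebraMap (𝓞 M) M d + b P := by
      rw [map_sub, hc1 P hP]
      field_simp
      ring
    rw [e, map_add, add_sub_assoc]
    refine Valuation.map_add_le _ ?_ (hb P)
    rw [v_loc]
    exact h3 P (Finset.mem_union_left _ hP)
  · by_cases hQ : P ∈ hfin.toFinset
    · have h4 := h3 P (Finset.mem_union_right _ hQ)
      rw [hc2 P hP, sub_zero] at h4
      refine h4.trans ?_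
      rw [← WithZero.exp_zero, WithZero.exp_le_exp]
      omega
    · have h4 : P.valuation M (algebraMap (𝓞 M) M d) = 1 := by
        refine le_antisymm (P.valuation_le_one _) (not_lt.1 fun h => hQ ?_)
        simpa using (P.valuation_lt_one_iff_dvd (K := M) d).1 h
      rw [map_div₀, h4, div_one]
      exact P.valuation_le_one _

end Pool.Agent.MP_14ad9d_nt
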