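import Pool.Agent.MP_14ad9d_nt.FrobD
import Pool.Agent.MP_14ad9d_nt.Loc

set_option autoImplicit false
set_option linter.unusedSectionVars false

open NumberField IsDedekindDomain Ideal

namespace Pool.Agent.MP_14ad9d_nt

variable {M L : Type*} [Field M] [NumberField M] [Field L] [NumberField L]

theorem dv_coe_iff {P : HeightOneSpectrum (𝓞 M)} (x : 𝓞 M) : Dv P (x : M) ↔ x ∈ P.asIdeal :=
  P.valuation_lt_one_iff_mem x

theorem dv_natCast_iff {P : HeightOneSpectrum (𝓞 M)} (n : ℕ) :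
    Dv P (n : M) ↔ (n : 𝓞 M) ∈ P.asIdeal := by
  rw [← dv_coe_iff]; simp

theorem valuation_le_one_of_isIntegral (P : HeightOneSpectrum (𝓞 M)) {x : M}
    (hx : IsIntegral ℤ x) : P.valuation M x ≤ 1 :=
  P.valuation_le_one (K := M) (⟨x, hx⟩ : 𝓞 M)

/-- the prime of `M` determined by an embedding into `L` and a prime of `L` -/
noncomputable def plc (σ : M →+* L) (Q : HeightOneSpectrum (𝓞 L)) : HeightOneSpectrum (𝓞 M) :=
  letI : Algebra M L := σ.toAlgebra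
  Q.under (𝓞 M)

theorem mem_plc (σ : M →+* L) (Q : HeightOneSpectrum (𝓞 L)) (x : 𝓞 M) :
    x ∈ (plc σ Q).asIdeal ↔ RingOfIntegers.mapRingHom σ x ∈ Q.asIdeal := Iff.rfl

theorem exists_valuation_plc (σ : M →+* L) (Q : HeightOneSpectrum (𝓞 L)) :
    ∃ e : ℕ, 0 < e ∧ ∀ x : M, Q.valuation L (σ x) = (plc σ Q).valuation M x ^ e := by
  letI : Algebra M L := σ.toAlgebra
  have : Q.asIdeal.LiesOver (plc σ Q).asIdeal := ⟨rfl⟩
  refine ⟨(plc σ Q).asIdeal.ramificationIdx' Q.asIdeal, Nat.pos_of_ne_zero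
    (IsDedekindDomain.ramificationIdx'_ne_zero_of_liesOver Q.asIdeal (plc σ Q).ne_bot), fun x => ?_⟩
  exact (HeightOneSpectrum.valuation_liesOver L (plc σ Q) Q x).symm

theorem liesOver_of_dv {p : ℕ} (hp : p.Prime) {Q : HeightOneSpectrum (𝓞 L)} (h : Dv Q (p : L)) :
    Q.asIdeal.LiesOver (span {(p : ℤ)}) := by
  have := Fact.mk hp
  have := Q.isPrime
  refine ⟨Ideal.IsMaximal.eq_of_le inferInstance (Ideal.IsPrime.ne_top inferInstance) ?_⟩
  rw [span_singleton_le_iff_mem, under_def, Ideal.mem_comap]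
  simpa using (dv_natCast_iff p).1 h

theorem valuation_prime {p : ℕ} (hp : p.Prime) (hd : ¬ (p : ℤ) ∣ discr L)
    {Q : HeightOneSpectrum (𝓞 L)} (h : Dv Q (p : L)) :
    Q.valuation L (p : L) = WithZero.exp (-1) := by
  have h1 := liesOver_of_dv hp h
  have := Q.isPrime
  have h2 := (not_dvd_discr_iff_isUnramifiedIn L (𝓞 L) (Nat.prime_iff_prime_int.1 hp)).1 hd
  have h3 := h2.ramificationIdx_eq_one h1
  have h0 : (span {(p : ℤ)} : Ideal ℤ) ≠ ⊥ := by simpa using hp.ne_zero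
  rw [← ramificationIdx'_eq_ramificationIdx (span {(p : ℤ)}) Q.asIdeal h0,
    IsDedekindDomain.ramificationIdx'_eq_multiplicity (map_ne_bot_of_ne_bot h0) this,
    Ideal.map_span, Set.image_singleton] at h3
  have h4 : ((p : 𝓞 L) : L) = (p : L) := by simp
  have h5 : (p : 𝓞 L) ≠ 0 := by exact_mod_cast hp.ne_zero
  rw [← h4, HeightOneSpectrum.valuation_of_algebraMap,
    HeightOneSpectrum.intValuation_eq_exp_neg_multiplicity Q h5]
  simp only [algebraMap_int_eq, map_natCast] at h3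
  rw [h3]; simp

theorem valuation_plc {p : ℕ} (hp : p.Prime) (hd : ¬ (p : ℤ) ∣ discr L)
    {Q : HeightOneSpectrum (𝓞 L)} (h : Dv Q (p : L)) (σ : M →+* L) (x : M) :
    Q.valuation L (σ x) = (plc σ Q).valuation M x := by
  obtain ⟨e, he, h1⟩ := exists_valuation_plc σ Q
  have h2 := h1 (p : M)
  have h3 : (p : M) ≠ 0 := by exact_mod_cast hp.ne_zero
  rw [map_natCast, valuation_prime hp hd h, valuation_eq_exp_ord h3, ← WithZero.exp_nsmul,
    WithZero.exp_inj] at h2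
  have h4 : (e : ℤ) * ord (plc σ Q) (p : M) = 1 := by
    simp only [nsmul_eq_mul] at h2; linarith
  have h5 : e = 1 := by
    have := Int.eq_one_of_mul_eq_one_right (by positivity) h4
    exact_mod_cast this
  rw [h1, h5, pow_one]

theorem plc_comp {N : Type*} [Field N] [NumberField N] (σ : M →+* L) (τ : L →+* N)
    (Q : HeightOneSpectrum (𝓞 N)) : plc (τ.comp σ) Q = plc σ (plc τ Q) := by
  ext x
  rfl

open Pointwise in
theorem exists_plc_eq [IsGalois ℚ L] {p : ℕ} (hp : p.Prime) {Q : HeightOneSpectrum (𝓞 L)}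
    (h : Dv Q (p : L)) (σ : M →+* L) (P : HeightOneSpectrum (𝓞 M)) (hP : Dv P (p : M)) :
    ∃ g : L ≃ₐ[ℚ] L, plc ((g : L →+* L).comp σ) Q = P := by
  letI : Algebra M L := σ.toAlgebra
  have := Fact.mk hp
  have h1 := liesOver_of_dv hp h
  have h2 := liesOver_of_dv hp hP
  have := P.isPrime
  have := Q.isPrime
  obtain ⟨Q', hQ1, hQ2⟩ := exists_ideal_over_prime_of_isIntegral_of_isDomain (S := 𝓞 L)
    P.asIdeal (by
      rw [(RingHom.injective_iff_ker_eq_bot _).1 (FaithfulSMul.algebraMap_injective (𝓞 M) (𝓞 L))]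
      exact bot_le)
  have : Q'.LiesOver P.asIdeal := ⟨hQ2.symm⟩
  have : Q'.LiesOver (span {(p : ℤ)}) := LiesOver.trans Q' P.asIdeal _
  obtain ⟨g, hg⟩ := exists_smul_eq_of_isGaloisGroup (span {(p : ℤ)}) Q' Q.asIdeal (L ≃ₐ[ℚ] L)
  refine ⟨g, ?_⟩
  ext x
  rw [mem_plc, ← hg, ← hQ2]
  exact Ideal.smul_mem_pointwise_smul_iff (a := g) (S := Q')
    (x := RingOfIntegers.mapRingHom σ x)

theorem exists_int_of_pow_sub {R : Type*} [CommRing R] (Q : Ideal R) [Q.IsPrime] {p : ℕ}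
    (hp : p.Prime) (hQ : (p : R) ∈ Q) (z : R) (hz : z ^ p - z ∈ Q) : ∃ c : ℤ, z - c ∈ Q := by
  have := Fact.mk hp
  have : CharP (R ⧸ Q) p := by
    refine (CharP.charP_iff_prime_eq_zero hp).2 ?_
    rw [← map_natCast (Ideal.Quotient.mk Q), Ideal.Quotient.eq_zero_iff_mem]
    exact hQ
  have h1 : Ideal.Quotient.mk Q z ^ p = Ideal.Quotient.mk Q z := by
    rw [← map_pow, Ideal.Quotient.eq]; exact hz
  let φ : R ⧸ Q →+* FractionRing (R ⧸ Q) := algebraMap _ _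
  have hφ : Function.Injective φ := IsFractionRing.injective _ _
  have : CharP (FractionRing (R ⧸ Q)) p := charP_of_injective_ringHom hφ p
  have h2 : φ (Ideal.Quotient.mk Q z) ∈ (⊥ : Subfield (FractionRing (R ⧸ Q))) := by
    rw [Subfield.mem_bot_iff_pow_eq_self _ p, ← map_pow, h1]
  obtain ⟨c, hc⟩ := (mem_bot_iff_intCast p _).1 h2
  refine ⟨c, ?_⟩
  rw [← Ideal.Quotient.eq, map_intCast]
  apply hφ
  rw [← hc, map_intCast]

open Pointwise in
/-- primes with prescribed decomposition behaviour have positive density -/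
theorem frob_places [IsGalois ℚ L] (γ : L ≃ₐ[ℚ] L) :
    PosDens {p : ℕ | p.Prime ∧ ∃ Q : HeightOneSpectrum (𝓞 L), Dv Q (p : L) ∧
      plc (γ : L →+* L) Q = Q ∧
      ∀ z : L, IsIntegral ℤ z → γ z = z → ∃ c : ℤ, Dv Q (z - c)} := by
  refine (frob_dens γ).mono ∅ ?_
  rintro p ⟨hp, Q, ⟨hQ1, hQ2⟩, σ, hσ, hz⟩ -
  have h0 : (span {(p : ℤ)} : Ideal ℤ) ≠ ⊥ := by simpa using hp.ne_zero
  have hpQ : (p : 𝓞 L) ∈ Q := by
    have : (p : ℤ) ∈ Q.under ℤ := by rw [← hQ2.over]; exact mem_span_singleton_self _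
    simpa [under_def] using this
  refine ⟨hp, ⟨Q, hQ1, ne_bot_of_liesOver_of_ne_bot h0 Q⟩, (dv_natCast_iff p).2 hpQ, ?_, ?_⟩
  · have h1 : γ ∈ MulAction.stabilizer (L ≃ₐ[ℚ] L) Q :=
      (Subgroup.zpowers_le_of_mem hσ.mem_stabilizer) (hz ▸ Subgroup.mem_zpowers γ)
    ext x
    rw [mem_plc]
    change γ • x ∈ Q ↔ x ∈ Q
    conv_lhs => rw [← MulAction.mem_stabilizer_iff.1 h1]
    exact Ideal.smul_mem_pointwise_smul_iff
  · intro z hzi hγ
    let z' : 𝓞 L := ⟨z, hzi⟩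
    have h1 : σ ∈ MulAction.stabilizer (L ≃ₐ[ℚ] L) z' :=
      (Subgroup.zpowers_le_of_mem (H := MulAction.stabilizer (L ≃ₐ[ℚ] L) z')
        (show γ • z' = z' from Subtype.ext hγ)) (hz ▸ Subgroup.mem_zpowers σ)
    have hq : Nat.card (ℤ ⧸ Q.under ℤ) = p := by rw [← hQ2.over, Int.card_ideal_quot]
    have h2 := hσ.mk_apply z'
    have h3 : (MulSemiringAction.toAlgHom ℤ (𝓞 L) σ) z' = z' := h1
    rw [h3, hq, ← map_pow] at h2
    obtain ⟨c, hc⟩ := exists_int_of_pow_sub Q hp hpQ z' (Ideal.Quotient.eq.1 h2.symm)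
    refine ⟨c, ?_⟩
    have := (dv_coe_iff (P := ⟨Q, hQ1, ne_bot_of_liesOver_of_ne_bot h0 Q⟩) (z' - c)).2 hc
    simpa [z'] using this

end Pool.Agent.MP_14ad9d_nt
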