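import Pool.Agent.MP_14ad9d_nt.Defs

set_option autoImplicit false

namespace Pool.Agent.MP_14ad9d_nt

namespace EcA

theorem gi_re (g : GaussianInt) : (gi g).re = g.re := by
  simp [gi, iF]

theorem gi_im (g : GaussianInt) : (gi g).im = g.im := by
  simp [gi, iF]

theorem gi_i : gi ⟨0, 1⟩ = iF := by
  ext <;> simp [gi_re, gi_im, iF]

/-- Gaussian numbers with odd denominator -/
def A : Subring Fi where
  carrier := {u | ∃ d : ℕ, Odd d ∧ ∃ g : GaussianInt, (d : Fi) * u = gi g}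
  mul_mem' := by
    rintro u v ⟨d, hd, g, hg⟩ ⟨e, he, h, hh⟩
    exact ⟨d * e, hd.mul he, g * h, by rw [map_mul, ← hg, ← hh]; push_cast; ring⟩
  one_mem' := ⟨1, odd_one, 1, by simp⟩
  add_mem' := by
    rintro u v ⟨d, hd, g, hg⟩ ⟨e, he, h, hh⟩
    refine ⟨d * e, hd.mul he, e * g + d * h, ?_⟩
    rw [map_add, map_mul, map_mul, ← hg, ← hh, map_natCast, map_natCast]
    push_cast
    ring
  zero_mem' := ⟨1, odd_one, 0, by simp⟩
  neg_mem' := by
    rintro u ⟨d, hd, g, hg⟩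
    exact ⟨d, hd, -g, by rw [map_neg, ← hg]; ring⟩

theorem gi_mem (g : GaussianInt) : gi g ∈ A := ⟨1, odd_one, g, by simp⟩

theorem twoInt {u : Fi} (hu : u ∈ A) : TwoInt u.re ∧ TwoInt u.im := by
  obtain ⟨d, hd, g, hg⟩ := hu
  have h1 := congrArg QuadraticAlgebra.re hg
  have h2 := congrArg QuadraticAlgebra.im hg
  rw [gi_re] at h1
  rw [gi_im] at h2
  simp only [QuadraticAlgebra.re_mul, QuadraticAlgebra.im_mul, QuadraticAlgebra.re_natCast,
    QuadraticAlgebra.im_natCast, zero_mul, mul_zero, add_zero] at h1 h2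
  refine ⟨⟨d, hd, ?_⟩, ⟨d, hd, ?_⟩⟩
  · rw [h1]
    exact isIntegral_algebraMap (R := ℤ) (x := g.re)
  · rw [h2]
    exact isIntegral_algebraMap (R := ℤ) (x := g.im)

/-- units of `A` -/
def U (u : Fi) : Prop := u ≠ 0 ∧ u ∈ A ∧ u⁻¹ ∈ A

theorem U.mul {u v : Fi} (hu : U u) (hv : U v) : U (u * v) :=
  ⟨mul_ne_zero hu.1 hv.1, A.mul_mem hu.2.1 hv.2.1, by
    rw [mul_inv]; exact A.mul_mem hu.2.2 hv.2.2⟩

theorem U.inv {u : Fi} (hu : U u) : U u⁻¹ := ⟨inv_ne_zero hu.1, hu.2.2, by simpa using hu.2.1⟩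

theorem U.neg {u : Fi} (hu : U u) : U (-u) :=
  ⟨neg_ne_zero.2 hu.1, A.neg_mem hu.2.1, by rw [inv_neg]; exact A.neg_mem hu.2.2⟩

theorem U_gi {g : GaussianInt} (hg : Odd g.norm) : U (gi g) := by
  have h0 : ((g.norm.natAbs : ℕ) : ℤ) = g.norm := Int.natAbs_of_nonneg (GaussianInt.norm_nonneg g)
  have h1 : ((g.norm.natAbs : ℕ) : Fi) = gi g * gi (star g) := by
    rw [← map_mul, ← Zsqrtd.norm_eq_mul_conj, map_intCast, ← h0]
    simp
  have h2 : Odd g.norm.natAbs := Int.natAbs_odd.2 hg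
  have h3 : gi g ≠ 0 := by
    intro h
    rw [h, zero_mul, Nat.cast_eq_zero] at h1
    rw [h1] at h2
    simp at h2
  exact ⟨h3, gi_mem g, _, h2, star g, by rw [h1]; field_simp⟩

theorem U_one_add {a : Fi} (ha : a ∈ A) : U (1 + 2 * a) := by
  obtain ⟨d, hd, g, hg⟩ := ha
  have h1 : Odd ((d : GaussianInt)).norm := by
    rw [Zsqrtd.norm_natCast]
    exact (Int.odd_coe_nat d).2 hd |>.mul ((Int.odd_coe_nat d).2 hd)
  have h2 : Odd ((d : GaussianInt) + 2 * g).norm := by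
    obtain ⟨k, hk⟩ := hd
    refine ⟨2 * k ^ 2 + 2 * k + 2 * (d * g.re) + 2 * (g.re ^ 2 + g.im ^ 2), ?_⟩
    have e : (2 : GaussianInt) = ((2 : ℕ) : GaussianInt) := rfl
    rw [Zsqrtd.norm_def, e, hk]
    simp
    ring
  have h3 := (U_gi h2).mul (U_gi h1).inv
  have h4 := (U_gi h1).1
  rw [map_add, map_mul, ← hg, map_ofNat] at h3
  rw [map_natCast] at h3 h4
  convert h3 using 1
  field_simp

theorem not_half : (2 : Fi)⁻¹ ∉ A := by
  rintro ⟨d, hd, g, hg⟩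
  have h : (d : Fi) = gi (2 * g) := by
    rw [map_mul, ← hg, map_ofNat]
    field_simp
  have h1 := congrArg QuadraticAlgebra.re h
  have e : (2 : GaussianInt) = ((2 : ℕ) : GaussianInt) := rfl
  rw [gi_re, e] at h1
  simp at h1
  have h2 : (d : ℤ) = 2 * g.re := by
    have h3 : ((d : ℤ) : ℚ) = ((2 * g.re : ℤ) : ℚ) := by push_cast; exact h1
    exact Int.cast_injective h3
  obtain ⟨k, hk⟩ := hd
  omega

theorem step {D : Fi} (hD : D ∈ A)
    (h0 : ∃ τ ζ : Fi, U τ ∧ U ζ ∧ ζ ^ 2 * (1 - 2 * D * τ ^ 2) = τ) (k : ℕ) :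
    ∃ τ ζ : Fi, U τ ∧ U ζ ∧ ζ ^ 2 * (1 - 2 * D * (-4) ^ k * τ ^ 2) = τ := by
  induction k with
  | zero => simpa using h0
  | succ k ih =>
    obtain ⟨τ, ζ, hτ, hζ, h⟩ := ih
    have h4 : (-4 : Fi) ∈ A := by simp
    have he : D * (-4) ^ k * τ ^ 2 ∈ A :=
      A.mul_mem (A.mul_mem hD (A.pow_mem h4 k)) (A.pow_mem hτ.2.1 2)
    have u1 := U_one_add he
    have u2 := U_one_add (A.neg_mem he)
    refine ⟨ζ * ζ, ζ * (1 + 2 * -(D * (-4) ^ k * τ ^ 2)) * (1 + 2 * (D * (-4) ^ k * τ ^ 2))⁻¹,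
      hζ.mul hζ, (hζ.mul u2).mul u1.inv, ?_⟩
    have n1 := u1.1
    rw [pow_succ (-4 : Fi) k]
    generalize (-4 : Fi) ^ k = c at h n1 ⊢
    have n2 := mul_inv_cancel₀ n1
    generalize (1 + 2 * (D * c * τ ^ 2))⁻¹ = r at n2 ⊢
    linear_combination (8 * D * c * ζ ^ 2 * r ^ 2 * (ζ ^ 2 * (1 - 2 * D * c * τ ^ 2) + τ)) * h +
      ζ ^ 2 * ((1 + 2 * (D * c * τ ^ 2)) * r + 1) * n2

theorem start (c β : GaussianInt) (hβ : Odd β.norm) :
    ∃ τ ζ : Fi, U τ ∧ U ζ ∧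
      ζ ^ 2 * (1 - 2 * (2048 * gi c ^ 2 * gi β * (64 * gi c + gi β)) * τ ^ 2) = τ := by
  have ub := U_gi hβ
  have n16 : (16 : Fi) ∈ A := by simp
  have n1024 : (1024 : Fi) ∈ A := by simp
  have us : U (gi β + 32 * gi c) := by
    have := ub.mul (U_one_add (A.mul_mem (A.mul_mem n16 (gi_mem c)) ub.2.2))
    have h := ub.1
    convert this using 1
    field_simp
    ring
  have uq : U ((gi β + 32 * gi c) ^ 2 - 2048 * gi c ^ 2) := by
    have := (us.mul us).mul (U_one_add (A.neg_mem (A.mul_mem (A.mul_mem n1024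
      (A.pow_mem (gi_mem c) 2)) (us.mul us).2.2)))
    have h := us.1
    convert this using 1
    field_simp
    ring
  have ui : U iF := by
    rw [← gi_i]
    exact U_gi (by simp [Zsqrtd.norm_def])
  refine ⟨-((gi β + 32 * gi c) * (gi β + 32 * gi c))⁻¹,
    iF * (gi β + 32 * gi c) * ((gi β + 32 * gi c) ^ 2 - 2048 * gi c ^ 2)⁻¹,
    (us.mul us).inv.neg, (ui.mul us).mul uq.inv, ?_⟩
  have h1 := us.1
  have h2 := uq.1
  have h3 : 2 * (2048 * gi c ^ 2 * gi β * (64 * gi c + gi β)) = (gi β + 32 * gi c) ^ 4 -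
      ((gi β + 32 * gi c) ^ 2 - 2048 * gi c ^ 2) ^ 2 := by ring
  rw [mul_pow, mul_pow, iF_sq, h3]
  generalize (gi β + 32 * gi c) ^ 2 - 2048 * gi c ^ 2 = q at h2 ⊢
  generalize gi β + 32 * gi c = s at h1 ⊢
  field_simp
  ring

end EcA

open EcA in
/-- infinitely many Gaussian points in the kernel of reduction at `2` -/
theorem ecA (α β γ : GaussianInt) (h : γ - β = α) (hα : α ≠ 0) (h64 : (64 : GaussianInt) ∣ α)
    (hβ : Odd β.norm) :
    {zw : Fi × Fi | 2 * zw.2 = (2 * zw.1) ^ 3 - gi (α ^ 2 * β * γ) * (2 * zw.1) * (2 * zw.2) ^ 2 ∧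
      TwoInt zw.1.re ∧ TwoInt zw.1.im ∧ TwoInt zw.2.re ∧ TwoInt zw.2.im}.Infinite := by
  obtain ⟨c, rfl⟩ := h64
  obtain rfl : γ = 64 * c + β := by rw [← h]; ring
  set D : Fi := 2048 * gi c ^ 2 * gi β * (64 * gi c + gi β) with hD
  have hD2 : gi ((64 * c) ^ 2 * β * (64 * c + β)) = 2 * D := by
    simp only [map_mul, map_add, map_pow, map_ofNat, hD]
    ring
  have hDA : D ∈ A := by
    have := gi_mem (2048 * c ^ 2 * β * (64 * c + β))
    simpa only [map_mul, map_add, map_pow, map_ofNat] using this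
  choose τ ζ hτ hζ hk using step hDA (start c β hβ)
  have hi : iF ∈ A := gi_i ▸ gi_mem _
  have h2 : (2 : Fi) ∈ A := by simp
  have hi0 : iF ≠ 0 := by
    intro h0
    have := iF_sq
    rw [h0] at this
    simp at this
  refine Set.infinite_of_injective_forall_mem
    (f := fun m : ℕ => (iF * (2 * iF) ^ m * ζ (2 * (m + 1)),
      iF * (2 * iF) ^ m * ζ (2 * (m + 1)) * ((-4) ^ (m + 1) * τ (2 * (m + 1))))) ?_ ?_
  · have key : ∀ m n : ℕ, m < n →
        iF * (2 * iF) ^ m * ζ (2 * (m + 1)) ≠ iF * (2 * iF) ^ n * ζ (2 * (n + 1)) := by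
      intro m n hmn he
      obtain ⟨j, rfl⟩ := Nat.exists_eq_add_of_lt hmn
      apply not_half
      have e : (2 : Fi)⁻¹ = iF * (2 * iF) ^ j * ζ (2 * (m + j + 1 + 1)) * (ζ (2 * (m + 1)))⁻¹ := by
        have n1 := (hζ (2 * (m + 1))).1
        have n2 : (2 * iF) ^ m ≠ 0 := pow_ne_zero _ (mul_ne_zero two_ne_zero hi0)
        field_simp
        apply mul_left_cancel₀ (mul_ne_zero hi0 n2)
        rw [he]
        ring
      rw [e]
      exact A.mul_mem (A.mul_mem (A.mul_mem hi (A.pow_mem (A.mul_mem h2 hi) j)) (hζ _).2.1)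
        (hζ _).2.2
    intro m n hmn
    have e := congrArg Prod.fst hmn
    rcases lt_trichotomy m n with h' | h' | h'
    · exact absurd e (key m n h')
    · exact h'
    · exact absurd e.symm (key n m h')
  · intro m
    have h4 : (-4 : Fi) ∈ A := by simp
    have z1 : iF * (2 * iF) ^ m * ζ (2 * (m + 1)) ∈ A :=
      A.mul_mem (A.mul_mem hi (A.pow_mem (A.mul_mem h2 hi) m)) (hζ _).2.1
    have z2 := A.mul_mem z1 (A.mul_mem (A.pow_mem h4 (m + 1)) (hτ (2 * (m + 1))).2.1)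
    refine ⟨?_, (twoInt z1).1, (twoInt z1).2, (twoInt z2).1, (twoInt z2).2⟩
    have e1 := hk (2 * (m + 1))
    have e2 : (2 * (iF * (2 * iF) ^ m)) ^ 2 = (-4) ^ (m + 1) := by
      have : (-4 : Fi) = (2 * iF) ^ 2 := by rw [mul_pow, iF_sq]; norm_num
      rw [this, ← mul_assoc, ← pow_succ', ← pow_mul, ← pow_mul, mul_comm (m + 1) 2]
    rw [mul_comm 2 (m + 1), pow_mul, mul_comm (m + 1) 2] at e1
    rw [hD2]
    dsimp only
    rw [← e2] at e1 ⊢
    generalize iF * (2 * iF) ^ m = r at e1 ⊢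
    linear_combination (-8 * r ^ 3 * ζ (2 * (m + 1))) * e1

namespace EcA

theorem jac_abs {p : ℕ} (hp : p % 4 = 1) {n : ℤ} (hn : Odd n) :
    jacobiSym n p = jacobiSym p n.natAbs := by
  have ho : Odd p := by rw [Nat.odd_iff]; omega
  rw [jacobiSym.quadratic_reciprocity_one_mod_four hp (Int.natAbs_odd.2 hn)]
  rcases Int.natAbs_eq n with h | h
  · rw [← h]
  · conv_lhs => rw [h]
    rw [jacobiSym.neg _ ho, ZMod.χ₄_nat_one_mod_four hp, one_mul]

theorem jac_congr {a b n : ℤ} (h : n ∣ b - a) : jacobiSym a n.natAbs = jacobiSym b n.natAbs :=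
  jacobiSym.mod_left' ((Int.modEq_iff_dvd.2 (Int.natAbs_dvd.2 h)))

theorem prim (p : ℕ) (hp : p.Prime) (hp2 : p ≠ 2) (π : GaussianInt) (hπ : π.norm = p)
    (a b : ℤ) (ha : π ∣ (a : GaussianInt) ^ 2 - ⟨0, 1⟩) (hb : π ∣ (b : GaussianInt) ^ 2 - ⟨1, 1⟩)
    (hx : Odd π.re) : Prim π := by
  have : Fact p.Prime := ⟨hp⟩
  obtain ⟨x, y⟩ := π
  have hxy : x * x + y * y = p := by
    rw [← hπ, Zsqrtd.norm_def]
    ring
  dsimp only at hx
  have h0 : (x : ZMod p) * x + y * y = 0 := by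
    have := congrArg (Int.cast : ℤ → ZMod p) hxy
    simpa using this
  have hne : ¬ ((x : ZMod p) = 0 ∧ (y : ZMod p) = 0) := by
    rintro ⟨h1, h2⟩
    obtain ⟨s, rfl⟩ := (ZMod.intCast_zmod_eq_zero_iff_dvd _ _).1 h1
    obtain ⟨t, rfl⟩ := (ZMod.intCast_zmod_eq_zero_iff_dvd _ _).1 h2
    have hp0 : (p : ℤ) ≠ 0 := by exact_mod_cast hp.ne_zero
    have h3 : (p : ℤ) * (s * s + t * t) = 1 := by
      apply mul_left_cancel₀ hp0
      linear_combination hxy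
    have h4 : (p : ℤ) ∣ 1 := ⟨_, h3.symm⟩
    exact hp.not_dvd_one (by exact_mod_cast h4)
  have hy0 : (y : ZMod p) ≠ 0 := fun h =>
    hne ⟨by rw [h, mul_zero, add_zero] at h0; exact mul_self_eq_zero.1 h0, h⟩
  have hx0 : (x : ZMod p) ≠ 0 := fun h =>
    hy0 (by rw [h, mul_zero, zero_add] at h0; exact mul_self_eq_zero.1 h0)
  obtain ⟨ι, hι⟩ : ∃ ι : ZMod p, ι = -x / y := ⟨_, rfl⟩
  have hι2 : ι * ι = -1 := by
    rw [hι]
    field_simp
    linear_combination h0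
  let φ : GaussianInt →+* ZMod p := Zsqrtd.lift ⟨ι, by rw [hι2]; simp⟩
  have hφ : ∀ g : GaussianInt, φ g = g.re + g.im * ι := fun g => rfl
  have hπ0 : φ ⟨x, y⟩ = 0 := by
    rw [hφ, hι]
    field_simp
    ring
  have ea : (a : ZMod p) ^ 2 = ι := by
    have := map_dvd φ ha
    rw [hπ0, zero_dvd_iff, map_sub, map_pow, map_intCast, hφ] at this
    simpa [sub_eq_zero] using this
  have eb : (b : ZMod p) ^ 2 = 1 + ι := by
    have := map_dvd φ hb
    rw [hπ0, zero_dvd_iff, map_sub, map_pow, map_intCast, hφ] at this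
    simpa [sub_eq_zero] using this
  have h20 : (2 : ZMod p) ≠ 0 := by
    intro h
    have : p ∣ 2 := (ZMod.natCast_eq_zero_iff 2 p).1 (by exact_mod_cast h)
    exact hp2 ((Nat.prime_dvd_prime_iff_eq hp Nat.prime_two).1 this)
  have a4 : (a : ZMod p) ^ 2 ^ 2 = -1 := by linear_combination (a ^ 2 + ι) * ea + hι2
  have ho : orderOf (a : ZMod p) = 2 ^ (2 + 1) := by
    refine orderOf_eq_prime_pow (fun h => h20 ?_) ?_
    · linear_combination a4 - h
    · linear_combination ((a : ZMod p) ^ 4 - 1) * a4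
  have ha0 : (a : ZMod p) ≠ 0 := by
    intro h
    rw [h] at a4
    simp at a4
  have h8 := ZMod.orderOf_dvd_card_sub_one ha0
  rw [ho] at h8
  have hp1 := hp.one_lt
  have hp4 : p % 4 = 1 := by omega
  have hy4 : 4 ∣ y := by
    obtain ⟨k, rfl⟩ := hx
    obtain ⟨l, hl⟩ := Int.even_mul_succ_self k
    have e : y * y = p - 1 - 8 * l := by linear_combination hxy - 4 * hl
    have e8 : (8 : ℤ) ∣ y * y := by omega
    have e4 : y % 4 = 0 ∨ y % 4 = 1 ∨ y % 4 = 2 ∨ y % 4 = 3 := by omega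
    have e5 : y * y % 8 = 0 := by omega
    have e6 : y % 8 = 0 ∨ y % 8 = 1 ∨ y % 8 = 2 ∨ y % 8 = 3 ∨ y % 8 = 4 ∨ y % 8 = 5 ∨
      y % 8 = 6 ∨ y % 8 = 7 := by omega
    rcases e6 with h | h | h | h | h | h | h | h <;> simp [Int.mul_emod, h] at e5 <;> omega
  have hn : Odd (y - x) := by
    obtain ⟨k, rfl⟩ := hx
    obtain ⟨l, rfl⟩ := hy4
    exact ⟨2 * l - k - 1, by ring⟩
  have eyx : (y : ZMod p) = ι * x := by
    rw [hι]
    field_simp
    linear_combination h0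
  have j1 : jacobiSym (y - x) p = jacobiSym (a * b) p ^ 2 * jacobiSym y x.natAbs ^ 2 := by
    have e : ((y - x : ℤ) : ZMod p) = (((a * b) ^ 2 * x : ℤ) : ZMod p) := by
      push_cast
      rw [mul_pow, ea, eb, eyx]
      linear_combination (-x : ZMod p) * hι2
    rw [jacobiSym.mod_left' ((ZMod.intCast_eq_intCast_iff' _ _ _).1 e), jacobiSym.mul_left,
      jacobiSym.pow_left, jac_abs hp4 hx, jac_congr (b := y ^ 2) ⟨-x, by linear_combination hxy⟩,
      jacobiSym.pow_left]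
  have j2 : jacobiSym (y - x) p =
      ZMod.χ₈ ((y - x).natAbs : ZMod 8) * jacobiSym x (y - x).natAbs ^ 2 := by
    rw [jac_abs hp4 hn, jac_congr (b := 2 * x ^ 2) ⟨-(y + x), by linear_combination hxy⟩,
      jacobiSym.mul_left, jacobiSym.pow_left, jacobiSym.at_two (Int.natAbs_odd.2 hn)]
  have j3 : jacobiSym (y - x) p ≠ 0 := by
    rw [← jacobiSym.legendreSym.to_jacobiSym, Ne, legendreSym.eq_zero_iff]
    push_cast
    intro h
    have e : ι = 1 := by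
      apply mul_right_cancel₀ hx0
      linear_combination h - eyx
    rw [e] at hι2
    exact h20 (by linear_combination hι2)
  have j4 : (y - x).natAbs % 8 = 1 ∨ (y - x).natAbs % 8 = 7 := by
    by_contra hc
    have hodd : ¬ (y - x).natAbs % 2 = 0 := by
      have := Nat.odd_iff.1 (Int.natAbs_odd.2 hn)
      omega
    rw [ZMod.χ₈_nat_eq_if_mod_eight, if_neg hodd, if_neg hc] at j2
    have p1 : 0 ≤ jacobiSym (y - x) p := by rw [j1]; positivity
    have p2 : jacobiSym (y - x) p ≤ 0 := by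
      rw [j2]
      nlinarith [sq_nonneg (jacobiSym x (y - x).natAbs)]
    exact j3 (le_antisymm p2 p1)
  obtain ⟨l, rfl⟩ := hy4
  have j5 : (∃ k, x - 1 = 4 * l + 8 * k) ∨ ∃ k, x + 1 = 4 * l + 8 * k := by
    have : (x - 1 - 4 * l) % 8 = 0 ∨ (x + 1 - 4 * l) % 8 = 0 := by omega
    rcases this with h | h
    · exact Or.inl ⟨(x - 1 - 4 * l) / 8, by omega⟩
    · exact Or.inr ⟨(x + 1 - 4 * l) / 8, by omega⟩
  rcases j5 with ⟨k, hk⟩ | ⟨k, hk⟩
  · exact Or.inl ⟨⟨l + k, -k⟩, by ext <;> simp <;> omega⟩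
  · exact Or.inr ⟨⟨l + k, -k⟩, by ext <;> simp <;> omega⟩

end EcA

/-- supplementary laws for Gaussian primes -/
theorem exists_prim (p : ℕ) (hp : p.Prime) (hp2 : p ≠ 2) (π : GaussianInt) (hπ : π.norm = p)
    (a b : ℤ) (ha : π ∣ (a : GaussianInt) ^ 2 - ⟨0, 1⟩) (hb : π ∣ (b : GaussianInt) ^ 2 - ⟨1, 1⟩) :
    ∃ u : GaussianInt, IsUnit u ∧ Prim (u * π) := by
  by_cases hx : Odd π.re
  · exact ⟨1, isUnit_one, by rw [one_mul]; exact EcA.prim p hp hp2 π hπ a b ha hb hx⟩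
  · have hu : IsUnit (⟨0, 1⟩ : GaussianInt) :=
      IsUnit.of_mul_eq_one ⟨0, -1⟩ (by ext <;> simp)
    refine ⟨⟨0, 1⟩, hu, EcA.prim p hp hp2 _ ?_ a b (hu.mul_left_dvd.2 ha) (hu.mul_left_dvd.2 hb) ?_⟩
    · rw [Zsqrtd.norm_mul, hπ]
      simp [Zsqrtd.norm_def]
    · have ho : Odd (p : ℤ) := (Int.odd_coe_nat p).2 (hp.odd_of_ne_two hp2)
      rw [← hπ, Zsqrtd.norm_def] at ho
      have : Odd π.im := by
        by_contra hc
        rw [Int.not_odd_iff_even] at hx hc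
        exact Int.not_odd_iff_even.2 ((hx.mul_right _).sub (hc.mul_left _)) ho
      simpa using this

end Pool.Agent.MP_14ad9d_nt
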