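import Pool.Agent.MP_14ad9d_nt.EcB2

set_option autoImplicit false

open NumberField WeierstrassCurve WeierstrassCurve.Affine

namespace Pool.Agent.MP_14ad9d_nt

namespace EcB

variable {F M : Type} [Field F] [NumberField F] [Field M] [NumberField M] [Algebra F M]
  [DecidableEq M] [DecidableEq (AlgebraicClosure F)] {D : F}

/-- the trace to the algebraic closure -/
noncomputable def Tr (D : F) (M : Type) [Field M] [NumberField M] [Algebra F M] [DecidableEq M] :
    (Ec D M).Point →+ (Ec D (AlgebraicClosure F)).Point :=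
  ∑ σ : M →ₐ[F] AlgebraicClosure F, Point.map (W' := Wc D) σ

lemma Tr_apply (P : (Ec D M).Point) :
    Tr D M P = ∑ σ : M →ₐ[F] AlgebraicClosure F, Point.map (W' := Wc D) σ P := by
  simp [Tr, AddMonoidHom.finsetSum_apply]

/-- composition with an automorphism permutes the embeddings -/
noncomputable def perm (g : AlgebraicClosure F ≃ₐ[F] AlgebraicClosure F) :
    (M →ₐ[F] AlgebraicClosure F) ≃ (M →ₐ[F] AlgebraicClosure F) :=
  AlgEquiv.arrowCongr AlgEquiv.refl g

omit [NumberField F] [NumberField M] in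
lemma map_perm (g : AlgebraicClosure F ≃ₐ[F] AlgebraicClosure F)
    (σ : M →ₐ[F] AlgebraicClosure F) (P : (Ec D M).Point) :
    Point.map (W' := Wc D) (g : AlgebraicClosure F →ₐ[F] AlgebraicClosure F)
      (Point.map (W' := Wc D) σ P) = Point.map (W' := Wc D) (perm g σ) P := by
  rw [Point.map_map]
  rfl

lemma Tr_fixed (g : AlgebraicClosure F ≃ₐ[F] AlgebraicClosure F) (P : (Ec D M).Point) :
    Point.map (W' := Wc D) (g : AlgebraicClosure F →ₐ[F] AlgebraicClosure F) (Tr D M P) =
      Tr D M P := by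
  rw [Tr_apply, map_sum]
  simp only [map_perm]
  exact Equiv.sum_comp (perm g) fun σ => Point.map (W' := Wc D) σ P

lemma Tr_const (P : (Ec D M).Point) (R : (Ec D (AlgebraicClosure F)).Point)
    (h : ∀ σ : M →ₐ[F] AlgebraicClosure F, Point.map (W' := Wc D) σ P = R) :
    Tr D M P = Module.finrank F M • R := by
  rw [Tr_apply]
  simp only [h]
  rw [Finset.sum_const, Finset.card_univ, AlgHom.card]

lemma Tr_phi (hD : D ≠ 0) {i : F} (hi : i ^ 2 = -1) (P : (Ec D M).Point) :
    Tr D M (phi hD hi P) = phi hD hi (Tr D M P) := by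
  rw [Tr_apply, Tr_apply, map_sum]
  simp only [phi_map]

lemma Tr_T (hD : D ≠ 0) (hodd : Odd (Module.finrank F M)) : Tr D M (T hD) = T hD := by
  rw [Tr_const _ _ (T_map hD)]
  obtain ⟨k, hk⟩ := hodd
  rw [hk, add_nsmul, one_nsmul, mul_nsmul, two_nsmul, T_add_T, nsmul_zero, zero_add]

/-- the sign character of the kernel -/
noncomputable def sg {L : Type} [Field L] [Algebra F L] [DecidableEq L]
    (e : (Ec D L).Point) : L := if e = 0 then 1 else -1

omit [NumberField F] [DecidableEq (AlgebraicClosure F)] in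
lemma sf_add_ker {L : Type} [Field L] [Algebra F L] [DecidableEq L] [CharZero L] (hD : D ≠ 0)
    (i : F) (P e : (Ec D L).Point) (he : e = 0 ∨ e = T hD) : sf i (P + e) = sg e * sf i P := by
  rcases he with rfl | rfl
  · simp [sg]
  · rw [sf_add_T, sg, if_neg (T_ne hD)]
    ring

omit [NumberField F] [DecidableEq (AlgebraicClosure F)] in
lemma sg_sum {L : Type} [Field L] [Algebra F L] [DecidableEq L] [CharZero L] (hD : D ≠ 0)
    {ι : Type*} (s : Finset ι) (e : ι → (Ec D L).Point) (he : ∀ a, e a = 0 ∨ e a = T hD) :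
    (∑ a ∈ s, e a = 0 ∨ ∑ a ∈ s, e a = T hD) ∧ sg (∑ a ∈ s, e a) = ∏ a ∈ s, sg (e a) := by
  classical
  induction s using Finset.induction_on with
  | empty => simp [sg]
  | insert a s ha ih =>
    rw [Finset.sum_insert ha, Finset.prod_insert ha, ← ih.2]
    have hT := T_ne (L := L) hD
    rcases he a with h1 | h1 <;> rcases ih.1 with h2 | h2 <;> rw [h1, h2] <;>
      simp [sg, hT, T_add_T]

lemma claimN (hD : D ≠ 0) {i : F} (hi : i ^ 2 = -1) {x y : M} (h : (Ec D M).Nonsingular x y)
    (hx : x ≠ 0) (hT : Tr D M (.some x y h) = 0) : IsSquare (Algebra.norm F x) := by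
  have hR : ∀ σ : M →ₐ[F] AlgebraicClosure F, ∃ R,
      phi hD hi R = Point.map (W' := Wc D) σ (.some x y h) := by
    intro σ
    obtain ⟨s, hs⟩ := IsAlgClosed.exists_pow_nat_eq (σ x) two_pos
    rw [Point.map_some]
    exact lift hD hi _ (by simpa using hx) s hs.symm
  choose R hR using hR
  have hker : ∑ σ, R σ = 0 ∨ ∑ σ, R σ = T hD := by
    apply ker_phi hD hi
    rw [map_sum]
    simp only [hR]
    rw [← Tr_apply, hT]
  have hfix : ∀ g : AlgebraicClosure F ≃ₐ[F] AlgebraicClosure F,
      g (∏ σ, sf i (R σ)) = ∏ σ, sf i (R σ) := by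
    intro g
    let G := Point.map (W' := Wc D) (g : AlgebraicClosure F →ₐ[F] AlgebraicClosure F)
    let e := fun σ => G (R σ) - R (perm g σ)
    have he : ∀ σ, e σ = 0 ∨ e σ = T hD := by
      intro σ
      apply ker_phi hD hi
      rw [map_sub, ← phi_map, hR, hR, map_perm, sub_self]
    have hsum : ∑ σ, e σ = 0 := by
      rw [Finset.sum_sub_distrib, ← map_sum, Equiv.sum_comp (perm g) R, sub_eq_zero]
      rcases hker with h0 | h0 <;> rw [h0]
      · exact map_zero _
      · exact T_map hD _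
    have h1 : ∀ σ, g (sf i (R σ)) = sg (e σ) * sf i (R (perm g σ)) := by
      intro σ
      rw [← sf_add_ker hD i _ _ (he σ), add_sub_cancel, sf_map]
      rfl
    rw [map_prod]
    simp only [h1]
    rw [Finset.prod_mul_distrib, ← (sg_sum hD _ e he).2, hsum,
      Equiv.prod_comp (perm g) fun σ => sf i (R σ)]
    simp [sg]
  obtain ⟨a, ha⟩ := (InfiniteGalois.mem_range_algebraMap_iff_fixed _).mpr hfix
  refine ⟨a, (algebraMap F (AlgebraicClosure F)).injective ?_⟩
  rw [map_mul, ha, ← sq, ← Finset.prod_pow, Algebra.norm_eq_prod_embeddings]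
  refine Finset.prod_congr rfl fun σ _ => ?_
  rw [← px_phi hD hi, hR, px_map, px_some]

lemma ker_finite (hD : D ≠ 0) {i : F} (hi : i ^ 2 = -1) (hodd : Odd (Module.finrank F M))
    (hSel : ∀ x y : M, x ≠ 0 → y ^ 2 = x ^ 3 - algebraMap F M D * x →
      IsSquare (Algebra.norm F x) → IsSquare x) :
    {P : (Ec D M).Point | Tr D M P = 0}.Finite := by
  have hd : algebraMap F M D ≠ 0 := by simpa using hD
  obtain ⟨C, hC0, hC⟩ := height_ge (algebraMap F M D) (2 * algebraMap F M i) hd
    (mul_ne_zero two_ne_zero (i_ne hi))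
  refine finite_of_descent _ (phi hD hi) (fun P => Height.logHeight₁ (px P)) C ?_ ?_
  · intro B
    exact (finite_px _ (NumberField.finite_setOfPred_logHeight₁_le M B)).subset fun P hP => hP.2
  · intro Q hQ
    suffices hs : ∃ R, Tr D M R = 0 ∧ phi hD hi R = Q by
      obtain ⟨R, h1, h2⟩ := hs
      refine ⟨R, h1, h2, ?_⟩
      rw [← h2, px_phi_eq]
      exact hC _
    have hQ' : Tr D M Q = 0 := hQ
    cases Q with
    | zero => exact ⟨0, map_zero _, map_zero _⟩
    | some x y h =>
      have hx : x ≠ 0 := by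
        rintro rfl
        rw [eq_T_of hD h, Tr_T hD hodd] at hQ'
        exact T_ne hD hQ'
      obtain ⟨s, hs⟩ := hSel x y hx (eq_of_ns h) (claimN hD hi h hx hQ')
      obtain ⟨R, hR⟩ := lift hD hi h hx s (by rw [hs, sq])
      have hk : phi hD hi (Tr D M R) = 0 := by rw [← Tr_phi, hR, hQ']
      rcases ker_phi hD hi hk with h0 | h0
      · exact ⟨R, h0, hR⟩
      · refine ⟨R + T hD, ?_, ?_⟩
        · rw [map_add, h0, Tr_T hD hodd, T_add_T]
        · rw [map_add, hR, phi_T, add_zero]

lemma descend (hD : D ≠ 0) (P : (Ec D M).Point) : ∃ P' : (Ec D M).Point,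
    ∀ σ : M →ₐ[F] AlgebraicClosure F, Point.map (W' := Wc D) σ P' = Tr D M P := by
  have hfix := fun g => Tr_fixed (D := D) g P
  generalize Tr D M P = R at hfix ⊢
  cases R with
  | zero => exact ⟨0, fun σ => map_zero _⟩
  | some x y h =>
    obtain ⟨a, rfl⟩ := (InfiniteGalois.mem_range_algebraMap_iff_fixed x).mpr
      fun g => congrArg px (hfix g)
    obtain ⟨b, rfl⟩ := (InfiniteGalois.mem_range_algebraMap_iff_fixed y).mpr
      fun g => congrArg py (hfix g)
    have h1 := eq_of_ns h
    have h2 : b ^ 2 = a ^ 3 - D * a := by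
      apply (algebraMap F (AlgebraicClosure F)).injective
      simpa using h1
    have h3 : (Ec D M).Nonsingular (algebraMap F M a) (algebraMap F M b) := by
      apply ns_of_eq hD
      simpa using congrArg (algebraMap F M) h2
    refine ⟨.some _ _ h3, fun σ => ?_⟩
    rw [Point.map_some]
    simp

lemma conj_torsion (hD : D ≠ 0) {i : F} (hi : i ^ 2 = -1) (hodd : Odd (Module.finrank F M))
    (hSel : ∀ x y : M, x ≠ 0 → y ^ 2 = x ^ 3 - algebraMap F M D * x →
      IsSquare (Algebra.norm F x) → IsSquare x) (P : (Ec D M).Point)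
    (σ τ : M →ₐ[F] AlgebraicClosure F) :
    IsOfFinAddOrder (Point.map (W' := Wc D) σ P - Point.map (W' := Wc D) τ P) := by
  obtain ⟨P', hP'⟩ := descend hD P
  have hfin : Finite (Tr D M).ker := (ker_finite hD hi hodd hSel).to_subtype
  have hmem : Module.finrank F M • P - P' ∈ (Tr D M).ker := by
    rw [AddMonoidHom.mem_ker, map_sub, map_nsmul, Tr_const _ _ hP', sub_self]
  have h1 : IsOfFinAddOrder (Module.finrank F M • P - P') :=
    (Tr D M).ker.subtype.isOfFinAddOrder (isOfFinAddOrder_of_finite (⟨_, hmem⟩ : (Tr D M).ker))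
  have h2 := (Point.map (W' := Wc D) σ).isOfFinAddOrder h1
  have h3 := (Point.map (W' := Wc D) τ).isOfFinAddOrder h1
  have h4 := h2.add h3.neg
  refine IsOfFinAddOrder.of_nsmul (n := Module.finrank F M) ?_ hodd.pos.ne'
  have e : Module.finrank F M • (Point.map (W' := Wc D) σ P - Point.map (W' := Wc D) τ P) =
      Point.map (W' := Wc D) σ (Module.finrank F M • P - P') +
        -Point.map (W' := Wc D) τ (Module.finrank F M • P - P') := by
    rw [map_sub, map_sub, hP', hP', map_nsmul, map_nsmul, nsmul_sub]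
    abel
  rw [e]
  exact h4

omit [DecidableEq M] [DecidableEq (AlgebraicClosure F)] in
lemma mem_range_of_conj (x : M) (h : ∀ σ τ : M →ₐ[F] AlgebraicClosure F, σ x = τ x) :
    x ∈ Set.range (algebraMap F M) := by
  let τ : M →ₐ[F] AlgebraicClosure F := IsAlgClosed.lift
  have hn : (Module.finrank F M : F) ≠ 0 := Nat.cast_ne_zero.mpr Module.finrank_pos.ne'
  have hn' : (Module.finrank F M : AlgebraicClosure F) ≠ 0 :=
    Nat.cast_ne_zero.mpr Module.finrank_pos.ne'
  refine ⟨Algebra.trace F M x / Module.finrank F M, τ.injective ?_⟩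
  have e := trace_eq_sum_embeddings (AlgebraicClosure F) (K := F) (L := M) (x := x)
  rw [Finset.sum_congr rfl fun σ _ => h σ τ, Finset.sum_const, Finset.card_univ, AlgHom.card,
    nsmul_eq_mul] at e
  change τ _ = τ x
  rw [AlgHom.commutes, map_div₀, e, map_natCast]
  field_simp

lemma twoInt_map {A B : Type*} [CommRing A] [CommRing B] (f : A →+* B) {u : A} (hu : TwoInt u) :
    TwoInt (f u) := by
  obtain ⟨d, hd, h⟩ := hu
  exact ⟨d, hd, by simpa using map_isIntegral_int f h⟩

lemma val_gt {L Γ : Type*} [Field L] [LinearOrderedCommGroupWithZero Γ] (v : Valuation L Γ)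
    (h2 : v 2 < 1) (h20 : (2 : L) ≠ 0) (d z w : L) (hd : v d ≤ 1) (hz : v z ≤ 1) (hw : v w ≤ 1)
    (hw0 : w ≠ 0) (h : 2 * w = (2 * z) ^ 3 - d * (2 * z) * (2 * w) ^ 2) : 1 < v (z / w) := by
  have e : w * (1 + 2 * (2 * (d * (z * w)))) = z * (2 * z) ^ 2 := by
    apply mul_left_cancel₀ h20
    linear_combination h
  have h1 : v (1 + 2 * (2 * (d * (z * w)))) = 1 := by
    refine v.map_one_add_of_lt ?_
    rw [map_mul, map_mul, map_mul, map_mul]
    exact (mul_le_of_le_one_right' (mul_le_one' h2.le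
      (mul_le_one' hd (mul_le_one' hz hw)))).trans_lt h2
  have e2 := congrArg v e
  rw [map_mul, h1, mul_one, map_mul, map_pow, map_mul] at e2
  have hvw : 0 < v w := zero_lt_iff.mpr ((map_ne_zero v).mpr hw0)
  have hz0 : 0 < v z := by
    rw [zero_lt_iff]
    intro h0
    rw [h0, zero_mul] at e2
    exact hvw.ne' e2
  rw [map_div₀, one_lt_div₀ hvw]
  calc v w = v z * (v 2 * v z) ^ 2 := e2
    _ < v z * 1 := mul_lt_mul_of_pos_left
        (pow_lt_one₀ zero_le ((mul_le_of_le_one_right' hz).trans_lt h2) two_ne_zero) hz0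
    _ = v z := mul_one _

end EcB

open EcB in
/-- if the new part of the descent image is trivial then points in the kernel of reduction at `2`
are defined over the base field -/
theorem ecB (F M : Type) [Field F] [NumberField F] [Field M] [NumberField M] [Algebra F M]
    (i : F) (hi : i ^ 2 = -1) (hodd : Odd (Module.finrank F M)) (D : F) (hD : D ≠ 0)
    (hD2 : TwoInt D)
    (hSel : ∀ x y : M, x ≠ 0 → y ^ 2 = x ^ 3 - algebraMap F M D * x →
      IsSquare (Algebra.norm F x) → IsSquare x)
    (z w : M) (hz : TwoInt z) (hw : TwoInt w)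
    (h : 2 * w = (2 * z) ^ 3 - algebraMap F M D * (2 * z) * (2 * w) ^ 2) :
    z ∈ Set.range (algebraMap F M) ∧ w ∈ Set.range (algebraMap F M) := by
  classical
  by_cases hw0 : w = 0
  · subst hw0
    have hz0 : z = 0 := by
      have : (2 * z) ^ 3 = 0 := by linear_combination -h
      simpa using this
    exact ⟨⟨0, by simp [hz0]⟩, ⟨0, by simp⟩⟩
  have hns : (Ec D M).Nonsingular (z / w) (1 / (2 * w)) := by
    apply ns_of_eq hD
    field_simp
    linear_combination (1 / 2 : M) * h
  obtain ⟨V, h2, hV⟩ := exists_val (AlgebraicClosure F)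
  have hd := hV _ (twoInt_map (algebraMap F (AlgebraicClosure F)) hD2)
  have hgt : ∀ σ : M →ₐ[F] AlgebraicClosure F,
      1 < V.valuation (px (Point.map (W' := Wc D) σ (.some _ _ hns))) := by
    intro σ
    rw [px_map, px_some, map_div₀]
    refine val_gt _ h2 two_ne_zero _ _ _ hd (hV _ (twoInt_map (σ : M →+* AlgebraicClosure F) hz))
      (hV _ (twoInt_map (σ : M →+* AlgebraicClosure F) hw)) (by simpa using hw0) ?_
    simpa [map_ofNat] using congrArg σ h
  have heq := fun σ τ : M →ₐ[F] AlgebraicClosure F =>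
    eq_of_torsion V.valuation h2 hd _ _ (hgt τ) (hgt σ) (conj_torsion hD hi hodd hSel _ σ τ)
  obtain ⟨a, ha⟩ := mem_range_of_conj (F := F) (z / w) fun σ τ => congrArg px (heq σ τ)
  obtain ⟨b, hb⟩ := mem_range_of_conj (F := F) (1 / (2 * w)) fun σ τ => congrArg py (heq σ τ)
  refine ⟨⟨a / (2 * b), ?_⟩, ⟨1 / (2 * b), ?_⟩⟩
  · rw [map_div₀, map_mul, ha, hb, map_ofNat]
    field_simp
  · rw [map_div₀, map_mul, hb, map_ofNat, map_one]
    field_simp

end Pool.Agent.MP_14ad9d_nt
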