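import Pool.Agent.MP_14ad9d_nt.Defs

set_option autoImplicit false

open WeierstrassCurve WeierstrassCurve.Affine

namespace Pool.Agent.MP_14ad9d_nt.EcB

variable {F : Type} [Field F]

/-- the curve with equation `y ^ 2 = x ^ 3 - D x` -/
def Wc (D : F) : WeierstrassCurve.Affine F := ⟨0, 0, 0, -D, 0⟩

/-- the curve over an extension field -/
abbrev Ec (D : F) (L : Type) [Field L] [Algebra F L] : WeierstrassCurve.Affine L :=
  WeierstrassCurve.Affine.baseChange (Wc D) L

section basic

variable {D : F} {L : Type} [Field L] [Algebra F L]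

@[simp] lemma a1 : (Ec D L).a₁ = 0 := by
  simp [Ec, Wc, WeierstrassCurve.Affine.baseChange, WeierstrassCurve.baseChange]
@[simp] lemma a2 : (Ec D L).a₂ = 0 := by
  simp [Ec, Wc, WeierstrassCurve.Affine.baseChange, WeierstrassCurve.baseChange]
@[simp] lemma a3 : (Ec D L).a₃ = 0 := by
  simp [Ec, Wc, WeierstrassCurve.Affine.baseChange, WeierstrassCurve.baseChange]
@[simp] lemma a4 : (Ec D L).a₄ = -algebraMap F L D := by
  simp [Ec, Wc, WeierstrassCurve.Affine.baseChange, WeierstrassCurve.baseChange]
@[simp] lemma a6 : (Ec D L).a₆ = 0 := by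
  simp [Ec, Wc, WeierstrassCurve.Affine.baseChange, WeierstrassCurve.baseChange]

lemma negY_eq (x y : L) : (Ec D L).negY x y = -y := by
  simp only [negY, a1, a3]; ring

lemma addX_eq (x₁ x₂ l : L) : (Ec D L).addX x₁ x₂ l = l ^ 2 - x₁ - x₂ := by
  simp only [addX, a1, a2]; ring

lemma addY_eq (x₁ x₂ y₁ l : L) :
    (Ec D L).addY x₁ x₂ y₁ l = -(l * (l ^ 2 - x₁ - x₂ - x₁) + y₁) := by
  simp only [addY, negY_eq, negAddY, addX_eq]

lemma eq_of_ns {x y : L} (h : (Ec D L).Nonsingular x y) :
    y ^ 2 = x ^ 3 - algebraMap F L D * x := by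
  have := (equation_iff x y).mp h.1
  simp only [a1, a2, a3, a4, a6] at this
  linear_combination this

lemma ns_of_eq [CharZero L] (hD : D ≠ 0) {x y : L}
    (h : y ^ 2 = x ^ 3 - algebraMap F L D * x) : (Ec D L).Nonsingular x y := by
  have hd : algebraMap F L D ≠ 0 := by simpa using hD
  rw [nonsingular_iff', equation_iff]
  simp only [a1, a2, a3, a4, a6]
  refine ⟨by linear_combination h, ?_⟩
  by_contra hc
  push Not at hc
  obtain ⟨h1, h2⟩ := hc
  have hy : y = 0 := by
    have : 2 * y = 0 := by linear_combination h2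
    simpa using this
  subst hy
  have hx : 2 * (algebraMap F L D * x) = 0 := by linear_combination 3 * h - x * h1
  have hx0 : x = 0 := by simpa [hd] using hx
  subst hx0
  apply hd
  linear_combination h1

/-- the abscissa, zero at infinity -/
def px : (Ec D L).Point → L
  | .zero => 0
  | .some x _ _ => x

/-- the ordinate, zero at infinity -/
def py : (Ec D L).Point → L
  | .zero => 0
  | .some _ y _ => y

@[simp] lemma px_zero : px (0 : (Ec D L).Point) = 0 := rfl
@[simp] lemma py_zero : py (0 : (Ec D L).Point) = 0 := rfl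
@[simp] lemma px_some {x y : L} (h : (Ec D L).Nonsingular x y) : px (.some x y h) = x := rfl
@[simp] lemma py_some {x y : L} (h : (Ec D L).Nonsingular x y) : py (.some x y h) = y := rfl

variable [DecidableEq L]

lemma slope_eq (x₁ x₂ y₁ y₂ : L) : (Ec D L).slope x₁ x₂ y₁ y₂ =
    if x₁ = x₂ then if y₁ = -y₂ then 0 else (3 * x₁ ^ 2 - algebraMap F L D) / (2 * y₁)
    else (y₁ - y₂) / (x₁ - x₂) := by
  simp only [WeierstrassCurve.Affine.slope, negY_eq, a1, a2, a4]
  split_ifs
  · rfl
  · congr 1 <;> ring
  · rfl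

lemma px_map {K : Type} [Field K] [Algebra F K] [DecidableEq K] (f : L →ₐ[F] K)
    (P : (Ec D L).Point) : px (Point.map (W' := Wc D) f P) = f (px P) := by
  cases P with
  | zero => exact (map_zero f).symm
  | some x y h => rfl

lemma py_map {K : Type} [Field K] [Algebra F K] [DecidableEq K] (f : L →ₐ[F] K)
    (P : (Ec D L).Point) : py (Point.map (W' := Wc D) f P) = f (py P) := by
  cases P with
  | zero => exact (map_zero f).symm
  | some x y h => rfl

end basic

section cm

variable {D : F} {L : Type} [Field L] [Algebra F L] [CharZero L] [DecidableEq L]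

omit [CharZero L] [DecidableEq L] in
lemma ii {i : F} (hi : i ^ 2 = -1) : (algebraMap F L i) ^ 2 = -1 := by
  rw [← map_pow, hi]; simp

omit [DecidableEq L] in
lemma i_ne {i : F} (hi : i ^ 2 = -1) : algebraMap F L i ≠ 0 := by
  intro h
  have := ii (L := L) hi
  rw [h] at this
  norm_num at this

omit [DecidableEq L] in
lemma one_add_i_ne {i : F} (hi : i ^ 2 = -1) : 1 + algebraMap F L i ≠ 0 := by
  intro h
  have h2 := ii (L := L) hi
  have : (2 : L) = 0 := by linear_combination (1 - algebraMap F L i) * h + h2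
  norm_num at this

omit [DecidableEq L] in
lemma ns_J (hD : D ≠ 0) {i : F} (hi : i ^ 2 = -1) {x y : L} (h : (Ec D L).Nonsingular x y) :
    (Ec D L).Nonsingular (-x) (algebraMap F L i * y) := by
  apply ns_of_eq hD
  have h1 := eq_of_ns h
  have h2 := ii (L := L) hi
  linear_combination y ^ 2 * h2 - h1

/-- the automorphism of order four -/
def Jf (hD : D ≠ 0) {i : F} (hi : i ^ 2 = -1) : (Ec D L).Point → (Ec D L).Point
  | .zero => .zero
  | .some x y h => .some (-x) (algebraMap F L i * y) (ns_J hD hi h)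

lemma slope_J {i : F} (hi : i ^ 2 = -1) (x₁ x₂ y₁ y₂ : L) :
    (Ec D L).slope (-x₁) (-x₂) (algebraMap F L i * y₁) (algebraMap F L i * y₂) =
      -algebraMap F L i * (Ec D L).slope x₁ x₂ y₁ y₂ := by
  have h2 := ii (L := L) hi
  have h0 := i_ne (L := L) hi
  rw [slope_eq, slope_eq]
  by_cases hx : x₁ = x₂
  · subst hx
    by_cases hy : y₁ = -y₂
    · subst hy
      simp
    · have hy' : ¬ (algebraMap F L i * y₁ = -(algebraMap F L i * y₂)) := by
        intro h
        apply hy
        apply mul_left_cancel₀ h0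
        linear_combination h
      rw [if_pos rfl, if_pos rfl, if_neg hy, if_neg hy']
      by_cases hy0 : y₁ = 0
      · simp [hy0]
      · field_simp
        linear_combination (3 * x₁ ^ 2 - algebraMap F L D) * h2
  · have hx' : ¬ (-x₁ = -x₂) := by simpa using hx
    rw [if_neg hx, if_neg hx']
    have : x₁ - x₂ ≠ 0 := sub_ne_zero.mpr hx
    have : -x₁ - -x₂ ≠ 0 := sub_ne_zero.mpr hx'
    field_simp
    ring

/-- the automorphism of order four as a homomorphism -/
def J (hD : D ≠ 0) {i : F} (hi : i ^ 2 = -1) : (Ec D L).Point →+ (Ec D L).Point where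
  toFun := Jf hD hi
  map_zero' := rfl
  map_add' := by
    have h2 := ii (L := L) hi
    have h0 := i_ne (L := L) hi
    rintro (_ | ⟨x₁, y₁, h₁⟩) (_ | ⟨x₂, y₂, h₂⟩)
    any_goals rfl
    by_cases hxy : x₁ = x₂ ∧ y₁ = (Ec D L).negY x₂ y₂
    · rw [Point.add_of_Y_eq hxy.left hxy.right]
      refine (Point.add_of_Y_eq (by rw [hxy.left]) ?_).symm
      rw [hxy.right, negY_eq, negY_eq]
      ring
    · have hxy' : ¬ (-x₁ = -x₂ ∧
          algebraMap F L i * y₁ = (Ec D L).negY (-x₂) (algebraMap F L i * y₂)) := by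
        rintro ⟨a, b⟩
        apply hxy
        refine ⟨by simpa using a, ?_⟩
        rw [negY_eq] at b ⊢
        apply mul_left_cancel₀ h0
        linear_combination b
      rw [Point.add_some hxy]
      simp only [Jf]
      rw [Point.add_some hxy']
      simp only [Point.some.injEq, slope_J hi, addX_eq, addY_eq]
      generalize (Ec D L).slope x₁ x₂ y₁ y₂ = l
      constructor
      · linear_combination (-l ^ 2) * h2
      · linear_combination (-(algebraMap F L i) * l ^ 3) * h2

lemma J_some (hD : D ≠ 0) {i : F} (hi : i ^ 2 = -1) {x y : L} (h : (Ec D L).Nonsingular x y) :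
    J hD hi (.some x y h) = .some (-x) (algebraMap F L i * y) (ns_J hD hi h) := rfl

lemma J_map {K : Type} [Field K] [Algebra F K] [DecidableEq K] [CharZero K]
    (hD : D ≠ 0) {i : F} (hi : i ^ 2 = -1) (f : L →ₐ[F] K) (P : (Ec D L).Point) :
    Point.map (W' := Wc D) f (J hD hi P) = J hD hi (Point.map (W' := Wc D) f P) := by
  cases P with
  | zero => rfl
  | some x y h =>
    rw [J_some, Point.map_some, Point.map_some, J_some]
    simp

/-- multiplication by `1 + i` -/
def phi (hD : D ≠ 0) {i : F} (hi : i ^ 2 = -1) : (Ec D L).Point →+ (Ec D L).Point :=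
  AddMonoidHom.id _ + J hD hi

lemma phi_apply (hD : D ≠ 0) {i : F} (hi : i ^ 2 = -1) (P : (Ec D L).Point) :
    phi hD hi P = P + J hD hi P := rfl

lemma phi_map {K : Type} [Field K] [Algebra F K] [DecidableEq K] [CharZero K]
    (hD : D ≠ 0) {i : F} (hi : i ^ 2 = -1) (f : L →ₐ[F] K) (P : (Ec D L).Point) :
    Point.map (W' := Wc D) f (phi hD hi P) = phi hD hi (Point.map (W' := Wc D) f P) := by
  rw [phi_apply, phi_apply, map_add, J_map]

omit [DecidableEq L] in
lemma ns_T (hD : D ≠ 0) : (Ec D L).Nonsingular 0 0 := ns_of_eq hD (by simp)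

/-- the point of order two -/
def T (hD : D ≠ 0) : (Ec D L).Point := .some 0 0 (ns_T hD)

lemma T_add_T (hD : D ≠ 0) : (T hD : (Ec D L).Point) + T hD = 0 :=
  Point.add_of_Y_eq rfl (by rw [negY_eq, neg_zero])

omit [DecidableEq L] in
lemma T_ne (hD : D ≠ 0) : (T hD : (Ec D L).Point) ≠ 0 := Point.some_ne_zero _

lemma T_map {K : Type} [Field K] [Algebra F K] [DecidableEq K] [CharZero K]
    (hD : D ≠ 0) (f : L →ₐ[F] K) : Point.map (W' := Wc D) f (T hD) = T hD := by
  rw [T, Point.map_some]
  simp [T]

omit [DecidableEq L] in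
lemma eq_T_of (hD : D ≠ 0) {y : L} (h : (Ec D L).Nonsingular 0 y) :
    Point.some 0 y h = T hD := by
  have := eq_of_ns h
  have hy : y = 0 := by simpa using this
  subst hy
  rfl

lemma phi_T (hD : D ≠ 0) {i : F} (hi : i ^ 2 = -1) :
    phi hD hi (T hD : (Ec D L).Point) = 0 := by
  rw [phi_apply, T, J_some]
  exact Point.add_of_Y_eq (by simp) (by rw [negY_eq]; simp)

/-- the square root of the abscissa of the image -/
def sf (i : F) (P : (Ec D L).Point) : L := py P / ((1 + algebraMap F L i) * px P)

lemma sf_map {K : Type} [Field K] [Algebra F K] [DecidableEq K] (i : F) (f : L →ₐ[F] K)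
    (P : (Ec D L).Point) : sf i (Point.map (W' := Wc D) f P) = f (sf i P) := by
  simp [sf, px_map, py_map]

lemma phi_some (hD : D ≠ 0) {i : F} (hi : i ^ 2 = -1) {x y : L} (h : (Ec D L).Nonsingular x y)
    (hx : x ≠ 0) (s : L) (hs : y = (1 + algebraMap F L i) * x * s) :
    ∃ h', phi hD hi (.some x y h) = .some (s ^ 2) (-s * (s ^ 2 + algebraMap F L i * x)) h' := by
  have h2 := ii (L := L) hi
  have hne : x ≠ -x := by
    intro h
    have : 2 * x = 0 := by linear_combination h
    exact hx (by simpa using this)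
  have hl : (Ec D L).slope x (-x) y (algebraMap F L i * y) = s := by
    rw [slope_eq, if_neg hne, div_eq_iff (sub_ne_zero.mpr hne), hs]
    linear_combination (-x * s) * h2
  have key : phi hD hi (.some x y h) = .some _ _
      (nonsingular_add h (ns_J hD hi h) fun hxy => hne hxy.left) := by
    rw [phi_apply, J_some, Point.add_of_X_ne hne]
  have e1 : (Ec D L).addX x (-x) ((Ec D L).slope x (-x) y (algebraMap F L i * y)) = s ^ 2 := by
    rw [hl, addX_eq]; ring
  have e2 : (Ec D L).addY x (-x) y ((Ec D L).slope x (-x) y (algebraMap F L i * y)) =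
      -s * (s ^ 2 + algebraMap F L i * x) := by
    rw [hl, addY_eq, hs]; ring
  have hn := nonsingular_add h (ns_J hD hi h) fun hxy => hne hxy.left
  rw [e1, e2] at hn
  refine ⟨hn, ?_⟩
  rw [key]
  simp only [Point.some.injEq]
  exact ⟨e1, e2⟩

omit [DecidableEq L] in
lemma sf_spec {i : F} (hi : i ^ 2 = -1) {x y : L} (h : (Ec D L).Nonsingular x y) (hx : x ≠ 0) :
    y = (1 + algebraMap F L i) * x * sf i (.some x y h) := by
  have := one_add_i_ne (L := L) hi
  simp only [sf, px_some, py_some]
  field_simp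

lemma px_phi (hD : D ≠ 0) {i : F} (hi : i ^ 2 = -1) (P : (Ec D L).Point) :
    px (phi hD hi P) = sf i P ^ 2 := by
  cases P with
  | zero =>
    rw [← Point.zero_def, map_zero]
    simp [sf]
  | some x y h =>
    by_cases hx : x = 0
    · subst hx
      rw [eq_T_of hD h, phi_T]
      simp [sf, T]
    · obtain ⟨h', e⟩ := phi_some hD hi h hx _ (sf_spec hi h hx)
      rw [e, px_some]

lemma ker_phi (hD : D ≠ 0) {i : F} (hi : i ^ 2 = -1) {P : (Ec D L).Point}
    (hP : phi hD hi P = 0) : P = 0 ∨ P = T hD := by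
  cases P with
  | zero => exact Or.inl rfl
  | some x y h =>
    by_cases hx : x = 0
    · subst hx
      exact Or.inr (eq_T_of hD h)
    · obtain ⟨h', e⟩ := phi_some hD hi h hx _ (sf_spec hi h hx)
      rw [e] at hP
      exact absurd hP (Point.some_ne_zero _)

lemma sf_add_T (hD : D ≠ 0) (i : F) (P : (Ec D L).Point) : sf i (P + T hD) = -sf i P := by
  have hd : algebraMap F L D ≠ 0 := by simpa using hD
  cases P with
  | zero =>
    rw [← Point.zero_def, zero_add]
    simp [sf, T]
  | some x y h =>
    by_cases hx : x = 0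
    · subst hx
      rw [eq_T_of hD h, T_add_T]
      simp [sf, T]
    · have h1 := eq_of_ns h
      rw [T, Point.add_of_X_ne hx]
      have hl : (Ec D L).slope x 0 y 0 = y / x := by
        rw [slope_eq, if_neg hx]; simp
      have e1 : (Ec D L).addX x 0 (y / x) = -algebraMap F L D / x := by
        rw [addX_eq]
        field_simp
        linear_combination h1
      have e2 : (Ec D L).addY x 0 y (y / x) = algebraMap F L D * y / x ^ 2 := by
        rw [addY_eq]
        field_simp
        linear_combination (-y) * h1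
      simp only [sf, px_some, py_some, hl, e1, e2]
      by_cases h0 : 1 + algebraMap F L i = 0
      · simp [h0]
      · field_simp

lemma lift (hD : D ≠ 0) {i : F} (hi : i ^ 2 = -1) {x y : L} (h : (Ec D L).Nonsingular x y)
    (hx : x ≠ 0) (s : L) (hs : x = s ^ 2) : ∃ R, phi hD hi R = .some x y h := by
  have hd : algebraMap F L D ≠ 0 := by simpa using hD
  have h2 := ii (L := L) hi
  have h0 := i_ne (L := L) hi
  have h1 := eq_of_ns h
  have hs0 : s ≠ 0 := by
    rintro rfl
    exact hx (by simpa using hs)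
  obtain ⟨u, hu⟩ : ∃ u, y = u * s := ⟨y / s, by field_simp⟩
  have hu2 : u ^ 2 = x ^ 2 - algebraMap F L D := by
    apply mul_left_cancel₀ hx
    rw [hu] at h1
    linear_combination h1 + u ^ 2 * hs
  have hx1 : algebraMap F L i * (u + x) ≠ 0 := by
    refine mul_ne_zero h0 fun h3 => hd ?_
    linear_combination hu2 + (x - u) * h3
  have hns : (Ec D L).Nonsingular (algebraMap F L i * (u + x))
      ((1 + algebraMap F L i) * (algebraMap F L i * (u + x)) * s) := by
    apply ns_of_eq hD
    set j := algebraMap F L i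
    set d := algebraMap F L D
    have e : ((1 + j) * s) ^ 2 = 2 * j * x := by
      rw [hs]; linear_combination s ^ 2 * h2
    have e' : (j * (u + x)) ^ 2 - d = 2 * j * x * (j * (u + x)) := by
      linear_combination ((u + x) ^ 2 - 2 * x * (u + x)) * h2 - hu2
    linear_combination (j * (u + x)) ^ 2 * e - (j * (u + x)) * e'
  obtain ⟨h', e⟩ := phi_some hD hi hns hx1 s rfl
  refine ⟨_, e.trans ?_⟩
  simp only [Point.some.injEq]
  refine ⟨hs.symm, ?_⟩
  rw [hu, ← hs]
  linear_combination (-s * (u + x)) * h2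

lemma px_phi_eq (hD : D ≠ 0) {i : F} (hi : i ^ 2 = -1) (P : (Ec D L).Point) :
    px (phi hD hi P) = (px P ^ 2 - algebraMap F L D) / (2 * algebraMap F L i * px P) := by
  have h2 := ii (L := L) hi
  have h0 := i_ne (L := L) hi
  rw [px_phi]
  cases P with
  | zero => simp [sf, ← Point.zero_def]
  | some x y h =>
    by_cases hx : x = 0
    · simp [sf, hx]
    · have h1 := eq_of_ns h
      have h3 := sf_spec hi h hx
      rw [px_some, eq_div_iff (by simp [h0, hx])]
      generalize sf i (.some x y h) = s at h3 ⊢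
      apply mul_left_cancel₀ hx
      rw [h3] at h1
      linear_combination h1 - x ^ 2 * s ^ 2 * h2

end cm

end Pool.Agent.MP_14ad9d_nt.EcB
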