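import Pool.Agent.MP_14ad9d_nt.EcB1

set_option autoImplicit false

open WeierstrassCurve WeierstrassCurve.Affine

namespace Pool.Agent.MP_14ad9d_nt.EcB

/-- descent: a set with a height halving section is finite -/
lemma finite_of_descent {X : Type*} (S : Set X) (f : X → X) (h : X → ℝ) (C : ℝ)
    (hN : ∀ B : ℝ, {x ∈ S | h x ≤ B}.Finite)
    (hS : ∀ Q ∈ S, ∃ R ∈ S, f R = Q ∧ 2 * h R ≤ h Q + C) : S.Finite := by
  classical
  choose! r hrS hrf hrh using hS
  have hit : ∀ k : ℕ, ∀ Q ∈ S, r^[k] Q ∈ S ∧ f^[k] (r^[k] Q) = Q ∧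
      h (r^[k] Q) - C ≤ (h Q - C) / 2 ^ k := by
    intro k
    induction k with
    | zero => intro Q hQ; simp [hQ]
    | succ k ih =>
      intro Q hQ
      obtain ⟨h1, h2, h3⟩ := ih Q hQ
      refine ⟨?_, ?_, ?_⟩
      · rw [Function.iterate_succ_apply']; exact hrS _ h1
      · rw [Function.iterate_succ_apply' r, Function.iterate_succ_apply, hrf _ h1, h2]
      · rw [Function.iterate_succ_apply', pow_succ, ← div_div]
        have := hrh _ h1
        linarith
  by_contra hinf
  obtain ⟨T, hTS, hT⟩ := Set.Infinite.exists_subset_card_eq hinf ((hN (C + 1)).toFinset.card + 1)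
  obtain ⟨k, hk⟩ : ∃ k : ℕ, ∀ Q ∈ T, h Q - C ≤ 2 ^ k := by
    obtain ⟨B, hB⟩ := (T.finite_toSet.image fun Q => h Q - C).bddAbove
    obtain ⟨k, hk⟩ := pow_unbounded_of_one_lt B (one_lt_two (α := ℝ))
    exact ⟨k, fun Q hQ => (hB ⟨Q, hQ, rfl⟩).trans hk.le⟩
  have hle : T.card ≤ (hN (C + 1)).toFinset.card := by
    refine Finset.card_le_card_of_injOn (r^[k]) ?_ ?_
    · intro Q hQ
      obtain ⟨h1, -, h3⟩ := hit k Q (hTS hQ)
      have h4 : (h Q - C) / 2 ^ k ≤ 1 := by
        rw [div_le_one (by positivity)]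
        exact hk Q hQ
      simp only [Set.Finite.coe_toFinset, Set.mem_setOf_eq]
      exact ⟨h1, by linarith⟩
    · intro Q hQ Q' hQ' e
      rw [← (hit k Q (hTS hQ)).2.1, e, (hit k Q' (hTS hQ')).2.1]
  omega

open Height MvPolynomial in
/-- lower bound for the height of the image -/
lemma height_ge {M : Type} [Field M] [NumberField M] (d c : M) (hd : d ≠ 0) (hc : c ≠ 0) :
    ∃ C : ℝ, 0 ≤ C ∧ ∀ x : M, 2 * logHeight₁ x ≤ logHeight₁ ((x ^ 2 - d) / (c * x)) + C := by
  let q : Fin 2 × Fin 2 → MvPolynomial (Fin 2) M := fun a =>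
    ![![X 0, C (d / c) * X 1], ![C (-1 / d) * X 1, C (1 / (c * d)) * X 0]] a.1 a.2
  have hq : ∀ a, (q a).IsHomogeneous 1 := by
    rintro ⟨a, b⟩
    fin_cases a <;> fin_cases b
    · exact isHomogeneous_X _ _
    · exact (isHomogeneous_X _ _).C_mul _
    · exact (isHomogeneous_X _ _).C_mul _
    · exact (isHomogeneous_X _ _).C_mul _
  obtain ⟨C₀, hC⟩ := logHeight_eval_ge' (N := 2) hq
  refine ⟨|C₀|, abs_nonneg _, fun x => ?_⟩
  let p : Fin 2 → MvPolynomial (Fin 2) M := ![X 0 ^ 2 - C d * X 1 ^ 2, C c * X 0 * X 1]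
  have key := hC p (x := ![x, 1]) (by
    intro k
    fin_cases k
    · simp [q, p, Fin.sum_univ_two]
      field_simp
      ring
    · simp [q, p, Fin.sum_univ_two]
      field_simp
      ring)
  have e : (fun j => (p j).eval ![x, 1]) = ![x ^ 2 - d, c * x] := by
    funext j
    fin_cases j <;> simp [p]
  rw [e] at key
  by_cases hx : x = 0
  · subst hx
    simp
  · rw [logHeight₁_div_eq_logHeight, logHeight₁_eq_logHeight]
    have := neg_abs_le C₀
    push_cast at key
    linarith

variable {F : Type} [Field F] {D : F} {L : Type} [Field L] [Algebra F L]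

lemma finite_px (A : Set L) (hA : A.Finite) : {P : (Ec D L).Point | px P ∈ A}.Finite := by
  classical
  refine Set.Finite.of_finite_fibers px (hA.subset ?_) ?_
  · rintro _ ⟨P, hP, rfl⟩
    exact hP
  · rintro x -
    by_cases hx : ∃ y, (Ec D L).Nonsingular x y
    · obtain ⟨y, hy⟩ := hx
      refine (Set.toFinite {0, Point.some x y hy, -Point.some x y hy}).subset ?_
      rintro P ⟨-, hP⟩
      cases P with
      | zero => exact Or.inl rfl
      | some x' y' h' => exact Or.inr (Point.X_eq_iff.mp hP)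
    · refine (Set.toFinite {0}).subset ?_
      rintro P ⟨-, hP⟩
      cases P with
      | zero => rfl
      | some x' y' h' =>
        have : x' = x := hP
        subst this
        exact absurd ⟨y', h'⟩ hx

section val

variable {Γ : Type*} [LinearOrderedCommGroupWithZero Γ] (v : Valuation L Γ)

lemma val_y (hd : v (algebraMap F L D) ≤ 1) {x y : L} (h : (Ec D L).Nonsingular x y)
    (hx : 1 < v x) : v y ^ 2 = v x ^ 3 := by
  have h1 := eq_of_ns h
  have h2 : v (algebraMap F L D) < v (x ^ 2) := by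
    rw [map_pow]
    exact hd.trans_lt (one_lt_pow₀ hx two_ne_zero)
  have h3 : y ^ 2 = x * (x ^ 2 - algebraMap F L D) := by linear_combination h1
  rw [← map_pow, h3, map_mul, v.map_sub_eq_of_lt_left h2, map_pow, ← pow_succ']

variable [DecidableEq L] [CharZero L]

lemma val_double (h2 : v 2 < 1) (hd : v (algebraMap F L D) ≤ 1) (P : (Ec D L).Point)
    (hx : 1 < v (px P)) : v (px P) < v (px (P + P)) := by
  cases P with
  | zero => simp [← Point.zero_def] at hx
  | some x y h =>
    rw [px_some] at hx ⊢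
    have hx0 : v x ≠ 0 := (zero_lt_one.trans hx).ne'
    have hy := val_y v hd h hx
    have hy0 : y ≠ 0 := by
      rintro rfl
      simp only [map_zero, ne_eq, OfNat.ofNat_ne_zero, not_false_eq_true, zero_pow] at hy
      exact pow_ne_zero 3 hx0 hy.symm
    have hne : y ≠ -y := by
      intro h
      have : 2 * y = 0 := by linear_combination h
      exact hy0 (by simpa using this)
    rw [Point.add_self_of_Y_ne (by rwa [negY_eq]), px_some, addX_eq, slope_eq, if_pos rfl,
      if_neg hne]
    have h1 := eq_of_ns h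
    set d := algebraMap F L D
    set x' := ((3 * x ^ 2 - d) / (2 * y)) ^ 2 - x - x with hx'
    have e : x' * 2 ^ 2 * y ^ 2 = (x ^ 2 + d) ^ 2 := by
      rw [hx']
      field_simp
      linear_combination (-8 * x) * h1
    have h3 : v d < v (x ^ 2) := by
      rw [map_pow]
      exact hd.trans_lt (one_lt_pow₀ hx two_ne_zero)
    have e2 := congrArg v e
    rw [map_mul, map_mul, map_pow, map_pow, map_pow, v.map_add_eq_of_lt_left h3, map_pow, hy,
      ← pow_mul, show 2 * 2 = 1 + 3 from rfl, pow_add, pow_one] at e2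
    have e3 : v x' * v 2 ^ 2 = v x := mul_right_cancel₀ (pow_ne_zero 3 hx0) e2
    have hx'0 : v x' ≠ 0 := by
      intro h0
      rw [h0, zero_mul] at e3
      exact hx0 e3.symm
    calc v x = v x' * v 2 ^ 2 := e3.symm
      _ < v x' * 1 := mul_lt_mul_of_pos_left (pow_lt_one₀ zero_le h2 two_ne_zero)
          (zero_lt_iff.mpr hx'0)
      _ = v x' := mul_one _

lemma val_torsion (h2 : v 2 < 1) (hd : v (algebraMap F L D) ≤ 1) (P : (Ec D L).Point)
    (hP : IsOfFinAddOrder P) : v (px P) ≤ 1 := by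
  by_contra hx
  push Not at hx
  have key : ∀ k : ℕ, 1 < v (px (2 ^ k • P)) ∧
      v (px (2 ^ k • P)) < v (px (2 ^ (k + 1) • P)) := by
    intro k
    induction k with
    | zero =>
      refine ⟨by simpa using hx, ?_⟩
      simpa [two_smul] using val_double v h2 hd P hx
    | succ k ih =>
      have h1 := ih.1.trans ih.2
      refine ⟨h1, ?_⟩
      have := val_double v h2 hd _ h1
      rwa [← two_nsmul, ← mul_nsmul, ← pow_succ] at this
  have hm : StrictMono fun k : ℕ => v (px (2 ^ k • P)) :=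
    strictMono_nat_of_lt_succ fun k => (key k).2
  have hinj : Function.Injective fun k : ℕ => (2 ^ k • P : (Ec D L).Point) := by
    intro a b hab
    apply hm.injective
    simp only at hab ⊢
    rw [hab]
  refine (Set.infinite_range_of_injective hinj) (hP.finite_multiples.subset ?_)
  rintro _ ⟨k, rfl⟩
  exact ⟨2 ^ k, rfl⟩

omit [CharZero L] in
lemma val_add (hd : v (algebraMap F L D) ≤ 1) (P Q : (Ec D L).Point) (hQ : Q ≠ 0)
    (hx : 1 < v (px P)) (hx' : v (px Q) ≤ 1) : v (px (P + Q)) ≤ 1 := by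
  cases P with
  | zero => simp [← Point.zero_def] at hx
  | some x y h =>
  cases Q with
  | zero => exact absurd rfl hQ
  | some x' y' h' =>
    rw [px_some] at hx hx'
    have hx0 : v x ≠ 0 := (zero_lt_one.trans hx).ne'
    have hlt : v x' < v x := hx'.trans_lt hx
    have hne : x ≠ x' := by
      rintro rfl
      exact lt_irrefl _ hlt
    have h1 := eq_of_ns h
    have h1' := eq_of_ns h'
    have hy := val_y v hd h hx
    rw [Point.add_of_X_ne hne, px_some, addX_eq, slope_eq, if_neg hne]
    set d := algebraMap F L D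
    set x'' := ((y - y') / (x - x')) ^ 2 - x - x' with hx''
    have hsub : x - x' ≠ 0 := sub_ne_zero.mpr hne
    have e : x'' * (x - x') ^ 2 =
        -(d * x) - 2 * (y * y') + y' ^ 2 + x ^ 2 * x' + x * x' ^ 2 - x' ^ 3 := by
      rw [hx'']
      field_simp
      linear_combination h1
    have hx1 : (1 : Γ) ≤ v x ^ 2 := one_le_pow₀ hx.le
    have hx2 : v x ≤ v x ^ 2 := le_self_pow₀ hx.le two_ne_zero
    have hy' : v y' ≤ 1 := by
      have : v y' ^ 2 ≤ 1 := by
        rw [← map_pow, h1']
        refine v.map_sub_le ?_ ?_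
        · rw [map_pow]; exact pow_le_one₀ zero_le hx'
        · rw [map_mul]; exact mul_le_one' hd hx'
      exact (pow_le_one_iff_of_nonneg zero_le two_ne_zero).mp this
    have hy2 : v y ≤ v x ^ 2 := by
      have : v y ^ 2 ≤ (v x ^ 2) ^ 2 := by
        rw [hy, ← pow_mul]
        exact pow_le_pow_right₀ hx.le (by norm_num)
      exact (pow_le_pow_iff_left₀ zero_le zero_le two_ne_zero).mp this
    have h2 : v 2 ≤ 1 := by
      rw [← one_add_one_eq_two]
      exact v.map_add_le (by simp) (by simp)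
    have hN : v (x'' * (x - x') ^ 2) ≤ v x ^ 2 := by
      rw [e]
      refine v.map_sub_le (v.map_add_le (v.map_add_le (v.map_add_le (v.map_sub_le ?_ ?_) ?_)
        ?_) ?_) ?_
      · rw [v.map_neg, map_mul]
        exact (mul_le_of_le_one_left' hd).trans hx2
      · rw [map_mul, map_mul]
        exact (mul_le_of_le_one_left' h2).trans ((mul_le_of_le_one_right' hy').trans hy2)
      · rw [map_pow]
        exact (pow_le_one₀ zero_le hy').trans hx1
      · rw [map_mul, map_pow]
        exact mul_le_of_le_one_right' hx'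
      · rw [map_mul, map_pow]
        exact (mul_le_of_le_one_right' (pow_le_one₀ zero_le hx')).trans hx2
      · rw [map_pow]
        exact (pow_le_one₀ zero_le hx').trans hx1
    rw [map_mul, map_pow, v.map_sub_eq_of_lt_left hlt] at hN
    exact (mul_le_iff_le_one_left (zero_lt_iff.mpr (pow_ne_zero 2 hx0))).mp hN

lemma eq_of_torsion (h2 : v 2 < 1) (hd : v (algebraMap F L D) ≤ 1) (P Q : (Ec D L).Point)
    (hP : 1 < v (px P)) (hQ : 1 < v (px Q)) (h : IsOfFinAddOrder (Q - P)) : Q = P := by
  by_contra hne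
  have := val_add v hd P (Q - P) (sub_ne_zero.mpr hne) hP (val_torsion v h2 hd _ h)
  rw [add_sub_cancel] at this
  exact absurd hQ (not_lt.mpr this)

end val

lemma exists_val (L : Type) [Field L] [CharZero L] :
    ∃ V : ValuationSubring L, V.valuation 2 < 1 ∧ ∀ u : L, TwoInt u → V.valuation u ≤ 1 := by
  have hI : (Ideal.span {(2 : (⊥ : Subring L))}) ≠ ⊤ := by
    rw [Ne, Ideal.span_singleton_eq_top, isUnit_iff_exists_inv]
    rintro ⟨⟨b, hb⟩, e⟩
    obtain ⟨n, rfl⟩ := Subring.mem_bot.mp hb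
    have e2 : (2 : L) * n = 1 := congrArg Subtype.val e
    have e3 : (2 : ℤ) * n = 1 := by exact_mod_cast e2
    omega
  obtain ⟨V, -, hV⟩ := Ideal.image_subset_nonunits_valuationSubring _ hI
  have h2 : V.valuation 2 < 1 :=
    V.mem_nonunits_iff.mp (hV ⟨2, Ideal.subset_span rfl, rfl⟩)
  refine ⟨V, h2, ?_⟩
  rintro u ⟨d, ⟨k, rfl⟩, hu⟩
  have hint : V.valuation (((2 * k + 1 : ℕ) : L) * u) ≤ 1 := by
    rw [V.valuation_le_one_iff]
    have h3 : IsIntegral V (((2 * k + 1 : ℕ) : L) * u) := hu.tower_top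
    obtain ⟨a, ha⟩ := IsIntegrallyClosed.isIntegral_iff.mp h3
    rw [← ha]
    exact a.2
  have hk : V.valuation (k : L) ≤ 1 := by
    rw [V.valuation_le_one_iff]
    exact natCast_mem V k
  have hd : V.valuation ((2 * k + 1 : ℕ) : L) = 1 := by
    push_cast
    rw [add_comm]
    refine V.valuation.map_one_add_of_lt ?_
    rw [map_mul]
    exact (mul_le_of_le_one_right' hk).trans_lt h2
  rwa [map_mul, hd, one_mul] at hint

end Pool.Agent.MP_14ad9d_nt.EcB
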