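import Pool.Agent.MP_14ad9d_nt.Defs
import Pool.Agent.MP_d64882_nt.Frob

set_option autoImplicit false

open MulAction Subgroup Function NumberField Ideal Filter Topology Asymptotics

namespace Pool.Agent.MP_14ad9d_nt

open Pool.Agent.MP_d64882_nt

theorem PosDens.mono {A B : Set ℕ} (h : PosDens A) (S : Finset ℕ) (hAB : ∀ n ∈ A, n ∉ S → n ∈ B) :
    PosDens B := by
  classical
  obtain ⟨δ, C, hδ, h⟩ := h
  refine ⟨δ, C + S.card, hδ, ?_⟩
  filter_upwards [h, self_mem_nhdsWithin] with s hs hs1
  have hs1 : 1 < s := hs1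
  have hsum : Summable fun n : ℕ => (n : ℝ) ^ (-s) := Real.summable_nat_rpow.2 (by linarith)
  have h1 : ∀ n : ℕ, A.indicator (fun n => (n : ℝ) ^ (-s)) n ≤
      B.indicator (fun n => (n : ℝ) ^ (-s)) n + if n ∈ S then 1 else 0 := by
    intro n
    have h0 : (0 : ℝ) ≤ (n : ℝ) ^ (-s) := by positivity
    have h2 : (n : ℝ) ^ (-s) ≤ 1 := by
      rcases Nat.eq_zero_or_pos n with rfl | hn
      · simp [Real.zero_rpow (show -s ≠ 0 by linarith)]
      · exact Real.rpow_le_one_of_one_le_of_nonpos (by exact_mod_cast hn) (by linarith)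
    have h3 : 0 ≤ B.indicator (fun n : ℕ => (n : ℝ) ^ (-s)) n :=
      Set.indicator_nonneg (fun _ _ => by positivity) _
    by_cases hA : n ∈ A
    · by_cases hS : n ∈ S
      · simp only [Set.indicator_of_mem hA, hS, if_true]; linarith
      · simp [Set.indicator_of_mem hA, Set.indicator_of_mem (hAB n hA hS), hS]
    · simp only [Set.indicator_of_notMem hA]
      split_ifs <;> linarith
  have h4 : HasSum (fun n : ℕ => if n ∈ S then (1 : ℝ) else 0) S.card := by
    have := hasSum_sum_of_ne_finset_zero (f := fun n : ℕ => if n ∈ S then (1 : ℝ) else 0)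
      (s := S) (L := SummationFilter.unconditional ℕ) (fun n hn => by simp [hn])
    simpa using this
  have h5 := (hsum.indicator A).tsum_le_tsum h1 ((hsum.indicator B).add h4.summable)
  rw [(hsum.indicator B).tsum_add h4.summable, h4.tsum_eq] at h5
  linarith

theorem PosDens.exists_notMem {A : Set ℕ} (h : PosDens A) (S : Finset ℕ) : ∃ n ∈ A, n ∉ S := by
  by_contra hc
  push Not at hc
  obtain ⟨δ, C, hδ, h⟩ := h.mono (B := ∅) S fun n hn hS => (hS (hc n hn)).elim
  simp only [Set.indicator_empty, tsum_zero] at h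
  have h2 : Tendsto (fun s : ℝ => Real.log (s - 1)) (𝓝[>] 1) atBot := by
    refine Real.tendsto_log_nhdsGT_zero.comp ?_
    refine tendsto_nhdsWithin_iff.2 ⟨?_, ?_⟩
    · have : Tendsto (fun s : ℝ => s - 1) (𝓝 1) (𝓝 (1 - 1)) := tendsto_id.sub_const 1
      simpa using this.mono_left nhdsWithin_le_nhds
    · filter_upwards [self_mem_nhdsWithin] with s hs
      exact sub_pos.2 (show 1 < s from hs)
  obtain ⟨s, h3, h4⟩ := (h.and (h2.eventually (eventually_lt_atBot (-C / δ)))).exists
  rw [one_div, Real.log_inv] at h3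
  rw [lt_div_iff₀ hδ] at h4
  linarith

theorem posDens_of_dens {a : ℕ → ℝ} {d c : ℝ} (h : Dens a d) (hd : 0 < d) (hc : 0 < c) (A : Set ℕ)
    (h1 : ∀ n, a n ≤ c) (h2 : ∀ n ∉ A, a n = 0) : PosDens A := by
  obtain ⟨C, hC⟩ := h.2.bound
  refine ⟨d / c, C / c, by positivity, ?_⟩
  filter_upwards [hC, self_mem_nhdsWithin] with s hs hs1
  have hs1 : 1 < s := hs1
  have hsum : Summable fun n : ℕ => (n : ℝ) ^ (-s) := Real.summable_nat_rpow.2 (by linarith)
  have h3 : ∀ n : ℕ, a n * (n : ℝ) ^ (-s) ≤ c * A.indicator (fun n => (n : ℝ) ^ (-s)) n := by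
    intro n
    by_cases hA : n ∈ A
    · rw [Set.indicator_of_mem hA]
      exact mul_le_mul_of_nonneg_right (h1 n) (by positivity)
    · simp [h2 n hA, Set.indicator_of_notMem hA]
  have h5 := (h.1 s hs1).tsum_le_tsum h3 ((hsum.indicator A).mul_left c)
  rw [tsum_mul_left] at h5
  simp only [Real.norm_eq_abs, norm_one, mul_one] at hs
  have h6 := (abs_le.1 hs).1
  rw [one_div, Real.log_inv, div_mul_eq_mul_div, ← sub_div, div_le_iff₀ hc]
  linarith

variable {M : Type*} [Field M] [NumberField M] [IsGalois ℚ M]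

open Classical Pointwise in
/-- Frobenius density theorem -/
theorem frob_dens (γ : M ≃ₐ[ℚ] M) :
    PosDens {p : ℕ | p.Prime ∧ ∃ (Q : Ideal (𝓞 M))
      (_ : Q ∈ (span {(p : ℤ)}).primesOver (𝓞 M)) (σ : M ≃ₐ[ℚ] M), IsArithFrobAt ℤ σ Q ∧
        zpowers σ = zpowers γ} := by
  choose Q hQ σ hσ using exists_frob (M := M)
  let c : (M ≃ₐ[ℚ] M) → ℕ → ℝ := fun x p =>
    if h : p.Prime then Nat.card {g // g⁻¹ * σ p h * g = x} else 0
  let R : Finset (M ≃ₐ[ℚ] M) → Prop := fun A => Dens (fun p => ∑ x ∈ A, c x p) A.card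
  have Rsub : ∀ A B, B ⊆ A → R A → R B → R (A \ B) := by
    intro A B h hA hB
    have := hA.sub hB
    simp only [R]
    rw [Finset.card_sdiff_of_subset h, Nat.cast_sub (Finset.card_le_card h)]
    simpa only [Finset.sum_sdiff_eq_sub h] using this
  have Radd : ∀ A B, B ⊆ A → R (A \ B) → R B → R A := by
    intro A B h hA hB
    have := hA.add hB
    simp only [R]
    rw [← Finset.card_sdiff_add_card_eq_card h, Nat.cast_add]
    simpa only [Finset.sum_sdiff h] using this
  have RH : ∀ H : Subgroup (M ≃ₐ[ℚ] M), R (Finset.univ.filter (· ∈ H)) := by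
    intro H
    let E := IntermediateField.fixedField H
    let τ₀ : Emb E M := Emb.mk (algebraMap E M)
    have hst : stabilizer (M ≃ₐ[ℚ] M) τ₀ = H := by
      rw [← IntermediateField.fixingSubgroup_fixedField H]
      ext g
      rw [mem_stabilizer_iff, IntermediateField.mem_fixingSubgroup_iff]
      exact ⟨fun h x hx => congrArg (fun τ : Emb E M => τ.hom ⟨x, hx⟩) h,
        fun h => Emb.ext fun x => h x.1 x.2⟩
    have h1 := ((dens_cnt E).mul (Nat.card H)).congr (discr E).natAbs.divisors
      (b := fun p => ∑ x ∈ Finset.univ.filter (· ∈ H), c x p) (by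
        intro p hp
        by_cases hp' : p.Prime
        · simp only [c, hp', if_true, dif_pos]
          have h2 := orbData_frob p hp' (Q p hp') (hQ p hp') (σ p hp') (hσ p hp') τ₀
            (unram_of_not_mem E p hp' hp)
          rw [← cnt_prime E p hp', ← h2.card_fixed, ← hst, ← Nat.cast_mul, mul_comm,
            ← card_smul_base τ₀ (Emb.exists_smul τ₀), ← Nat.cast_sum]
          congr 1
          simp only [natCard_eq_filter]
          rw [Finset.card_eq_sum_card_fiberwise (f := fun g => g⁻¹ * σ p hp' * g)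
            (t := Finset.univ.filter (· ∈ stabilizer (M ≃ₐ[ℚ] M) τ₀))]
          · refine Finset.sum_congr rfl fun x hx => ?_
            congr 1
            ext g
            simp only [Finset.mem_filter, Finset.mem_univ, true_and, and_iff_right_iff_imp]
            rintro rfl
            have := (Finset.mem_filter.1 hx).2
            rwa [mem_stabilizer_iff, mul_smul, mul_smul, inv_smul_eq_iff] at this
          · intro g hg
            have := (Finset.mem_filter.1 hg).2
            refine Finset.mem_filter.2 ⟨Finset.mem_univ _, ?_⟩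
            rwa [mem_stabilizer_iff, mul_smul, mul_smul, inv_smul_eq_iff]
        · simp [c, hp'])
    rw [mul_one] at h1
    have h3 : (Finset.univ.filter (· ∈ H)).card = Nat.card H := (natCard_eq_filter _).symm
    simp only [R]
    rw [h3]
    exact h1
  let Gen : (M ≃ₐ[ℚ] M) → Finset (M ≃ₐ[ℚ] M) := fun x =>
    Finset.univ.filter fun y => zpowers y = zpowers x
  have Rcl : ∀ A : Finset (M ≃ₐ[ℚ] M), (∀ x ∈ A, Gen x ⊆ A ∧ R (Gen x)) → R A := by
    intro A
    induction A using Finset.strongInduction with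
    | H A ih =>
      intro hA
      rcases A.eq_empty_or_nonempty with rfl | ⟨x, hx⟩
      · simpa [R] using dens_finite (a := fun _ => 0) ∅ fun _ _ => rfl
      · refine Radd A (Gen x) (hA x hx).1 (ih _ ?_ fun y hy => ?_) (hA x hx).2
        · exact Finset.sdiff_ssubset (hA x hx).1 ⟨x, by simp [Gen]⟩
        · obtain ⟨h1, h2⟩ := Finset.mem_sdiff.1 hy
          refine ⟨fun z hz => Finset.mem_sdiff.2 ⟨(hA y h1).1 hz, fun h3 => h2 ?_⟩, (hA y h1).2⟩
          simp only [Gen, Finset.mem_filter, Finset.mem_univ, true_and] at hz h3 ⊢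
          rw [← hz, h3]
  have RGen : ∀ n, ∀ x : M ≃ₐ[ℚ] M, Nat.card (zpowers x) = n → R (Gen x) := by
    intro n
    induction n using Nat.strong_induction_on with
    | _ n ih =>
      rintro x rfl
      have h1 : Gen x ⊆ Finset.univ.filter (· ∈ zpowers x) := by
        intro y hy
        simp only [Gen, Finset.mem_filter, Finset.mem_univ, true_and] at hy ⊢
        rw [← hy]; exact mem_zpowers y
      have h2 := Rsub _ _ Finset.sdiff_subset (RH (zpowers x))
        (Rcl (Finset.univ.filter (· ∈ zpowers x) \ Gen x) fun y hy => ?_)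
      · rwa [Finset.sdiff_sdiff_eq_self h1] at h2
      · simp only [Gen, Finset.mem_sdiff, Finset.mem_filter, Finset.mem_univ, true_and] at hy
        refine ⟨fun z hz => ?_, ih _ ?_ y rfl⟩
        · simp only [Gen, Finset.mem_sdiff, Finset.mem_filter, Finset.mem_univ, true_and] at hz ⊢
          refine ⟨zpowers_le_of_mem hy.1 (hz ▸ mem_zpowers z), by rw [hz]; exact hy.2⟩
        · have h3 : zpowers y ≤ zpowers x := zpowers_le_of_mem hy.1
          refine lt_of_le_of_ne (Subgroup.card_le_of_le h3) fun h4 => hy.2 ?_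
          exact Subgroup.eq_of_le_of_card_ge h3 h4.ge
  have h0 : 0 < (Gen γ).card := Finset.card_pos.2 ⟨γ, by simp [Gen]⟩
  refine posDens_of_dens (RGen _ γ rfl) (by exact_mod_cast h0)
    (c := (Gen γ).card * Nat.card (M ≃ₐ[ℚ] M)) (by
      have : 0 < Nat.card (M ≃ₐ[ℚ] M) := Nat.card_pos
      positivity) _ (fun p => ?_) (fun p hp => ?_)
  · rw [← nsmul_eq_mul]
    refine Finset.sum_le_card_nsmul _ _ _ fun x _ => ?_
    simp only [c]
    split_ifs with h
    · exact_mod_cast Finite.card_subtype_le _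
    · positivity
  · refine Finset.sum_eq_zero fun x hx => ?_
    by_cases hp' : p.Prime
    · simp only [c, hp', dif_pos, Nat.cast_eq_zero]
      have : IsEmpty {g // g⁻¹ * σ p hp' * g = x} := ⟨fun g => hp ⟨hp', g.1⁻¹ • Q p hp', ?_,
        g.1⁻¹ * σ p hp' * g.1⁻¹⁻¹, (hσ p hp').conj _, by
          rw [inv_inv, g.2]; exact (Finset.mem_filter.1 hx).2⟩⟩
      · exact Nat.card_of_isEmpty
      · have h1 := (hQ p hp').1
        have h2 := (hQ p hp').2
        exact ⟨inferInstance, inferInstance⟩
    · simp [c, hp']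

end Pool.Agent.MP_14ad9d_nt
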