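import Pool.Agent.MP_14ad9d_nt.Defs

set_option autoImplicit false

namespace Pool.Agent.MP_14ad9d_nt

namespace Weyl

open Complex Finset

lemma normSq_sum (a : ℕ → ℂ) (T : ℕ) : normSq (∑ t ∈ range T, a t) = ∑ t ∈ range T, normSq (a t)
    + 2 * (∑ h ∈ range T, ∑ s ∈ range (T - (h + 1)), a (s + h + 1) * (starRingEnd ℂ) (a s)).re := by
  induction T with
  | zero => simp
  | succ T ih =>
    have h1 : ∑ h ∈ range (T + 1), ∑ s ∈ range (T + 1 - (h + 1)),
        a (s + h + 1) * (starRingEnd ℂ) (a s) = ∑ h ∈ range T, ∑ s ∈ range (T - (h + 1)),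
        a (s + h + 1) * (starRingEnd ℂ) (a s) + a T * (starRingEnd ℂ) (∑ t ∈ range T, a t) := by
      rw [sum_range_succ, Nat.sub_self, sum_range_zero, add_zero, map_sum, mul_sum,
        ← sum_range_reflect (fun t => a T * (starRingEnd ℂ) (a t)), ← sum_add_distrib]
      refine sum_congr rfl fun h hh => ?_
      have := mem_range.mp hh
      rw [show T + 1 - (h + 1) = T - (h + 1) + 1 by omega, sum_range_succ,
        show T - (h + 1) + h + 1 = T by omega, show T - 1 - h = T - (h + 1) by omega]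
    rw [h1, sum_range_succ, sum_range_succ, add_comm _ (a T), normSq_add, ih, add_re]
    ring

noncomputable def e (x : ℝ) : ℂ := exp (2 * Real.pi * I * (x : ℂ))

lemma e_eq (x : ℝ) : e x = exp (I * (2 * Real.pi * x : ℝ)) := by
  rw [e]; congr 1; push_cast; ring

lemma norm_e (x : ℝ) : ‖e x‖ = 1 := by rw [e_eq, norm_exp_I_mul_ofReal]

lemma geom {φ η : ℝ} (hη : 0 < η) (h : η ≤ |φ - round φ|) (n : ℕ) :
    ‖∑ s ∈ range n, e φ ^ s‖ ≤ 1 / (2 * η) := by
  have h1 : e φ = e (φ - round φ) := by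
    rw [e, e, ofReal_sub, mul_sub, Complex.exp_sub, ofReal_intCast, mul_comm _ (round φ : ℂ),
      exp_int_mul_two_pi_mul_I, div_one]
  have h2 : 4 * η ≤ ‖e φ - 1‖ := by
    have h3 := abs_sub_round φ
    rw [h1, e_eq, norm_exp_I_mul_ofReal_sub_one, Real.norm_eq_abs, abs_mul, abs_two]
    generalize φ - round φ = d at *
    have h4 := Real.mul_abs_le_abs_sin (x := 2 * Real.pi * d / 2) (by
      rw [show 2 * Real.pi * d / 2 = Real.pi * d by ring, abs_mul, abs_of_pos Real.pi_pos]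
      nlinarith [Real.pi_pos])
    have h5 : 2 / Real.pi * |2 * Real.pi * d / 2| = 2 * |d| := by
      rw [show 2 * Real.pi * d / 2 = Real.pi * d by ring, abs_mul, abs_of_pos Real.pi_pos]
      field_simp
    linarith
  have h6 : ‖∑ s ∈ range n, e φ ^ s‖ * ‖e φ - 1‖ ≤ 2 := by
    rw [← norm_mul, geom_sum_mul]
    refine (norm_sub_le _ _).trans ?_
    rw [norm_pow, norm_e]; norm_num
  rw [le_div_iff₀ (by positivity)]
  nlinarith [norm_nonneg (∑ s ∈ range n, e φ ^ s)]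

lemma sep {ϑ : ℝ} {c : ℚ} (hc : |ϑ - c| ≤ 1 / (c.den : ℝ) ^ 2) {d : ℕ} (hd : 0 < d)
    (hd' : d ≤ c.den / 2) (m : ℤ) : 1 / (2 * c.den : ℝ) ≤ |d * ϑ - m| := by
  have hq : (0 : ℝ) < c.den := by exact_mod_cast c.pos
  have h1 : (d : ℤ) * c.num - m * c.den ≠ 0 := by
    intro h
    have h2 : (c.den : ℤ) ∣ d * c.num := ⟨m, by linarith⟩
    have h3 : c.den ∣ d * c.num.natAbs := by
      simpa [Int.natAbs_mul] using Int.natAbs_dvd_natAbs.mpr h2
    have := Nat.le_of_dvd hd (c.reduced.symm.dvd_of_dvd_mul_right h3)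
    omega
  have h4 : (1 : ℝ) ≤ |(d : ℝ) * c.num - m * c.den| := by exact_mod_cast Int.one_le_abs h1
  have h5 : (d : ℝ) * c - m = ((d : ℝ) * c.num - m * c.den) / c.den := by
    rw [Rat.cast_def]; field_simp
  have h6 : 1 / (c.den : ℝ) ≤ |(d : ℝ) * c - m| := by
    rw [h5, abs_div, abs_of_pos hq]; gcongr
  have h7 : (d : ℝ) ≤ c.den / 2 := by
    have : 2 * d ≤ c.den := by omega
    have : (2 : ℝ) * d ≤ c.den := by exact_mod_cast this
    linarith
  have h8 : |(d : ℝ) * (ϑ - c)| ≤ 1 / (2 * c.den) := by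
    rw [abs_mul, Nat.abs_cast]
    calc _ ≤ (c.den / 2 : ℝ) * (1 / (c.den : ℝ) ^ 2) := by gcongr
      _ = _ := by field_simp
  have h9 := abs_sub (d * ϑ - m) (d * (ϑ - c))
  rw [show d * ϑ - m - d * (ϑ - c) = d * c - m by ring] at h9
  have : 1 / (c.den : ℝ) = 1 / (2 * c.den) + 1 / (2 * c.den) := by field_simp; ring
  linarith

open Classical in
lemma count {ϑ η : ℝ} {c : ℚ} (hc : |ϑ - c| ≤ 1 / (c.den : ℝ) ^ 2) (hη : 0 ≤ η) (T : ℕ) :
    (((range T).filter fun h : ℕ => |(h + 1) * ϑ - round ((h + 1) * ϑ)| < η).card : ℝ)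
      ≤ (2 * T / c.den + 1) * (4 * c.den * η + 1) := by
  have hq : (0 : ℝ) < c.den := by exact_mod_cast c.pos
  have h1 := card_le_card_of_injOn (s := (range T).filter fun h : ℕ =>
      |(h + 1) * ϑ - round ((h + 1) * ϑ)| < η)
    (t := range (T / (c.den / 2 + 1) + 1) ×ˢ range (⌊4 * c.den * η⌋₊ + 1))
    (fun h => (h / (c.den / 2 + 1), ⌊((h + 1) * ϑ - round ((h + 1) * ϑ) + η) * (2 * c.den)⌋₊))
    (fun h hh => by
      obtain ⟨h1, h2⟩ := mem_filter.mp hh
      refine mem_coe.mpr (mem_product.mpr ⟨mem_range.mpr (Nat.lt_succ_of_le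
        (Nat.div_le_div_right (mem_range.mp h1).le)), mem_range.mpr (Nat.lt_succ_of_le
          (Nat.floor_le_floor ?_))⟩)
      nlinarith [(abs_lt.mp h2).2])
    (fun h hh h' hh' e => by
      by_contra hne
      wlog hlt : h < h' generalizing h h'
      · exact this h' hh' h hh e.symm (Ne.symm hne) (by omega)
      obtain ⟨e1, e2⟩ := Prod.mk.inj e
      have h2 := (abs_lt.mp (mem_filter.mp hh).2).1
      have h3 := (abs_lt.mp (mem_filter.mp hh').2).1
      have h4 : h' - h ≤ c.den / 2 := by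
        have a1 := Nat.div_add_mod h (c.den / 2 + 1)
        have a2 := Nat.div_add_mod h' (c.den / 2 + 1)
        have a3 := Nat.mod_lt h' (show 0 < c.den / 2 + 1 by omega)
        rw [e1] at a1
        omega
      have h5 := sep hc (by omega) h4 (round ((h' + 1) * ϑ) - round ((h + 1) * ϑ))
      rw [Nat.cast_sub hlt.le] at h5
      push_cast at h5
      have b1 := Nat.floor_le (a := ((h + 1) * ϑ - round ((h + 1) * ϑ) + η) * (2 * c.den))
        (mul_nonneg (by linarith) (by positivity))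
      have b2 := Nat.floor_le (a := ((h' + 1) * ϑ - round ((h' + 1) * ϑ) + η) * (2 * c.den))
        (mul_nonneg (by linarith) (by positivity))
      have b3 := Nat.lt_floor_add_one (((h + 1) * ϑ - round ((h + 1) * ϑ) + η) * (2 * c.den))
      have b4 := Nat.lt_floor_add_one (((h' + 1) * ϑ - round ((h' + 1) * ϑ) + η) * (2 * c.den))
      rw [e2] at b1 b3
      rw [div_le_iff₀ (by positivity), ← abs_of_pos (by positivity : (0 : ℝ) < 2 * c.den),
        ← abs_mul, le_abs] at h5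
      rcases h5 with h5 | h5 <;> linarith)
  rw [card_product, card_range, card_range] at h1
  refine (Nat.cast_le.mpr h1).trans ?_
  push_cast
  have a1 : ((T / (c.den / 2 + 1) : ℕ) : ℝ) ≤ 2 * T / c.den := by
    refine Nat.cast_div_le.trans ?_
    have : c.den ≤ 2 * (c.den / 2 + 1) := by omega
    have : (c.den : ℝ) ≤ 2 * (c.den / 2 + 1 : ℕ) := by exact_mod_cast this
    rw [div_le_div_iff₀ (by positivity) hq]
    nlinarith [T.cast_nonneg (α := ℝ)]
  have a2 := Nat.floor_le (a := 4 * c.den * η) (by positivity)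
  gcongr

open Classical in
lemma main (θ : ℝ) {η : ℝ} (hη : 0 < η) (T : ℕ) :
    ‖∑ t ∈ Icc 1 T, e (θ * (t : ℝ) ^ 2)‖ ^ 2 ≤ T + T / η + 2 * T * (((range T).filter fun h : ℕ =>
      |(h + 1) * (2 * θ) - round ((h + 1) * (2 * θ))| < η).card : ℝ) := by
  rw [← Ico_add_one_right_eq_Icc, sum_Ico_eq_sum_range, add_tsub_cancel_right, Complex.sq_norm,
    normSq_sum]
  simp only [normSq_eq_norm_sq, norm_e, one_pow, sum_const, card_range, nsmul_eq_mul, mul_one]
  have h1 : ∀ h ∈ range T, ‖∑ s ∈ range (T - (h + 1)), e (θ * ((1 + (s + h + 1) : ℕ) : ℝ) ^ 2) *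
      (starRingEnd ℂ) (e (θ * ((1 + s : ℕ) : ℝ) ^ 2))‖ ≤ 1 / (2 * η) +
        if |(h + 1) * (2 * θ) - round ((h + 1) * (2 * θ))| < η then (T : ℝ) else 0 := by
    intro h _
    have e1 : ∀ s : ℕ, e (θ * ((1 + (s + h + 1) : ℕ) : ℝ) ^ 2) *
        (starRingEnd ℂ) (e (θ * ((1 + s : ℕ) : ℝ) ^ 2))
        = e (θ * ((h + 1) * (h + 3))) * e ((h + 1) * (2 * θ)) ^ s := by
      intro s
      rw [e, e, e, e, ← exp_conj, ← Complex.exp_nat_mul, ← Complex.exp_add, ← Complex.exp_add]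
      congr 1
      simp only [map_mul, conj_ofReal, conj_I, map_ofNat]
      push_cast
      ring
    simp only [e1]
    rw [← mul_sum, norm_mul, norm_e, one_mul]
    split_ifs with h2
    · refine (norm_sum_le _ _).trans ?_
      simp only [norm_pow, norm_e, one_pow, sum_const, card_range, nsmul_eq_mul, mul_one]
      have : ((T - (h + 1) : ℕ) : ℝ) ≤ T := by exact_mod_cast Nat.sub_le _ _
      have : 0 < 1 / (2 * η) := by positivity
      linarith
    · rw [add_zero]; exact geom hη (not_lt.mp h2) _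
  have h2 := (re_le_norm _).trans ((norm_sum_le _ _).trans (sum_le_sum h1))
  rw [sum_add_distrib, ← sum_filter, sum_const, sum_const, card_range, nsmul_eq_mul,
    nsmul_eq_mul] at h2
  have : (T : ℝ) / η = 2 * (T * (1 / (2 * η))) := by field_simp
  linarith

end Weyl

/-- a large quadratic exponential sum forces a good rational approximation -/
theorem weyl (θ δ : ℝ) (T : ℕ) (hδ : 0 < δ) (hδ1 : δ ≤ 1) (hT : 1000 ≤ δ ^ 4 * T)
    (h : δ * T ≤ ‖∑ t ∈ Finset.Icc 1 T,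
      Complex.exp (2 * Real.pi * Complex.I * ((θ * (t : ℝ) ^ 2 : ℝ) : ℂ))‖) :
    ∃ q : ℕ, 0 < q ∧ (q : ℝ) ≤ 16 / δ ^ 2 ∧
      |(q : ℝ) * θ - round ((q : ℝ) * θ)| ≤ 256 / (δ ^ 4 * (T : ℝ) ^ 2) := by
  have hδ4 : δ ^ 4 ≤ 1 := pow_le_one₀ hδ.le hδ1
  have hT1 : (1000 : ℝ) ≤ T := by nlinarith [T.cast_nonneg (α := ℝ)]
  have hX : 1 ≤ δ ^ 4 * (T : ℝ) ^ 2 / 256 := by nlinarith
  obtain ⟨c, hc, hcn⟩ := Real.exists_rat_abs_sub_le_and_den_le (2 * θ)
    (n := ⌊δ ^ 4 * (T : ℝ) ^ 2 / 256⌋₊) (Nat.floor_pos.mpr hX)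
  have hq : (0 : ℝ) < c.den := by exact_mod_cast c.pos
  have hcn' : (c.den : ℝ) ≤ ⌊δ ^ 4 * (T : ℝ) ^ 2 / 256⌋₊ := by exact_mod_cast hcn
  have h1 := Nat.floor_le (a := δ ^ 4 * (T : ℝ) ^ 2 / 256) (by positivity)
  have h2 := Nat.lt_floor_add_one (δ ^ 4 * (T : ℝ) ^ 2 / 256)
  generalize (⌊δ ^ 4 * (T : ℝ) ^ 2 / 256⌋₊ : ℝ) = n at *
  have hη : 0 < 4 / δ ^ 2 / T := by positivity
  have h3 := Weyl.count (η := 4 / δ ^ 2 / T) (hc.trans (by
    rw [sq]; gcongr; linarith)) hη.le T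
  have h4 := Weyl.main θ hη T
  have h5 : (δ * T) ^ 2 ≤ ‖∑ t ∈ Finset.Icc 1 T, Weyl.e (θ * (t : ℝ) ^ 2)‖ ^ 2 := by
    gcongr; exact h
  have h6 := mul_le_mul_of_nonneg_left h3 (by positivity : (0 : ℝ) ≤ 2 * T)
  have e1 : (T : ℝ) / (4 / δ ^ 2 / T) = (δ * T) ^ 2 / 4 := by field_simp
  have e2 : (2 : ℝ) * T * ((2 * T / c.den + 1) * (4 * c.den * (4 / δ ^ 2 / T) + 1))
      = 64 * (T / δ ^ 2) + 4 * T ^ 2 / c.den + 32 * (c.den / δ ^ 2) + 2 * T := by field_simp; ring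
  have a1 : (T : ℝ) / δ ^ 2 ≤ (δ * T) ^ 2 / 1000 := by
    rw [div_le_div_iff₀ (by positivity) (by norm_num)]; nlinarith
  have a2 : (T : ℝ) ≤ T / δ ^ 2 := le_div_self (by positivity) (by positivity)
    (pow_le_one₀ hδ.le hδ1)
  have a3 : (c.den : ℝ) / δ ^ 2 ≤ (δ * T) ^ 2 / 256 := by
    rw [div_le_iff₀ (by positivity)]; nlinarith
  have a4 : (δ * T) ^ 2 / 2 ≤ 4 * T ^ 2 / c.den := by
    have := sq_nonneg (δ * T)
    linarith
  refine ⟨2 * c.den, by have := c.pos; omega, ?_, (round_le _ c.num).trans ?_⟩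
  · rw [div_le_div_iff₀ (by norm_num) hq] at a4
    rw [le_div_iff₀ (by positivity)]
    push_cast
    have : (0 : ℝ) < (T : ℝ) ^ 2 := by positivity
    nlinarith
  · have e3 : ((2 * c.den : ℕ) : ℝ) * θ - c.num = c.den * (2 * θ - c) := by
      rw [Rat.cast_def]; push_cast; field_simp
    rw [e3, abs_mul, abs_of_pos hq]
    calc _ ≤ c.den * (1 / ((n + 1) * c.den)) := by gcongr
      _ = 1 / (n + 1) := by field_simp
      _ ≤ 1 / (δ ^ 4 * (T : ℝ) ^ 2 / 256) := by gcongr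
      _ = _ := by field_simp

end Pool.Agent.MP_14ad9d_nt
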