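import Pool.Agent.MP_14ad9d_nt.AuxPr
import Pool.Agent.MP_14ad9d_nt.EcB
import Pool.Agent.MP_14ad9d_nt.Sch

set_option autoImplicit false
set_option linter.unusedSectionVars false

open NumberField IsDedekindDomain

namespace Pool.Agent.MP_14ad9d_nt

theorem fact_of_odd (K : Type) [Field K] [NumberField K] (hodd : Odd (Module.finrank ℚ K)) :
    Fact (∀ r : K, r ^ 2 ≠ -1 + 0 * r) := by
  refine ⟨fun r h => ?_⟩
  have h1 : r ^ 2 = algebraMap ℚ K (-1) := by rw [h]; simp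
  have h2 := congrArg (Algebra.norm ℚ) h1
  rw [map_pow, Algebra.norm_algebraMap, hodd.neg_one_pow] at h2
  nlinarith [sq_nonneg (Algebra.norm ℚ r)]

variable (K : Type) [Field K] [NumberField K] [Fact (∀ r : K, r ^ 2 ≠ -1 + 0 * r)]

/-- the field obtained by adjoining a square root of `-1` -/
abbrev Mi : Type := QuadraticAlgebra K (-1) 0

instance : Module.Finite ℚ (Mi K) := Module.Finite.trans K (Mi K)

instance : NumberField (Mi K) where

/-- the inclusion of the Gaussian field -/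
noncomputable def toMi : Fi →ₐ[ℚ] Mi K :=
  QuadraticAlgebra.lift ⟨⟨0, 1⟩, by
    ext <;> simp [QuadraticAlgebra.re_one, QuadraticAlgebra.im_one]⟩

noncomputable instance : Algebra Fi (Mi K) := (toMi K).toRingHom.toAlgebra

theorem algebraMap_Mi (u : Fi) :
    algebraMap Fi (Mi K) u = ⟨algebraMap ℚ K u.re, algebraMap ℚ K u.im⟩ := by
  change u.re • (1 : Mi K) + u.im • (⟨0, 1⟩ : Mi K) = _
  ext <;> simp [Algebra.smul_def]

theorem finrank_Mi : Module.finrank Fi (Mi K) = Module.finrank ℚ K := by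
  have h1 := Module.finrank_mul_finrank ℚ Fi (Mi K)
  have h2 := Module.finrank_mul_finrank ℚ K (Mi K)
  rw [QuadraticAlgebra.finrank_eq_two] at h1 h2
  omega

theorem TwoInt.add {A : Type*} [CommRing A] {u v : A} (hu : TwoInt u) (hv : TwoInt v) :
    TwoInt (u + v) := by
  obtain ⟨d, hd, h1⟩ := hu
  obtain ⟨e, he, h2⟩ := hv
  refine ⟨d * e, hd.mul he, ?_⟩
  rw [show ((d * e : ℕ) : A) * (u + v) = e * (d * u) + d * (e * v) by push_cast; ring]
  have h3 : ∀ n : ℕ, IsIntegral ℤ (n : A) := fun n => by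
    simpa using isIntegral_algebraMap (R := ℤ) (A := A) (x := (n : ℤ))
  exact ((h3 e).mul h1).add ((h3 d).mul h2)

theorem TwoInt.mul_integral {A : Type*} [CommRing A] {u v : A} (hu : TwoInt u)
    (hv : IsIntegral ℤ v) : TwoInt (u * v) := by
  obtain ⟨d, hd, h1⟩ := hu
  exact ⟨d, hd, by rw [← mul_assoc]; exact h1.mul hv⟩

theorem TwoInt.map {A B : Type*} [CommRing A] [CommRing B] (f : A →+* B) {u : A} (hu : TwoInt u) :
    TwoInt (f u) := by
  obtain ⟨d, hd, h1⟩ := hu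
  refine ⟨d, hd, ?_⟩
  have := h1.map f.toIntAlgHom
  simpa using this

theorem twoInt_mk {a b : K} (ha : TwoInt a) (hb : TwoInt b) : TwoInt (⟨a, b⟩ : Mi K) := by
  have h1 : (⟨a, b⟩ : Mi K) = algebraMap K (Mi K) a + algebraMap K (Mi K) b * ⟨0, 1⟩ := by
    ext <;> simp
  rw [h1]
  refine (ha.map _).add ((hb.map _).mul_integral (isIntegral_of_sq_neg_one ?_))
  ext <;> simp [sq, QuadraticAlgebra.re_one, QuadraticAlgebra.im_one]

open MvPolynomial in
/-- real part of the equation -/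
noncomputable def eqRe (D : GaussianInt) : MvPolynomial (Fin 4) ℤ :=
  2 * X 2 - (8 * (X 0 ^ 3 - 3 * X 0 * X 1 ^ 2) -
    8 * ((C D.re * X 0 - C D.im * X 1) * (X 2 ^ 2 - X 3 ^ 2) -
      (C D.re * X 1 + C D.im * X 0) * (2 * X 2 * X 3)))

open MvPolynomial in
/-- imaginary part of the equation -/
noncomputable def eqIm (D : GaussianInt) : MvPolynomial (Fin 4) ℤ :=
  2 * X 3 - (8 * (3 * X 0 ^ 2 * X 1 - X 1 ^ 3) -
    8 * ((C D.re * X 0 - C D.im * X 1) * (2 * X 2 * X 3) +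
      (C D.re * X 1 + C D.im * X 0) * (X 2 ^ 2 - X 3 ^ 2)))

theorem eq_iff {A : Type} [CommRing A] (D : GaussianInt) (η : Fin 4 → A) :
    (∀ f ∈ ({eqRe D, eqIm D} : Set (MvPolynomial (Fin 4) ℤ)), MvPolynomial.aeval η f = 0) ↔
      2 * (⟨η 2, η 3⟩ : QuadraticAlgebra A (-1) 0) = (2 * ⟨η 0, η 1⟩) ^ 3 -
        ⟨D.re, D.im⟩ * (2 * ⟨η 0, η 1⟩) * (2 * ⟨η 2, η 3⟩) ^ 2 := by
  simp only [Set.mem_insert_iff, Set.mem_singleton_iff, forall_eq_or_imp, forall_eq, eqRe, eqIm,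
    map_sub, map_mul, map_add, map_pow, map_ofNat, MvPolynomial.aeval_X,
    eq_intCast, map_intCast, QuadraticAlgebra.ext_iff]
  simp only [pow_succ, pow_zero, one_mul, QuadraticAlgebra.re_mul, QuadraticAlgebra.im_mul,
    QuadraticAlgebra.re_sub, QuadraticAlgebra.im_sub, QuadraticAlgebra.re_ofNat,
    QuadraticAlgebra.im_ofNat]
  constructor
  · rintro ⟨h1, h2⟩
    exact ⟨by linear_combination h1, by linear_combination h2⟩
  · rintro ⟨h1, h2⟩
    exact ⟨by linear_combination h1, by linear_combination h2⟩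

theorem gi_eq (D : GaussianInt) : gi D = ⟨D.re, D.im⟩ := by
  rw [gi_apply]; ext <;> simp [iF]

theorem conc_of_aux (hodd : Odd (Module.finrank ℚ K)) (h : AuxHyp (Mi K))
    (hc : ∃ g : Gam, Cyc (Emb (Mi K)) g) : Conc K := by
  have hodd' : Odd (Module.finrank Fi (Mi K)) := by rwa [finrank_Mi]
  obtain ⟨g, hg⟩ := hc
  obtain ⟨α, β, γ, e, hα, h64, hβ, hD, hsel⟩ := core h (silent_of_cyc hodd' hg)
  set D := α ^ 2 * β * γ with hDdef
  refine sch K 4 {eqRe D, eqIm D} ?_ fun η h1 h2 => ?_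
  · refine Set.infinite_of_injOn_mapsTo
      (f := fun zw : Fi × Fi => ![zw.1.re, zw.1.im, zw.2.re, zw.2.im]) ?_ ?_
      (ecA α β γ e hα h64 hβ)
    · intro a _ b _ hab
      have h0 := congrFun hab 0
      have h1 := congrFun hab 1
      have h2 := congrFun hab 2
      have h3 := congrFun hab 3
      exact Prod.ext (QuadraticAlgebra.ext h0 h1) (QuadraticAlgebra.ext h2 h3)
    · rintro ⟨z, w⟩ ⟨h1, h2, h3, h4, h5⟩
      refine ⟨(eq_iff D _).2 ?_, fun l => by fin_cases l <;> assumption⟩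
      rw [gi_eq] at h1
      exact h1
  · have h3 := (eq_iff D η).1 h1
    have h4 : algebraMap Fi (Mi K) (gi D) = ⟨D.re, D.im⟩ := by
      rw [algebraMap_Mi, gi_eq]; simp
    obtain ⟨⟨z, hz⟩, ⟨w, hw⟩⟩ := ecB Fi (Mi K) iF iF_sq hodd' (gi D)
      (fun h0 => hD (gi_injective (by simpa using h0)))
      ⟨1, odd_one, by simpa using isIntegral_map_gauss gi D⟩ hsel ⟨η 0, η 1⟩ ⟨η 2, η 3⟩
      (twoInt_mk K (h2 0) (h2 1)) (twoInt_mk K (h2 2) (h2 3)) (by rw [h4]; exact h3)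
    rw [algebraMap_Mi] at hz hw
    intro l
    fin_cases l
    · exact ⟨_, congrArg QuadraticAlgebra.re hz⟩
    · exact ⟨_, congrArg QuadraticAlgebra.im hz⟩
    · exact ⟨_, congrArg QuadraticAlgebra.re hw⟩
    · exact ⟨_, congrArg QuadraticAlgebra.im hw⟩

end Pool.Agent.MP_14ad9d_nt
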