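import Pool.Agent.MP_14ad9d_nt.HbM
import Pool.Agent.MP_14ad9d_nt.Mi

set_option autoImplicit false
set_option linter.unusedSectionVars false

open NumberField Equiv

namespace Pool.Agent.MP_14ad9d_nt

/-- the absolute Galois group of the rationals -/
abbrev GQ : Type := Om ≃ₐ[ℚ] Om

/-- restriction of scalars -/
noncomputable def res : Gam →* GQ where
  toFun g := g.restrictScalars ℚ
  map_one' := rfl
  map_mul' _ _ := rfl

@[simp] theorem res_apply (g : Gam) (z : Om) : res g z = g z := rfl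

theorem exists_res (g : GQ) (h : g iO = iO) : ∃ g' : Gam, res g' = g := by
  refine ⟨{ g with commutes' := fun u => ?_ }, rfl⟩
  change g (algebraMap Fi Om u) = algebraMap Fi Om u
  have : algebraMap Fi Om u = (u.re : Om) + (u.im : Om) * iO := by
    conv_lhs => rw [Fi.eq_add u]
    rw [map_add, map_mul, map_ratCast, map_ratCast, iO]
  rw [this, map_add, map_mul, map_ratCast, map_ratCast, h]

theorem exists_res_sq (g : GQ) : ∃ g' : Gam, res g' = g ^ 2 := by
  refine exists_res _ ?_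
  have h1 : g iO ^ 2 = iO ^ 2 := by rw [← map_pow, iO_sq]; simp
  rw [sq, AlgEquiv.mul_apply]
  rcases sq_eq_sq_iff_eq_or_eq_neg.1 h1 with h | h
  · rw [h, h]
  · rw [h, map_neg, h, neg_neg]

theorem exists_fix0_four (g : GQ) : ∃ g' : Gam, Fix0 g' ∧ res g' = g ^ 4 := by
  obtain ⟨g', h⟩ := exists_res_sq g
  exact ⟨g' ^ 2, fix0_sq g', by rw [map_pow, h, ← pow_mul]⟩

variable (K : Type) [Field K] [NumberField K]

/-- embeddings of `K` -/
def EK : Type := K →ₐ[ℚ] Om

noncomputable instance : Fintype (EK K) := inferInstanceAs (Fintype (K →ₐ[ℚ] Om))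

variable {K}

/-- the underlying map -/
def EK.hom (σ : EK K) : K →ₐ[ℚ] Om := σ

/-- build an embedding -/
def EK.mk (σ : K →ₐ[ℚ] Om) : EK K := σ

theorem EK.ext {σ τ : EK K} (h : ∀ x, σ.hom x = τ.hom x) : σ = τ := AlgHom.ext h

noncomputable instance : MulAction GQ (EK K) where
  smul g σ := EK.mk ((g : Om →ₐ[ℚ] Om).comp σ.hom)
  one_smul _ := rfl
  mul_smul _ _ _ := rfl

@[simp] theorem EK.smul_apply (g : GQ) (σ : EK K) (x : K) : (g • σ).hom x = g (σ.hom x) := rfl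

instance : Nonempty (EK K) := ⟨EK.mk IsAlgClosed.lift⟩

theorem EK.card : Fintype.card (EK K) = Module.finrank ℚ K := AlgHom.card ℚ K Om

theorem EK.exists_smul (σ τ : EK K) : ∃ g : GQ, g • σ = τ := by
  let : Algebra K Om := σ.hom.toRingHom.toAlgebra
  have : IsScalarTower ℚ K Om :=
    IsScalarTower.of_algebraMap_eq fun x => (σ.hom.commutes x).symm
  let φ : Om →ₐ[ℚ] Om := AlgHom.liftNormal τ.hom Om
  refine ⟨AlgEquiv.ofBijective φ (Algebra.IsAlgebraic.algHom_bijective φ), EK.ext fun x => ?_⟩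
  exact AlgHom.liftNormal_commutes τ.hom Om x

variable (K) in
open Classical in
theorem exists_disc_root : ∃ δ : Om, δ ^ 2 = ((discr K : ℚ) : Om) ∧
    ∀ g : GQ, g δ = Perm.sign (MulAction.toPerm g : Perm (EK K)) * δ := by
  let b := integralBasis K
  let e : Module.Free.ChooseBasisIndex ℤ (𝓞 K) ≃ EK K := Fintype.equivOfCardEq (by
    rw [EK.card, Module.finrank_eq_card_basis b])
  refine ⟨(Algebra.embeddingsMatrixReindex ℚ Om b e).det, ?_, fun g => ?_⟩
  · rw [← Algebra.discr_eq_det_embeddingsMatrixReindex_pow_two, coe_discr]; rfl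
  · have h1 := (g : Om →+* Om).map_det (Algebra.embeddingsMatrixReindex ℚ Om b e)
    rw [RingHom.coe_coe] at h1
    rw [h1, ← Perm.sign_permCongr e.symm, ← Matrix.det_permute']
    congr 1
    ext i j
    change g ((e j).hom (b i)) = (e (e.symm (g • e j))).hom (b i)
    rw [Equiv.apply_symm_apply]
    rfl

variable [Fact (∀ r : K, r ^ 2 ≠ -1 + 0 * r)]

/-- restriction of an embedding to `K` -/
noncomputable def down (τ : Emb (Mi K)) : EK K :=
  EK.mk (τ.hom.toRingHom.comp (algebraMap K (Mi K))).toRatAlgHom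

theorem down_apply (τ : Emb (Mi K)) (x : K) : (down τ).hom x = τ.hom (algebraMap K (Mi K) x) := rfl

theorem down_smul (g : Gam) (τ : Emb (Mi K)) : down (g • τ) = res g • down τ := rfl

theorem down_bijective : Function.Bijective (down (K := K)) := by
  rw [Fintype.bijective_iff_injective_and_card, Emb.card, EK.card, finrank_Mi]
  refine ⟨fun σ τ h => Emb.ext fun x => ?_, rfl⟩
  have h1 : x = algebraMap K (Mi K) x.re + algebraMap K (Mi K) x.im * algebraMap Fi (Mi K) iF := by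
    rw [algebraMap_Mi]; ext <;> simp [iF]
  rw [h1, map_add, map_add, map_mul, map_mul, AlgHom.commutes, AlgHom.commutes, ← down_apply,
    ← down_apply, h, down_apply, down_apply]

theorem smul_eq_iff_down {g : Gam} {σ τ : Emb (Mi K)} :
    g • σ = τ ↔ res g • down σ = down τ := by
  rw [← down_smul, down_bijective.1.eq_iff]

theorem cyc_up {g : Gam} (h : Cyc (EK K) (res g)) : Cyc (Emb (Mi K)) g := fun x y => by
  obtain ⟨k, hk⟩ := h (down x) (down y)
  exact ⟨k, by rw [smul_eq_iff_down, map_pow, hk]⟩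

theorem exists_cyc_up (hodd : Odd (Module.finrank ℚ K)) {g : GQ} (h : Cyc (EK K) g) :
    ∃ g' : Gam, Cyc (Emb (Mi K)) g' := by
  obtain ⟨g', hg⟩ := exists_res_sq g
  exact ⟨g', cyc_up (hg ▸ h.sq (by rwa [EK.card]))⟩

theorem exists_cyc_prime (hp : (Module.finrank ℚ K).Prime) : ∃ g' : Gam, Cyc (Emb (Mi K)) g' :=
  exists_cyc_of_prime (by rwa [Emb.card, finrank_Mi]) Emb.exists_smul

theorem symM_of_sym (hodd : Odd (Module.finrank ℚ K))
    (hs : ∀ s : Perm (EK K), ∃ g : GQ, ∀ σ, g • σ = s σ) (h1 : ¬ IsSquare (discr K : ℚ))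
    (h2 : ¬ IsSquare (-(discr K : ℚ))) (h3 : ¬ IsSquare (2 * (discr K : ℚ)))
    (h4 : ¬ IsSquare (-2 * (discr K : ℚ))) : SymM (Mi K) := by
  classical
  obtain ⟨δ, hδ, hsign⟩ := exists_disc_root K
  have hδ0 : δ ≠ 0 := by
    rintro rfl
    have : (discr K : ℚ) = 0 := by
      have h5 : ((discr K : ℚ) : Om) = 0 := by rw [← hδ]; simp
      exact_mod_cast h5
    exact h1 (this ▸ IsSquare.zero)
  obtain ⟨g₁, g1, -, g3⟩ := exists_neg_rat (M := Mi K) (by rwa [finrank_Mi])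
    (Classical.arbitrary _) h1 h2 h3 h4 hδ
  let R : Subgroup (Perm (EK K)) :=
    { carrier := {s | ∃ g : Gam, Fix0 g ∧ ∀ σ, res g • σ = s σ}
      one_mem' := ⟨1, fix0_one, fun σ => one_smul _ σ⟩
      mul_mem' := by
        rintro a b ⟨u, u2, u3⟩ ⟨v, v2, v3⟩
        exact ⟨u * v, u2.mul v2, fun σ => by rw [map_mul, mul_smul, v3, u3]; rfl⟩
      inv_mem' := by
        rintro a ⟨u, u2, u3⟩
        exact ⟨u⁻¹, u2.inv, fun σ => by rw [map_inv, inv_smul_eq_iff, u3]; simp⟩ }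
  have hA : alternatingGroup (EK K) ≤ R := by
    rw [← Perm.closure_three_cycles_eq_alternating, Subgroup.closure_le]
    intro s hs3
    obtain ⟨u, hu⟩ := hs s
    obtain ⟨v, v1, v2⟩ := exists_fix0_four u
    refine ⟨v, v1, fun σ => ?_⟩
    have h5 : s ^ 3 = 1 := by rw [← Perm.IsThreeCycle.orderOf hs3, pow_orderOf_eq_one]
    have h6 : (MulAction.toPermHom GQ (EK K)) u = s := Equiv.ext hu
    have h7 : (MulAction.toPermHom GQ (EK K)) (u ^ 4) = s := by
      rw [map_pow, h6, show 4 = 3 + 1 from rfl, pow_succ, h5, one_mul]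
    rw [v2, ← h7]; rfl
  have hc : MulAction.toPerm (res g₁) ∈ R := ⟨g₁, g1, fun _ => rfl⟩
  have hsign' : Perm.sign (MulAction.toPerm (res g₁) : Perm (EK K)) = -1 := by
    refine (Int.units_eq_one_or _).resolve_left fun h5 => hδ0 ?_
    have := hsign (res g₁)
    rw [h5, res_apply, g3] at this
    simp only [Units.val_one, Int.cast_one, one_mul] at this
    linear_combination -this / 2
  have hall : ∀ s, s ∈ R := fun s => by
    rcases Int.units_eq_one_or (Perm.sign s) with h5 | h5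
    · exact hA (Perm.mem_alternatingGroup.2 h5)
    · have h6 : s * (MulAction.toPerm (res g₁))⁻¹ ∈ R :=
        hA (Perm.mem_alternatingGroup.2 (by rw [map_mul, map_inv, h5, hsign']; simp))
      simpa using Subgroup.mul_mem _ h6 hc
  intro s
  let e := Equiv.ofBijective _ (down_bijective (K := K))
  obtain ⟨g, g1, g2⟩ := hall (e.permCongr s)
  refine ⟨g, g1, fun σ => ?_⟩
  rw [smul_eq_iff_down, g2]
  change e (s (e.symm (e σ))) = e (s σ)
  rw [Equiv.symm_apply_apply]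

theorem hb_of_affK (hodd : Odd (Module.finrank ℚ K)) (σ₀ : EK K) (c : GQ) (hc : Cyc1 c σ₀)
    (hpow : ∀ g : GQ, g • σ₀ = σ₀ → ∃ j : ℕ, ∀ σ : EK K, g • σ = c ^ j • σ) {d : ℚ} {δ : Om}
    (hδ : δ ^ 2 = d) (h1 : ¬ IsSquare d) (h2 : ¬ IsSquare (-d)) (h3 : ¬ IsSquare (2 * d))
    (h4 : ¬ IsSquare (-2 * d)) (hfix : ∀ g : GQ, (∀ σ : EK K, g • σ = σ) → g δ = δ) :
    Hb (Mi K) := by
  obtain ⟨σ₁, rfl⟩ := down_bijective.2 σ₀
  have hδ0 : δ ≠ 0 := by
    rintro rfl
    have : d = 0 := by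
      have h5 : (d : Om) = 0 := by rw [← hδ]; simp
      exact_mod_cast h5
    exact h1 (this ▸ IsSquare.zero)
  obtain ⟨g₁, g1, g2, g3⟩ := exists_neg_rat (M := Mi K) (by rwa [finrank_Mi]) σ₁ h1 h2 h3 h4 hδ
  obtain ⟨j, hj⟩ := hpow _ (smul_eq_iff_down.1 g2)
  have hodd' : Odd j := by
    by_contra hev
    obtain ⟨k, rfl⟩ := Nat.not_odd_iff_even.1 hev
    have h5 := hfix ((c ^ (k + k))⁻¹ * res g₁) fun σ => by rw [mul_smul, inv_smul_eq_iff, hj]
    have h6 : (c ^ (k + k)) δ = δ := by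
      have h7 : (c ^ k) δ ^ 2 = δ ^ 2 := by rw [← map_pow, hδ, map_ratCast]
      rw [pow_add, AlgEquiv.mul_apply]
      rcases sq_eq_sq_iff_eq_or_eq_neg.1 h7 with h | h
      · rw [h, h]
      · rw [h, map_neg, h, neg_neg]
    rw [AlgEquiv.mul_apply, res_apply, g3] at h5
    have h8 := congrArg (c ^ (k + k)) h5
    rw [← AlgEquiv.mul_apply, mul_inv_cancel, h6, AlgEquiv.one_apply] at h8
    exact hδ0 (by linear_combination -h8 / 2)
  obtain ⟨v, v1, v2⟩ := exists_fix0_four c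
  obtain ⟨k, hk⟩ : ∃ k, j * j = 1 + 4 * k := by
    obtain ⟨m, rfl⟩ := hodd'
    exact ⟨m * m + m, by ring⟩
  let φ := MulAction.toPermHom GQ (EK K)
  have hτ : ∀ σ : EK K, res (g₁ ^ j * (v ^ k)⁻¹) • σ = c • σ := by
    have h5 : φ (res g₁) = φ c ^ j := by rw [← map_pow]; exact Equiv.ext hj
    have h6 : φ (res (g₁ ^ j * (v ^ k)⁻¹)) = φ c := by
      rw [map_mul, map_mul, map_inv, map_inv, map_pow, map_pow, map_pow, map_pow, h5, v2, map_pow,
        ← pow_mul, ← pow_mul, hk, pow_add]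
      simp
    exact fun σ => congrArg (fun s : Perm (EK K) => s σ) h6
  set τ := g₁ ^ j * (v ^ k)⁻¹ with hτdef
  have hτk : ∀ (m : ℕ) (σ : EK K), res τ ^ m • σ = c ^ m • σ := by
    intro m
    induction m with
    | zero => simp
    | succ m ih => intro σ; rw [pow_succ, pow_succ, mul_smul, mul_smul, hτ, ih]
  refine hb_of_aff σ₁ τ ((g1.pow j).mul (v1.pow k).inv) ⟨by rw [smul_eq_iff_down, hτ, hc.1],
    fun x y hx hy => ?_⟩ fun g hg => ?_
  · obtain ⟨m, hm⟩ := hc.2 (down x) (down y) (down_bijective.1.ne hx) (down_bijective.1.ne hy)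
    exact ⟨m, by rw [smul_eq_iff_down, map_pow, hτk, hm]⟩
  · obtain ⟨m, hm⟩ := hpow _ (smul_eq_iff_down.1 hg)
    exact ⟨m, fun σ => by rw [smul_eq_iff_down, down_smul, map_pow, hτk, hm]⟩

theorem isGalois_up (σ₀ : EK K)
    (h : ∀ g : Gam, res g • σ₀ = σ₀ → ∀ σ : EK K, res g • σ = σ) : IsGalois Fi (Mi K) := by
  obtain ⟨σ₁, rfl⟩ := down_bijective.2 σ₀
  exact isGalois_of_stab σ₁ fun g hg σ => smul_eq_iff_down.2 (h g (smul_eq_iff_down.1 hg) _)

end Pool.Agent.MP_14ad9d_nt
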