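import Pool.Agent.MP_14ad9d_nt.Defs

set_option autoImplicit false

namespace Pool.Agent.MP_14ad9d_nt

namespace Gauss4

open Complex Filter Topology Real

lemma summable_gauss {T : ℝ} (hT : 0 < T) : Summable fun n : ℤ => Real.exp (-π * (T * n ^ 2)) := by
  simpa using summable_pow_mul_jacobiTheta₂_term_bound 0 hT 0

lemma norm_gauss (a : ℂ) (n : ℤ) : ‖cexp (-π * a * (n : ℂ) ^ 2)‖ = Real.exp (-π * (a.re * n ^ 2)) := by
  rw [Complex.norm_exp]
  congr 1
  have : (-π * a * (n : ℂ) ^ 2) = ((-π * n ^ 2 : ℝ) : ℂ) * a := by push_cast; ring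
  rw [this, re_ofReal_mul]
  ring

lemma summable_cgauss {a : ℂ} (ha : 0 < a.re) : Summable fun n : ℤ => cexp (-π * a * (n : ℂ) ^ 2) :=
  (summable_gauss ha).of_norm_bounded fun n => (norm_gauss a n).le

/-- only the central term of a narrow Gaussian survives -/
lemma lim_one (u : ℤ → ℂ) (hu : ∀ n, ‖u n‖ ≤ 1) (h0 : u 0 = 1) :
    Tendsto (fun t : ℝ => ∑' n : ℤ, cexp (-π * t * (n : ℂ) ^ 2) * u n) atTop (𝓝 1) := by
  have key := tendsto_tsum_of_dominated_convergence (𝓕 := (atTop : Filter ℝ))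
    (f := fun (t : ℝ) (n : ℤ) => cexp (-π * t * (n : ℂ) ^ 2) * u n)
    (g := fun n : ℤ => if n = 0 then (1 : ℂ) else 0) (summable_gauss one_pos) ?_ ?_
  · simpa using key
  · intro k
    by_cases hk : k = 0
    · subst hk
      simp [h0]
    · simp only [hk, if_false]
      rw [tendsto_zero_iff_norm_tendsto_zero]
      have hk' : (0 : ℝ) < (k : ℝ) ^ 2 := by
        have : (k : ℝ) ≠ 0 := by exact_mod_cast hk
        positivity
      have h1 : Tendsto (fun t : ℝ => Real.exp (-π * (t * k ^ 2))) atTop (𝓝 0) := by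
        refine Real.tendsto_exp_atBot.comp ?_
        refine Tendsto.const_mul_atTop_of_neg (by linarith [pi_pos]) ?_
        exact tendsto_id.atTop_mul_const hk'
      refine squeeze_zero (fun _ => norm_nonneg _) (fun t => ?_) h1
      rw [norm_mul, norm_gauss, ofReal_re]
      exact mul_le_of_le_one_right (Real.exp_pos _).le (hu k)
  · filter_upwards [eventually_ge_atTop (1 : ℝ)] with t ht k
    rw [norm_mul, norm_gauss, ofReal_re]
    refine (mul_le_of_le_one_right (Real.exp_pos _).le (hu k)).trans ?_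
    apply Real.exp_le_exp.2
    have : (0 : ℝ) ≤ (k : ℝ) ^ 2 := sq_nonneg _
    nlinarith [mul_nonneg (mul_nonneg pi_pos.le (sub_nonneg.2 ht)) this]

lemma half_mul {r : ℝ} (hr : 0 < r) {x : ℂ} (hx : x ≠ 0) :
    ((r : ℂ) * x) ^ (1 / 2 : ℂ) = (r : ℂ) ^ (1 / 2 : ℂ) * x ^ (1 / 2 : ℂ) := by
  have hr' : (r : ℂ) ≠ 0 := by exact_mod_cast hr.ne'
  rw [cpow_def_of_ne_zero (mul_ne_zero hr' hx), cpow_def_of_ne_zero hr', cpow_def_of_ne_zero hx,
    log_ofReal_mul hr hx, ← Complex.exp_add, ofReal_log hr.le]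
  ring_nf

lemma exp_int (m : ℤ) : cexp (2 * π * I * m) = 1 := by
  rw [mul_comm]
  exact Complex.exp_int_mul_two_pi_mul_I m

lemma split (N : ℕ) [NeZero N] (f : ℤ → ℂ) (hf : Summable f) :
    ∑' n, f n = ∑ r ∈ Finset.range N, ∑' k : ℤ, f (k * N + r) := by
  rw [← (Int.divModEquiv N).symm.tsum_eq f]
  have h1 : Summable fun p : ℤ × Fin N => f ((Int.divModEquiv N).symm p) :=
    (Int.divModEquiv N).symm.summable_iff.2 hf
  rw [h1.tsum_prod, ← Summable.tsum_comm (f := fun (k : ℤ) (r : Fin N) =>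
    f ((Int.divModEquiv N).symm (k, r))) h1, tsum_fintype, Finset.sum_range]
  rfl

/-- the left hand side: sum over residue classes -/
lemma left_side (N : ℕ) (hN : 0 < N) {t : ℝ} (ht : 0 < t) :
    ∑' n : ℤ, cexp (-π * ((1 / (t * N ^ 2) : ℝ) - 2 * I / N) * (n : ℂ) ^ 2) =
      (t : ℂ) ^ (1 / 2 : ℂ) * ∑ r ∈ Finset.range N, cexp (2 * π * I * ((r : ℂ) ^ 2 / N)) *
        ∑' n : ℤ, cexp (-π * t * (n : ℂ) ^ 2) * cexp (2 * π * I * (n * r / N)) := by
  have : NeZero N := ⟨hN.ne'⟩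
  have hN' : (N : ℂ) ≠ 0 := by exact_mod_cast hN.ne'
  have ht' : (t : ℂ) ≠ 0 := by exact_mod_cast ht.ne'
  have hNr : (0 : ℝ) < N := by exact_mod_cast hN
  rw [split N _ (summable_cgauss ?_), Finset.mul_sum]
  swap
  · have : (2 * I / N : ℂ).re = 0 := by simp [div_re]
    rw [sub_re, this, ofReal_re, sub_zero]
    positivity
  refine Finset.sum_congr rfl fun r _ => ?_
  have h1 := Complex.tsum_exp_neg_quadratic (a := (t : ℂ)) (by simpa using ht) (I * r / N)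
  have h2 : ∀ n : ℤ, cexp (-π * t * (n : ℂ) ^ 2) * cexp (2 * π * I * (n * r / N)) =
      cexp (-π * t * (n : ℂ) ^ 2 + 2 * π * (I * r / N) * n) := fun n => by
    rw [← Complex.exp_add]
    congr 1
    ring
  have h3 : (t : ℂ) ^ (1 / 2 : ℂ) ≠ 0 := by
    rw [Ne, cpow_eq_zero_iff]
    exact fun h => ht' h.1
  simp_rw [h2]
  rw [h1, ← (Equiv.neg ℤ).tsum_eq (fun n : ℤ => cexp (-π / t * (n + I * (I * r / N)) ^ 2)),
    mul_left_comm, ← mul_assoc ((t : ℂ) ^ (1 / 2 : ℂ)), mul_one_div_cancel h3, one_mul,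
    ← tsum_mul_left]
  refine tsum_congr fun k => ?_
  rw [← Complex.exp_add, ← mul_one (cexp (2 * π * I * ((r : ℂ) ^ 2 / N) + _)),
    ← exp_int (k ^ 2 * N + 2 * k * r), ← Complex.exp_add]
  congr 1
  simp only [Equiv.neg_apply]
  push_cast
  rw [show I * (I * r / N) = -(r / N) by rw [← mul_div_assoc, ← mul_assoc, I_mul_I]; ring]
  field_simp
  ring

/-- the right hand side: two inversions -/
lemma right_side (N : ℕ) (hN : 0 < N) (h4 : 4 ∣ N) {t : ℝ} (ht : 0 < t) :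
    ∑' n : ℤ, cexp (-π * ((1 / (t * N ^ 2) : ℝ) - 2 * I / N) * (n : ℂ) ^ 2) =
      (t : ℂ) ^ (1 / 2 : ℂ) * (1 / (((1 / (t * N ^ 2) : ℝ) : ℂ) - 2 * I / N) ^ (1 / 2 : ℂ) *
        ((4 + 2 * I / (N * t) : ℂ) ^ (1 / 2 : ℂ) *
          ∑' n : ℤ, cexp (-π * ((4 * t : ℝ) : ℂ) * (n : ℂ) ^ 2) *
            cexp (-(2 * π * I * ((n : ℂ) ^ 2 / N))))) := by
  have hN' : (N : ℂ) ≠ 0 := by exact_mod_cast hN.ne'
  have ht' : (t : ℂ) ≠ 0 := by exact_mod_cast ht.ne'
  have hNr : (0 : ℝ) < N := by exact_mod_cast hN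
  have hre0 : (2 * I / N : ℂ).re = 0 := by simp [div_re]
  set a : ℂ := ((1 / (t * N ^ 2) : ℝ) : ℂ) - 2 * I / N with ha
  have hare : 0 < a.re := by
    rw [ha, sub_re, hre0, ofReal_re, sub_zero]
    positivity
  set σ : ℂ := ((4 * t : ℝ) : ℂ) + 2 * I / N with hσ
  have hσre : 0 < σ.re := by
    rw [hσ, add_re, hre0, ofReal_re, add_zero]
    positivity
  have ha0 : a ≠ 0 := fun h => by simp [h] at hare
  have hσ0 : σ ≠ 0 := fun h => by simp [h] at hσre
  have hrel : σ * (2 - I * N * a) = 2 * a := by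
    rw [ha, hσ]
    push_cast
    field_simp
    linear_combination (8 * (t : ℂ) ^ 2 * N ^ 2 + 4 * I * t * N - 2) * I_mul_I
  obtain ⟨m, hm⟩ := h4
  have hm' : (N : ℂ) = 4 * m := by exact_mod_cast hm
  have h1 : ∀ n : ℤ, cexp (-π / a * (n : ℂ) ^ 2) = cexp (-π / σ * (n : ℂ) ^ 2) := fun n => by
    rw [← mul_one (cexp (-π / a * (n : ℂ) ^ 2)), ← exp_int (m * n ^ 2), ← Complex.exp_add]
    congr 1
    push_cast
    field_simp
    rw [hm'] at hrel
    linear_combination (-(n : ℂ) ^ 2 / 2) * hrel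
  have h2 := Complex.tsum_exp_neg_mul_int_sq hσre
  have h3 : σ ^ (1 / 2 : ℂ) ≠ 0 := by
    rw [Ne, cpow_eq_zero_iff]
    exact fun h => hσ0 h.1
  have h4 : σ = t * (4 + 2 * I / (N * t)) := by
    rw [hσ]
    push_cast
    field_simp
  have h5 : (4 + 2 * I / (N * t) : ℂ) ≠ 0 := fun h => hσ0 (by rw [h4, h, mul_zero])
  have h6 : ∀ n : ℤ, cexp (-π * ((4 * t : ℝ) : ℂ) * (n : ℂ) ^ 2) *
      cexp (-(2 * π * I * ((n : ℂ) ^ 2 / N))) = cexp (-π * σ * (n : ℂ) ^ 2) := fun n => by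
    rw [← Complex.exp_add, hσ]
    congr 1
    ring
  rw [Complex.tsum_exp_neg_mul_int_sq hare]
  simp_rw [h1, h6]
  rw [h2, mul_left_comm, ← mul_assoc ((t : ℂ) ^ (1 / 2 : ℂ)), ← half_mul ht h5, ← h4,
    ← mul_assoc (σ ^ (1 / 2 : ℂ)), mul_one_div_cancel h3, one_mul]

lemma norm_e (x : ℝ) : ‖cexp (2 * π * I * x)‖ = 1 := by
  rw [show (2 * π * I * x : ℂ) = ((2 * π * x : ℝ) : ℂ) * I by push_cast; ring]
  exact Complex.norm_exp_ofReal_mul_I _

end Gauss4

open Gauss4 Complex Filter Topology in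
/-- the quadratic Gauss sum for a modulus divisible by four -/
theorem gauss_four (N : ℕ) (hN : 0 < N) (h4 : 4 ∣ N) :
    ∑ z ∈ Finset.range N, Complex.exp (2 * Real.pi * Complex.I * ((z : ℂ) ^ 2 / N)) =
      (1 + Complex.I) * (Real.sqrt N : ℂ) := by
  have hN' : (N : ℂ) ≠ 0 := by exact_mod_cast hN.ne'
  have hNr : (0 : ℝ) < N := by exact_mod_cast hN
  have hL : Tendsto (fun t : ℝ => ∑ r ∈ Finset.range N, cexp (2 * Real.pi * I * ((r : ℂ) ^ 2 / N)) *
      ∑' n : ℤ, cexp (-Real.pi * t * (n : ℂ) ^ 2) * cexp (2 * Real.pi * I * (n * r / N))) atTop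
      (𝓝 (∑ r ∈ Finset.range N, cexp (2 * Real.pi * I * ((r : ℂ) ^ 2 / N)) * 1)) := by
    refine tendsto_finsetSum _ fun r _ => Tendsto.const_mul _ (lim_one _ (fun n => ?_) (by simp))
    have := norm_e (n * r / N)
    push_cast at this
    exact this.le
  have hs : (Real.sqrt N : ℂ) ≠ 0 := by exact_mod_cast (Real.sqrt_pos.2 hNr).ne'
  have hss : (Real.sqrt N : ℂ) ^ 2 = N := by exact_mod_cast Real.sq_sqrt hNr.le
  have hA : Tendsto (fun t : ℝ => (((1 / (t * N ^ 2) : ℝ) : ℂ) - 2 * I / N) ^ (1 / 2 : ℂ)) atTop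
      (𝓝 ((1 - I) / Real.sqrt N)) := by
    have e1 : Tendsto (fun t : ℝ => (1 / (t * N ^ 2) : ℝ)) atTop (𝓝 0) :=
      tendsto_const_nhds.div_atTop (tendsto_id.atTop_mul_const (by positivity))
    have e2 : Tendsto (fun t : ℝ => (((1 / (t * N ^ 2) : ℝ) : ℂ) - 2 * I / N)) atTop
        (𝓝 (((0 : ℝ) : ℂ) - 2 * I / N)) :=
      ((continuous_ofReal.tendsto 0).comp e1).sub tendsto_const_nhds
    have e3 : (((0 : ℝ) : ℂ) - 2 * I / N) = ((1 - I) / Real.sqrt N) ^ 2 := by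
      rw [div_pow, hss]
      field_simp
      push_cast
      linear_combination (-1 : ℂ) * I_mul_I
    have e4 : (((0 : ℝ) : ℂ) - 2 * I / N) ∈ slitPlane := by
      right
      simp [div_im, hN.ne']
    have e5 := (continuousAt_cpow_const (b := (1 / 2 : ℂ)) e4).tendsto.comp e2
    rw [e3, one_div (2 : ℂ), sq_cpow_two_inv, ← one_div (2 : ℂ)] at e5
    · exact e5
    · rw [div_ofReal_re]
      simp only [sub_re, one_re, I_re, sub_zero]
      have := Real.sqrt_pos.2 hNr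
      positivity
  have hB : Tendsto (fun t : ℝ => (4 + 2 * I / (N * t) : ℂ) ^ (1 / 2 : ℂ)) atTop (𝓝 2) := by
    have e1 : Tendsto (fun t : ℝ => (1 / (N * t) : ℝ)) atTop (𝓝 0) :=
      tendsto_const_nhds.div_atTop (tendsto_id.const_mul_atTop hNr)
    have e2 : Tendsto (fun t : ℝ => (4 + 2 * I * ((1 / (N * t) : ℝ) : ℂ) : ℂ)) atTop
        (𝓝 (4 + 2 * I * ((0 : ℝ) : ℂ))) :=
      tendsto_const_nhds.add (((continuous_ofReal.tendsto 0).comp e1).const_mul _)
    have e3 : (4 + 2 * I * ((0 : ℝ) : ℂ)) = (2 : ℂ) ^ 2 := by norm_num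
    have e4 : (4 + 2 * I * ((0 : ℝ) : ℂ)) ∈ slitPlane := by
      left
      simp
    have e5 := (continuousAt_cpow_const (b := (1 / 2 : ℂ)) e4).tendsto.comp e2
    rw [e3, one_div (2 : ℂ), sq_cpow_two_inv (by simp), ← one_div (2 : ℂ)] at e5
    refine e5.congr fun t => ?_
    simp only [Function.comp]
    push_cast
    ring_nf
  have hC : Tendsto (fun t : ℝ => ∑' n : ℤ, cexp (-Real.pi * ((4 * t : ℝ) : ℂ) * (n : ℂ) ^ 2) *
      cexp (-(2 * Real.pi * I * ((n : ℂ) ^ 2 / N)))) atTop (𝓝 1) := by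
    refine (lim_one (fun n : ℤ => cexp (-(2 * Real.pi * I * ((n : ℂ) ^ 2 / N)))) (fun n => ?_)
      (by simp)).comp (tendsto_id.const_mul_atTop (by norm_num : (0 : ℝ) < 4))
    have := norm_e (-((n : ℝ) ^ 2 / N))
    push_cast at this
    rw [← mul_neg]
    exact this.le
  have hI : (1 - I : ℂ) ≠ 0 := fun h => by simpa using congrArg Complex.re h
  have hR := ((tendsto_const_nhds (x := (1 : ℂ))).div hA (div_ne_zero hI hs)).mul (hB.mul hC)
  have heq := tendsto_nhds_unique (hL.congr' ?_) hR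
  · simp only [mul_one] at heq
    rw [heq]
    field_simp
    linear_combination I_mul_I
  · filter_upwards [eventually_gt_atTop (0 : ℝ)] with t ht
    have ht' : (t : ℂ) ≠ 0 := by exact_mod_cast ht.ne'
    have h3 : (t : ℂ) ^ (1 / 2 : ℂ) ≠ 0 := by
      rw [Ne, cpow_eq_zero_iff]
      exact fun h => ht' h.1
    exact mul_left_cancel₀ h3 ((left_side N hN ht).symm.trans (right_side N hN h4 ht))

end Pool.Agent.MP_14ad9d_nt
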