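import Pool.Agent.MP_14ad9d_nt.AuxPr

set_option autoImplicit false
set_option linter.unusedSectionVars false

open NumberField Equiv

namespace Pool.Agent.MP_14ad9d_nt

theorem exists_cyc_perm (X : Type*) [Fintype X] [DecidableEq X] :
    ∃ c : Perm X, Cyc X c ∧ Perm.sign c = (-1) ^ (Fintype.card X - 1) := by
  let e := Fintype.equivFin X
  refine ⟨e.symm.permCongr (finRotate _), fun x y => ?_, by
    rw [Perm.sign_permCongr, sign_finRotate]⟩
  have key : ∀ (n : ℕ) (a b : Fin n), ∃ k : ℕ, (finRotate n ^ k) a = b := by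
    intro n a b
    cases n with
    | zero => exact a.elim0
    | succ n =>
      have h1 : ∀ k : ℕ, (finRotate (n + 1) ^ k) a = a + Fin.ofNat (n + 1) k := by
        intro k
        induction k with
        | zero => simp
        | succ k ih =>
          rw [pow_succ', Perm.mul_apply, ih, finRotate_apply, add_assoc]
          congr 1
          ext
          simp [Fin.val_add]
      refine ⟨(b - a).val, ?_⟩
      rw [h1]
      simp
  obtain ⟨k, hk⟩ := key _ (e x) (e y)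
  refine ⟨k, ?_⟩
  have := map_pow e.symm.permCongrHom (finRotate _) k
  change (e.symm.permCongrHom (finRotate _) ^ k) x = y
  rw [← this]
  simp [hk]

variable {M : Type} [Field M] [NumberField M] [Algebra Fi M]

variable (M) in
/-- every permutation of the embeddings is induced by an automorphism fixing the two roots -/
def SymM : Prop := ∀ s : Perm (Emb M), ∃ g : Gam, Fix0 g ∧ ∀ σ, g • σ = s σ

theorem SymM.cyc (h : SymM M) : ∃ g : Gam, Cyc (Emb M) g := by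
  classical
  obtain ⟨c, hc, -⟩ := exists_cyc_perm (Emb M)
  obtain ⟨g, -, hg⟩ := h c
  have h1 : ∀ (k : ℕ) σ, g ^ k • σ = (c ^ k) σ := by
    intro k
    induction k with
    | zero => simp
    | succ k ih => intro σ; rw [pow_succ, pow_succ, mul_smul, hg, ih, Perm.mul_apply]
  exact ⟨g, fun x y => by simpa only [h1, Perm.smul_def] using hc x y⟩

theorem SymM.hb (hodd : Odd (Module.finrank Fi M)) (h3 : Module.finrank Fi M ≠ 1) (h : SymM M) :
    Hb M := by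
  classical
  let σ₀ : Emb M := Classical.arbitrary _
  obtain ⟨c, hc, hsign⟩ := exists_cyc_perm {σ : Emb M // σ ≠ σ₀}
  have hfix : ∀ s : Perm {σ : Emb M // σ ≠ σ₀}, Perm.ofSubtype s σ₀ = σ₀ := fun s =>
    Perm.ofSubtype_apply_of_not_mem s (by simp)
  have hpow : ∀ {g : Gam} {s : Perm (Emb M)}, (∀ σ, g • σ = s σ) →
      ∀ (k : ℕ) σ, g ^ k • σ = (s ^ k) σ := by
    intro g s hg k
    induction k with
    | zero => simp
    | succ k ih => intro σ; rw [pow_succ, pow_succ, mul_smul, hg, ih, Perm.mul_apply]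
  have hcyc : ∀ g : Gam, (∀ σ, g • σ = Perm.ofSubtype c σ) → Cyc1 g σ₀ := fun g hg =>
    ⟨(hg _).trans (hfix c), fun x y hx hy => by
      obtain ⟨k, hk⟩ := hc ⟨x, hx⟩ ⟨y, hy⟩
      refine ⟨k, ?_⟩
      rw [hpow hg, ← map_pow]
      exact (Perm.ofSubtype_apply_of_mem (p := fun σ => σ ≠ σ₀) (c ^ k) hx).trans
        (congrArg Subtype.val hk)⟩
  obtain ⟨τ, τ1, τ2⟩ := h (Perm.ofSubtype c)
  refine ⟨σ₀, ⟨τ, τ1, hcyc τ τ2⟩, fun Λ h1 h2 h4 g g1 g2 => ?_⟩
  let R : Subgroup (Perm (Emb M)) :=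
    { carrier := {s | ∃ g ∈ Λ, Fix0 g ∧ ∀ σ, g • σ = s σ}
      one_mem' := ⟨1, Λ.one_mem, fix0_one, fun σ => one_smul _ σ⟩
      mul_mem' := by
        rintro a b ⟨u, u1, u2, u3⟩ ⟨v, v1, v2, v3⟩
        exact ⟨u * v, Λ.mul_mem u1 v1, u2.mul v2, fun σ => by rw [mul_smul, v3, u3]; rfl⟩
      inv_mem' := by
        rintro a ⟨u, u1, u2, u3⟩
        exact ⟨u⁻¹, Λ.inv_mem u1, u2.inv, fun σ => by rw [inv_smul_eq_iff, u3]; simp⟩ }
  have hA : alternatingGroup {σ : Emb M // σ ≠ σ₀} ≤ R.comap Perm.ofSubtype := by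
    rw [← Perm.closure_three_cycles_eq_alternating, Subgroup.closure_le]
    intro s hs
    obtain ⟨u, u1, u2⟩ := h (Perm.ofSubtype (s ^ 2))
    refine ⟨u ^ 2, h1 u u1 ((u2 _).trans (hfix _)), fix0_sq u, fun σ => ?_⟩
    have h5 : s ^ 3 = 1 := by rw [← Perm.IsThreeCycle.orderOf hs, pow_orderOf_eq_one]
    rw [hpow u2, ← map_pow, ← pow_mul, show 2 * 2 = 3 + 1 from rfl, pow_succ, h5, one_mul]
  have hcR : c ∈ R.comap Perm.ofSubtype := ⟨τ, h4 τ τ1 (hcyc τ τ2), τ1, τ2⟩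
  have hsign' : Perm.sign c = -1 := by
    rw [hsign, Fintype.card_subtype_compl, Fintype.card_subtype_eq, Emb.card]
    obtain ⟨k, hk⟩ := hodd
    refine Odd.neg_one_pow ⟨k - 1, by omega⟩
  have hall : ∀ s : Perm {σ : Emb M // σ ≠ σ₀}, s ∈ R.comap Perm.ofSubtype := fun s => by
    rcases Int.units_eq_one_or (Perm.sign s) with h5 | h5
    · exact hA (Perm.mem_alternatingGroup.2 h5)
    · have h6 : s * c⁻¹ ∈ R.comap Perm.ofSubtype :=
        hA (Perm.mem_alternatingGroup.2 (by rw [map_mul, map_inv, h5, hsign']; simp))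
      simpa using Subgroup.mul_mem _ h6 hcR
  have h5 : ∀ x : Emb M, (MulAction.toPerm g x ≠ σ₀) ↔ x ≠ σ₀ := fun x => by
    rw [not_iff_not]
    exact ⟨fun h6 => MulAction.injective g (h6.trans g2.symm), fun h6 => h6 ▸ g2⟩
  obtain ⟨u, u1, u2, u3⟩ := hall ((MulAction.toPerm g).subtypePerm h5)
  have h7 := Perm.ofSubtype_subtypePerm (f := MulAction.toPerm g) (p := fun σ => σ ≠ σ₀) h5
    fun x hx hx' => hx (by rw [hx']; exact g2)
  rw [h7] at u3
  have h6 := h2 (u⁻¹ * g) (u2.inv.mul g1) fun σ => by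
    rw [mul_smul, inv_smul_eq_iff, u3]; rfl
  simpa using Λ.mul_mem u1 h6

theorem Fix0.pow {g : Gam} (hg : Fix0 g) (k : ℕ) : Fix0 (g ^ k) := by
  induction k with
  | zero => exact fix0_one
  | succ k ih => rw [pow_succ]; exact ih.mul hg

theorem hb_of_aff (σ₀ : Emb M) (τ : Gam) (τ1 : Fix0 τ) (τ2 : Cyc1 τ σ₀)
    (h : ∀ g : Gam, g • σ₀ = σ₀ → ∃ j : ℕ, ∀ σ : Emb M, g • σ = τ ^ j • σ) : Hb M := by
  refine ⟨σ₀, ⟨τ, τ1, τ2⟩, fun Λ _ h2 h4 g g1 g2 => ?_⟩
  obtain ⟨j, hj⟩ := h g g2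
  have h6 := h2 ((τ ^ j)⁻¹ * g) ((τ1.pow j).inv.mul g1) fun σ => by
    rw [mul_smul, inv_smul_eq_iff, hj]
  simpa using Λ.mul_mem (Λ.pow_mem (h4 τ τ1 τ2) j) h6

theorem isGalois_of_stab (σ₀ : Emb M)
    (h : ∀ g : Gam, g • σ₀ = σ₀ → ∀ σ : Emb M, g • σ = σ) : IsGalois Fi M := by
  have h1 : Normal Fi σ₀.hom.fieldRange := by
    rw [IntermediateField.normal_iff_forall_fieldRange_le]
    rintro φ _ ⟨z, rfl⟩
    let σ : Emb M := Emb.mk (φ.comp (AlgEquiv.ofInjectiveField σ₀.hom).toAlgHom)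
    obtain ⟨x, rfl⟩ := (AlgEquiv.ofInjectiveField σ₀.hom).surjective z
    exact σ₀.mem_range (σ.hom x) fun g hg => by rw [← Emb.smul_apply, h g hg]
  have h2 : Normal Fi M := Normal.of_algEquiv (h := h1) (AlgEquiv.ofInjectiveField σ₀.hom).symm
  exact {}

theorem isSquare_cases {d : ℚ} (hd : d ≠ 0) {e : Fi}
    (he : e = 1 ∨ e = iF ∨ e = 1 + iF ∨ e = (1 + iF) * iF) (h : IsSquare ((d : Fi) * e)) :
    IsSquare d ∨ IsSquare (-d) ∨ IsSquare (2 * d) ∨ IsSquare (-2 * d) := by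
  obtain ⟨u, hu⟩ := h
  have h1 := congrArg QuadraticAlgebra.re hu
  have h2 := congrArg QuadraticAlgebra.im hu
  have irr : ∀ t : ℚ, 2 * d ^ 2 ≠ t ^ 2 := fun t ht => by
    have h3 : IsSquare (2 : ℚ) := ⟨t / d, by field_simp; linarith⟩
    have h4 : IsSquare (2 : ℕ) := by exact_mod_cast h3
    exact Nat.prime_two.prime.not_isSquare h4
  rcases he with rfl | rfl | rfl | rfl
  · simp at h1 h2
    have h3 : u.re = 0 ∨ u.im = 0 := by
      rw [← mul_eq_zero]; linarith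
    rcases h3 with h3 | h3
    · exact Or.inr (Or.inl ⟨u.im, by rw [h1, h3]; ring⟩)
    · exact Or.inl ⟨u.re, by rw [h1, h3]; ring⟩
  · simp [iF] at h1 h2
    have h3 : u.re ^ 2 = u.im ^ 2 := by linarith
    rcases sq_eq_sq_iff_eq_or_eq_neg.1 h3 with h4 | h4
    · exact Or.inr (Or.inr (Or.inl ⟨2 * u.im, by rw [h2, h4]; ring⟩))
    · exact Or.inr (Or.inr (Or.inr ⟨2 * u.im, by rw [h2, h4]; ring⟩))
  · simp [iF, QuadraticAlgebra.re_one, QuadraticAlgebra.im_one] at h1 h2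
    exact (irr (u.re ^ 2 + u.im ^ 2) (by nth_rw 1 [two_mul, h1]; rw [h2]; ring)).elim
  · simp [iF, QuadraticAlgebra.re_one, QuadraticAlgebra.im_one] at h1 h2
    refine (irr (u.re ^ 2 + u.im ^ 2) ?_).elim
    rw [two_mul, ← neg_sq d]
    nth_rw 1 [h1]
    rw [neg_sq d, h2]; ring

/-- a rational number outside the square classes of `1, -1, 2, -2` has its root moved -/
theorem exists_neg_rat (hodd : Odd (Module.finrank Fi M)) (σ₀ : Emb M) {d : ℚ}
    (h1 : ¬ IsSquare d) (h2 : ¬ IsSquare (-d)) (h3 : ¬ IsSquare (2 * d))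
    (h4 : ¬ IsSquare (-2 * d)) {δ : Om} (hδ : δ ^ 2 = d) :
    ∃ g : Gam, Fix0 g ∧ g • σ₀ = σ₀ ∧ g δ = -δ := by
  by_contra hc
  push Not at hc
  have hd : d ≠ 0 := by rintro rfl; exact h1 IsSquare.zero
  obtain ⟨e, he, h⟩ := kummer σ₀ (x := (d : M)) (s := δ) (by rw [hδ, map_ratCast]) fun g h1 h2 =>
    (map_eq_or_neg g (by rw [hδ, map_ratCast])).resolve_right (hc g h1 h2)
  rw [← map_ratCast (algebraMap Fi M), ← map_mul] at h
  rcases isSquare_cases hd he (isSquare_base hodd h) with h5 | h5 | h5 | h5 <;> contradiction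

end Pool.Agent.MP_14ad9d_nt
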