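import Pool.Agent.MP_14ad9d_nt.PF3
import Pool.Agent.MP_14ad9d_nt.Loc

set_option autoImplicit false

open NumberField IsDedekindDomain

namespace Pool.Agent.MP_14ad9d_nt

namespace PF

variable {M : Type} [Field M] [NumberField M]

theorem val_loc (P : HeightOneSpectrum (𝓞 M)) (a : M) :
    Valued.v (loc P a) = P.valuation M a :=
  HeightOneSpectrum.valuedAdicCompletion_eq_valuation' P a

theorem val_le_one (P : HeightOneSpectrum (𝓞 M)) (a : 𝓞 M) : P.valuation M (a : M) ≤ 1 :=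
  P.valuation_le_one a

theorem val_lt_one (P : HeightOneSpectrum (𝓞 M)) (a : 𝓞 M) :
    P.valuation M (a : M) < 1 ↔ a ∈ P.asIdeal :=
  P.valuation_lt_one_iff_mem a

theorem val_eq_one (P : HeightOneSpectrum (𝓞 M)) (a : 𝓞 M) :
    P.valuation M (a : M) = 1 ↔ a ∉ P.asIdeal :=
  P.valuation_eq_one_iff_notMem

theorem exists_int {a : M} (h : ∀ P : HeightOneSpectrum (𝓞 M), P.valuation M a ≤ 1) :
    ∃ A : 𝓞 M, (A : M) = a :=
  HeightOneSpectrum.mem_integers_of_valuation_le_one M a h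

theorem dvd_of_val {n δ : 𝓞 M} (hn : n ≠ 0)
    (h : ∀ P : HeightOneSpectrum (𝓞 M), n ∈ P.asIdeal →
      P.valuation M (δ : M) ≤ P.valuation M (n : M)) : ∃ e : 𝓞 M, δ = n * e := by
  have hn' : (n : M) ≠ 0 := by exact_mod_cast hn
  obtain ⟨e, he⟩ := exists_int (a := (δ : M) / n) (fun P => by
    rw [map_div₀]
    refine div_le_one_of_le₀ ?_ zero_le
    by_cases hP : n ∈ P.asIdeal
    · exact h P hP
    · rw [(val_eq_one P n).mpr hP]
      exact val_le_one P δ)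
  refine ⟨e, RingOfIntegers.ext ?_⟩
  change (δ : M) = algebraMap (𝓞 M) M (n * e)
  rw [map_mul]
  change (δ : M) = (n : M) * (e : M)
  rw [he]
  field_simp

theorem finite_primes {n : 𝓞 M} (hn : n ≠ 0) :
    {P : HeightOneSpectrum (𝓞 M) | n ∈ P.asIdeal}.Finite := by
  have := Ideal.finite_factors (I := Ideal.span {n}) (by simpa using hn)
  simpa only [Ideal.dvd_span_singleton] using this

theorem ev_prec (P : HeightOneSpectrum (𝓞 M)) {a : M} (ha : a ≠ 0) :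
    ∀ᶠ n : ℕ in Filter.atTop, WithZero.exp (-(n : ℤ)) ≤ P.valuation M a := by
  filter_upwards [Filter.eventually_ge_atTop (ord P a).toNat] with n hn
  rw [valuation_eq_exp_ord ha, WithZero.exp_le_exp]
  omega

theorem ev_den (P : HeightOneSpectrum (𝓞 M)) {n : 𝓞 M} (hn : n ∈ P.asIdeal)
    (a : P.adicCompletion M) :
    ∀ᶠ j : ℕ in Filter.atTop, Valued.v (loc P ((n : M) ^ j) * a) ≤ 1 := by
  by_cases ha : Valued.v a = 0
  · exact Filter.Eventually.of_forall fun j => by rw [map_mul, ha, mul_zero]; exact zero_le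
  have h1 := (val_lt_one P n).mpr hn
  obtain ⟨j, hj⟩ := exists_pow_lt₀ h1 (Units.mk0 _ ha)⁻¹
  filter_upwards [Filter.eventually_ge_atTop j] with k hk
  rw [map_mul, val_loc, map_pow]
  have h2 : P.valuation M (n : M) ^ k ≤ (Valued.v a)⁻¹ :=
    (pow_le_pow_right_of_le_one' h1.le hk).trans (by simpa using hj.le)
  calc _ ≤ (Valued.v a)⁻¹ * Valued.v a := mul_le_mul_left h2 _
    _ = 1 := inv_mul_cancel₀ ha

theorem approx {N : 𝓞 M} (hN : N ≠ 0) (α : ∀ P : HeightOneSpectrum (𝓞 M), P.adicCompletion M)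
    (hα : ∀ P : HeightOneSpectrum (𝓞 M), N ∈ P.asIdeal → Valued.v (α P) ≤ 1) :
    ∃ A : 𝓞 M, ∀ P : HeightOneSpectrum (𝓞 M), N ∈ P.asIdeal →
      Valued.v (loc P (A : M) - α P) ≤ P.valuation M (N : M) := by
  have hN' : (N : M) ≠ 0 := by exact_mod_cast hN
  have hf := finite_primes hN
  obtain ⟨n, hn⟩ := ((Filter.eventually_all_finite hf).mpr fun P _ => ev_prec P hN').exists
  obtain ⟨a, h1, h2⟩ := weak_approx hf.toFinset α n
  have h3 : ∀ P : HeightOneSpectrum (𝓞 M), N ∈ P.asIdeal →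
      Valued.v (loc P a - α P) ≤ P.valuation M (N : M) :=
    fun P hP => (h1 P (hf.mem_toFinset.mpr hP)).trans (hn P hP)
  obtain ⟨A, rfl⟩ := exists_int (a := a) (fun P => by
    by_cases hP : N ∈ P.asIdeal
    · rw [← val_loc, ← sub_add_cancel (loc P a) (α P)]
      exact Valuation.map_add_le _ ((h3 P hP).trans (val_le_one P N)) (hα P hP)
    · exact h2 P (fun h => hP (hf.mem_toFinset.mp h)))
  exact ⟨A, h3⟩

theorem step_loc {x y t d N : 𝓞 M} (hN : N ≠ 0)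
    (a b : ∀ P : HeightOneSpectrum (𝓞 M), P.adicCompletion M)
    (h : ∀ P : HeightOneSpectrum (𝓞 M), N ∈ P.asIdeal →
      loc P (y : M) = loc P (t : M) * (a P ^ 2 - loc P (x : M) * b P ^ 2) ∧
      Valued.v (loc P (d : M) * a P) ≤ 1 ∧ Valued.v (loc P (d : M) * b P) ≤ 1) :
    ∃ A B δ : 𝓞 M, d ^ 2 * y - t * (A ^ 2 - x * B ^ 2) = N * δ := by
  obtain ⟨A, hA⟩ := approx hN (fun P => loc P (d : M) * a P) fun P hP => (h P hP).2.1
  obtain ⟨B, hB⟩ := approx hN (fun P => loc P (d : M) * b P) fun P hP => (h P hP).2.2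
  refine ⟨A, B, dvd_of_val hN fun P hP => ?_⟩
  obtain ⟨h1, h2, h3⟩ := h P hP
  have hi : ∀ z : 𝓞 M, Valued.v (loc P (z : M)) ≤ 1 := fun z => by
    rw [val_loc]; exact val_le_one P z
  have e : loc P ((d ^ 2 * y - t * (A ^ 2 - x * B ^ 2) : 𝓞 M) : M) =
      loc P (t : M) * (loc P (x : M) * (loc P (B : M) + loc P (d : M) * b P) *
        (loc P (B : M) - loc P (d : M) * b P) -
        (loc P (A : M) + loc P (d : M) * a P) * (loc P (A : M) - loc P (d : M) * a P)) := by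
    simp only [RingOfIntegers.coe_eq_algebraMap, map_sub, map_mul, map_pow] at h1 ⊢
    rw [h1]
    ring
  rw [← val_loc, e, map_mul]
  refine (mul_le_of_le_one_left' (hi t)).trans (Valuation.map_sub_le _ ?_ ?_)
  · rw [map_mul, map_mul]
    exact (mul_le_of_le_one_left' (mul_le_one' (hi x)
      (Valuation.map_add_le _ (hi B) h3))).trans (hB P hP)
  · rw [map_mul]
    exact (mul_le_of_le_one_left' (Valuation.map_add_le _ (hi A) h2)).trans (hA P hP)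

theorem core (i : M) (hi : i ^ 2 = -1) {x y t : 𝓞 M} (hx0 : x ≠ 0) (hy0 : y ≠ 0) {p : ℕ}
    (hp : p.Prime) (hp2 : p ≠ 2) (hd : ¬ (p : ℤ) ∣ discr M) (P₀ : Ideal (𝓞 M)) [P₀.IsMaximal]
    (hpP : (p : 𝓞 M) ∈ P₀) (ht : Ideal.span {(p : 𝓞 M) ^ 2} ⊔ Ideal.span {t} = P₀)
    (hx : IsCoprime x (p : 𝓞 M)) (hns : ∀ w, x - w ^ 2 ∉ P₀)
    (h1 : ∀ P : HeightOneSpectrum (𝓞 M), (p : 𝓞 M) ∉ P.asIdeal → Spl P (x : M) (y : M))
    (h2 : ∀ P : HeightOneSpectrum (𝓞 M), (p : 𝓞 M) ∈ P.asIdeal → ∃ a b : P.adicCompletion M,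
      loc P (y : M) = loc P (t : M) * (a ^ 2 - loc P (x : M) * b ^ 2)) : False := by
  classical
  have hab : ∀ P : HeightOneSpectrum (𝓞 M), ∃ a b : P.adicCompletion M,
      ((p : 𝓞 M) ∈ P.asIdeal →
        loc P (y : M) = loc P (t : M) * (a ^ 2 - loc P (x : M) * b ^ 2)) ∧
      ((p : 𝓞 M) ∉ P.asIdeal →
        loc P (y : M) = loc P ((1 : 𝓞 M) : M) * (a ^ 2 - loc P (x : M) * b ^ 2)) := by
    intro P
    by_cases hP : (p : 𝓞 M) ∈ P.asIdeal
    · obtain ⟨a, b, h⟩ := h2 P hP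
      exact ⟨a, b, fun _ => h, fun h' => absurd hP h'⟩
    · obtain ⟨a, b, h⟩ := h1 P hP
      exact ⟨a, b, fun h' => absurd h' hP, fun _ => by simpa using h⟩
  choose a b hab using hab
  obtain ⟨E1, hE1, g1⟩ := gs_global i hi (c := 1) one_ne_zero
  obtain ⟨E2, hE2, g2⟩ := gs_global i hi (c := -x * 1) (by simpa using hx0)
  obtain ⟨E3, hE3, g3⟩ := gs_global i hi (c := y) hy0
  obtain ⟨E4, hE4, g4⟩ := gs_global i hi (c := -x * y) (by simp [hx0, hy0])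
  obtain ⟨nx, x', hnx, hxx⟩ := exists_int_mul hx0
  obtain ⟨ny, y', hny, hyy⟩ := exists_int_mul hy0
  have hp0 : (p : ℤ) ≠ 0 := by exact_mod_cast hp.ne_zero
  have hD := discr_ne_zero M
  obtain ⟨m₀, hm₀⟩ : ∃ m₀ : ℤ, m₀ = p * (E1 * E2 * E3 * E4 * (2 * discr M * ny * nx)) := ⟨_, rfl⟩
  have hm0 : m₀ ≠ 0 := by rw [hm₀]; positivity
  have hm0' : (m₀ : 𝓞 M) ≠ 0 := by exact_mod_cast hm0
  obtain ⟨j, hj⟩ := ((Filter.eventually_all_finite (finite_primes hm0')).mpr fun P hP =>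
    (ev_den P hP (a P)).and (ev_den P hP (b P))).exists
  have hpi : Prime (p : ℤ) := Nat.prime_iff_prime_int.mp hp
  obtain ⟨k, m₁, hk, hm₁⟩ := WfDvdMonoid.max_power_factor
    (a₀ := E1 * E2 * E3 * E4 * (2 * discr M * ny * nx) * m₀ ^ (4 * j + 1)) (by positivity)
    hpi.irreducible
  have hm : m₁ * p ^ (k + 1) = m₀ ^ (4 * j + 2) := by
    rw [pow_succ m₀ (4 * j + 1), pow_succ]
    linear_combination (-(p : ℤ)) * hm₁ - m₀ ^ (4 * j + 1) * hm₀
  have hm1 : m₁ ≠ 0 := by rintro rfl; exact hk (dvd_zero _)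
  have hm2 : (p : ℤ) ^ (k + 1) ≠ 0 := pow_ne_zero _ hp0
  have hc0 : IsCoprime (p : ℤ) m₁ := hpi.irreducible.coprime_iff_not_dvd.mpr hk
  have hc : IsCoprime ((p : ℤ) ^ (k + 1)) m₁ := hc0.pow_left
  have hdv : m₀ ∣ m₁ * p ^ (k + 1) := by rw [hm]; exact dvd_pow_self _ (by omega)
  have hne := mul_ne_zero hm1 hm2
  have hN := pow_ne_zero 2 hne
  have T1 : Pos (gs (t2 1 x) ((m₁ * p ^ (k + 1)) ^ 2)) 1 := by
    rw [gs_t2 _ _ hN]
    simpa using (g1 _ hne (Dvd.dvd.trans ⟨p * (E2 * E3 * E4 * (2 * discr M * ny * nx)), by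
      rw [hm₀]; ring⟩ hdv)).mul (g2 _ hne (Dvd.dvd.trans
        ⟨p * (E1 * E3 * E4 * (2 * discr M * ny * nx)), by rw [hm₀]; ring⟩ hdv))
  have Ty : Pos (gs (t2 y x) ((m₁ * p ^ (k + 1)) ^ 2)) 1 := by
    rw [gs_t2 _ _ hN]
    simpa using (g3 _ hne (Dvd.dvd.trans ⟨p * (E1 * E2 * E4 * (2 * discr M * ny * nx)), by
      rw [hm₀]; ring⟩ hdv)).mul (g4 _ hne (Dvd.dvd.trans
        ⟨p * (E1 * E2 * E3 * (2 * discr M * ny * nx)), by rw [hm₀]; ring⟩ hdv))
  rw [gs_crt _ hm1 hm2 hc.symm] at T1 Ty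
  have hdd : (2 * discr M * (m₀ ^ j) ^ 2 * ny * nx) * ((m₀ ^ j) ^ 2 * ny) ∣ m₁ * p ^ (k + 1) := by
    refine ⟨(p * (E1 * E2 * E3 * E4)) ^ 2 * (2 * discr M * nx), ?_⟩
    rw [hm, pow_add, sq m₀]
    nth_rewrite 2 [hm₀]
    nth_rewrite 2 [hm₀]
    ring
  -- the part prime to p
  obtain ⟨A, B, δ, hδ⟩ := step_loc (x := x) (y := y) (t := 1) (d := ((m₀ ^ j : ℤ) : 𝓞 M))
    (N := (m₁ : 𝓞 M) ^ 2) (pow_ne_zero _ (by exact_mod_cast hm1)) a b (fun P hP => by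
      have h3 : (m₁ : 𝓞 M) ∈ P.asIdeal := P.isPrime.mem_of_pow_mem _ hP
      have h4 : (m₀ : 𝓞 M) ∈ P.asIdeal := by
        refine P.isPrime.mem_of_pow_mem (4 * j + 2) ?_
        have : (m₀ : 𝓞 M) ^ (4 * j + 2) = m₁ * p ^ (k + 1) := by exact_mod_cast hm.symm
        rw [this]
        exact P.asIdeal.mul_mem_right _ h3
      refine ⟨(hab P).2 fun h5 => P.isPrime.ne_top ?_, by simpa using hj P h4⟩
      obtain ⟨u, v, huv⟩ := hc0.map (Int.castRingHom (𝓞 M))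
      rw [Ideal.eq_top_iff_one, ← huv]
      exact P.asIdeal.add_mem (P.asIdeal.mul_mem_left _ (by simpa using h5))
        (P.asIdeal.mul_mem_left _ h3))
  have S1 := step_alg hxx hyy hm1 hc hdd hδ
  -- the part at p
  obtain ⟨A', B', δ', hδ'⟩ := step_loc (x := x) (y := y) (t := t) (d := ((m₀ ^ j : ℤ) : 𝓞 M))
    (N := (((p : ℤ) ^ (k + 1) : ℤ) : 𝓞 M) ^ 2) (pow_ne_zero _ (by exact_mod_cast hm2)) a b
    (fun P hP => by
      have h3 : (p : 𝓞 M) ∈ P.asIdeal := by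
        refine P.isPrime.mem_of_pow_mem (k + 1) ?_
        simpa using P.isPrime.mem_of_pow_mem _ hP
      have h4 : (m₀ : 𝓞 M) ∈ P.asIdeal := by
        rw [hm₀]
        push_cast
        exact P.asIdeal.mul_mem_right _ h3
      exact ⟨(hab P).1 h3, by simpa using hj P h4⟩)
  have S2 := step_alg hxx hyy hm2 hc.symm (by rw [mul_comm _ m₁]; exact hdd) hδ'
  have hdc : IsCoprime (discr M : 𝓞 M) ((p : ℤ) : 𝓞 M) :=
    (hpi.irreducible.coprime_iff_not_dvd.mpr hd).symm.map (Int.castRingHom (𝓞 M))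
  have h2c : IsCoprime (2 : 𝓞 M) ((p : ℤ) : 𝓞 M) := by
    have h2 : IsCoprime (2 : ℤ) (p : ℤ) := by
      have := (Nat.coprime_primes Nat.prime_two hp).mpr hp2.symm
      exact_mod_cast Nat.isCoprime_iff_coprime.mpr this
    simpa using h2.map (Int.castRingHom (𝓞 M))
  have hxc : IsCoprime (-x * 1) ((p : ℤ) : 𝓞 M) := by simpa using hx.neg_left
  have U : Pos (gs (t2 1 x) (((p : ℤ) ^ (k + 1)) ^ 2)) 1 := by
    rw [gs_t2 _ _ (pow_ne_zero 2 hm2)]
    have u1 := gs_unit (c := (1 : 𝓞 M)) hm2 (by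
      rw [Int.cast_pow]; exact (hdc.mul_left (h2c.mul_left isCoprime_one_left)).pow_right)
    have u2 := gs_unit (c := -x * 1) hm2 (by
      rw [Int.cast_pow]; exact (hdc.mul_left (h2c.mul_left hxc)).pow_right)
    simpa using u1.mul u2
  rw [mul_comm] at T1
  exact step_special hp hp2 hd P₀ hpP ht hx hns k
    (S2.symm.trans (Ty.cancel (S1.trans (T1.cancel U))))

end PF

end Pool.Agent.MP_14ad9d_nt
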