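import Pool.Agent.MP_14ad9d_nt.Loc
import Pool.Agent.MP_14ad9d_nt.Gauss4
import Pool.Agent.MP_14ad9d_nt.PF4

set_option autoImplicit false

open NumberField IsDedekindDomain

namespace Pool.Agent.MP_14ad9d_nt

namespace PF

variable {M : Type} [Field M] [NumberField M]

theorem spl_sq_right {P : HeightOneSpectrum (𝓞 M)} {x y : M} (h : Spl P x y) (w : M) :
    Spl P x (y * w ^ 2) := by
  obtain ⟨a, b, h⟩ := h
  refine ⟨a * loc P w, b * loc P w, ?_⟩
  rw [map_mul, map_pow, h]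
  ring

theorem spl_sq_left {P : HeightOneSpectrum (𝓞 M)} {x y w : M} (h : Spl P x y) (hw : w ≠ 0) :
    Spl P (x * w ^ 2) y := by
  obtain ⟨a, b, h⟩ := h
  have hw' : loc P w ≠ 0 := (map_ne_zero _).mpr hw
  refine ⟨a, b / loc P w, ?_⟩
  rw [map_mul, map_pow, h]
  field_simp

theorem exists_scale (y : M) : ∃ (w : M) (Y : 𝓞 M), w ≠ 0 ∧ (Y : M) = y * w ^ 2 := by
  obtain ⟨r, hr, h⟩ := exists_integral_multiples ℤ ℚ ({y} : Finset M)
  refine ⟨r, (r : 𝓞 M) * ⟨r • y, h y (by simp)⟩, by exact_mod_cast hr, ?_⟩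
  change algebraMap (𝓞 M) M _ = _
  rw [map_mul, map_intCast]
  change (r : M) * (r • y) = _
  rw [zsmul_eq_mul]
  ring

theorem dv_iff (P : HeightOneSpectrum (𝓞 M)) (n : ℕ) :
    Dv P (n : M) ↔ (n : 𝓞 M) ∈ P.asIdeal := by
  rw [← val_lt_one]
  rfl

theorem exists_unit {x : M} (hx : x ≠ 0) {p : ℕ} (hp : p ≠ 0)
    (hx0 : ∀ P : HeightOneSpectrum (𝓞 M), Dv P (p : M) → Even (ord P x)) :
    ∃ (w : M) (X : 𝓞 M), w ≠ 0 ∧ (X : M) = x * w ^ 2 ∧
      ∀ P : HeightOneSpectrum (𝓞 M), (p : 𝓞 M) ∈ P.asIdeal → X ∉ P.asIdeal := by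
  obtain ⟨w₁, X₁, hw₁, hX₁⟩ := exists_scale x
  have hX0 : (X₁ : M) ≠ 0 := by rw [hX₁]; exact mul_ne_zero hx (pow_ne_zero _ hw₁)
  have hp' : (p : 𝓞 M) ≠ 0 := by exact_mod_cast hp
  have hf := finite_primes hp'
  have hex : ∀ P : HeightOneSpectrum (𝓞 M), ∃ u : M, (p : 𝓞 M) ∈ P.asIdeal →
      P.valuation M ((X₁ : M) * u ^ 2) = 1 := by
    intro P
    by_cases hP : (p : 𝓞 M) ∈ P.asIdeal
    · obtain ⟨π, hπ⟩ := P.valuation_exists_uniformizer M
      obtain ⟨k, hk⟩ := hx0 P ((dv_iff P p).mpr hP)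
      refine ⟨π ^ (-(k + ord P w₁)), fun _ => ?_⟩
      rw [map_mul, map_pow, map_zpow₀, hπ, valuation_eq_exp_ord hX0, hX₁,
        ord_mul hx (pow_ne_zero _ hw₁), ord_pow, hk, ← WithZero.exp_zsmul, ← WithZero.exp_nsmul,
        ← WithZero.exp_add, ← WithZero.exp_zero]
      congr 1
      simp only [smul_eq_mul, nsmul_eq_mul]
      push_cast
      ring
    · exact ⟨0, fun h => absurd h hP⟩
  choose u hu using hex
  obtain ⟨w, h1, h2⟩ := weak_approx hf.toFinset (fun P => loc P (u P)) 1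
  have h3 : ∀ P : HeightOneSpectrum (𝓞 M), (p : 𝓞 M) ∈ P.asIdeal →
      P.valuation M ((X₁ : M) * w ^ 2) = 1 := by
    intro P hP
    have e1 := hu P hP
    have e2 := h1 P (hf.mem_toFinset.mpr hP)
    rw [← map_sub, val_loc] at e2
    have e3 : 1 ≤ P.valuation M (u P) := by
      by_contra hh
      push Not at hh
      rw [map_mul, map_pow] at e1
      exact absurd e1 (ne_of_lt (mul_lt_one_of_nonneg_of_lt_one_right (val_le_one P X₁) zero_le
        (pow_lt_one₀ zero_le hh two_ne_zero)))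
    have e4 : P.valuation M (w - u P) < P.valuation M (u P) :=
      e2.trans_lt (lt_of_lt_of_le (by
        rw [← WithZero.exp_zero, WithZero.exp_lt_exp]; norm_num) e3)
    rw [map_mul, map_pow, Valuation.map_eq_of_sub_lt _ e4, ← map_pow, ← map_mul, e1]
  obtain ⟨X, hX⟩ := exists_int (a := (X₁ : M) * w ^ 2) (fun P => by
    by_cases hP : (p : 𝓞 M) ∈ P.asIdeal
    · exact (h3 P hP).le
    · rw [map_mul, map_pow]
      exact mul_le_one' (val_le_one P X₁) (pow_le_one' (h2 P fun h => hP (hf.mem_toFinset.mp h)) _))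
  by_cases hw : w = 0
  · refine ⟨w₁, X₁, hw₁, hX₁, fun P hP => ?_⟩
    have := h3 P hP
    simp [hw] at this
  · refine ⟨w₁ * w, X, mul_ne_zero hw₁ hw, by rw [hX, hX₁]; ring, fun P hP => ?_⟩
    rw [← val_eq_one, hX]
    exact h3 P hP

omit [NumberField M] in
theorem coprime_of {x n : 𝓞 M} (hn : n ≠ 0)
    (h : ∀ P : HeightOneSpectrum (𝓞 M), n ∈ P.asIdeal → x ∉ P.asIdeal) : IsCoprime x n := by
  rw [← Ideal.isCoprime_span_singleton_iff, Ideal.isCoprime_iff_sup_eq]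
  by_contra hh
  obtain ⟨𝔪, h1, h2⟩ := Ideal.exists_le_maximal _ hh
  have hn' : n ∈ 𝔪 := h2 (Ideal.mem_sup_right (Ideal.mem_span_singleton_self n))
  refine h ⟨𝔪, h1.isPrime, ?_⟩ hn' (h2 (Ideal.mem_sup_left (Ideal.mem_span_singleton_self x)))
  rintro rfl
  exact hn (Ideal.mem_bot.mp hn')

end PF

open PF in
/-- product formula for the quadratic Hilbert symbol: there cannot be exactly one bad prime -/
theorem pf (M : Type) [Field M] [NumberField M] (i : M) (hi : i ^ 2 = -1) (x y : M) (hx : x ≠ 0)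
    (hy : y ≠ 0) (p : ℕ) (hp : p.Prime) (hp2 : p ≠ 2) (hd : ¬ (p : ℤ) ∣ discr M)
    (P₀ : HeightOneSpectrum (𝓞 M)) (hP₀ : Dv P₀ (p : M))
    (hspl : ∀ P : HeightOneSpectrum (𝓞 M), P ≠ P₀ → Spl P x y)
    (hx0 : ∀ P : HeightOneSpectrum (𝓞 M), Dv P (p : M) → Even (ord P x))
    (hns : ¬ LSq P₀ x) (hy0 : Odd (ord P₀ y)) : False := by
  obtain ⟨w, X, hw, hX, hXu⟩ := exists_unit hx hp.ne_zero hx0
  obtain ⟨s, Y, hs, hY⟩ := exists_scale y
  have hX0 : (X : M) ≠ 0 := by rw [hX]; exact mul_ne_zero hx (pow_ne_zero _ hw)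
  have hY0 : (Y : M) ≠ 0 := by rw [hY]; exact mul_ne_zero hy (pow_ne_zero _ hs)
  have hp' : (p : 𝓞 M) ≠ 0 := by exact_mod_cast hp.ne_zero
  have hpP : (p : 𝓞 M) ∈ P₀.asIdeal := (dv_iff P₀ p).mp hP₀
  have hsplXY : ∀ P : HeightOneSpectrum (𝓞 M), P ≠ P₀ → Spl P (X : M) (Y : M) := by
    intro P hP
    rw [hX, hY]
    exact spl_sq_left (spl_sq_right (hspl P hP) s) hw
  have h2P : ∀ P : HeightOneSpectrum (𝓞 M), (p : 𝓞 M) ∈ P.asIdeal → (2 : 𝓞 M) ∉ P.asIdeal := by
    intro P hP h2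
    obtain ⟨k, hk⟩ := hp.odd_of_ne_two hp2
    apply P.isPrime.ne_top
    rw [Ideal.eq_top_iff_one]
    have : (1 : 𝓞 M) = p - k * 2 := by rw [hk]; push_cast; ring
    rw [this]
    exact P.asIdeal.sub_mem hP (P.asIdeal.mul_mem_left _ h2)
  have h2D : ∀ P : HeightOneSpectrum (𝓞 M), (p : 𝓞 M) ∈ P.asIdeal → ¬ Dv P (2 : M) := by
    intro P hP h2
    exact h2P P hP (by simpa using (dv_iff P 2).mp (by simpa using h2))
  obtain ⟨t, ht⟩ := IsDedekindDomain.exists_sup_span_eq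
    (I := Ideal.span {(p : 𝓞 M) ^ 2}) (J := P₀.asIdeal)
    (by rw [Ideal.span_singleton_le_iff_mem]; exact P₀.asIdeal.pow_mem_of_mem hpP _ two_pos)
    (by simpa using hp.ne_zero)
  have htP : t ∈ P₀.asIdeal := by
    rw [← ht]
    exact Ideal.mem_sup_right (Ideal.mem_span_singleton_self t)
  have ht2 : t ∉ P₀.asIdeal ^ 2 := by
    intro h
    have h1 : P₀.asIdeal ≤ P₀.asIdeal ^ 2 := by
      conv_lhs => rw [← ht]
      refine sup_le ?_ ?_
      · rw [Ideal.span_singleton_le_iff_mem]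
        exact Ideal.pow_mem_pow hpP 2
      · rwa [Ideal.span_singleton_le_iff_mem]
    exact absurd h1 (Ideal.pow_lt_self _ P₀.ne_bot P₀.isPrime.ne_top 2 le_rfl).not_ge
  have ht0 : (t : M) ≠ 0 := by
    intro h
    have : t = 0 := by exact_mod_cast h
    exact ht2 (this ▸ Ideal.zero_mem _)
  have hto : ord P₀ (t : M) = 1 := by
    have e1 := (val_lt_one P₀ t).mpr htP
    have e2 := mt (P₀.intValuation_le_pow_iff_mem t 2).mp ht2
    rw [← P₀.valuation_of_algebraMap (K := M)] at e2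
    change ¬ P₀.valuation M (t : M) ≤ _ at e2
    rw [valuation_eq_exp_ord ht0] at e1 e2
    rw [← WithZero.exp_zero, WithZero.exp_lt_exp] at e1
    rw [WithZero.exp_le_exp] at e2
    omega
  have hXe : ∀ P : HeightOneSpectrum (𝓞 M), (p : 𝓞 M) ∈ P.asIdeal → Even (ord P (X : M)) := by
    intro P hP
    rw [ord_eq_zero_of_valuation ((val_eq_one P X).mpr (hXu P hP))]
    exact Even.zero
  have := P₀.isMaximal
  refine core i hi (x := X) (y := Y) (t := t) (by exact_mod_cast hX0) (by exact_mod_cast hY0) hp hp2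
    hd P₀.asIdeal hpP ht (coprime_of hp' hXu) (fun v hv => hns ?_)
    (fun P hP => hsplXY P (by rintro rfl; exact hP hpP)) (fun P hP => ?_)
  · have h1 : LSq P₀ (X : M) := by
      refine lsq_of_val (w := (v : M)) ?_
      have e1 := (val_lt_one P₀ _).mpr hv
      have e2 := (val_eq_one P₀ (2 * 2 * X)).mpr (fun h => by
        rcases P₀.isPrime.mem_or_mem h with h | h
        · exact h2P P₀ hpP ((P₀.isPrime.mem_or_mem h).elim id id)
        · exact hXu P₀ hpP h)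
      rw [← e2] at e1
      simp only [RingOfIntegers.coe_eq_algebraMap, map_sub, map_pow] at e1 ⊢
      convert e1 using 2
      rw [map_mul, map_mul, map_ofNat]
      ring
    have h2 := h1.mul (lsq_of_isSquare (P := P₀) (IsSquare.sq w⁻¹))
    rw [hX] at h2
    convert h2 using 1
    field_simp
  · have h1 : Spl P (X : M) ((Y : M) * (t : M)⁻¹) := by
      by_cases hP0 : P = P₀
      · subst hP0
        refine spl_of_even (h2D P hP) hX0 (mul_ne_zero hY0 (inv_ne_zero ht0)) (hXe P hP) ?_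
        rw [ord_mul hY0 (inv_ne_zero ht0), ord_inv, hto, hY, ord_mul hy (pow_ne_zero _ hs), ord_pow]
        obtain ⟨k, hk⟩ := hy0
        exact ⟨k + ord P s, by rw [hk]; push_cast; ring⟩
      · refine (hsplXY P hP0).mul_right
          (spl_of_even (h2D P hP) hX0 (inv_ne_zero ht0) (hXe P hP) ?_)
        have htn : t ∉ P.asIdeal := by
          intro h
          apply hP0
          refine HeightOneSpectrum.ext (P₀.isMaximal.eq_of_le P.isPrime.ne_top ?_).symm
          rw [← ht]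
          refine sup_le ?_ ?_
          · rw [Ideal.span_singleton_le_iff_mem]
            exact P.asIdeal.pow_mem_of_mem hP _ two_pos
          · rwa [Ideal.span_singleton_le_iff_mem]
        rw [ord_inv, ord_eq_zero_of_valuation ((val_eq_one P t).mpr htn)]
        exact Even.zero
    obtain ⟨a, b, hab⟩ := h1
    refine ⟨a, b, ?_⟩
    rw [← hab, ← map_mul, mul_comm (Y : M), mul_inv_cancel_left₀ ht0]

end Pool.Agent.MP_14ad9d_nt
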