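import Pool.Agent.MP_14ad9d_nt.Defs

set_option autoImplicit false

open NumberField IsDedekindDomain

namespace Pool.Agent.MP_14ad9d_nt

namespace SelFin

open scoped nonZeroDivisors

variable {M : Type} [Field M] [NumberField M]

theorem val_ne (P : HeightOneSpectrum (𝓞 M)) {x : M} (hx : x ≠ 0) : P.valuation M x ≠ 0 :=
  (Valuation.ne_zero_iff _).2 hx

theorem ord_mul (P : HeightOneSpectrum (𝓞 M)) {x y : M} (hx : x ≠ 0) (hy : y ≠ 0) :
    ord P (x * y) = ord P x + ord P y := by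
  unfold ord
  rw [map_mul, WithZero.log_mul (val_ne P hx) (val_ne P hy)]
  ring

theorem ord_inv (P : HeightOneSpectrum (𝓞 M)) (x : M) : ord P x⁻¹ = -ord P x := by
  unfold ord
  rw [map_inv₀, WithZero.log_inv]

theorem val_le_one (P : HeightOneSpectrum (𝓞 M)) {x : M} (hx : x ≠ 0) (h : ord P x = 0) :
    P.valuation M x ≤ 1 := by
  unfold ord at h
  have h2 : WithZero.log (P.valuation M x) = 0 := by linarith
  have := WithZero.exp_log (val_ne P hx)
  rw [h2, WithZero.exp_zero] at this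
  exact this.symm.le

theorem count_span (P : HeightOneSpectrum (𝓞 M)) {c : M} (hc : c ≠ 0) :
    FractionalIdeal.count M P (FractionalIdeal.spanSingleton (𝓞 M)⁰ c) = ord P c := by
  obtain ⟨⟨n, d⟩, rfl⟩ := IsLocalization.mk'_surjective (𝓞 M)⁰ c
  have hn : n ≠ 0 := by
    rintro rfl
    simp at hc
  have hd : (d : 𝓞 M) ≠ 0 := nonZeroDivisors.ne_zero d.2
  have hne : FractionalIdeal.spanSingleton (𝓞 M)⁰ (IsLocalization.mk' M n d) ≠ 0 :=
    FractionalIdeal.spanSingleton_ne_zero_iff.2 hc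
  have hrep : FractionalIdeal.spanSingleton (𝓞 M)⁰ (IsLocalization.mk' M n d) =
      FractionalIdeal.spanSingleton (𝓞 M)⁰ ((algebraMap (𝓞 M) M) d)⁻¹ *
        ((Ideal.span {n} : Ideal (𝓞 M)) : FractionalIdeal (𝓞 M)⁰ M) := by
    rw [FractionalIdeal.coeIdeal_span_singleton, FractionalIdeal.spanSingleton_mul_spanSingleton,
      IsFractionRing.mk'_eq_div, div_eq_inv_mul]
  show FractionalIdeal.count M P (FractionalIdeal.spanSingleton (𝓞 M)⁰
    (IsLocalization.mk' M n d)) = ord P (IsLocalization.mk' M n d)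
  rw [FractionalIdeal.count_well_defined M P hne hrep]
  unfold ord
  rw [HeightOneSpectrum.valuation_of_mk', P.intValuation_if_neg hn, P.intValuation_if_neg hd,
    ← WithZero.exp_sub, WithZero.log_exp]
  ring

theorem fin_ord {x : M} (hx : x ≠ 0) :
    ∀ᶠ P : HeightOneSpectrum (𝓞 M) in Filter.cofinite, ord P x / 2 = 0 := by
  filter_upwards [FractionalIdeal.finite_factors (FractionalIdeal.spanSingleton (𝓞 M)⁰ x)]
    with P hP
  rw [count_span P hx] at hP
  rw [hP]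
  rfl

/-- the half ideal -/
noncomputable def J (x : M) : FractionalIdeal (𝓞 M)⁰ M :=
  ∏ᶠ P : HeightOneSpectrum (𝓞 M), (P.asIdeal : FractionalIdeal (𝓞 M)⁰ M) ^ (ord P x / 2)

theorem J_ne (x : M) : J x ≠ 0 := by
  unfold J
  refine finprod_induction (fun I : FractionalIdeal (𝓞 M)⁰ M => I ≠ 0) one_ne_zero
    (fun _ _ h1 h2 => mul_ne_zero h1 h2) ?_
  intro P
  exact zpow_ne_zero _ (FractionalIdeal.coeIdeal_ne_zero.mpr P.ne_bot)

theorem count_J (P : HeightOneSpectrum (𝓞 M)) {x : M} (hx : x ≠ 0) :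
    FractionalIdeal.count M P (J x) = ord P x / 2 :=
  FractionalIdeal.count_finprod M P (fun P => ord P x / 2) (fin_ord hx)

theorem fin_two : {P : HeightOneSpectrum (𝓞 M) | Dv P (2 : M)}.Finite := by
  have h : (Ideal.span {(2 : 𝓞 M)} : Ideal (𝓞 M)) ≠ 0 := by
    rw [Ne, Ideal.zero_eq_bot, Ideal.span_singleton_eq_bot]
    exact two_ne_zero
  refine (Ideal.finite_factors h).subset ?_
  intro P hP
  have := (P.valuation_lt_one_iff_dvd (K := M) (2 : 𝓞 M)).1 (by
    have h2 : ((2 : 𝓞 M) : M) = 2 := rfl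
    exact hP)
  exact this

/-- the class of the half ideal -/
noncomputable def cls (x : M) : ClassGroup (𝓞 M) := ClassGroup.mk M (Units.mk0 (J x) (J_ne x))

theorem exists_c {x y : M} (hx : x ≠ 0) (hy : y ≠ 0) (h : cls x = cls y) :
    ∃ c : M, c ≠ 0 ∧ ∀ P : HeightOneSpectrum (𝓞 M), ord P x / 2 = ord P c + ord P y / 2 := by
  have h1 : ClassGroup.mk M (Units.mk0 (J x) (J_ne x) * (Units.mk0 (J y) (J_ne y))⁻¹) = 1 := by
    rw [map_mul, map_inv]
    unfold cls at h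
    rw [h, mul_inv_cancel]
  rw [ClassGroup.mk_eq_one_iff, FractionalIdeal.isPrincipal_iff] at h1
  obtain ⟨c, hc⟩ := h1
  have hc' : J x * (J y)⁻¹ = FractionalIdeal.spanSingleton (𝓞 M)⁰ c := by
    rw [← hc]
    simp
  have hc0 : c ≠ 0 := by
    rintro rfl
    rw [FractionalIdeal.spanSingleton_zero] at hc'
    exact mul_ne_zero (J_ne x) (inv_ne_zero (J_ne y)) hc'
  refine ⟨c, hc0, fun P => ?_⟩
  have := congrArg (FractionalIdeal.count M P) hc'
  rw [FractionalIdeal.count_mul M P (J_ne x) (inv_ne_zero (J_ne y)), FractionalIdeal.count_inv,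
    count_J P hx, count_J P hy, count_span P hc0] at this
  linarith

theorem exists_unit {x : M} (hx : x ≠ 0) (h : ∀ P : HeightOneSpectrum (𝓞 M), ord P x = 0) :
    ∃ e : (𝓞 M)ˣ, ((e : 𝓞 M) : M) = x := by
  obtain ⟨a, ha⟩ := HeightOneSpectrum.mem_integers_of_valuation_le_one (R := 𝓞 M) M x
    (fun P => val_le_one P hx (h P))
  obtain ⟨b, hb⟩ := HeightOneSpectrum.mem_integers_of_valuation_le_one (R := 𝓞 M) M x⁻¹
    (fun P => val_le_one P (inv_ne_zero hx) (by rw [ord_inv, h P, neg_zero]))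
  have hab : a * b = 1 := by
    apply IsFractionRing.injective (𝓞 M) M
    rw [map_mul, ha, hb, map_one, mul_inv_cancel₀ hx]
  exact ⟨Units.mkOfMulEqOne a b hab, ha⟩

theorem units_fin (M : Type) [Field M] [NumberField M] :
    ∃ U : Finset (𝓞 M)ˣ, ∀ e : (𝓞 M)ˣ, ∃ t ∈ U, ∃ f : (𝓞 M)ˣ, e = t * f ^ 2 := by
  classical
  have : Group.FG (𝓞 M)ˣ := Group.fg_iff_monoid_fg.2 inferInstance
  have := Subgroup.finiteIndex_range_powMonoidHom_of_fg (𝓞 M)ˣ (n := 2) two_ne_zero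
  set H : Subgroup (𝓞 M)ˣ := (powMonoidHom 2).range
  have : Fintype ((𝓞 M)ˣ ⧸ H) := Fintype.ofFinite _
  refine ⟨Finset.univ.image (fun q : (𝓞 M)ˣ ⧸ H => q.out), fun e => ?_⟩
  obtain ⟨⟨h, f, hf⟩, hh⟩ := QuotientGroup.mk_out_eq_mul H e
  refine ⟨(QuotientGroup.mk e : (𝓞 M)ˣ ⧸ H).out, Finset.mem_image_of_mem _ (Finset.mem_univ _),
    f⁻¹, ?_⟩
  rw [hh]
  simp only [powMonoidHom_apply] at hf
  rw [inv_pow, hf]
  simp

end SelFin

open SelFin in
/-- finiteness of the elements with even valuation away from `2`, modulo squares -/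
theorem sel_finite (M : Type) [Field M] [NumberField M] : ∃ T : Finset M, ∀ x : M, x ≠ 0 →
    (∀ P : HeightOneSpectrum (𝓞 M), ¬ Dv P 2 → Even (ord P x)) →
    ∃ t ∈ T, ∃ u : M, u ≠ 0 ∧ x = t * u ^ 2 := by
  classical
  obtain ⟨U, hU⟩ := units_fin M
  have : Finite {P : HeightOneSpectrum (𝓞 M) // Dv P (2 : M)} := (fin_two (M := M)).to_subtype
  let D : Type := ({P : HeightOneSpectrum (𝓞 M) // Dv P (2 : M)} → Prop) × ClassGroup (𝓞 M)
  have : Fintype D := Fintype.ofFinite _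
  let good : M → Prop := fun x => x ≠ 0 ∧
    ∀ P : HeightOneSpectrum (𝓞 M), ¬ Dv P 2 → Even (ord P x)
  let dat : M → D := fun x => (fun P => Even (ord P.1 x), cls x)
  let rep : D → M := fun d => if h : ∃ x, good x ∧ dat x = d then h.choose else 1
  refine ⟨(Finset.univ ×ˢ U).image (fun p : D × (𝓞 M)ˣ => rep p.1 * ((p.2 : 𝓞 M) : M)),
    fun x hx hev => ?_⟩
  have hex : ∃ y, good y ∧ dat y = dat x := ⟨x, ⟨hx, hev⟩, rfl⟩
  have hy : good (rep (dat x)) ∧ dat (rep (dat x)) = dat x := by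
    have : rep (dat x) = hex.choose := dif_pos hex
    rw [this]
    exact hex.choose_spec
  set y := rep (dat x) with hydef
  obtain ⟨⟨hy0, hyev⟩, hdat⟩ := hy
  have hpar : ∀ P : HeightOneSpectrum (𝓞 M), (Even (ord P y) ↔ Even (ord P x)) := by
    intro P
    by_cases hP : Dv P (2 : M)
    · have := congrFun (congrArg Prod.fst hdat) ⟨P, hP⟩
      exact Iff.of_eq this
    · exact ⟨fun _ => hev P hP, fun _ => hyev P hP⟩
  obtain ⟨c, hc0, hc⟩ := exists_c hx hy0 (congrArg Prod.snd hdat).symm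
  have hne : x * (y * (c * c))⁻¹ ≠ 0 :=
    mul_ne_zero hx (inv_ne_zero (mul_ne_zero hy0 (mul_ne_zero hc0 hc0)))
  obtain ⟨e, he⟩ := exists_unit hne (fun P => by
    rw [ord_mul P hx (inv_ne_zero (mul_ne_zero hy0 (mul_ne_zero hc0 hc0))), ord_inv,
      ord_mul P hy0 (mul_ne_zero hc0 hc0), ord_mul P hc0 hc0]
    have h1 := hc P
    have h2 := hpar P
    rw [Int.even_iff, Int.even_iff] at h2
    omega)
  obtain ⟨t, ht, f, hf⟩ := hU e
  refine ⟨y * ((t : 𝓞 M) : M), Finset.mem_image.2 ⟨(dat x, t),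
    Finset.mem_product.2 ⟨Finset.mem_univ _, ht⟩, rfl⟩, c * ((f : 𝓞 M) : M),
    mul_ne_zero hc0 (by simp), ?_⟩
  have h3 : ((e : 𝓞 M) : M) = ((t : 𝓞 M) : M) * ((f : 𝓞 M) : M) ^ 2 := by
    rw [hf]
    simp
  rw [he] at h3
  have h4 : x = (x * (y * (c * c))⁻¹) * (y * (c * c)) := by
    field_simp
  rw [h4, h3]
  ring

end Pool.Agent.MP_14ad9d_nt
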