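import Pool.Agent.MP_14ad9d_nt.Aut
import Pool.Agent.MP_14ad9d_nt.PF
import Pool.Agent.MP_14ad9d_nt.SelFin
import Pool.Agent.MP_14ad9d_nt.Add

set_option autoImplicit false
set_option linter.unusedSectionVars false

open NumberField IsDedekindDomain

namespace Pool.Agent.MP_14ad9d_nt

variable {M : Type} [Field M] [NumberField M] [Algebra Fi M]

/-- abscissas of points on curves that are locally the base curve at `2` -/
def BB (x : M) : Prop :=
  x ≠ 0 ∧ ∃ (D : GaussianInt) (y : M), D ≠ 0 ∧ (∀ P, Dv P (2 : M) → L4 P (gM M D)) ∧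
    y ^ 2 = x ^ 3 - gM M D * x

/-- the new part of the relaxed Selmer set -/
def Sel0 (y : M) : Prop :=
  y ≠ 0 ∧ New M y ∧ (∀ P, ¬ Dv P (2 : M) → Even (ord P y)) ∧
    ∀ x, BB x → ∀ P, Dv P (2 : M) → Spl P y x

variable (M) in
/-- the elements of the Selmer set that are local squares above `r` -/
def Ker (r : GaussianInt) : Set M := {y | Sel0 y ∧ ∀ P, Dv P (gM M r) → LSq P y}

/-- admissible sets -/
structure Adm (S : Set M) : Prop where
  ne : ∀ y ∈ S, y ≠ 0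
  new : ∀ y ∈ S, New M y
  even : ∀ y ∈ S, ∀ P, ¬ Dv P (2 : M) → Even (ord P y)
  one : (1 : M) ∈ S
  mul : ∀ y ∈ S, ∀ z ∈ S, y * z ∈ S
  aut : ∀ (h : M ≃ₐ[Fi] M), ∀ y ∈ S, h y ∈ S

/-- auxiliary primes -/
structure AuxP (S : Set M) (p : ℕ) (π : GaussianInt) : Prop where
  prime : p.Prime
  ne_two : p ≠ 2
  disc : ¬ (p : ℤ) ∣ discr M
  norm : π.norm = p
  prim : Prim π
  ord_eq : ∀ P, Dv P (gM M π) → ord P (gM M π) = 1
  kill : ∀ x : M, x ≠ 0 → New M x → (∃ P, Dv P (gM M π) ∧ Odd (ord P x)) →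
    ∃ y ∈ S, ∃ P₀, Dv P₀ (gM M π) ∧ Odd (ord P₀ x) ∧ ¬ LSq P₀ y ∧
      ∀ P, Dv P (gM M π) → P ≠ P₀ → Odd (ord P x) → LSq P y
  prog : ∃ y ∈ S, ∃ P, Dv P (gM M π) ∧ ¬ LSq P y

variable (M) in
/-- existence of auxiliary primes -/
def AuxHyp : Prop :=
  ∀ S : Set M, Adm S → (∃ y ∈ S, ¬ IsSquare y) → ∀ B : Finset ℕ, ∃ p ∉ B, ∃ π, AuxP S p π

variable (M) in
/-- the state of the induction -/
structure St (r : GaussianInt) (B : Finset ℕ) : Prop where
  ne : r ≠ 0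
  two : ∀ P, Dv P (2 : M) → LSq P (gM M r)
  odd : ∀ P, Dv P (gM M r) → ord P (gM M r) = 1 ∧ ∃ p ∈ B, p.Prime ∧ p ≠ 2 ∧ Dv P (p : M)
  good : ∀ x : M, BB x → New M x → (∀ P, ¬ Dv P (2 : M) → ¬ Dv P (gM M r) → Even (ord P x)) →
    ∀ P, ¬ Dv P (2 : M) → Even (ord P x)

variable (M) in
theorem iM_sq : gM M ⟨0, 1⟩ ^ 2 = -1 := by
  rw [← map_pow, show (⟨0, 1⟩ : GaussianInt) ^ 2 = -1 by ext <;> simp [sq]]; simp

theorem map_gM (h : M ≃ₐ[Fi] M) (u : GaussianInt) : h (gM M u) = gM M u := h.commutes _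

theorem BB.aut {x : M} (hx : BB x) (h : M ≃ₐ[Fi] M) : BB (h x) := by
  obtain ⟨h0, D, y, hD, h4, e⟩ := hx
  refine ⟨(map_ne_zero _).2 h0, D, h y, hD, h4, ?_⟩
  rw [← map_pow, e, map_sub, map_mul, map_pow, map_gM]

theorem BB.spl {x y : M} (hx : BB x) (hy : BB y) {P : HeightOneSpectrum (𝓞 M)}
    (hP : Dv P (2 : M)) : Spl P x y := by
  obtain ⟨h0, D, z, hD, h4, e⟩ := hx
  obtain ⟨h0', D', z', hD', h4', e'⟩ := hy
  exact spl_of_curve (iM_sq M) (gM_ne_zero hD) (gM_ne_zero hD') (h4 P hP) (h4' P hP) h0 h0' e e'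

theorem Ker.mul_sq {r : GaussianInt} {y u : M} (hy : y ∈ Ker M r) (hu : u ≠ 0) :
    y * u ^ 2 ∈ Ker M r := by
  obtain ⟨⟨h0, h1, h2, h3⟩, h4⟩ := hy
  have hu2 : u ^ 2 ≠ 0 := pow_ne_zero _ hu
  refine ⟨⟨mul_ne_zero h0 hu2, h1.mul (new_sq u), fun P hP => ?_, fun x hx P hP => ?_⟩,
    fun P hP => (h4 P hP).mul (LocAux.lsq_sq u)⟩
  · rw [ord_mul h0 hu2, ord_pow]
    exact (h2 P hP).add (by simp)
  · exact (h3 x hx P hP).mul_left (spl_of_lsq_left (LocAux.lsq_sq u) hu2 x) h0 hu2 hx.1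

theorem adm_ker (r : GaussianInt) : Adm (Ker M r) where
  ne y hy := hy.1.1
  new y hy := hy.1.2.1
  even y hy := hy.1.2.2.1
  one := ⟨⟨one_ne_zero, new_one, fun P _ => by
      rw [ord_eq_zero_of_valuation (map_one _)]; exact Even.zero,
    fun x _ P _ => spl_of_lsq_left (lsq_of_isSquare IsSquare.one) one_ne_zero x⟩,
    fun P _ => lsq_of_isSquare IsSquare.one⟩
  mul := by
    rintro y ⟨⟨h0, h1, h2, h3⟩, h4⟩ z ⟨⟨k0, k1, k2, k3⟩, k4⟩
    refine ⟨⟨mul_ne_zero h0 k0, h1.mul k1, fun P hP => ?_, fun x hx P hP => ?_⟩,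
      fun P hP => (h4 P hP).mul (k4 P hP)⟩
    · rw [ord_mul h0 k0]; exact (h2 P hP).add (k2 P hP)
    · exact (h3 x hx P hP).mul_left (k3 x hx P hP) h0 k0 hx.1
  aut := by
    rintro h y ⟨⟨h0, h1, h2, h3⟩, h4⟩
    have key := fun P : HeightOneSpectrum (𝓞 M) =>
      transfer (h : M →+* M) (valuation_plc_equiv h.toRingEquiv P)
    refine ⟨⟨(map_ne_zero _).2 h0, ?_, fun P hP => ?_, fun x hx P hP => ?_⟩, fun P hP => ?_⟩
    · unfold New at h1 ⊢
      rwa [Algebra.norm_eq_of_algEquiv]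
    · obtain ⟨k1, k2, -, -⟩ := key P
      have := k2 y
      rw [RingHom.coe_coe] at this
      rw [this]
      refine h2 _ fun hc => hP ?_
      simpa [map_ofNat] using (k1 2).2 hc
    · obtain ⟨k1, -, -, k4⟩ := key P
      have := k4 y (h.symm x) (hx.aut h.symm).1 (h3 _ (hx.aut h.symm) _ ((k1 2).1 (by
        simpa [map_ofNat] using hP)))
      simpa using this
    · obtain ⟨k1, -, k3, -⟩ := key P
      exact k3 y h0 (h4 _ ((k1 _).1 (by simpa [map_gM] using hP)))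

theorem dv_norm {P : HeightOneSpectrum (𝓞 M)} {π : GaussianInt} {p : ℕ} (hn : π.norm = p)
    (h : Dv P (gM M π)) : Dv P (p : M) := by
  have := h.mul_right (gM_le_one P (star π))
  rwa [gM_mul_star, hn, Int.cast_natCast] at this

theorem dv_gM_mul {P : HeightOneSpectrum (𝓞 M)} {a b : GaussianInt} :
    Dv P (gM M (a * b)) ↔ Dv P (gM M a) ∨ Dv P (gM M b) := by
  rw [map_mul, Dv.mul_iff (gM_le_one P a) (gM_le_one P b)]

theorem valuation_gM_eq_one {P : HeightOneSpectrum (𝓞 M)} {a : GaussianInt}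
    (h : ¬ Dv P (gM M a)) : P.valuation M (gM M a) = 1 :=
  le_antisymm (gM_le_one P a) (not_lt.1 h)

theorem lsq_neg_one (P : HeightOneSpectrum (𝓞 M)) : LSq P (-1 : M) := by
  rw [← iM_sq M]; exact LocAux.lsq_sq _

theorem Prim.lsq {π : GaussianInt} (h : Prim π) {P : HeightOneSpectrum (𝓞 M)}
    (hP : Dv P (2 : M)) : LSq P (gM M π) ∧ ¬ Dv P (gM M π) := by
  have h1 : Dv P (gM M ⟨1, 1⟩) := by
    have : (2 : M) = gM M (⟨1, 1⟩ * (⟨1, 1⟩ * ⟨0, -1⟩)) := by
      rw [show (⟨1, 1⟩ * (⟨1, 1⟩ * ⟨0, -1⟩) : GaussianInt) = 2 by ext <;> simp, map_ofNat]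
    rw [this, dv_gM_mul, dv_gM_mul] at hP
    rcases hP with h | h | h
    · exact h
    · exact h
    · exfalso
      have := dv_norm (p := 1) (by simp [Zsqrtd.norm_def]) h
      exact not_dv_one (by simpa using this)
  have key : ∀ u : GaussianInt, (⟨4, 4⟩ : GaussianInt) ∣ u - 1 →
      LSq P (gM M u) ∧ ¬ Dv P (gM M u) := by
    rintro u ⟨c, hc⟩
    have h2 : gM M u - 1 = 4 * (gM M ⟨1, 1⟩ * gM M c) := by
      rw [← map_one (gM M), ← map_sub, hc, show (⟨4, 4⟩ : GaussianInt) = 4 * ⟨1, 1⟩ by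
        ext <;> simp, map_mul, map_mul, map_ofNat, mul_assoc]
    have h3 : Dv P (gM M ⟨1, 1⟩ * gM M c) := h1.mul_right (gM_le_one P c)
    have h4 : Dv P (gM M u - 1) := by
      rw [h2, mul_comm]; exact h3.mul_right (LocAux.val_four_le _)
    have h5 : ¬ Dv P (gM M u) := fun h => not_dv_one (Q := P) (by simpa using h.sub h4)
    refine ⟨lsq_of_val (w := 1) ?_, h5⟩
    rw [one_pow, h2, map_mul, map_mul _ 4, valuation_gM_eq_one h5]
    exact mul_lt_mul_of_pos_left h3 (zero_lt_iff.2 ((map_ne_zero _).2 (by norm_num)))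
  rcases h with h | h
  · exact key π h
  · obtain ⟨k1, k2⟩ := key (-π) (by
      rw [show -π - 1 = -(π + 1) by ring]; exact h.neg_right)
    rw [map_neg] at k1 k2
    refine ⟨by simpa using (lsq_neg_one P).mul k1, fun hc => k2 ?_⟩
    unfold Dv at hc ⊢
    rwa [Valuation.map_neg]

theorem St.step {r π : GaussianInt} {B : Finset ℕ} {p : ℕ} (h : St M r B) (hp : p ∉ B)
    (ha : AuxP (Ker M r) p π) : St M (r * π) (insert p B) := by
  have hπ0 : π ≠ 0 := by
    rintro rfl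
    have := ha.norm
    rw [Zsqrtd.norm_zero] at this
    exact ha.prime.ne_zero (by exact_mod_cast this.symm)
  have hdis : ∀ P, Dv P (gM M π) → ¬ Dv P (gM M r) := by
    intro P h1 h2
    obtain ⟨-, q, hq, hq1, -, hq2⟩ := h.odd P h2
    refine not_dv_of_coprime ((Nat.coprime_primes ha.prime hq1).2 ?_) (dv_norm ha.norm h1) hq2
    rintro rfl; exact hp hq
  refine ⟨mul_ne_zero h.ne hπ0, fun P hP => ?_, fun P hP => ?_, fun x hx hnew hev => ?_⟩
  · rw [map_mul]; exact (h.two P hP).mul (ha.prim.lsq hP).1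
  · rw [map_mul, ord_mul (gM_ne_zero h.ne) (gM_ne_zero hπ0)]
    by_cases h1 : Dv P (gM M π)
    · rw [ha.ord_eq P h1, ord_eq_zero_of_valuation (valuation_gM_eq_one (hdis P h1))]
      exact ⟨rfl, p, Finset.mem_insert_self _ _, ha.prime, ha.ne_two, dv_norm ha.norm h1⟩
    · obtain ⟨h2, q, hq, hq'⟩ := h.odd P ((dv_gM_mul.1 hP).resolve_right h1)
      rw [h2, ord_eq_zero_of_valuation (valuation_gM_eq_one h1)]
      exact ⟨rfl, q, Finset.mem_insert_of_mem hq, hq'⟩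
  · refine h.good x hx hnew fun P h2 hr => ?_
    by_cases h1 : Dv P (gM M π)
    swap
    · exact hev P h2 fun hc => (dv_gM_mul.1 hc).elim hr h1
    by_contra hodd
    obtain ⟨y, ⟨⟨y0, -, y2, y3⟩, y4⟩, P₀, k1, k2, k3, k4⟩ :=
      ha.kill x hx.1 hnew ⟨P, h1, Int.not_even_iff_odd.1 hodd⟩
    refine pf M _ (iM_sq M) y x y0 hx.1 p ha.prime ha.ne_two ha.disc P₀ (dv_norm ha.norm k1)
      (fun Q hQ => ?_) (fun Q hQ => y2 Q (not_dv_two ha.prime ha.ne_two hQ)) k3 k2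
    by_cases q2 : Dv Q (2 : M)
    · exact y3 x hx Q q2
    by_cases qr : Dv Q (gM M r)
    · exact spl_of_lsq_left (y4 Q qr) y0 x
    by_cases qe : Even (ord Q x)
    · exact spl_of_even q2 y0 hx.1 (y2 Q q2) qe
    by_cases qπ : Dv Q (gM M π)
    · exact spl_of_lsq_left (k4 Q qπ hQ (Int.not_even_iff_odd.1 qe)) y0 x
    · exact (qe (hev Q q2 fun hc => (dv_gM_mul.1 hc).elim qr qπ)).elim

theorem st_one : St M 1 ∅ where
  ne := one_ne_zero
  two P _ := by rw [map_one]; exact lsq_of_isSquare IsSquare.one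
  odd P h := by rw [map_one] at h; exact (not_dv_one h).elim
  good x _ _ h P hP := h P hP (by rw [map_one]; exact not_dv_one)

theorem exists_st (h : AuxHyp M) : ∃ r B, St M r B ∧ ∀ y ∈ Ker M r, IsSquare y := by
  classical
  obtain ⟨T, hT⟩ := sel_finite M
  have key : ∀ n : ℕ, ∀ r B, St M r B → (T.filter (· ∈ Ker M r)).card ≤ n →
      ∃ r B, St M r B ∧ ∀ y ∈ Ker M r, IsSquare y := by
    intro n
    induction n using Nat.strong_induction_on with
    | _ n ih =>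
      intro r B hs hc
      by_cases hsq : ∀ y ∈ Ker M r, IsSquare y
      · exact ⟨r, B, hs, hsq⟩
      push Not at hsq
      obtain ⟨p, hp, π, ha⟩ := h _ (adm_ker r) hsq B
      refine ih _ (lt_of_lt_of_le (Finset.card_lt_card ?_) hc) _ _ (hs.step hp ha) le_rfl
      have hsub : Ker M (r * π) ⊆ Ker M r := fun y hy =>
        ⟨hy.1, fun P hP => hy.2 P (dv_gM_mul.2 (Or.inl hP))⟩
      refine Finset.ssubset_iff_subset_ne.2 ⟨fun t ht => ?_, fun heq => ?_⟩
      · rw [Finset.mem_filter] at ht ⊢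
        exact ⟨ht.1, hsub ht.2⟩
      · obtain ⟨y, hy, P, hP, hns⟩ := ha.prog
        obtain ⟨t, ht, u, hu, rfl⟩ := hT y hy.1.1 hy.1.2.2.1
        have h1 : t ∈ Ker M r := by
          have := Ker.mul_sq hy (inv_ne_zero hu)
          rwa [show t * u ^ 2 * u⁻¹ ^ 2 = t by field_simp] at this
        have h2 : t ∈ T.filter (· ∈ Ker M (r * π)) := by
          rw [heq]; exact Finset.mem_filter.2 ⟨ht, h1⟩
        exact hns ((Ker.mul_sq (Finset.mem_filter.1 h2).2 hu).2 P (dv_gM_mul.2 (Or.inr hP)))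
  exact key _ 1 ∅ st_one le_rfl

/-- primes at which new elements have even valuation -/
structure Silent (M : Type) [Field M] [NumberField M] [Algebra Fi M] (p : ℕ) (π : GaussianInt) :
    Prop where
  prime : p.Prime
  ne_two : p ≠ 2
  norm : π.norm = p
  prim : Prim π
  even : ∀ P, Dv P (gM M π) → ∀ x : M, x ≠ 0 → New M x → Even (ord P x)

theorem core (h : AuxHyp M) (hs : PosDens {p | ∃ π, Silent M p π}) :
    ∃ α β γ : GaussianInt, γ - β = α ∧ α ≠ 0 ∧ (64 : GaussianInt) ∣ α ∧ Odd β.norm ∧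
      α ^ 2 * β * γ ≠ 0 ∧ ∀ x y : M, x ≠ 0 → y ^ 2 = x ^ 3 - gM M (α ^ 2 * β * γ) * x →
        New M x → IsSquare x := by
  classical
  obtain ⟨r, B, hst, hker⟩ := exists_st h
  let 𝒬 : Set ℕ := {p | (∃ π, Silent M p π) ∧ p ∉ B}
  have h𝒬 : PosDens 𝒬 := hs.mono B fun n hn hB => ⟨hn, hB⟩
  let π : ℕ → GaussianInt := fun p => if h : ∃ π, Silent M p π then h.choose else 0
  have hπ : ∀ p ∈ 𝒬, Silent M p (π p) := fun p hp => by
    simp only [π, dif_pos hp.1]; exact hp.1.choose_spec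
  obtain ⟨β, hβ, γ, hγ, t, ht, e⟩ := add_main 𝒬 (fun p hp => (hπ p hp).prime) h𝒬 π
    (fun p hp => (hπ p hp).norm) (64 * r) (mul_ne_zero (by norm_num) hst.ne)
  have hcl : ∀ s ∈ Submonoid.closure (π '' 𝒬), Odd s.norm ∧
      (∀ P, Dv P (2 : M) → LSq P (gM M s) ∧ ¬ Dv P (gM M s)) ∧
      ∀ P, Dv P (gM M s) → ¬ Dv P (gM M r) ∧ ∀ x : M, x ≠ 0 → New M x → Even (ord P x) := by
    intro s hs
    induction hs using Submonoid.closure_induction with
    | mem s hs =>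
      obtain ⟨p, hp, rfl⟩ := hs
      have k := hπ p hp
      refine ⟨?_, fun P hP => k.prim.lsq hP, fun P hP => ⟨fun hr => ?_, k.even P hP⟩⟩
      · rw [k.norm]; exact_mod_cast k.prime.odd_of_ne_two k.ne_two
      · obtain ⟨-, q, hq, hq1, -, hq2⟩ := hst.odd P hr
        refine not_dv_of_coprime ((Nat.coprime_primes k.prime hq1).2 ?_) (dv_norm k.norm hP) hq2
        rintro rfl; exact hp.2 hq
    | one =>
      refine ⟨by simp, fun P _ => ?_, fun P hP => ?_⟩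
      · rw [map_one]; exact ⟨lsq_of_isSquare IsSquare.one, not_dv_one⟩
      · rw [map_one] at hP; exact (not_dv_one hP).elim
    | mul a b _ _ iha ihb =>
      refine ⟨by rw [Zsqrtd.norm_mul]; exact iha.1.mul ihb.1, fun P hP => ⟨?_, fun hc => ?_⟩,
        fun P hP => (dv_gM_mul.1 hP).elim (iha.2.2 P) (ihb.2.2 P)⟩
      · rw [map_mul]; exact (iha.2.1 P hP).1.mul (ihb.2.1 P hP).1
      · exact (dv_gM_mul.1 hc).elim (iha.2.1 P hP).2 (ihb.2.1 P hP).2
  obtain ⟨b1, b2, b3⟩ := hcl β hβ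
  obtain ⟨c1, c2, c3⟩ := hcl γ hγ
  have hne : ∀ s : GaussianInt, Odd s.norm → s ≠ 0 := by
    rintro s hs rfl
    simp at hs
  have hβ0 := hne β b1
  have hγ0 := hne γ c1
  have ht0 : (t : GaussianInt) ≠ 0 := by exact_mod_cast ht
  set α := 64 * r * (t : GaussianInt) ^ 2 with hα
  have hα0 : α ≠ 0 := mul_ne_zero (mul_ne_zero (by norm_num) hst.ne) (pow_ne_zero _ ht0)
  have hD0 : α ^ 2 * β * γ ≠ 0 := mul_ne_zero (mul_ne_zero (pow_ne_zero _ hα0) hβ0) hγ0
  refine ⟨α, β, γ, e, hα0, ⟨r * (t : GaussianInt) ^ 2, by rw [hα]; ring⟩, b1, hD0,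
    fun x y hx hxy hnew => hker x ?_⟩
  have a0 := gM_ne_zero (M := M) hα0
  have b0 := gM_ne_zero (M := M) hβ0
  have c0 := gM_ne_zero (M := M) hγ0
  have r0 := gM_ne_zero (M := M) hst.ne
  have t0 : (t : M) ≠ 0 := by exact_mod_cast ht
  have hγe : gM M γ = gM M β + gM M α := by rw [← e, map_sub]; ring
  have hαe : gM M α = gM M r * (8 * t) ^ 2 := by
    rw [hα, map_mul, map_mul, map_pow, map_intCast, map_ofNat]; ring
  have hDe : gM M (α ^ 2 * β * γ) = (gM M α * gM M β) ^ 2 * (1 + gM M α / gM M β) := by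
    rw [map_mul, map_mul, map_pow, hγe]; field_simp
  have hord : ∀ P, ord P (gM M (α ^ 2 * β * γ)) =
      2 * (ord P (gM M r) + 2 * ord P (8 * t : M)) + ord P (gM M β) + ord P (gM M γ) := by
    intro P
    rw [map_mul, map_mul, map_pow, ord_mul (mul_ne_zero (pow_ne_zero _ a0) b0) c0,
      ord_mul (pow_ne_zero _ a0) b0, ord_pow, hαe,
      ord_mul r0 (pow_ne_zero _ (mul_ne_zero (by norm_num) t0)), ord_pow]
    push_cast; ring
  have hBB : BB x := by
    refine ⟨hx, _, y, hD0, fun P hP => ?_, hxy⟩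
    rw [hDe]
    refine l4_of_lsq hP ?_ ?_
    · rw [hαe]; exact ((hst.two P hP).mul (LocAux.lsq_sq _)).mul (b2 P hP).1
    · rw [map_div₀, valuation_gM_eq_one (b2 P hP).2, div_one, hα, mul_assoc, map_mul, map_mul,
        map_ofNat]
      exact mul_le_of_le_one_right' (gM_le_one P _)
  have hev : ∀ P, ¬ Dv P (2 : M) → Even (ord P x) := by
    refine hst.good x hBB hnew fun P h2 hr => ?_
    by_cases h3 : Dv P (gM M β)
    · exact (b3 P h3).2 x hx hnew
    by_cases h4 : Dv P (gM M γ)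
    · exact (c3 P h4).2 x hx hnew
    refine even_ord_of_curve (gM_ne_zero hD0) hx hxy ?_
    rw [hord, ord_eq_zero_of_valuation (valuation_gM_eq_one hr),
      ord_eq_zero_of_valuation (valuation_gM_eq_one h3),
      ord_eq_zero_of_valuation (valuation_gM_eq_one h4)]
    exact ⟨ord P (8 * t : M), by ring⟩
  refine ⟨⟨hx, hnew, hev, fun z hz P hP => hBB.spl hz hP⟩, fun P hP => ?_⟩
  obtain ⟨h1, q, -, hq1, hq2, hq3⟩ := hst.odd P hP
  have h2 : ¬ Dv P (2 : M) := not_dv_two hq1 hq2 hq3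
  have h3 : ¬ Dv P (gM M β) := fun hc => (b3 P hc).1 hP
  have h4 : ¬ Dv P (gM M γ) := fun hc => (c3 P hc).1 hP
  refine lsq_of_curve h2 (gM_ne_zero hD0) hx hxy ?_ (1 + 2 * ord P (8 * t : M)) (by simp) ?_
    (hev P h2)
  · rw [hDe, ← neg_one_mul]
    refine (lsq_neg_one P).mul ((LocAux.lsq_sq _).mul ?_)
    have h5 : Dv P (gM M α / gM M β) := by
      unfold Dv
      rw [map_div₀, valuation_gM_eq_one h3, div_one]
      have : Dv P (gM M (r * (64 * (t : GaussianInt) ^ 2))) := dv_gM_mul.2 (Or.inl hP)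
      rwa [show r * (64 * (t : GaussianInt) ^ 2) = α by rw [hα]; ring] at this
    refine lsq_of_val (w := 1) ?_
    rw [one_pow, add_sub_cancel_left, map_mul _ 4, LocAux.val_four_eq h2, one_mul,
      Valuation.map_one_add_of_lt _ h5]
    exact h5
  · rw [hord, h1, ord_eq_zero_of_valuation (valuation_gM_eq_one h3),
      ord_eq_zero_of_valuation (valuation_gM_eq_one h4)]
    ring

end Pool.Agent.MP_14ad9d_nt
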