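import Mathlib

set_option autoImplicit false

namespace Pool.Agent.MP_14ad9d_nt

namespace PF

open Finset

/-- the exponential of a fraction -/
noncomputable def ee (a N : ℤ) : ℂ := Complex.exp (2 * Real.pi * Complex.I * ((a : ℂ) / N))

theorem ee_add (a b N : ℤ) : ee (a + b) N = ee a N * ee b N := by
  unfold ee
  rw [← Complex.exp_add]
  congr 1
  push_cast
  ring

theorem ee_zero (N : ℤ) : ee 0 N = 1 := by simp [ee]

theorem ee_of_dvd {a N : ℤ} (h : N ∣ a) : ee a N = 1 := by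
  obtain ⟨k, rfl⟩ := h
  by_cases hN : N = 0
  · simp [ee, hN]
  unfold ee
  have hN' : (N : ℂ) ≠ 0 := by exact_mod_cast hN
  rw [Complex.exp_eq_one_iff]
  refine ⟨k, ?_⟩
  push_cast
  field_simp

theorem dvd_of_ee {a N : ℤ} (hN : N ≠ 0) (h : ee a N = 1) : N ∣ a := by
  unfold ee at h
  rw [Complex.exp_eq_one_iff] at h
  obtain ⟨k, hk⟩ := h
  have hN' : (N : ℂ) ≠ 0 := by exact_mod_cast hN
  have hpi : (2 * Real.pi * Complex.I : ℂ) ≠ 0 := Complex.two_pi_I_ne_zero
  refine ⟨k, ?_⟩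
  have h1 : (a : ℂ) / N = k := by
    apply mul_left_cancel₀ hpi
    rw [hk]; ring
  have h2 : (a : ℂ) = N * k := by
    rw [← h1]; field_simp
  exact_mod_cast h2

theorem ee_mul {c : ℤ} (hc : c ≠ 0) (a N : ℤ) : ee (c * a) (c * N) = ee a N := by
  unfold ee
  have hc' : (c : ℂ) ≠ 0 := by exact_mod_cast hc
  push_cast
  rw [mul_div_mul_left _ _ hc']

theorem ee_congr {a b N : ℤ} (h : N ∣ a - b) : ee a N = ee b N := by
  have : a = b + (a - b) := by ring
  rw [this, ee_add, ee_of_dvd h, mul_one]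

theorem ee_neg (a N : ℤ) : ee (-a) N = (starRingEnd ℂ) (ee a N) := by
  unfold ee
  rw [← Complex.exp_conj]
  congr 1
  simp only [map_mul, map_div₀, Complex.conj_I, Complex.conj_ofReal, map_intCast, map_ofNat]
  push_cast
  ring

/-- `a` is a positive multiple of `b` -/
def Pos (a b : ℂ) : Prop := ∃ r : ℝ, 0 < r ∧ a = r * b

theorem Pos.symm {a b : ℂ} (h : Pos a b) : Pos b a := by
  obtain ⟨r, hr, rfl⟩ := h
  refine ⟨r⁻¹, inv_pos.mpr hr, ?_⟩
  have : (r : ℂ) ≠ 0 := by exact_mod_cast hr.ne'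
  push_cast
  field_simp

theorem Pos.trans {a b c : ℂ} (h : Pos a b) (h' : Pos b c) : Pos a c := by
  obtain ⟨r, hr, rfl⟩ := h
  obtain ⟨s, hs, rfl⟩ := h'
  exact ⟨r * s, mul_pos hr hs, by push_cast; ring⟩

theorem Pos.mul {a b c d : ℂ} (h : Pos a b) (h' : Pos c d) : Pos (a * c) (b * d) := by
  obtain ⟨r, hr, rfl⟩ := h
  obtain ⟨s, hs, rfl⟩ := h'
  exact ⟨r * s, mul_pos hr hs, by push_cast; ring⟩

theorem Pos.refl (a : ℂ) : Pos a a := ⟨1, one_pos, by simp⟩

theorem Pos.cancel {a b : ℂ} (h : Pos (a * b) 1) (h' : Pos a 1) : Pos b 1 := by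
  have := (h'.symm.mul (Pos.refl b)).trans h
  simpa using this

theorem Pos.not_neg {s : ℂ} (h : Pos (s * -(starRingEnd ℂ) s) 1) : False := by
  obtain ⟨r, hr, h⟩ := h
  rw [mul_neg, Complex.mul_conj, mul_one] at h
  have h2 : -Complex.normSq s = r := by exact_mod_cast h
  have := Complex.normSq_nonneg s
  linarith

theorem sum_zero_of_shift {V : Type*} [AddCommGroup V] [Fintype V] (f : V → ℂ) (v : V) (κ : ℂ)
    (hκ : κ ≠ 1) (h : ∀ t, f (t + v) = κ * f t) : ∑ t, f t = 0 := by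
  have h1 : ∑ t, f (t + v) = ∑ t, f t := Fintype.sum_equiv (Equiv.addRight v) _ _ (fun _ => rfl)
  simp_rw [h, ← Finset.mul_sum] at h1
  have : (κ - 1) * ∑ t, f t = 0 := by rw [sub_mul, h1]; ring
  rcases mul_eq_zero.mp this with h2 | h2
  · exact absurd (sub_eq_zero.mp h2) hκ
  · exact h2

theorem avg_surj {V W : Type*} [AddCommGroup V] [Fintype V] [AddCommGroup W] [Fintype W]
    (φ : V →+ W) (hφ : Function.Surjective φ) (G : W → ℂ) :
    (∑ v, G (φ v)) / Fintype.card V = (∑ w, G w) / Fintype.card W := by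
  classical
  set k : ℕ := #{v | φ v = 0} with hk
  have hf : ∀ w, #{v | φ v = w} = k := fun w =>
    AddMonoidHom.card_fiber_eq_of_mem_range φ (hφ w) (hφ 0)
  have key : ∀ H : W → ℂ, ∑ v, H (φ v) = k * ∑ w, H w := by
    intro H
    rw [← Finset.sum_fiberwise (s := univ) (g := φ), Finset.mul_sum]
    refine Finset.sum_congr rfl fun w _ => ?_
    rw [Finset.sum_congr rfl (g := fun _ => H w) (fun v hv => by rw [(mem_filter.mp hv).2]),
      Finset.sum_const, hf, nsmul_eq_mul]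
  have h1 := key (fun _ => 1)
  simp only [sum_const, card_univ, nsmul_eq_mul, mul_one] at h1
  have hV : (Fintype.card V : ℂ) ≠ 0 := by exact_mod_cast Fintype.card_ne_zero
  have hW : (Fintype.card W : ℂ) ≠ 0 := by exact_mod_cast Fintype.card_ne_zero
  have hk0 : (k : ℂ) ≠ 0 := by
    intro h; rw [h, zero_mul] at h1; exact hV h1
  rw [key, h1]
  field_simp

section Av

variable {L : Type*} [AddCommGroup L]

/-- multiples of `N` -/
def mulSub (N : ℤ) (L : Type*) [AddCommGroup L] : AddSubgroup L :=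
  (zsmulAddGroupHom N : L →+ L).range

theorem mem_mulSub {N : ℤ} {z : L} : z ∈ mulSub N L ↔ ∃ w, N • w = z := by
  simp [mulSub]

/-- the quotient by the multiples of `N` -/
abbrev QQ (N : ℤ) (L : Type*) [AddCommGroup L] := L ⧸ mulSub N L

theorem finite_QQ [Module.Finite ℤ L] {N : ℤ} (hN : N ≠ 0) : Finite (QQ N L) := by
  have : Module.Finite ℤ (QQ N L) :=
    Module.Finite.of_surjective (QuotientAddGroup.mk' (mulSub N L)).toIntLinearMap
      (QuotientAddGroup.mk'_surjective _)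
  have h2 : IsAddTorsion (QQ N L) := by
    intro v
    obtain ⟨z, rfl⟩ := QuotientAddGroup.mk'_surjective _ v
    rw [isOfFinAddOrder_iff_zsmul_eq_zero]
    refine ⟨N, hN, ?_⟩
    rw [← map_zsmul, QuotientAddGroup.mk'_apply, QuotientAddGroup.eq_zero_iff, mem_mulSub]
    exact ⟨z, rfl⟩
  have : AddGroup.FG (QQ N L) := Module.Finite.iff_addGroup_fg.mp this
  exact AddCommGroup.finite_of_fg_isAddTorsion _ h2

/-- the average of a function that is periodic modulo `N` -/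
noncomputable def av (N : ℤ) (F : L → ℂ) : ℂ :=
  (∑ᶠ v : QQ N L, F v.out) / Nat.card (QQ N L)

/-- periodicity -/
def Per (N : ℤ) (F : L → ℂ) : Prop := ∀ z w, F (z + N • w) = F z

theorem Per.out {N : ℤ} {F : L → ℂ} (h : Per N F) (z : L) :
    F ((QuotientAddGroup.mk' (mulSub N L) z).out) = F z := by
  obtain ⟨⟨s, hs⟩, e⟩ := QuotientAddGroup.mk_out_eq_add (mulSub N L) z
  obtain ⟨w, rfl⟩ := mem_mulSub.mp hs
  rw [QuotientAddGroup.mk'_apply, e]
  exact h z w

theorem Per.of_dvd {N N' : ℤ} {F : L → ℂ} (h : Per N F) (hd : N ∣ N') : Per N' F := by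
  obtain ⟨k, rfl⟩ := hd
  intro z w
  rw [mul_smul]
  exact h z _

theorem Per.comp {L' : Type*} [AddCommGroup L'] {N : ℤ} {F : L → ℂ} (h : Per N F)
    (μ : L' →+ L) : Per N (fun u => F (μ u)) := by
  intro z w
  simp only [map_add, map_zsmul]
  exact h _ _

theorem av_eq [Module.Finite ℤ L] {N : ℤ} (hN : N ≠ 0) {V : Type*} [AddCommGroup V] [Fintype V]
    (π : L →+ V) (hπ : Function.Surjective π) (h0 : ∀ z, π (N • z) = 0) (G : V → ℂ) :
    av N (fun z => G (π z)) = (∑ v, G v) / Fintype.card V := by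
  have := finite_QQ (L := L) hN
  let _ : Fintype (QQ N L) := Fintype.ofFinite _
  let φ : QQ N L →+ V := QuotientAddGroup.lift (mulSub N L) π (by
    intro z hz
    obtain ⟨w, rfl⟩ := mem_mulSub.mp hz
    exact h0 w)
  have hφ : Function.Surjective φ := by
    intro v
    obtain ⟨z, rfl⟩ := hπ v
    exact ⟨QuotientAddGroup.mk z, rfl⟩
  rw [← avg_surj φ hφ G]
  unfold av
  rw [finsum_eq_sum_of_fintype, Nat.card_eq_fintype_card]
  congr 1
  refine Finset.sum_congr rfl fun v _ => ?_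
  conv_rhs => rw [← QuotientAddGroup.out_eq' v]
  rfl

theorem mk_smul (N : ℤ) (z : L) : QuotientAddGroup.mk' (mulSub N L) (N • z) = 0 := by
  rw [QuotientAddGroup.mk'_apply, QuotientAddGroup.eq_zero_iff, mem_mulSub]
  exact ⟨z, rfl⟩

theorem av_def {N : ℤ} [Fintype (QQ N L)] (F : L → ℂ) :
    av N F = (∑ v : QQ N L, F v.out) / Fintype.card (QQ N L) := by
  unfold av
  rw [finsum_eq_sum_of_fintype, Nat.card_eq_fintype_card]

/-- substitution and change of modulus -/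
theorem av_comp [Module.Finite ℤ L] {L' : Type*} [AddCommGroup L'] [Module.Finite ℤ L']
    {N N' : ℤ} (hN' : N' ≠ 0) (hd : N ∣ N') {F : L → ℂ} (hF : Per N F) (μ : L' →+ L)
    (hμ : ∀ z, ∃ u w, z = μ u + N • w) : av N' (fun u => F (μ u)) = av N F := by
  have hN : N ≠ 0 := by rintro rfl; exact hN' (zero_dvd_iff.mp hd)
  have := finite_QQ (L := L) hN
  let _ : Fintype (QQ N L) := Fintype.ofFinite _
  rw [av_def F, ← av_eq hN' ((QuotientAddGroup.mk' (mulSub N L)).comp μ)]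
  · congr 1
    funext u
    exact (hF.out _).symm
  · intro v
    obtain ⟨z, rfl⟩ := QuotientAddGroup.mk'_surjective _ v
    obtain ⟨u, w, rfl⟩ := hμ z
    exact ⟨u, by rw [map_add, mk_smul, add_zero]; rfl⟩
  · intro z
    obtain ⟨k, rfl⟩ := hd
    rw [AddMonoidHom.comp_apply, map_zsmul, mul_smul, mk_smul]

theorem av_mod [Module.Finite ℤ L] {N N' : ℤ} (hN' : N' ≠ 0) (hd : N ∣ N') {F : L → ℂ}
    (hF : Per N F) : av N' F = av N F :=
  av_comp hN' hd hF (AddMonoidHom.id L) (fun z => ⟨z, 0, by simp⟩)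

theorem av_one [Module.Finite ℤ L] {N : ℤ} (hN : N ≠ 0) : av N (fun _ : L => 1) = 1 := by
  have := finite_QQ (L := L) hN
  let _ : Fintype (QQ N L) := Fintype.ofFinite _
  rw [av_def]
  have : (Fintype.card (QQ N L) : ℂ) ≠ 0 := by exact_mod_cast Fintype.card_ne_zero
  simp [this]

theorem av_prod [Module.Finite ℤ L] {L' : Type*} [AddCommGroup L'] [Module.Finite ℤ L']
    {N : ℤ} (hN : N ≠ 0) {F : L → ℂ} {F' : L' → ℂ} (hF : Per N F) (hF' : Per N F') :
    av N (fun u : L × L' => F u.1 * F' u.2) = av N F * av N F' := by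
  have := finite_QQ (L := L) hN
  have := finite_QQ (L := L') hN
  let _ : Fintype (QQ N L) := Fintype.ofFinite _
  let _ : Fintype (QQ N L') := Fintype.ofFinite _
  have h := av_eq hN ((QuotientAddGroup.mk' (mulSub N L)).prodMap
    (QuotientAddGroup.mk' (mulSub N L')))
    ((QuotientAddGroup.mk'_surjective _).prodMap (QuotientAddGroup.mk'_surjective _))
    (fun z => by
      rw [AddMonoidHom.coe_prodMap, Prod.map_apply', Prod.smul_fst, Prod.smul_snd, mk_smul,
        mk_smul]; rfl)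
    (fun v => F v.1.out * F' v.2.out)
  rw [av_def F, av_def F', div_mul_div_comm, Finset.sum_mul_sum, ← Nat.cast_mul,
    ← Fintype.card_prod, ← Fintype.sum_prod_type', ← h]
  congr 1
  funext u
  rw [AddMonoidHom.coe_prodMap, Prod.map_fst, Prod.map_snd, hF.out, hF'.out]

theorem av_pi {ι : Type*} [Fintype ι] [DecidableEq ι] [Module.Finite ℤ L]
    {N : ℤ} (hN : N ≠ 0) {F : ι → L → ℂ} (hF : ∀ j, Per N (F j)) :
    av N (fun u : ι → L => ∏ j, F j (u j)) = ∏ j, av N (F j) := by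
  have := finite_QQ (L := L) hN
  let _ : Fintype (QQ N L) := Fintype.ofFinite _
  have h := av_eq hN ((QuotientAddGroup.mk' (mulSub N L)).compLeft ι)
    (Function.Surjective.comp_left (QuotientAddGroup.mk'_surjective _))
    (fun z => by
      funext j
      exact mk_smul N (z j))
    (fun v => ∏ j, F j (v j).out)
  simp_rw [av_def]
  rw [Finset.prod_div_distrib, Finset.prod_univ_sum, Fintype.piFinset_univ, ← Nat.cast_prod,
    ← Fintype.card_pi, ← h]
  congr 1
  funext u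
  refine Finset.prod_congr rfl fun j _ => ?_
  exact ((hF j).out _).symm

theorem av_int {N : ℕ} (hN : N ≠ 0) {F : ℤ → ℂ} (hF : Per N F) :
    av N F = (∑ z ∈ range N, F z) / N := by
  have : NeZero N := ⟨hN⟩
  have h := av_eq (N := N) (by exact_mod_cast hN) (Int.castAddHom (ZMod N))
    (ZMod.intCast_surjective) (fun z => by simp) (fun v => F v.val)
  rw [ZMod.card] at h
  have h2 : ∑ v : ZMod N, F v.val = ∑ z ∈ range N, F z := by
    refine Finset.sum_bij (fun v _ => v.val) (fun v _ => mem_range.mpr (ZMod.val_lt v))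
      (fun a _ b _ h => ZMod.val_injective N h)
      (fun z hz => ⟨z, mem_univ _, ZMod.val_cast_of_lt (mem_range.mp hz)⟩) (fun _ _ => rfl)
  rw [← h2, ← h]
  congr 1
  funext z
  have e : z = ((z : ZMod N).val : ℤ) + (N : ℤ) • (z / N) := by
    rw [ZMod.val_intCast, smul_eq_mul, Int.emod_add_mul_ediv]
  conv_lhs => rw [e]
  exact hF _ _

/-- only the points of the sublattice contribute -/
theorem av_sub [Module.Finite ℤ L] {L' : Type*} [AddCommGroup L'] [Module.Finite ℤ L']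
    {N m : ℤ} (hN : N ≠ 0) {F : L → ℂ} (hF : Per N F) (χ : L → L → ℂ)
    (h1 : ∀ z w, F (z + m • w) = χ z w * F z) (h2 : ∀ z t w, χ (z + m • t) w = χ z w)
    (μ : L' →+ L) (ha : ∀ w, ∃ u v, m • w = μ u + N • v)
    (hb : ∀ z, (∀ w, χ z w = 1) → ∃ u v, z = μ u + N • v) :
    Pos (av N (fun u => F (μ u))) (av N F) := by
  classical
  have := finite_QQ (L := L) hN
  let _ : Fintype (QQ N L) := Fintype.ofFinite _
  set mk := QuotientAddGroup.mk' (mulSub N L) with hmk
  set R := (mk.comp μ).range with hR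
  let f : QQ N L → ℂ := fun v => F v.out
  have hf : ∀ z, f (mk z) = F z := fun z => hF.out z
  have hmem : ∀ z, (∃ u v, z = μ u + N • v) → mk z ∈ R := by
    rintro z ⟨u, v, rfl⟩
    exact ⟨u, by rw [map_add, mk_smul, add_zero]; rfl⟩
  have h := av_eq (V := R) hN (mk.comp μ).rangeRestrict (AddMonoidHom.rangeRestrict_surjective _)
    (fun z => by
      ext
      change mk (μ (N • z)) = 0
      rw [map_zsmul, mk_smul])
    (fun v => f v)
  have e1 : (fun u => F (μ u)) = fun u => f ((mk.comp μ).rangeRestrict u) := by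
    funext u
    exact (hf _).symm
  have hz : ∑ v ∈ univ.filter (fun v => v ∉ R), f v = 0 := by
    have s1 : ∀ t : QQ N L, ∑ v ∈ univ.filter (fun v => v ∉ R), f (v + m • t) =
        ∑ v ∈ univ.filter (fun v => v ∉ R), f v := by
      intro t
      have ht : m • t ∈ R := by
        obtain ⟨w, rfl⟩ := QuotientAddGroup.mk'_surjective _ t
        rw [← map_zsmul]
        exact hmem _ (ha w)
      refine Finset.sum_equiv (Equiv.addRight (m • t)) (fun v => ?_) (fun _ _ => rfl)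
      simp only [mem_filter, mem_univ, true_and, Equiv.coe_addRight]
      rw [R.add_mem_cancel_right ht]
    have s2 : ∀ v ∈ univ.filter (fun v => v ∉ R), ∑ t : QQ N L, f (v + m • t) = 0 := by
      intro v hv
      obtain ⟨z, rfl⟩ := QuotientAddGroup.mk'_surjective _ v
      have hz : ¬ ∀ w, χ z w = 1 := fun hh => (mem_filter.mp hv).2 (hmem z (hb z hh))
      push Not at hz
      obtain ⟨w, hw⟩ := hz
      refine sum_zero_of_shift _ (mk w) _ hw fun t => ?_
      obtain ⟨s, rfl⟩ := QuotientAddGroup.mk'_surjective _ t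
      rw [← hmk, ← map_add, ← map_zsmul, ← map_zsmul, ← map_add, ← map_add, hf, hf, smul_add,
        ← add_assoc, h1, h2]
    have s3 : ∑ t : QQ N L, ∑ v ∈ univ.filter (fun v => v ∉ R), f (v + m • t) = 0 := by
      rw [Finset.sum_comm]
      exact Finset.sum_eq_zero s2
    simp_rw [s1] at s3
    rw [sum_const, card_univ, nsmul_eq_mul] at s3
    rcases mul_eq_zero.mp s3 with h3 | h3
    · exact absurd h3 (by exact_mod_cast Fintype.card_ne_zero)
    · exact h3
  have hs : ∑ v, f v = ∑ v : R, f v := by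
    rw [← Finset.sum_filter_add_sum_filter_not univ (fun v => v ∈ R), hz, add_zero]
    exact Finset.sum_subtype _ (by simp) _
  have hV : (0 : ℝ) < Fintype.card (QQ N L) := by exact_mod_cast Fintype.card_pos
  have hW : (0 : ℝ) < Fintype.card R := by exact_mod_cast Fintype.card_pos
  refine ⟨Fintype.card (QQ N L) / Fintype.card R, div_pos hV hW, ?_⟩
  rw [e1, h, av_def F]
  change _ = _ * ((∑ v, f v) / _)
  rw [hs]
  have hV' : (Fintype.card (QQ N L) : ℂ) ≠ 0 := by exact_mod_cast hV.ne'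
  have hW' : (Fintype.card R : ℂ) ≠ 0 := by exact_mod_cast hW.ne'
  push_cast
  field_simp

end Av

section Quad

variable {L : Type*} [AddCommGroup L]

/-- the exponential of a quadratic form -/
noncomputable def qf (B : L →ₗ[ℤ] L →ₗ[ℤ] ℤ) (N : ℤ) (z : L) : ℂ := ee (B z z) N

/-- the normalised Gauss sum -/
noncomputable def gs (B : L →ₗ[ℤ] L →ₗ[ℤ] ℤ) (N : ℤ) : ℂ := av N (qf B N)

theorem per_qf (B : L →ₗ[ℤ] L →ₗ[ℤ] ℤ) (N : ℤ) : Per N (qf B N) := by
  intro z w
  refine ee_congr ⟨B z w + B w z + N * B w w, ?_⟩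
  simp only [map_add, map_zsmul, LinearMap.add_apply, LinearMap.smul_apply, smul_eq_mul]
  ring

theorem gs_sub [Module.Finite ℤ L] {L' : Type*} [AddCommGroup L'] [Module.Finite ℤ L']
    (B : L →ₗ[ℤ] L →ₗ[ℤ] ℤ) (hB : ∀ z w, B z w = B w z) {m : ℤ} (hm : m ≠ 0)
    (μ : L' →+ L) (ha : ∀ w, ∃ u v, m • w = μ u + m ^ 2 • v)
    (hb : ∀ z, (∀ w, m ∣ 2 * B z w) → ∃ u v, z = μ u + m ^ 2 • v) :
    Pos (av (m ^ 2) (fun u => qf B (m ^ 2) (μ u))) (gs B (m ^ 2)) := by
  refine av_sub (m := m) (pow_ne_zero 2 hm) (per_qf B _) (fun z w => ee (2 * B z w) m)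
    (fun z w => ?_) (fun z t w => ?_) μ ha
    (fun z hz => hb z fun w => dvd_of_ee hm (hz w))
  · unfold qf
    rw [← ee_mul hm (2 * B z w) m, ← sq, ← ee_add]
    refine ee_congr ⟨B w w, ?_⟩
    simp only [map_add, map_zsmul, LinearMap.add_apply, LinearMap.smul_apply, smul_eq_mul]
    rw [hB w z]
    ring
  · refine ee_congr ⟨2 * B t w, ?_⟩
    simp only [map_add, map_zsmul, LinearMap.add_apply, LinearMap.smul_apply, smul_eq_mul]
    ring

theorem gs_sub' [Module.Finite ℤ L] [IsAddTorsionFree L] {L' : Type*} [AddCommGroup L']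
    [Module.Finite ℤ L']
    (B : L →ₗ[ℤ] L →ₗ[ℤ] ℤ) (hB : ∀ z w, B z w = B w z) {m m' : ℤ} (hm : m ≠ 0)
    (hc : IsCoprime m' m) (μ : L' →+ L) {Δ E : ℤ} (hd : Δ * E ∣ m * m')
    (ha : ∀ w, ∃ u v, E • w = μ u + m ^ 2 • v)
    (hb : ∀ z, (∀ w, m ∣ 2 * B z w) → ∃ v, Δ • z = m • v) :
    Pos (av (m ^ 2) (fun u => qf B (m ^ 2) (μ u))) (gs B (m ^ 2)) := by
  obtain ⟨e, u, he, hu, hE⟩ := exists_dvd_and_dvd_of_dvd_mul hd
  have hc2 : IsCoprime u (m ^ 2) := (hc.of_isCoprime_of_dvd_left hu).pow_right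
  obtain ⟨a, b, hab⟩ := hc2
  obtain ⟨m1, hm1⟩ := he
  have he0 : e ≠ 0 := by rintro rfl; simp at hm1; exact hm hm1
  have key : ∀ z, (∃ s v, u • z = μ s + m ^ 2 • v) → ∃ s v, z = μ s + m ^ 2 • v := by
    rintro z ⟨s, v, h⟩
    refine ⟨a • s, a • v + b • z, ?_⟩
    calc z = (a * u + b * m ^ 2) • z := by rw [hab, one_smul]
      _ = a • (u • z) + m ^ 2 • (b • z) := by module
      _ = _ := by rw [h, map_zsmul]; module
  refine gs_sub B hB hm μ (fun w => key _ ?_) (fun z hz => key _ ?_)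
  · obtain ⟨s, v, h⟩ := ha ((m1 * Δ) • w)
    refine ⟨s, v, ?_⟩
    rw [← h, smul_smul, smul_smul]
    congr 1
    rw [hm1]
    linear_combination (-m1) * hE
  · obtain ⟨v, hv⟩ := hb z hz
    obtain ⟨s, v', h⟩ := ha (m1 • v)
    refine ⟨s, v', ?_⟩
    rw [← h]
    apply zsmul_right_injective he0
    change e • u • z = e • E • m1 • v
    calc e • u • z = E • Δ • z := by rw [smul_smul, smul_smul, ← hE, mul_comm]
      _ = E • m • v := by rw [hv]
      _ = _ := by rw [hm1]; module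

theorem gs_crt [Module.Finite ℤ L] (B : L →ₗ[ℤ] L →ₗ[ℤ] ℤ) {m₁ m₂ : ℤ} (h₁ : m₁ ≠ 0)
    (h₂ : m₂ ≠ 0) (hc : IsCoprime m₁ m₂) :
    gs B ((m₁ * m₂) ^ 2) = gs B (m₁ ^ 2) * gs B (m₂ ^ 2) := by
  have hN : (m₁ * m₂) ^ 2 ≠ 0 := pow_ne_zero 2 (mul_ne_zero h₁ h₂)
  have sur : ∀ {a b : ℤ}, IsCoprime a b → ∀ z : L, ∃ u w,
      z = (zsmulAddGroupHom a : L →+ L) u + b • w := by
    rintro a b ⟨s, t, hst⟩ z
    refine ⟨s • z, t • z, ?_⟩
    calc z = (s * a + t * b) • z := by rw [hst, one_smul]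
      _ = _ := by rw [zsmulAddGroupHom_apply]; module
  let μ : L × L →+ L := (zsmulAddGroupHom (m₂ ^ 2) : L →+ L).coprod (zsmulAddGroupHom (m₁ ^ 2))
  have e1 := av_comp hN dvd_rfl (per_qf B _) μ (fun z => by
    obtain ⟨u, w, h⟩ := sur (hc.symm.pow (m := 2) (n := 2)) z
    exact ⟨(u, w), 0, by rw [smul_zero, add_zero]; exact h⟩)
  have d1 : m₁ ^ 2 ∣ (m₁ * m₂) ^ 2 := ⟨m₂ ^ 2, by ring⟩
  have d2 : m₂ ^ 2 ∣ (m₁ * m₂) ^ 2 := ⟨m₁ ^ 2, by ring⟩
  have e2 := av_comp hN d1 (per_qf B _) (zsmulAddGroupHom m₂ : L →+ L)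
    (sur (hc.symm.pow_right (n := 2)))
  have e3 := av_comp hN d2 (per_qf B _) (zsmulAddGroupHom m₁ : L →+ L)
    (sur (hc.pow_right (n := 2)))
  unfold gs
  rw [← e1, ← e2, ← e3, ← av_prod hN (((per_qf B _).of_dvd d1).comp _)
    (((per_qf B _).of_dvd d2).comp _)]
  congr 1
  funext u
  unfold qf
  rw [← ee_mul (pow_ne_zero 2 h₂) _ (m₁ ^ 2), ← ee_mul (pow_ne_zero 2 h₁) _ (m₂ ^ 2),
    mul_comm (m₂ ^ 2) (m₁ ^ 2), ← mul_pow, ← ee_add]
  refine ee_congr ⟨B u.1 u.2 + B u.2 u.1, ?_⟩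
  simp only [μ, AddMonoidHom.coprod_apply, zsmulAddGroupHom_apply, map_add, map_zsmul,
    LinearMap.add_apply, LinearMap.smul_apply, smul_eq_mul]
  ring

end Quad

end PF

end Pool.Agent.MP_14ad9d_nt
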