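import Pool.Agent.MP_14ad9d_nt.PF1
import Pool.Agent.MP_14ad9d_nt.Gauss4

set_option autoImplicit false

open NumberField

namespace Pool.Agent.MP_14ad9d_nt

namespace PF

open Finset

theorem bil_diag {R L ι : Type*} [CommRing R] [AddCommGroup L] [Module R L] [Fintype ι]
    [DecidableEq ι] (B : L →ₗ[R] L →ₗ[R] R) (b : ι → L)
    (h : ∀ j k, j ≠ k → B (b j) (b k) = 0) (u : ι → R) (k : ι) :
    B (∑ j, u j • b j) (b k) = u k * B (b k) (b k) := by
  rw [map_sum, LinearMap.sum_apply, Finset.sum_eq_single k]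
  · simp
  · intro j _ hj
    simp [h j k hj]
  · simp

theorem bil_diag2 {R L ι : Type*} [CommRing R] [AddCommGroup L] [Module R L] [Fintype ι]
    [DecidableEq ι] (B : L →ₗ[R] L →ₗ[R] R) (b : ι → L)
    (h : ∀ j k, j ≠ k → B (b j) (b k) = 0) (u : ι → R) :
    B (∑ j, u j • b j) (∑ j, u j • b j) = ∑ j, B (b j) (b j) * u j ^ 2 := by
  rw [map_sum (B _)]
  refine Finset.sum_congr rfl fun k _ => ?_
  rw [map_smul, bil_diag B b h, smul_eq_mul]
  ring

theorem exists_orth_sig {V : Type*} [AddCommGroup V] [Module ℚ V] [FiniteDimensional ℚ V]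
    (B : LinearMap.BilinForm ℚ V) (hs : ∀ z w, B z w = B w z)
    (hn : ∀ z, (∀ w, B z w = 0) → z = 0) (J : V ≃ₗ[ℚ] V) (hJ : ∀ z, B (J z) (J z) = - B z z) :
    ∃ v : Module.Basis (Fin (Module.finrank ℚ V)) ℚ V, (∀ j k, j ≠ k → B (v j) (v k) = 0) ∧
      (∀ j, B (v j) (v j) ≠ 0) ∧
      {j | 0 < B (v j) (v j)}.ncard = {j | B (v j) (v j) < 0}.ncard := by
  obtain ⟨v, hv⟩ := LinearMap.BilinForm.exists_orthogonal_basis (B := B) ⟨fun z w => hs z w⟩
  refine ⟨v, hv, hv.not_isOrtho_basis_self_of_separatingLeft hn, ?_⟩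
  let Q : QuadraticForm ℚ V := B.toQuadraticMap
  have e1 : QuadraticMap.Equivalent Q
      (QuadraticMap.weightedSumSquares ℚ fun j => B (v j) (v j)) := by
    refine ⟨⟨v.equivFun, fun z => ?_⟩⟩
    change _ = B z z
    conv_rhs => rw [← v.sum_equivFun z]
    rw [bil_diag2 B v hv, QuadraticMap.weightedSumSquares_apply]
    refine Finset.sum_congr rfl fun j _ => ?_
    simp [sq]
  have e2 : QuadraticMap.Equivalent Q (-Q) := by
    refine ⟨⟨J, fun z => ?_⟩⟩
    change -B (J z) (J z) = B z z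
    rw [hJ, neg_neg]
  rw [← QuadraticForm.sigPos_of_equiv_weightedSumSquares e1,
    ← QuadraticForm.sigNeg_of_equiv_weightedSumSquares e1, e2.sigPos_eq, sigPos_neg]

theorem av_sq_pos {a m : ℤ} (ha : 0 < a) (hm : m ≠ 0) (hd : 4 * a ∣ m ^ 2) (s : ℤ) :
    ∃ N : ℕ, 0 < N ∧ 4 ∣ N ∧
      av (m ^ 2) (fun u : ℤ => ee (s * a * u ^ 2) (m ^ 2)) =
        (∑ z ∈ range N, ee (s * z ^ 2) N) / N := by
  obtain ⟨k, hk⟩ := hd
  have hk0 : 0 < k := by
    have : 0 < m ^ 2 := by positivity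
    rw [hk] at this
    by_contra hh
    push Not at hh
    nlinarith
  obtain ⟨k, rfl⟩ := Int.eq_ofNat_of_zero_le hk0.le
  have hk1 : 0 < k := by exact_mod_cast hk0
  refine ⟨4 * k, by positivity, dvd_mul_right _ _, ?_⟩
  have hP : Per ((4 * k : ℕ) : ℤ) (fun u : ℤ => ee (s * u ^ 2) (4 * k : ℕ)) := by
    intro z w
    refine ee_congr ⟨s * (2 * z * w + (4 * k : ℕ) * w ^ 2), ?_⟩
    rw [smul_eq_mul]
    ring
  rw [← av_int (by positivity) hP, ← av_mod (pow_ne_zero 2 hm) ⟨a, by rw [hk]; push_cast; ring⟩ hP]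
  congr 1
  funext u
  rw [← ee_mul ha.ne' (s * u ^ 2)]
  congr 1
  · ring
  · rw [hk]; push_cast; ring

theorem gauss_ee (N : ℕ) (hN : 0 < N) (h4 : 4 ∣ N) :
    Pos ((∑ z ∈ range N, ee (1 * z ^ 2) N) / N) (1 + Complex.I) := by
  have h := gauss_four N hN h4
  refine ⟨Real.sqrt N / N, by positivity, ?_⟩
  have e : ∑ z ∈ range N, ee (1 * z ^ 2) N = (1 + Complex.I) * (Real.sqrt N : ℂ) := by
    rw [← h]
    refine Finset.sum_congr rfl fun z _ => ?_
    simp [ee]
  rw [e]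
  push_cast
  ring

theorem Pos.conj {a b : ℂ} (h : Pos a b) : Pos ((starRingEnd ℂ) a) ((starRingEnd ℂ) b) := by
  obtain ⟨r, hr, rfl⟩ := h
  exact ⟨r, hr, by simp⟩

theorem av_sq {a m : ℤ} (ha : a ≠ 0) (hm : m ≠ 0) (hd : 4 * a ∣ m ^ 2) :
    Pos (av (m ^ 2) (fun u : ℤ => ee (a * u ^ 2) (m ^ 2)))
      (if 0 < a then 1 + Complex.I else 1 - Complex.I) := by
  split_ifs with h
  · obtain ⟨N, hN, h4, e⟩ := av_sq_pos h hm hd 1
    simp only [one_mul] at e
    rw [e]
    simpa using gauss_ee N hN h4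
  · have h' : 0 < -a := by omega
    obtain ⟨N, hN, h4, e⟩ := av_sq_pos h' hm (by rwa [mul_neg, neg_dvd]) (-1)
    simp only [neg_mul, one_mul, neg_neg, ee_neg] at e
    rw [e]
    simpa [sub_eq_add_neg] using (gauss_ee N hN h4).conj

theorem Pos.prod {ι : Type*} (s : Finset ι) {f g : ι → ℂ} (h : ∀ j ∈ s, Pos (f j) (g j)) :
    Pos (∏ j ∈ s, f j) (∏ j ∈ s, g j) := by
  classical
  induction s using Finset.induction_on with
  | empty => simpa using Pos.refl 1
  | insert a s ha ih =>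
    rw [prod_insert ha, prod_insert ha]
    exact (h a (mem_insert_self _ _)).mul (ih fun j hj => h j (mem_insert_of_mem hj))

theorem av_diag {n : ℕ} (a : Fin n → ℤ) (ha : ∀ j, a j ≠ 0)
    (hs : {j | 0 < a j}.ncard = {j | a j < 0}.ncard) {m : ℤ} (hm : m ≠ 0)
    (hd : ∀ j, 4 * a j ∣ m ^ 2) :
    Pos (av (m ^ 2) (fun u : Fin n → ℤ => ∏ j, ee (a j * u j ^ 2) (m ^ 2))) 1 := by
  rw [av_pi (F := fun j (u : ℤ) => ee (a j * u ^ 2) (m ^ 2)) (pow_ne_zero 2 hm) (fun j z w =>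
    ee_congr ⟨a j * (2 * z * w + m ^ 2 * w ^ 2), by rw [smul_eq_mul]; ring⟩)]
  refine (Pos.prod univ fun j _ => av_sq (ha j) hm (hd j)).trans ?_
  rw [Finset.prod_ite, prod_const, prod_const]
  have e : #{j | ¬ 0 < a j} = #{j | 0 < a j} := by
    rw [← Set.ncard_coe_finset, ← Set.ncard_coe_finset, coe_filter, coe_filter]
    simp only [mem_univ, true_and]
    rw [hs]
    congr 1
    ext j
    have := ha j
    simp only [Set.mem_ofPred_eq]
    omega
  rw [e, ← mul_pow]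
  refine ⟨2 ^ #{j | 0 < a j}, by positivity, ?_⟩
  have : (1 + Complex.I) * (1 - Complex.I) = 2 := by
    linear_combination (-1 : ℂ) * Complex.I_mul_I
  rw [this]
  simp

theorem ee_sum {ι : Type*} (s : Finset ι) (f : ι → ℤ) (N : ℤ) :
    ee (∑ j ∈ s, f j) N = ∏ j ∈ s, ee (f j) N := by
  classical
  induction s using Finset.induction_on with
  | empty => simp [ee_zero]
  | insert a s ha ih => rw [sum_insert ha, prod_insert ha, ee_add, ih]

variable {M : Type} [Field M] [NumberField M]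

/-- the trace -/
noncomputable abbrev tr (z : 𝓞 M) : ℤ := Algebra.trace ℤ (𝓞 M) z

/-- the twisted trace form -/
noncomputable def tb (c : 𝓞 M) : 𝓞 M →ₗ[ℤ] 𝓞 M →ₗ[ℤ] ℤ :=
  (Algebra.traceForm ℤ (𝓞 M)).comp (LinearMap.mulLeft ℤ c) LinearMap.id

omit [NumberField M] in
theorem tb_apply (c z w : 𝓞 M) : tb c z w = tr (c * z * w) := rfl

omit [NumberField M] in
theorem tb_symm (c z w : 𝓞 M) : tb c z w = tb c w z := by
  rw [tb_apply, tb_apply, mul_right_comm]

theorem disc_dvd {k : ℤ} {z : 𝓞 M} (h : ∀ w, k ∣ tr (z * w)) :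
    ∃ v : 𝓞 M, (discr M : 𝓞 M) * z = k * v := by
  classical
  set b := RingOfIntegers.basis M
  have h1 := Algebra.traceMatrix_of_basis_mulVec b z
  choose s hs using fun j => h (b j)
  have h2 : (Algebra.traceMatrix ℤ b).det • b.equivFun z =
      k • (Algebra.traceMatrix ℤ b).adjugate.mulVec s := by
    rw [← Matrix.mulVec_smul, ← Matrix.one_mulVec (b.equivFun z), ← Matrix.smul_mulVec,
      ← Matrix.adjugate_mul, ← Matrix.mulVec_mulVec, h1]
    congr 1
    funext j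
    exact hs j
  refine ⟨b.equivFun.symm ((Algebra.traceMatrix ℤ b).adjugate.mulVec s), ?_⟩
  rw [← zsmul_eq_mul, ← zsmul_eq_mul, ← map_zsmul, ← h2, map_zsmul, LinearEquiv.symm_apply_apply]
  rfl

theorem exists_int_mul {c : 𝓞 M} (hc : c ≠ 0) : ∃ (n : ℤ) (c' : 𝓞 M), n ≠ 0 ∧ c * c' = n := by
  obtain ⟨c', h⟩ := Ideal.mem_span_singleton'.mp (Ideal.absNorm_mem (Ideal.span {c}))
  refine ⟨Ideal.absNorm (Ideal.span {c}), c', ?_, by rw [mul_comm, h]; simp⟩
  have : Ideal.absNorm (Ideal.span {c}) ≠ 0 := by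
    rw [Ne, Ideal.absNorm_eq_zero_iff, Ideal.span_singleton_eq_bot]
    exact hc
  exact_mod_cast this

theorem exists_diag (i : M) (hi : i ^ 2 = -1) {c : 𝓞 M} (hc : c ≠ 0) :
    ∃ (n : ℕ) (b : Fin n → 𝓞 M), (∀ j k, j ≠ k → tb c (b j) (b k) = 0) ∧
      (∀ j, tb c (b j) (b j) ≠ 0) ∧
      {j | 0 < tb c (b j) (b j)}.ncard = {j | tb c (b j) (b j) < 0}.ncard ∧
      ∀ w : 𝓞 M, ∃ u : Fin n → ℤ, (∏ j, tb c (b j) (b j)) • w = ∑ j, u j • b j := by
  classical
  let B : LinearMap.BilinForm ℚ M :=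
    (Algebra.traceForm ℚ M).comp (LinearMap.mulLeft ℚ (c : M)) LinearMap.id
  have hB : ∀ z w, B z w = Algebra.trace ℚ M ((c : M) * z * w) := fun _ _ => rfl
  have hc' : (c : M) ≠ 0 := by exact_mod_cast hc
  have hi0 : i ≠ 0 := by rintro rfl; simp at hi
  have hBt : ∀ z w : 𝓞 M, (tb c z w : ℚ) = B z w := by
    intro z w
    rw [tb_apply, hB, tr, Algebra.coe_trace_int]
    simp
  obtain ⟨v, h1, h2, h3⟩ := exists_orth_sig B (fun z w => by rw [hB, hB, mul_right_comm])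
    (fun z hz => by
      have := (traceForm_nondegenerate ℚ M).1 ((c : M) * z) hz
      exact (mul_eq_zero.mp this).resolve_left hc')
    (LinearEquiv.ofBijective (LinearMap.mulLeft ℚ i) (by
      constructor
      · exact mul_right_injective₀ hi0
      · exact mul_left_surjective₀ hi0))
    (fun z => by
      rw [hB, hB, ← map_neg]
      congr 1
      change (c : M) * (i * z) * (i * z) = _
      linear_combination ((c : M) * z * z) * hi)
  obtain ⟨r, hr, hint⟩ := exists_integral_multiples ℤ ℚ (univ.image v)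
  let b : Fin (Module.finrank ℚ M) → 𝓞 M := fun j => ⟨r • v j, hint _ (by simp)⟩
  have hb : ∀ j, (b j : M) = (r : ℚ) • v j := fun j => by
    change r • v j = _
    rw [Int.cast_smul_eq_zsmul]
  have hr' : (r : ℚ) ≠ 0 := by exact_mod_cast hr
  have hr2 : (0 : ℚ) < r * r := mul_self_pos.mpr hr'
  have hbb : ∀ j k, (tb c (b j) (b k) : ℚ) = r * r * B (v j) (v k) := by
    intro j k
    rw [hBt, hb, hb]
    simp only [map_smul, LinearMap.smul_apply, smul_eq_mul]
    ring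
  have h2' : ∀ j, tb c (b j) (b j) ≠ 0 := by
    intro j h
    have := hbb j j
    rw [h, Int.cast_zero] at this
    exact mul_ne_zero hr2.ne' (h2 j) this.symm
  refine ⟨_, b, fun j k hjk => ?_, h2', ?_, fun w => ?_⟩
  · have := hbb j k
    rw [h1 j k hjk, mul_zero] at this
    exact_mod_cast this
  · convert h3 using 4 with j j
    · rw [← Int.cast_pos (R := ℚ), hbb, mul_pos_iff_of_pos_left hr2]
    · rw [← Int.cast_lt_zero (R := ℚ), hbb, ← neg_pos, ← mul_neg, mul_pos_iff_of_pos_left hr2,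
        neg_pos]
  · refine ⟨fun j => tb c w (b j) * ∏ k ∈ univ.erase j, tb c (b k) (b k), ?_⟩
    apply RingOfIntegers.coe_injective
    rw [map_zsmul, map_sum]
    simp only [map_zsmul]
    conv_lhs => rw [← v.sum_equivFun (algebraMap (𝓞 M) M w), Finset.smul_sum]
    refine Finset.sum_congr rfl fun j _ => ?_
    have e1 : (tb c w (b j) : ℚ) = r * (v.equivFun w j * B (v j) (v j)) := by
      rw [hBt, hb, map_smul, smul_eq_mul, ← bil_diag B v h1, v.sum_equivFun]
    change _ = _ • (b j : M)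
    rw [hb, ← Int.cast_smul_eq_zsmul ℚ, ← Int.cast_smul_eq_zsmul ℚ, smul_smul, smul_smul,
      ← Finset.mul_prod_erase univ _ (mem_univ j), Int.cast_mul, Int.cast_mul, e1, hbb]
    congr 1
    ring

/-- global positivity -/
theorem gs_global (i : M) (hi : i ^ 2 = -1) {c : 𝓞 M} (hc : c ≠ 0) :
    ∃ E : ℤ, E ≠ 0 ∧ ∀ m : ℤ, m ≠ 0 → E ∣ m → Pos (gs (tb c) (m ^ 2)) 1 := by
  classical
  obtain ⟨n, b, h1, h2, h3, h4⟩ := exists_diag i hi hc
  obtain ⟨nc, c', hnc, hcc⟩ := exists_int_mul hc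
  have hE : ∏ j, tb c (b j) (b j) ≠ 0 := Finset.prod_ne_zero_iff.mpr fun j _ => h2 j
  refine ⟨(2 * discr M * nc) * (2 * ∏ j, tb c (b j) (b j)),
    mul_ne_zero (mul_ne_zero (mul_ne_zero two_ne_zero (discr_ne_zero M)) hnc)
      (mul_ne_zero two_ne_zero hE), fun m hm hd => ?_⟩
  let μ : (Fin n → ℤ) →+ 𝓞 M := (Fintype.linearCombination ℤ b).toAddMonoidHom
  have hμ : ∀ u, μ u = ∑ j, u j • b j := fun u => rfl
  have h := gs_sub' (tb c) (tb_symm c) hm isCoprime_one_left μ (hd.trans (dvd_mul_right m 1))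
    (fun w => by
      obtain ⟨u, hu⟩ := h4 (2 • w)
      refine ⟨u, 0, ?_⟩
      rw [hμ, ← hu]
      module)
    (fun z hz => by
      obtain ⟨v, hv⟩ := disc_dvd (k := m) (z := 2 * c * z) (fun w => by
        have := hz w
        rw [tb_apply, two_mul, tr, ← map_add] at this
        convert this using 2
        ring)
      refine ⟨v * c', ?_⟩
      rw [zsmul_eq_mul, zsmul_eq_mul]
      push_cast
      linear_combination c' * hv - (2 * discr M * z) * hcc)
  refine h.symm.trans ?_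
  have := av_diag (fun j => tb c (b j) (b j)) h2 h3 hm (fun j => by
    refine Dvd.dvd.trans ?_ (hd.trans (dvd_pow_self m two_ne_zero))
    obtain ⟨t, ht⟩ := Finset.dvd_prod_of_mem (fun j => tb c (b j) (b j)) (mem_univ j)
    exact ⟨discr M * nc * t, by rw [ht]; ring⟩)
  convert this using 2
  funext u
  rw [qf, hμ, bil_diag2 _ _ h1, ee_sum]

end PF

end Pool.Agent.MP_14ad9d_nt
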