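import Pool.Agent.MP_14ad9d_nt.PF2

set_option autoImplicit false

open NumberField

namespace Pool.Agent.MP_14ad9d_nt

namespace PF

open Finset

theorem sum_nonsq {F : Type*} [Field F] [Fintype F] (hF : ringChar F ≠ 2) {x : F}
    (hx : ¬ IsSquare x) (φ : F → ℂ) (h0 : ∑ v, φ v = 0) :
    ∑ v, φ (x * v ^ 2) = - ∑ v, φ (v ^ 2) := by
  classical
  have key : ∀ ψ : F → ℂ, ∑ v, ψ (v ^ 2) = ∑ a, ((quadraticChar F a : ℂ) + 1) * ψ a := by
    intro ψ
    rw [← Finset.sum_fiberwise (s := univ) (g := fun v : F => v ^ 2)]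
    refine Finset.sum_congr rfl fun a _ => ?_
    rw [Finset.sum_congr rfl (g := fun _ => ψ a) (fun v hv => by rw [(mem_filter.mp hv).2]),
      Finset.sum_const, nsmul_eq_mul]
    have h := quadraticChar_card_sqrts hF a
    rw [Set.toFinset_ofPred] at h
    congr 1
    exact_mod_cast h
  have hx0 : x ≠ 0 := by rintro rfl; exact hx IsSquare.zero
  have hq : quadraticChar F x = -1 := quadraticChar_neg_one_iff_not_isSquare.mpr hx
  rw [key (fun a => φ (x * a)), key φ,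
    ← Fintype.sum_equiv (Equiv.mulLeft₀ x hx0) (fun a => ((quadraticChar F (x * a) : ℂ) + 1) *
      φ (x * a)) (fun a => ((quadraticChar F a : ℂ) + 1) * φ a) (fun _ => rfl),
    eq_neg_iff_add_eq_zero, ← Finset.sum_add_distrib]
  rw [← Fintype.sum_equiv (Equiv.mulLeft₀ x hx0) (fun a => φ (x * a)) _ (fun _ => rfl)] at h0
  rw [← mul_zero (2 : ℂ), ← h0, Finset.mul_sum]
  refine Finset.sum_congr rfl fun a _ => ?_
  rw [map_mul, hq]
  push_cast
  ring

variable {M : Type} [Field M] [NumberField M]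

/-- the binary norm form -/
noncomputable def t2 (c x : 𝓞 M) : 𝓞 M × 𝓞 M →ₗ[ℤ] 𝓞 M × 𝓞 M →ₗ[ℤ] ℤ :=
  (tb c).compl₁₂ (LinearMap.fst _ _ _) (LinearMap.fst _ _ _) +
    (tb (-x * c)).compl₁₂ (LinearMap.snd _ _ _) (LinearMap.snd _ _ _)

omit [NumberField M] in
theorem t2_apply' (c x : 𝓞 M) (z w : 𝓞 M × 𝓞 M) :
    t2 c x z w = tb c z.1 w.1 + tb (-x * c) z.2 w.2 := rfl

omit [NumberField M] in
theorem t2_apply (c x : 𝓞 M) (z w : 𝓞 M × 𝓞 M) :
    t2 c x z w = tr (c * (z.1 * w.1 - x * (z.2 * w.2))) := by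
  rw [t2_apply', tb_apply, tb_apply, tr, tr, ← map_add]
  congr 1
  ring

theorem gs_t2 (c x : 𝓞 M) {N : ℤ} (hN : N ≠ 0) :
    gs (t2 c x) N = gs (tb c) N * gs (tb (-x * c)) N := by
  unfold gs
  rw [← av_prod hN (per_qf _ _) (per_qf _ _)]
  congr 1
  funext u
  rw [qf, qf, qf, t2_apply', ee_add]

theorem disc_two {m : ℤ} {c z : 𝓞 M} (h : ∀ w, m ∣ 2 * tb c z w) :
    ∃ v : 𝓞 M, (discr M : 𝓞 M) * (2 * c * z) = m * v := by
  refine disc_dvd fun w => ?_
  have := h w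
  rw [tb_apply, two_mul, tr, ← map_add] at this
  convert this using 2
  ring

omit [NumberField M] in
theorem dvd_tr (k : ℤ) (z : 𝓞 M) : k ∣ tr ((k : 𝓞 M) * z) :=
  ⟨tr z, by rw [← zsmul_eq_mul, tr, map_zsmul, smul_eq_mul]⟩

theorem step_alg1 {x y x' y' t A B δ : 𝓞 M} {nx ny d m m' : ℤ} (hx : x * x' = nx)
    (hy : y * y' = ny) (hm : m ≠ 0) (hc : IsCoprime m' m)
    (hd : (2 * discr M * d ^ 2 * ny * nx) * (d ^ 2 * ny) ∣ m * m')
    (h : (d : 𝓞 M) ^ 2 * y - t * (A ^ 2 - x * B ^ 2) = (m : 𝓞 M) ^ 2 * δ) :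
    Pos (av (m ^ 2) fun z : 𝓞 M × 𝓞 M =>
      ee (tr ((d : 𝓞 M) ^ 2 * y * (z.1 ^ 2 - x * z.2 ^ 2))) (m ^ 2)) (gs (t2 t x) (m ^ 2)) := by
  let μ : 𝓞 M × 𝓞 M →+ 𝓞 M × 𝓞 M :=
    { toFun := fun z => (A * z.1 + x * B * z.2, B * z.1 + A * z.2)
      map_zero' := by simp
      map_add' := fun z w => by ext1 <;> simp <;> ring }
  have hμ : ∀ z, μ z = (A * z.1 + x * B * z.2, B * z.1 + A * z.2) := fun _ => rfl
  have h1 := gs_sub' (t2 t x) (fun z w => by rw [t2_apply, t2_apply]; congr 2; ring) hm hc μ hd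
    (fun w => by
      refine ⟨(t * y' * (A * w.1 - x * B * w.2), t * y' * (A * w.2 - B * w.1)),
        (y' * δ * w.1, y' * δ * w.2), ?_⟩
      rw [hμ]
      ext1
      · simp only [Prod.smul_fst, Prod.fst_add]
        simp only [zsmul_eq_mul]
        push_cast
        linear_combination (y' * w.1) * h - (d ^ 2 * w.1) * hy
      · simp only [Prod.smul_snd, Prod.snd_add]
        simp only [zsmul_eq_mul]
        push_cast
        linear_combination (y' * w.2) * h - (d ^ 2 * w.2) * hy)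
    (fun z hz => by
      obtain ⟨v1, hv1⟩ := disc_two (c := t) (z := z.1) (m := m) (fun w => by
        have := hz (w, 0)
        rwa [t2_apply', map_zero, add_zero] at this)
      obtain ⟨v2, hv2⟩ := disc_two (c := -x * t) (z := z.2) (m := m) (fun w => by
        have := hz (0, w)
        rwa [t2_apply', map_zero, zero_add] at this)
      refine ⟨(y' * nx * ((A ^ 2 - x * B ^ 2) * v1 + 2 * discr M * m * δ * z.1),
        y' * x' * (-(A ^ 2 - x * B ^ 2) * v2 + 2 * discr M * m * δ * x * z.2)), ?_⟩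
      ext1
      · simp only [Prod.smul_fst]
        simp only [zsmul_eq_mul]
        push_cast
        linear_combination (y' * nx * (A ^ 2 - x * B ^ 2)) * hv1 +
          (2 * discr M * y' * nx * z.1) * h - (2 * discr M * d ^ 2 * nx * z.1) * hy
      · simp only [Prod.smul_snd]
        simp only [zsmul_eq_mul]
        push_cast
        linear_combination (-y' * x' * (A ^ 2 - x * B ^ 2)) * hv2 +
          (2 * discr M * y' * x' * x * z.2) * h - (2 * discr M * d ^ 2 * nx * z.2) * hy -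
          (2 * discr M * d ^ 2 * y * y' * z.2) * hx)
  convert h1 using 2
  funext z
  rw [qf, t2_apply, hμ]
  refine ee_congr ?_
  rw [tr, tr, ← map_sub]
  convert dvd_tr (m ^ 2) (δ * (z.1 ^ 2 - x * z.2 ^ 2)) using 2
  push_cast
  linear_combination (z.1 ^ 2 - x * z.2 ^ 2) * h

theorem step_alg {x y x' y' t A B δ : 𝓞 M} {nx ny d m m' : ℤ} (hx : x * x' = nx)
    (hy : y * y' = ny) (hm : m ≠ 0) (hc : IsCoprime m' m)
    (hd : (2 * discr M * d ^ 2 * ny * nx) * (d ^ 2 * ny) ∣ m * m')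
    (h : (d : 𝓞 M) ^ 2 * y - t * (A ^ 2 - x * B ^ 2) = (m : 𝓞 M) ^ 2 * δ) :
    Pos (gs (t2 y x) (m ^ 2)) (gs (t2 t x) (m ^ 2)) :=
  (step_alg1 (t := y) (A := d) (B := 0) (δ := 0) hx hy hm hc hd (by ring)).symm.trans
    (step_alg1 hx hy hm hc hd h)

theorem gs_unit {c : 𝓞 M} {m : ℤ} (hm : m ≠ 0)
    (hc : IsCoprime ((discr M : 𝓞 M) * (2 * c)) (m : 𝓞 M)) : Pos (gs (tb c) (m ^ 2)) 1 := by
  have h := gs_sub (tb c) (tb_symm c) hm (zsmulAddGroupHom m : 𝓞 M →+ 𝓞 M)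
    (fun w => ⟨w, 0, by simp⟩) (fun z hz => by
      obtain ⟨v, hv⟩ := disc_two hz
      obtain ⟨a, b, hab⟩ := hc
      refine ⟨a * v + b * z, 0, ?_⟩
      rw [zsmulAddGroupHom_apply, smul_zero, add_zero, zsmul_eq_mul]
      linear_combination a * hv - z * hab)
  refine h.symm.trans ?_
  rw [← av_one (L := 𝓞 M) (pow_ne_zero 2 hm)]
  convert Pos.refl _ using 2
  funext u
  rw [qf, zsmulAddGroupHom_apply, map_zsmul, map_zsmul, LinearMap.smul_apply, smul_smul, ← sq,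
    smul_eq_mul, ee_of_dvd (dvd_mul_right _ _)]

theorem gs_special {s t j κ : 𝓞 M} {p : ℤ} (hp : p ≠ 0) (k : ℕ)
    (hs : IsCoprime ((discr M : 𝓞 M) * (2 * s)) (p : 𝓞 M)) (hκ : IsCoprime κ (p : 𝓞 M))
    (h : t * j = p * κ) :
    Pos (av ((p ^ (k + 1)) ^ 2) fun u : 𝓞 M => ee (tr (κ * j * (s * u ^ 2))) p)
      (gs (tb (s * t)) ((p ^ (k + 1)) ^ 2)) := by
  have hp' : (p : 𝓞 M) ≠ 0 := by exact_mod_cast hp
  have h1 := gs_sub (tb (s * t)) (tb_symm _) (pow_ne_zero (k + 1) hp)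
    (AddMonoidHom.mulLeft ((p : 𝓞 M) ^ k * j))
    (fun w => by
      obtain ⟨a, b, hab⟩ := hκ.pow_right (n := k + 1)
      refine ⟨t * a * w, b * w, ?_⟩
      simp only [AddMonoidHom.coe_mulLeft, zsmul_eq_mul]
      push_cast
      linear_combination (-(p : 𝓞 M) ^ (k + 1) * w) * hab - ((p : 𝓞 M) ^ k * a * w) * h)
    (fun z hz => by
      obtain ⟨v, hv⟩ := disc_two hz
      obtain ⟨a, b, hab⟩ := hs.pow_right (n := k + 1)
      obtain ⟨a', b', hab'⟩ := (hκ.pow_right (n := k + 1)).pow_right (n := 2)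
      have e : κ * z = (p : 𝓞 M) ^ k * j * (a * v + b * t * z) := by
        apply mul_left_cancel₀ hp'
        push_cast at hv
        linear_combination (-z) * h + (a * j) * hv - (t * j * z) * hab
      refine ⟨a' * (a * v + b * t * z), b' * z, ?_⟩
      simp only [AddMonoidHom.coe_mulLeft, zsmul_eq_mul]
      push_cast
      linear_combination a' * e - z * hab')
  convert h1 using 2
  funext u
  rw [qf, tb_apply, ← ee_mul (pow_ne_zero (2 * k + 1) hp)]
  congr 1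
  · rw [← smul_eq_mul, tr, ← map_zsmul, zsmul_eq_mul]
    congr 1
    simp only [AddMonoidHom.coe_mulLeft]
    push_cast
    linear_combination (-(p : 𝓞 M) ^ (2 * k) * s * j * u ^ 2) * h
  · ring

theorem step_special {x t : 𝓞 M} {p : ℕ} (hp : p.Prime) (hp2 : p ≠ 2)
    (hd : ¬ (p : ℤ) ∣ discr M) (P : Ideal (𝓞 M)) [hP : P.IsMaximal]
    (hpP : (p : 𝓞 M) ∈ P) (ht : Ideal.span {(p : 𝓞 M) ^ 2} ⊔ Ideal.span {t} = P)
    (hx : IsCoprime x (p : 𝓞 M)) (hns : ∀ w, x - w ^ 2 ∉ P) (k : ℕ)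
    (hpos : Pos (gs (t2 t x) (((p : ℤ) ^ (k + 1)) ^ 2)) 1) : False := by
  classical
  have hp0 : (p : ℤ) ≠ 0 := by exact_mod_cast hp.ne_zero
  have hp0' : (p : 𝓞 M) ≠ 0 := by exact_mod_cast hp.ne_zero
  have hN : ((p : ℤ) ^ (k + 1)) ^ 2 ≠ 0 := pow_ne_zero _ (pow_ne_zero _ hp0)
  have hmem : ∀ a ∈ P, ∃ s r : 𝓞 M, a = s * (p : 𝓞 M) ^ 2 + r * t := by
    intro a ha
    rw [← ht, Submodule.mem_sup] at ha
    obtain ⟨u, hu, v, hv, rfl⟩ := ha
    obtain ⟨s, rfl⟩ := Ideal.mem_span_singleton'.mp hu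
    obtain ⟨r, rfl⟩ := Ideal.mem_span_singleton'.mp hv
    exact ⟨s, r, rfl⟩
  have htP : t ∈ P := by
    rw [← ht]
    exact Ideal.mem_sup_right (Ideal.mem_span_singleton_self t)
  obtain ⟨β, j, hj⟩ := hmem _ hpP
  set κ : 𝓞 M := 1 - β * p with hκ
  have h : t * j = ((p : ℤ) : 𝓞 M) * κ := by
    push_cast
    linear_combination (-1 : 𝓞 M) * hj
  have hκc : IsCoprime κ ((p : ℤ) : 𝓞 M) := ⟨1, β, by push_cast; ring⟩
  have hdc : IsCoprime (discr M : 𝓞 M) ((p : ℤ) : 𝓞 M) := by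
    have := ((Nat.prime_iff_prime_int.mp hp).irreducible.coprime_iff_not_dvd.mpr hd).symm
    exact this.map (Int.castRingHom (𝓞 M))
  have h2c : IsCoprime (2 : 𝓞 M) ((p : ℤ) : 𝓞 M) := by
    have h2 : IsCoprime (2 : ℤ) (p : ℤ) := by
      have := (Nat.coprime_primes Nat.prime_two hp).mpr hp2.symm
      exact_mod_cast Nat.isCoprime_iff_coprime.mpr this
    simpa using h2.map (Int.castRingHom (𝓞 M))
  have hxc : IsCoprime (-x) ((p : ℤ) : 𝓞 M) := by simpa using hx.neg_left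
  have g1 := gs_special (s := 1) hp0 k (hdc.mul_left (h2c.mul_left isCoprime_one_left)) hκc h
  have g2 := gs_special (s := -x) hp0 k (hdc.mul_left (h2c.mul_left hxc)) hκc h
  rw [one_mul] at g1
  rw [gs_t2 _ _ hN] at hpos
  have hpos2 := (g1.mul g2).trans hpos
  -- the residue field
  have hPb : P ≠ ⊥ := by
    rintro rfl
    exact hp0' (Ideal.mem_bot.mp hpP)
  have : Finite (𝓞 M ⧸ P) := Ideal.finiteQuotientOfFreeOfNeBot P hPb
  let _ : Fintype (𝓞 M ⧸ P) := Fintype.ofFinite _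
  let _ : Field (𝓞 M ⧸ P) := Ideal.Quotient.field P
  let φ : 𝓞 M ⧸ P → ℂ := fun v => ee (tr (κ * j * v.out)) p
  have hφ : ∀ a, φ (Ideal.Quotient.mk P a) = ee (tr (κ * j * a)) p := by
    intro a
    have h1 : (Ideal.Quotient.mk P a).out - a ∈ P := by
      rw [← Ideal.Quotient.eq, Ideal.Quotient.mk_out]
    obtain ⟨s, r, hsr⟩ := hmem _ h1
    refine ee_congr ?_
    rw [tr, tr, ← map_sub]
    convert dvd_tr p (κ * (j * s * (p : 𝓞 M) + r * κ)) using 2
    push_cast at h ⊢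
    linear_combination (κ * j) * hsr + (κ * r) * h
  have hav : ∀ s : 𝓞 M, av (((p : ℤ) ^ (k + 1)) ^ 2)
      (fun u : 𝓞 M => ee (tr (κ * j * (s * u ^ 2))) p) =
      (∑ v, φ (Ideal.Quotient.mk P s * v ^ 2)) / Fintype.card (𝓞 M ⧸ P) := by
    intro s
    rw [← av_eq hN (Ideal.Quotient.mk P).toAddMonoidHom Ideal.Quotient.mk_surjective]
    · congr 1
      funext u
      rw [← hφ]
      simp
    · intro z
      change Ideal.Quotient.mk P _ = 0
      rw [Ideal.Quotient.eq_zero_iff_mem, zsmul_eq_mul]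
      refine P.mul_mem_right _ ?_
      push_cast
      exact P.pow_mem_of_mem (P.pow_mem_of_mem hpP _ (Nat.succ_pos k)) _ two_pos
  have hneg : ∀ v, φ (-v) = (starRingEnd ℂ) (φ v) := by
    intro v
    obtain ⟨a, rfl⟩ := Ideal.Quotient.mk_surjective v
    rw [← map_neg, hφ, hφ, mul_neg, tr, map_neg, ee_neg]
  have hsum : ∑ v, φ v = 0 := by
    have hex : ∃ a, ¬ (p : ℤ) ∣ tr (κ * j * a) := by
      by_contra hh
      push Not at hh
      obtain ⟨v, hv⟩ := disc_dvd hh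
      obtain ⟨a, b, hab⟩ := hdc.mul_left hκc
      have e : κ = t * (a * v + b * j) := by
        apply mul_left_cancel₀ hp0'
        push_cast at h hv hab
        linear_combination (-1 : 𝓞 M) * h + (a * t) * hv - (t * j) * hab
      apply hP.ne_top
      rw [Ideal.eq_top_iff_one]
      have : (1 : 𝓞 M) = t * (a * v + b * j) + β * p := by rw [← e, hκ]; ring
      rw [this]
      exact P.add_mem (P.mul_mem_right _ htP) (P.mul_mem_left _ hpP)
    obtain ⟨a, ha⟩ := hex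
    refine sum_zero_of_shift φ (Ideal.Quotient.mk P a) (ee (tr (κ * j * a)) p)
      (fun h1 => ha (dvd_of_ee hp0 h1)) fun v => ?_
    obtain ⟨b, rfl⟩ := Ideal.Quotient.mk_surjective v
    rw [← map_add, hφ, hφ, mul_add, tr, map_add, ee_add, mul_comm]
  have hchar : ringChar (𝓞 M ⧸ P) ≠ 2 := by
    intro h2
    have : ringChar (𝓞 M ⧸ P) ∣ p := by
      rw [← ringChar.spec, ← map_natCast (Ideal.Quotient.mk P), Ideal.Quotient.eq_zero_iff_mem]
      exact hpP
    rw [h2] at this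
    exact hp2 ((Nat.prime_dvd_prime_iff_eq Nat.prime_two hp).mp this).symm
  have hxs : ¬ IsSquare (Ideal.Quotient.mk P x) := by
    rintro ⟨v, hv⟩
    obtain ⟨w, rfl⟩ := Ideal.Quotient.mk_surjective v
    apply hns w
    rw [← Ideal.Quotient.eq, hv, sq, map_mul]
  have hs := sum_nonsq hchar hxs (fun v => φ (-v)) (by
    rw [← hsum]
    exact Fintype.sum_equiv (Equiv.neg _) _ _ (fun _ => rfl))
  rw [hav, hav] at hpos2
  simp only [map_one, one_mul, map_neg, neg_mul] at hpos2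
  rw [hs] at hpos2
  simp only [hneg] at hpos2
  apply Pos.not_neg (s := (∑ v, φ (v ^ 2)) / Fintype.card (𝓞 M ⧸ P))
  convert hpos2 using 2
  rw [map_div₀, map_sum, neg_div]
  simp

end PF

end Pool.Agent.MP_14ad9d_nt
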