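import Pool.Agent.MP_14ad9d_nt.Setup
import Pool.Agent.MP_14ad9d_nt.EcA

set_option autoImplicit false
set_option linter.unusedSectionVars false

open NumberField IsDedekindDomain

namespace Pool.Agent.MP_14ad9d_nt

section General

variable {L : Type*} [Field L] [NumberField L] {Q : HeightOneSpectrum (𝓞 L)}

theorem Dv.mul_iff {x y : L} (hx : Q.valuation L x ≤ 1) (hy : Q.valuation L y ≤ 1) :
    Dv Q (x * y) ↔ Dv Q x ∨ Dv Q y := by
  unfold Dv
  rw [map_mul]
  constructor
  · intro h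
    by_contra hc
    push Not at hc
    rw [le_antisymm hx hc.1, le_antisymm hy hc.2, mul_one] at h
    exact lt_irrefl _ h
  · rintro (h | h)
    · exact mul_lt_one_of_lt_of_le h hy
    · rw [mul_comm]; exact mul_lt_one_of_lt_of_le h hx

theorem Dv.mul_right {x y : L} (hx : Dv Q x) (hy : Q.valuation L y ≤ 1) : Dv Q (x * y) :=
  (Dv.mul_iff (le_of_lt hx) hy).2 (Or.inl hx)

theorem Dv.add {x y : L} (hx : Dv Q x) (hy : Dv Q y) : Dv Q (x + y) :=
  Valuation.map_add_lt _ hx hy

theorem Dv.sub {x y : L} (hx : Dv Q x) (hy : Dv Q y) : Dv Q (x - y) :=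
  Valuation.map_sub_lt _ hx hy

theorem not_dv_one : ¬ Dv Q 1 := by simp [Dv]

theorem valuation_intCast_le (c : ℤ) : Q.valuation L (c : L) ≤ 1 :=
  valuation_le_one_of_isIntegral Q (isIntegral_algebraMap (R := ℤ) (x := c))

theorem valuation_natCast_le (c : ℕ) : Q.valuation L (c : L) ≤ 1 := by
  simpa using valuation_intCast_le (Q := Q) (c : ℤ)

theorem not_dv_of_coprime {a b : ℕ} (h : Nat.Coprime a b) (ha : Dv Q (a : L)) :
    ¬ Dv Q (b : L) := by
  intro hb
  obtain ⟨u, v, huv⟩ := Nat.isCoprime_iff_coprime.2 h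
  have h1 : (1 : L) = a * u + b * v := by
    have := congrArg (Int.cast : ℤ → L) huv
    push_cast at this
    rw [← this]; ring
  refine not_dv_one (Q := Q) ?_
  rw [h1]
  exact (ha.mul_right (valuation_intCast_le u)).add (hb.mul_right (valuation_intCast_le v))

theorem not_dv_two {p : ℕ} (hp : p.Prime) (hp2 : p ≠ 2) (h : Dv Q (p : L)) : ¬ Dv Q 2 := by
  have := not_dv_of_coprime ((Nat.coprime_primes hp Nat.prime_two).2 hp2) h
  simpa using this

theorem dvd_of_dv_int {p : ℕ} (hp : p.Prime) (h : Dv Q (p : L)) {c : ℤ} (hc : Dv Q (c : L)) :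
    (p : ℤ) ∣ c := by
  by_contra hn
  have h1 : Nat.Coprime p c.natAbs := (Nat.Prime.coprime_iff_not_dvd hp).2 (by
    rwa [← Int.natCast_dvd])
  refine not_dv_of_coprime h1 h ?_
  unfold Dv at hc ⊢
  rcases Int.natAbs_eq c with h2 | h2
  · rw [h2] at hc; simpa using hc
  · rw [h2] at hc; simpa using hc

theorem prime_of_norm {π : GaussianInt} {p : ℕ} (hp : p.Prime) (h : π.norm = p) : Prime π := by
  refine Irreducible.prime ⟨fun hu => ?_, fun a b hab => ?_⟩
  · have := (Zsqrtd.norm_eq_one_iff' (by norm_num) π).2 hu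
    rw [h] at this
    exact hp.one_lt.ne' (by exact_mod_cast this)
  · have h1 : (p : ℕ) = a.norm.natAbs * b.norm.natAbs := by
      rw [← Int.natAbs_mul, ← Zsqrtd.norm_mul, ← hab, h]; simp
    rcases hp.eq_one_or_self_of_dvd _ ⟨_, h1⟩ with h2 | h2
    · exact Or.inl (Zsqrtd.norm_eq_one_iff.1 h2)
    · right
      refine Zsqrtd.norm_eq_one_iff.1 ?_
      rw [h2] at h1
      exact (Nat.mul_eq_left hp.ne_zero).1 h1.symm

theorem dvd_of_dv (j : GaussianInt →+* L) {π u : GaussianInt} (hπ : Prime π) (h : Dv Q (j π))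
    (hu : Dv Q (j u)) : π ∣ u := by
  by_contra hn
  obtain ⟨a, b, hab⟩ := (hπ.irreducible.coprime_iff_not_dvd).2 hn
  refine not_dv_one (Q := Q) ?_
  have h1 : (1 : L) = j π * j a + j u * j b := by
    rw [← map_mul, ← map_mul, ← map_add, ← map_one j, ← hab]; ring_nf
  rw [h1]
  exact (h.mul_right (valuation_le_one_of_isIntegral Q (isIntegral_map_gauss j a))).add
    (hu.mul_right (valuation_le_one_of_isIntegral Q (isIntegral_map_gauss j b)))

theorem valuation_le_exp_neg_one {x : L} (h : Dv Q x) : Q.valuation L x ≤ WithZero.exp (-1) := by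
  rcases eq_or_ne x 0 with rfl | hx
  · simp
  · unfold Dv at h
    rw [valuation_eq_exp_ord hx, ← WithZero.exp_zero, WithZero.exp_lt_exp] at h
    rw [valuation_eq_exp_ord hx, WithZero.exp_le_exp]
    omega

theorem valuation_factor {x y : L} (h : Q.valuation L (x * y) = WithZero.exp (-1)) (hx : Dv Q x)
    (hy : Q.valuation L y ≤ 1) : Q.valuation L x = WithZero.exp (-1) ∧ ¬ Dv Q y := by
  have hx0 : x ≠ 0 := by rintro rfl; simp at h; exact WithZero.exp_ne_zero h.symm
  have hy0 : y ≠ 0 := by rintro rfl; simp at h; exact WithZero.exp_ne_zero h.symm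
  unfold Dv at hx ⊢
  rw [map_mul] at h
  rw [valuation_eq_exp_ord hx0] at h hx ⊢
  rw [valuation_eq_exp_ord hy0] at h hy ⊢
  rw [← WithZero.exp_add, WithZero.exp_inj] at h
  rw [← WithZero.exp_zero, WithZero.exp_lt_exp] at hx
  rw [← WithZero.exp_zero, WithZero.exp_le_exp] at hy
  rw [WithZero.exp_inj, ← WithZero.exp_zero, WithZero.exp_lt_exp]
  omega

/-- the Gaussian prime below a prime of degree one -/
theorem exists_gauss_prime (j : GaussianInt →+* L) {p : ℕ} (hp : p.Prime) (hp2 : p ≠ 2)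
    (h : Dv Q (p : L)) (w₁ w₂ : L) (h₁ : w₁ ^ 2 = j ⟨0, 1⟩) (h₂ : w₂ ^ 2 = 1 + j ⟨0, 1⟩)
    (c a b : ℤ) (hc : Dv Q (j ⟨0, 1⟩ - c)) (ha : Dv Q (w₁ - a)) (hb : Dv Q (w₂ - b)) :
    ∃ π : GaussianInt, π.norm = p ∧ Prim π ∧ Dv Q (j π) := by
  have := Fact.mk hp
  have hi : j ⟨0, 1⟩ ^ 2 = -1 := by
    rw [← map_pow, show (⟨0, 1⟩ : GaussianInt) ^ 2 = -1 by ext <;> simp [sq]]; simp
  have hii := isIntegral_map_gauss j ⟨0, 1⟩
  have key : ∀ (w : L) (a : ℤ), IsIntegral ℤ (w ^ 2) → Dv Q (w - a) → Dv Q ((a : L) ^ 2 - w ^ 2) := by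
    intro w a hw ha
    have h1 : (a : L) ^ 2 - w ^ 2 = (w - a) * (-(w + a)) := by ring
    rw [h1]
    refine ha.mul_right (valuation_le_one_of_isIntegral Q ?_)
    exact ((IsIntegral.of_pow (by norm_num) hw).add (isIntegral_algebraMap (R := ℤ) (x := a))).neg
  have h1 : (p : ℤ) ∣ c ^ 2 + 1 := by
    refine dvd_of_dv_int hp h ?_
    have := key _ c (hii.pow 2) hc
    rw [hi] at this
    simpa using this
  have h2 : p % 4 ≠ 3 := by
    refine ZMod.mod_four_ne_three_of_sq_eq_neg_one (y := (c : ZMod p)) ?_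
    have := (ZMod.intCast_zmod_eq_zero_iff_dvd _ p).2 h1
    push_cast at this
    linear_combination this
  obtain ⟨x, y, hxy⟩ := Nat.Prime.sq_add_sq h2
  have h3 : ∃ π : GaussianInt, π.norm = p ∧ Dv Q (j π) := by
    have hn : (⟨x, y⟩ : GaussianInt).norm = p := by
      rw [← hxy, Zsqrtd.norm_def]; push_cast; ring
    have h4 : (p : L) = j ⟨x, y⟩ * j (star ⟨x, y⟩) := by
      rw [← map_mul, ← Zsqrtd.norm_eq_mul_conj, hn]; simp
    rw [h4, Dv.mul_iff (valuation_le_one_of_isIntegral Q (isIntegral_map_gauss j _))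
      (valuation_le_one_of_isIntegral Q (isIntegral_map_gauss j _))] at h
    rcases h with h | h
    · exact ⟨_, hn, h⟩
    · exact ⟨_, by rw [Zsqrtd.norm_conj, hn], h⟩
  obtain ⟨π, hn, hπ⟩ := h3
  have hpr := prime_of_norm hp hn
  obtain ⟨u, hu, hprim⟩ := exists_prim p hp hp2 π hn a b
    (dvd_of_dv j hpr hπ (by
      have := key w₁ a (h₁ ▸ hii) ha
      rw [h₁] at this
      simpa using this))
    (dvd_of_dv j hpr hπ (by
      have := key w₂ b (h₂ ▸ isIntegral_one.add hii) hb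
      rw [h₂] at this
      rw [show (⟨1, 1⟩ : GaussianInt) = 1 + ⟨0, 1⟩ by ext <;> simp]
      simpa using this))
  refine ⟨u * π, ?_, hprim, ?_⟩
  · rw [Zsqrtd.norm_mul, (Zsqrtd.norm_eq_one_iff' (by norm_num) u).2 hu, one_mul, hn]
  · rw [map_mul, mul_comm]
    exact hπ.mul_right (valuation_le_one_of_isIntegral Q (isIntegral_map_gauss j _))

theorem val_neg_contra {p : ℕ} (hp : p.Prime) (hp2 : p ≠ 2) (h : Dv Q (p : L)) {s w : L}
    (f : L →+* L) (hf : ∀ z, Q.valuation L (f z) = Q.valuation L z) (hs : f s = -s) (hw : f w = w)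
    (hlt : Q.valuation L (s ^ 2 - w ^ 2) < Q.valuation L (s ^ 2)) : False := by
  have h1 : Q.valuation L (s - w) = Q.valuation L (s + w) := by
    rw [← hf (s - w), map_sub, hs, hw, ← Valuation.map_neg]; congr 1; ring
  have h2 : Q.valuation L (s + w) < Q.valuation L s := by
    rw [show s ^ 2 - w ^ 2 = (s - w) * (s + w) by ring, map_mul, h1, map_pow, ← sq] at hlt
    exact lt_of_pow_lt_pow_left₀ 2 zero_le hlt
  have h3 := Valuation.map_add_lt _ (h1 ▸ h2 : Q.valuation L (s - w) < Q.valuation L s) h2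
  rw [show s - w + (s + w) = 2 * s by ring, map_mul, LocAux.val_two_eq (not_dv_two hp hp2 h),
    one_mul] at h3
  exact lt_irrefl _ h3

theorem exp_sum {ι : Type*} (s : Finset ι) (f : ι → ℤ) :
    WithZero.exp (∑ i ∈ s, f i) = ∏ i ∈ s, WithZero.exp (f i) := by
  classical
  induction s using Finset.induction_on with
  | empty => simp
  | insert a s ha ih => rw [Finset.sum_insert ha, Finset.prod_insert ha, WithZero.exp_add, ih]

end General

instance : Algebra.IsAlgebraic ℚ Om := Algebra.IsAlgebraic.trans ℚ Fi Om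

instance : IsAlgClosure ℚ Om := ⟨inferInstance, inferInstance⟩

theorem exists_field (M : Type) [Field M] [NumberField M] [Algebra Fi M] (S : Set Om)
    (hS : S.Finite) : ∃ L : IntermediateField ℚ Om, FiniteDimensional ℚ L ∧ IsGalois ℚ L ∧
      S ⊆ L ∧ ∀ (σ : Emb M) (x : M), σ.hom x ∈ L := by
  let b := Module.finBasis ℚ M
  let S' : Set Om := S ∪ Set.range fun q : Emb M × Fin (Module.finrank ℚ M) => q.1.hom (b q.2)
  have : Finite S' := (hS.union (Set.finite_range _)).to_subtype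
  let L := FiniteGaloisIntermediateField.adjoin ℚ S'
  have h1 : S' ⊆ L.toIntermediateField := FiniteGaloisIntermediateField.subset_adjoin ℚ S'
  refine ⟨L.toIntermediateField, L.finiteDimensional, L.isGalois,
    Set.subset_union_left.trans h1, fun σ x => ?_⟩
  rw [← b.sum_repr x, map_sum]
  refine sum_mem fun i _ => ?_
  rw [map_rat_smul]
  exact L.toIntermediateField.smul_mem (h1 (Or.inr ⟨(σ, i), rfl⟩))

variable {M : Type} [Field M] [NumberField M] [Algebra Fi M]

theorem Emb.map_gM (σ : Emb M) (u : GaussianInt) : σ.hom (gM M u) = algebraMap Fi Om (gi u) :=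
  σ.hom.commutes _

theorem places (g : Gam) (hg : Fix0 g) (S : Set Om) (hS : S.Finite) :
    PosDens {p : ℕ | ∃ π pl, Pl (M := M) g S p π pl} := by
  classical
  obtain ⟨w₁, hw₁⟩ := IsAlgClosed.exists_pow_nat_eq iO (n := 2) (by norm_num)
  obtain ⟨w₂, hw₂⟩ := IsAlgClosed.exists_pow_nat_eq (1 + iO) (n := 2) (by norm_num)
  obtain ⟨L, hL1, hL2, hL3, hL4⟩ := exists_field M (insert w₁ (insert w₂ S))
    ((hS.insert _).insert _)
  have : NumberField L := {}
  let e : Emb M → (M →+* L) := fun σ => (σ.hom : M →+* Om).codRestrict L (hL4 σ)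
  have he : ∀ σ x, (e σ x : Om) = σ.hom x := fun _ _ => rfl
  let σ₀ : Emb M := Classical.arbitrary _
  let jF : Fi →+* L := (e σ₀).comp (algebraMap Fi M)
  have hjF : ∀ u, (jF u : Om) = algebraMap Fi Om u := fun u => σ₀.hom.commutes u
  have heF : ∀ σ u, e σ (algebraMap Fi M u) = jF u := fun σ u =>
    Subtype.ext (by rw [hjF, he]; exact σ.hom.commutes u)
  let j : GaussianInt →+* L := jF.comp gi
  have hej : ∀ σ u, e σ (gM M u) = j u := fun σ u => heF σ (gi u)
  have hji : (j ⟨0, 1⟩ : Om) = iO := by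
    change (jF (gi ⟨0, 1⟩) : Om) = iO
    rw [hjF, gi_i, iO]
  let γ : L ≃ₐ[ℚ] L := (g.restrictScalars ℚ).restrictNormal L
  have hγ : ∀ z : L, (γ z : Om) = g z := fun z =>
    AlgEquiv.restrictNormal_commutes (g.restrictScalars ℚ) L z
  have hγk : ∀ (k : ℕ) (z : L), ((γ ^ k) z : Om) = (g ^ k) z := by
    intro k
    induction k with
    | zero => intro z; rfl
    | succ k ih => intro z; rw [pow_succ', pow_succ', AlgEquiv.mul_apply, AlgEquiv.mul_apply, hγ, ih]
  have hcl : ∀ s ∈ Submonoid.closure S, s ∈ L := fun s hs =>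
    (Submonoid.closure_le (S := L.toSubalgebra.toSubmonoid)).2
      (fun z hz => hL3 (Or.inr (Or.inr hz))) hs
  refine (frob_places γ).mono (insert 2 (discr L).natAbs.divisors) ?_
  rintro p ⟨hp, Q, hQ, hγQ, hfix⟩ hbad
  have hp2 : p ≠ 2 := fun h => hbad (by simp [h])
  have hd : ¬ (p : ℤ) ∣ discr L := fun h => hbad (Finset.mem_insert_of_mem
    (Nat.mem_divisors.2 ⟨Int.natCast_dvd.1 h, Int.natAbs_ne_zero.2 (discr_ne_zero L)⟩))
  have hval : ∀ (σ : Emb M) (x : M), Q.valuation L (e σ x) = (plc (e σ) Q).valuation M x :=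
    fun σ x => valuation_plc hp hd hQ _ x
  have hγv : ∀ z, Q.valuation L (γ z) = Q.valuation L z := fun z => by
    have := valuation_plc hp hd hQ (γ : L →+* L) z
    rwa [hγQ] at this
  have hγkv : ∀ (k : ℕ) z, Q.valuation L ((γ ^ k) z) = Q.valuation L z := by
    intro k
    induction k with
    | zero => intro z; rfl
    | succ k ih => intro z; rw [pow_succ', AlgEquiv.mul_apply, hγv, ih]
  let v₁ : L := ⟨w₁, hL3 (Or.inl rfl)⟩
  let v₂ : L := ⟨w₂, hL3 (Or.inr (Or.inl rfl))⟩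
  have hv₁ : v₁ ^ 2 = j ⟨0, 1⟩ := Subtype.ext (by rw [hji, ← hw₁]; rfl)
  have hv₂ : v₂ ^ 2 = 1 + j ⟨0, 1⟩ := Subtype.ext (by
    rw [IntermediateField.coe_add, hji]; exact hw₂)
  have hii := isIntegral_map_gauss j ⟨0, 1⟩
  obtain ⟨c, hc⟩ := hfix _ hii (Subtype.ext (by rw [hγ, hji]; exact g.commutes iF))
  obtain ⟨a, ha⟩ := hfix v₁ (IsIntegral.of_pow (by norm_num) (hv₁ ▸ hii))
    (Subtype.ext (by rw [hγ]; exact hg.1 _ hw₁))
  obtain ⟨b, hb⟩ := hfix v₂ (IsIntegral.of_pow (by norm_num) (hv₂ ▸ isIntegral_one.add hii))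
    (Subtype.ext (by rw [hγ]; exact hg.2 _ hw₂))
  obtain ⟨π, hn, hprim, hπ⟩ := exists_gauss_prime j hp hp2 hQ v₁ v₂ hv₁ hv₂ c a b hc ha hb
  have hpp : (p : L) = j π * j (star π) := by
    rw [← map_mul, ← Zsqrtd.norm_eq_mul_conj, hn]; simp
  obtain ⟨hπ1, hπ2⟩ := valuation_factor (hpp ▸ valuation_prime hp hd hQ) hπ
    (valuation_le_one_of_isIntegral Q (isIntegral_map_gauss j _))
  have hπ0 : π ≠ 0 := by
    rintro rfl
    rw [Zsqrtd.norm_zero] at hn
    exact hp.ne_zero (by exact_mod_cast hn.symm)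
  refine ⟨π, fun σ => plc (e σ) Q, hp, hp2, fun h => hd (h.trans ?_), hn, hprim, fun σ => ?_,
    fun P hP => ?_, fun σ => ?_, fun σ => ?_, fun x hx hnew => ?_,
    fun σ x s k hx hs hsx hk hks hsq => ?_, fun σ x s hx hs hsx hk hks hev => ?_⟩
  · let : Algebra M L := (e σ₀).toAlgebra
    exact discr_dvd_discr M L
  · unfold Dv; rw [← hval, hej]; exact hπ
  · have hPp : Dv P (p : M) := by
      have := hP.mul_right (gM_le_one P (star π))
      rwa [gM_mul_star, hn, Int.cast_natCast] at this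
    obtain ⟨h, hh⟩ := exists_plc_eq hp hQ (e σ₀) P hPp
    have h1 : Dv Q (h (j π)) := by
      have := valuation_plc hp hd hQ ((h : L →+* L).comp (e σ₀)) (gM M π)
      rw [hh, RingHom.comp_apply, hej] at this
      unfold Dv at hP ⊢
      rwa [← this] at hP
    have hi2 : j ⟨0, 1⟩ ^ 2 = -1 := by
      rw [← map_pow, show (⟨0, 1⟩ : GaussianInt) ^ 2 = -1 by ext <;> simp [sq]]; simp
    have hju : ∀ u : GaussianInt, j u = u.re + u.im * j ⟨0, 1⟩ := by
      intro u
      have h1 : u = (u.re : GaussianInt) + (u.im : GaussianInt) * ⟨0, 1⟩ := by ext <;> simp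
      conv_lhs => rw [h1]
      rw [map_add, map_mul, map_intCast, map_intCast]
    have h2 : h (j ⟨0, 1⟩) = j ⟨0, 1⟩ := by
      have h3 : h (j ⟨0, 1⟩) ^ 2 = j ⟨0, 1⟩ ^ 2 := by rw [← map_pow, hi2]; simp
      rcases sq_eq_sq_iff_eq_or_eq_neg.1 h3 with h4 | h4
      · exact h4
      · exfalso
        refine hπ2 ?_
        have : h (j π) = j (star π) := by
          rw [hju π, hju (star π), map_add, map_mul, h4]; simp
        rwa [this] at h1
    have h3 : ∀ u : Fi, h (jF u) = jF u := by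
      intro u
      have h4 : jF iF = j ⟨0, 1⟩ := by rw [← gi_i]; rfl
      rw [Fi.eq_add u]
      simp only [map_add, map_mul, map_ratCast, h4, h2]
    let σ : M →ₐ[Fi] Om :=
      { (algebraMap L Om).comp ((h : L →+* L).comp (e σ₀)) with
        commutes' := fun u => by
          change (h (e σ₀ (algebraMap Fi M u)) : Om) = _
          rw [heF, h3, hjF] }
    exact ⟨Emb.mk σ, hh⟩
  · have : e (g • σ) = (γ : L →+* L).comp (e σ) := by
      ext x
      exact (hγ (e σ x)).symm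
    rw [this, plc_comp, hγQ]
  · have h1 := hval σ (gM M π)
    rw [hej, hπ1, valuation_eq_exp_ord (gM_ne_zero hπ0), WithZero.exp_inj] at h1
    omega
  · obtain ⟨f, hf⟩ := hnew
    have h1 : ∏ σ : Emb M, e σ x = jF f ^ 2 := by
      apply (algebraMap L Om).injective
      rw [map_prod, map_pow]
      change ∏ σ : Emb M, σ.hom x = (jF f : Om) ^ 2
      rw [Emb.prod_eq, hf, hjF, map_mul, sq]
    have h2 : jF f ≠ 0 := by
      intro h0
      rw [h0, zero_pow two_ne_zero, Finset.prod_eq_zero_iff] at h1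
      obtain ⟨σ, -, h3⟩ := h1
      exact hx ((map_eq_zero _).1 h3)
    have h3 := congrArg (Q.valuation L) h1
    rw [map_prod, map_pow, valuation_eq_exp_ord h2] at h3
    simp only [hval, valuation_eq_exp_ord hx] at h3
    rw [← WithZero.exp_nsmul, ← exp_sum, WithZero.exp_inj, Finset.sum_neg_distrib] at h3
    refine ⟨ord Q (jF f), ?_⟩
    simp only [nsmul_eq_mul] at h3
    push_cast at h3
    linarith
  · obtain ⟨w, hw⟩ := hsq.approx hx
    let s' : L := ⟨s, hcl s hs⟩
    have h1 : s' ^ 2 = e σ x := Subtype.ext hsx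
    refine val_neg_contra hp hp2 hQ (s := s') (w := e σ w) ((γ ^ k : L ≃ₐ[ℚ] L) : L →+* L)
      (hγkv k) (Subtype.ext ((hγk k s').trans hks)) (Subtype.ext ((hγk k _).trans ?_)) ?_
    · rw [he, ← Emb.smul_apply, hk]
    · rw [h1, ← map_pow, ← map_sub, hval, hval]
      refine hw.trans_le ?_
      rw [map_mul]
      exact mul_le_of_le_one_left' (LocAux.val_four_le _)
  · obtain ⟨u, d₀, hd₀, hu, rfl⟩ := LocAux.exists_unit hx hev
    obtain ⟨n, d, hnd⟩ := (plc (e σ) Q).exists_primeCompl_mul_eq_of_integer u hu.le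
    have hd1 : (plc (e σ) Q).valuation M (algebraMap (𝓞 M) M d) = 1 :=
      (HeightOneSpectrum.valuation_eq_one_iff_notMem _).2 d.2
    set d' : M := algebraMap (𝓞 M) M d with hd'
    have hd2 : d' ≠ 0 := by rintro h; rw [h] at hd1; simp at hd1
    let s' : L := ⟨s, hcl s hs⟩
    have h1 : s' ^ 2 = e σ (u * d₀ ^ 2) := Subtype.ext hsx
    let z : L := s' * e σ (d' / d₀)
    have h2 : z ^ 2 = e σ (u * d' ^ 2) := by
      rw [mul_pow, h1, ← map_pow, ← map_mul]; congr 1; field_simp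
    have h3 : IsIntegral ℤ z := by
      refine IsIntegral.of_pow (n := 2) (by norm_num) ?_
      rw [h2, sq, ← mul_assoc, hnd, hd', ← map_mul]
      exact (RingOfIntegers.isIntegral_coe (n * (d : 𝓞 M))).map (e σ).toIntAlgHom
    obtain ⟨c, hc⟩ := hfix z h3 (Subtype.ext (by
      rw [hγ]
      change g (s * σ.hom (d' / d₀)) = s * σ.hom (d' / d₀)
      rw [map_mul, hks, ← Emb.smul_apply, hk]))
    have h4 : Dv Q (e σ (u * d' ^ 2 - (c : M) ^ 2)) := by
      rw [map_sub, ← h2, map_pow, map_intCast, show z ^ 2 - (c : L) ^ 2 = (z - c) * (z + c) by ring]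
      exact hc.mul_right (valuation_le_one_of_isIntegral Q
        (h3.add (isIntegral_algebraMap (R := ℤ) (x := c))))
    have h5 : ¬ Dv (plc (e σ) Q) 2 := by
      have := not_dv_two hp hp2 hQ
      unfold Dv at this ⊢
      rwa [← hval, map_ofNat]
    have h6 : LSq (plc (e σ) Q) (u * d' ^ 2) := by
      refine lsq_of_val (w := c) ?_
      rw [map_mul, map_mul, map_pow, hd1, hu, LocAux.val_four_eq h5, ← hval]
      simpa [Dv] using h4
    have h7 := h6.mul (LocAux.lsq_sq (d₀ / d'))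
    rwa [show u * d' ^ 2 * (d₀ / d') ^ 2 = u * d₀ ^ 2 by field_simp] at h7

end Pool.Agent.MP_14ad9d_nt
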