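import Mathlib

set_option autoImplicit false

open Finset
open scoped ComplexConjugate

namespace Pool.Agent.MP_14ad9d_nt.Sark

/-- the additive character -/
noncomputable def ee (x : ℝ) : ℂ := Complex.exp (2 * Real.pi * Complex.I * (x : ℂ))

theorem ee_add (x y : ℝ) : ee (x + y) = ee x * ee y := by
  unfold ee
  rw [← Complex.exp_add]
  congr 1
  push_cast
  ring

theorem ee_int (n : ℤ) : ee n = 1 := by
  unfold ee
  rw [Complex.exp_eq_one_iff]
  exact ⟨n, by push_cast; ring⟩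

theorem ee_eq (x : ℝ) : ee x = Complex.exp (Complex.I * ((2 * Real.pi * x : ℝ) : ℂ)) := by
  unfold ee
  congr 1
  push_cast
  ring

theorem norm_ee (x : ℝ) : ‖ee x‖ = 1 := by
  rw [ee_eq, Complex.norm_exp_I_mul_ofReal]

theorem conj_ee (x : ℝ) : conj (ee x) = ee (-x) := by
  unfold ee
  rw [← Complex.exp_conj]
  congr 1
  simp only [map_mul, Complex.conj_I, Complex.conj_ofReal, map_ofNat]
  push_cast
  ring

theorem norm_ee_sub_one (x : ℝ) : ‖ee x - 1‖ ≤ 8 * |x| := by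
  rw [ee_eq]
  refine Real.norm_exp_I_mul_ofReal_sub_one_le.trans ?_
  rw [Real.norm_eq_abs, abs_mul, abs_of_pos (by positivity : 0 < 2 * Real.pi)]
  have := Real.pi_le_four
  have := abs_nonneg x
  nlinarith

theorem ee_pow (x : ℝ) (n : ℕ) : ee (x * n) = ee x ^ n := by
  unfold ee
  rw [← Complex.exp_nat_mul]
  congr 1
  push_cast
  ring

theorem orth {M x y : ℕ} (hx : x < M) (hy : y < M) :
    ∑ ξ ∈ range M, ee (x * ((ξ : ℝ) / M)) * conj (ee (y * ((ξ : ℝ) / M))) =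
      if x = y then (M : ℂ) else 0 := by
  have hM : (0 : ℝ) < M := by exact_mod_cast (Nat.zero_le x).trans_lt hx
  have h1 : ∀ ξ : ℕ, ee (x * ((ξ : ℝ) / M)) * conj (ee (y * ((ξ : ℝ) / M))) =
      ee (((x : ℝ) - y) / M) ^ ξ := by
    intro ξ
    rw [conj_ee, ← ee_add, ← ee_pow]
    congr 1
    ring
  simp_rw [h1]
  split_ifs with h
  · subst h
    have : ee 0 = 1 := by simpa using ee_int 0
    simp [this]
  · have h2 : ee (((x : ℝ) - y) / M) ≠ 1 := by
      intro h2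
      unfold ee at h2
      rw [Complex.exp_eq_one_iff] at h2
      obtain ⟨n, hn⟩ := h2
      have h3 : (((((x : ℝ) - y) / M : ℝ)) : ℂ) = n := by
        have hpi : (2 * Real.pi * Complex.I : ℂ) ≠ 0 := Complex.two_pi_I_ne_zero
        apply mul_left_cancel₀ hpi
        rw [hn]; ring
      have h4 : ((x : ℝ) - y) / M = n := by exact_mod_cast h3
      rw [div_eq_iff hM.ne'] at h4
      have h5 : (x : ℤ) - y = n * M := by exact_mod_cast h4
      have h6 : (x : ℤ) < M := by exact_mod_cast hx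
      have h7 : (y : ℤ) < M := by exact_mod_cast hy
      have h8 : (0 : ℤ) ≤ x := Int.natCast_nonneg x
      have h9 : (0 : ℤ) ≤ y := Int.natCast_nonneg y
      have h10 : (x : ℤ) ≠ y := by exact_mod_cast h
      rcases lt_trichotomy n 0 with hn0 | hn0 | hn0
      · nlinarith
      · subst hn0; omega
      · nlinarith
    rw [geom_sum_eq h2, ← ee_pow, div_mul_cancel₀ _ hM.ne']
    have : ee ((x : ℝ) - y) = 1 := by simpa using ee_int ((x : ℤ) - y)
    simp [this]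

/-- Fourier transform -/
noncomputable def hat (K : ℕ) (u : ℕ → ℝ) (θ : ℝ) : ℂ := ∑ x ∈ range K, u x • ee (x * θ)

theorem parseval2 {K M : ℕ} (hK : K ≤ M) (u v : ℕ → ℝ) :
    ∑ ξ ∈ range M, hat K u ((ξ : ℝ) / M) * conj (hat K v ((ξ : ℝ) / M)) =
      ((M * ∑ x ∈ range K, u x * v x : ℝ) : ℂ) := by
  have h1 : ∀ ξ : ℕ, hat K u ((ξ : ℝ) / M) * conj (hat K v ((ξ : ℝ) / M)) =
      ∑ x ∈ range K, ∑ y ∈ range K, ((u x * v y : ℝ) : ℂ) *
        (ee (x * ((ξ : ℝ) / M)) * conj (ee (y * ((ξ : ℝ) / M)))) := by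
    intro ξ
    unfold hat
    rw [map_sum, sum_mul_sum]
    refine sum_congr rfl fun x _ => sum_congr rfl fun y _ => ?_
    simp only [Complex.real_smul, map_mul, Complex.conj_ofReal]
    push_cast
    ring
  simp_rw [h1]
  rw [sum_comm]
  push_cast
  rw [mul_sum]
  refine sum_congr rfl fun x hx => ?_
  rw [sum_comm]
  have h2 : ∀ y ∈ range K, ∑ ξ ∈ range M, (u x : ℂ) * v y *
        (ee (x * ((ξ : ℝ) / M)) * conj (ee (y * ((ξ : ℝ) / M)))) =
        if x = y then (u x : ℂ) * v y * M else 0 := by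
    intro y hy
    rw [← mul_sum, orth ((mem_range.1 hx).trans_le hK) ((mem_range.1 hy).trans_le hK)]
    split_ifs <;> simp
  rw [sum_congr rfl h2, sum_ite_eq, if_pos hx]
  ring

theorem parseval {K M : ℕ} (hK : K ≤ M) (u : ℕ → ℝ) :
    ∑ ξ ∈ range M, ‖hat K u ((ξ : ℝ) / M)‖ ^ 2 = M * ∑ x ∈ range K, u x ^ 2 := by
  have h := parseval2 hK u u
  simp_rw [Complex.mul_conj'] at h
  have h2 : ((∑ ξ ∈ range M, ‖hat K u ((ξ : ℝ) / M)‖ ^ 2 : ℝ) : ℂ) =
      ((M * ∑ x ∈ range K, u x * u x : ℝ) : ℂ) := by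
    rw [← h]; push_cast; rfl
  simp_rw [sq (u _)]
  exact_mod_cast h2

/-- convolution with a family of shifts -/
def cv (N : ℕ) (f : ℕ → ℝ) (I : Finset ℕ) (h : ℕ → ℕ) (y : ℕ) : ℝ :=
  ∑ i ∈ I, ∑ x ∈ range N, if x + h i = y then f x else 0

theorem cv_sum {E : Type*} [AddCommGroup E] [Module ℝ E] {N K : ℕ} (f : ℕ → ℝ) {I : Finset ℕ}
    {h : ℕ → ℕ} (hK : ∀ i ∈ I, N + h i ≤ K) (φ : ℕ → E) :
    ∑ y ∈ range K, cv N f I h y • φ y = ∑ i ∈ I, ∑ x ∈ range N, f x • φ (x + h i) := by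
  unfold cv
  simp_rw [sum_smul]
  rw [sum_comm]
  refine sum_congr rfl fun i hi => ?_
  rw [sum_comm]
  refine sum_congr rfl fun x hx => ?_
  simp_rw [ite_smul, zero_smul]
  rw [sum_ite_eq, if_pos]
  have := hK i hi
  have := mem_range.1 hx
  exact mem_range.2 (by omega)

theorem hat_cv {N K : ℕ} (f : ℕ → ℝ) {I : Finset ℕ} {h : ℕ → ℕ} (hK : ∀ i ∈ I, N + h i ≤ K)
    (θ : ℝ) : hat K (cv N f I h) θ = hat N f θ * ∑ i ∈ I, ee (θ * h i) := by
  unfold hat
  rw [cv_sum f hK, mul_sum]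
  refine sum_congr rfl fun i _ => ?_
  rw [sum_mul]
  refine sum_congr rfl fun x _ => ?_
  rw [smul_mul_assoc, ← ee_add]
  congr 2
  push_cast
  ring

theorem cv_one (N : ℕ) (f : ℕ → ℝ) (h y : ℕ) :
    (∑ x ∈ range N, if x + h = y then f x else 0) =
      if h ≤ y ∧ y - h < N then f (y - h) else 0 := by
  by_cases hy : h ≤ y
  · have : ∀ x, x + h = y ↔ y - h = x := fun x => by omega
    simp_rw [this]
    rw [sum_ite_eq]
    simp [hy]
  · have : ∀ x, ¬ (x + h = y) := fun x => by omega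
    simp [this, hy]

theorem shift_ge {N : ℕ} {b : ℕ → ℝ} (h0 : ∀ x, 0 ≤ b x) (h1 : ∀ x, b x ≤ 1) (h : ℕ) :
    ∑ x ∈ range N, b x - h ≤ ∑ x ∈ range N, b (x + h) := by
  have e1 := sum_range_add b h N
  have e2 := sum_range_add b N h
  have e3 : ∑ x ∈ range h, b x ≤ h := by
    simpa using sum_le_card_nsmul (range h) b 1 fun x _ => h1 x
  have e4 : 0 ≤ ∑ x ∈ range h, b (N + x) := sum_nonneg fun x _ => h0 _
  rw [add_comm h N] at e1
  simp_rw [add_comm h] at e1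
  linarith

theorem sum_inv_sqrt (Q : ℕ) : ∑ q ∈ Icc 1 Q, 1 / √(q : ℝ) ≤ 2 * √(Q : ℝ) := by
  induction Q with
  | zero => simp
  | succ n ih =>
    rw [sum_Icc_succ_top (by omega)]
    have h1 : 0 < √((n + 1 : ℕ) : ℝ) := Real.sqrt_pos.2 (by positivity)
    have h2 := Real.sq_sqrt (show (0 : ℝ) ≤ ((n + 1 : ℕ) : ℝ) by positivity)
    have h3 := Real.sq_sqrt (show (0 : ℝ) ≤ (n : ℝ) by positivity)
    have h4 : 1 / √((n + 1 : ℕ) : ℝ) ≤ 2 * √((n + 1 : ℕ) : ℝ) - 2 * √(n : ℝ) := by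
      rw [div_le_iff₀ h1]
      push_cast at h2 ⊢
      nlinarith [sq_nonneg (√((n : ℝ) + 1) - √(n : ℝ))]
    linarith

theorem norm_prog {L q : ℕ} {θ w : ℝ} (hw : |(q : ℝ) * θ - round ((q : ℝ) * θ)| ≤ w)
    (hL : 16 * (q * L * w) ≤ 1) :
    (L : ℝ) / 2 ≤ ‖∑ m ∈ range L, ee (θ * ((q ^ 2 * m : ℕ) : ℝ))‖ := by
  have h1 : ∀ m ∈ range L, ‖ee (θ * ((q ^ 2 * m : ℕ) : ℝ)) - 1‖ ≤ 1 / 2 := by
    intro m hm
    have hm' : (m : ℝ) ≤ L := by exact_mod_cast (mem_range.1 hm).le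
    have e : θ * ((q ^ 2 * m : ℕ) : ℝ) = ((q * m * round ((q : ℝ) * θ) : ℤ) : ℝ) +
        q * m * ((q : ℝ) * θ - round ((q : ℝ) * θ)) := by
      push_cast; ring
    rw [e, ee_add, ee_int, one_mul]
    refine (norm_ee_sub_one _).trans ?_
    rw [abs_mul, abs_of_nonneg (by positivity : (0 : ℝ) ≤ q * m)]
    have h0 := abs_nonneg ((q : ℝ) * θ - round ((q : ℝ) * θ))
    have : (q : ℝ) * m * |(q : ℝ) * θ - round ((q : ℝ) * θ)| ≤ q * L * w := by gcongr
    linarith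
  have h2 : ‖∑ m ∈ range L, (ee (θ * ((q ^ 2 * m : ℕ) : ℝ)) - 1)‖ ≤ L / 2 := by
    refine (norm_sum_le _ _).trans ?_
    have := sum_le_card_nsmul (range L) _ _ h1
    rw [card_range, nsmul_eq_mul] at this
    linarith
  rw [sum_sub_distrib, sum_const, card_range, nsmul_eq_mul, mul_one] at h2
  have h3 := norm_sub_norm_le (L : ℂ) (∑ m ∈ range L, ee (θ * ((q ^ 2 * m : ℕ) : ℝ)))
  rw [norm_sub_rev, Complex.norm_natCast] at h3
  linarith

/-- indicator function -/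
def ind (A : Finset ℕ) (x : ℕ) : ℝ := if x ∈ A then 1 else 0

theorem ind_nonneg (A : Finset ℕ) (x : ℕ) : 0 ≤ ind A x := by unfold ind; split_ifs <;> simp
theorem ind_le_one (A : Finset ℕ) (x : ℕ) : ind A x ≤ 1 := by unfold ind; split_ifs <;> simp

theorem sum_ind {A : Finset ℕ} {N : ℕ} (h : A ⊆ range N) :
    ∑ x ∈ range N, ind A x = A.card := by
  unfold ind
  rw [sum_boole, filter_mem_eq_inter, inter_eq_right.2 h]

/-- balanced function -/
def bal (A : Finset ℕ) (N : ℕ) (α : ℝ) (x : ℕ) : ℝ := ind A x - α * ind (range N) x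

section Bal

variable {A : Finset ℕ} {N : ℕ} {α : ℝ}

theorem bal_of_lt {x : ℕ} (hx : x < N) : bal A N α x = ind A x - α := by
  simp [bal, ind, hx]

theorem bal_of_ge (h : A ⊆ range N) {x : ℕ} (hx : N ≤ x) : bal A N α x = 0 := by
  have : x ∉ A := fun hh => absurd (mem_range.1 (h hh)) (not_lt.2 hx)
  simp [bal, ind, this, not_lt.2 hx]

theorem abs_bal (h0 : 0 ≤ α) (h1 : α ≤ 1) (x : ℕ) : |bal A N α x| ≤ 1 := by
  have a1 := ind_nonneg A x
  have a2 := ind_le_one A x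
  have a3 := ind_nonneg (range N) x
  have a4 := ind_le_one (range N) x
  rw [bal, abs_le]
  constructor <;> nlinarith

theorem sum_bal (h : A ⊆ range N) (hc : (A.card : ℝ) = α * N) :
    ∑ x ∈ range N, bal A N α x = 0 := by
  unfold bal
  rw [sum_sub_distrib, ← mul_sum, sum_ind h, sum_ind Subset.rfl, card_range, hc, sub_self]

theorem sum_bal_sq (h : A ⊆ range N) (hc : (A.card : ℝ) = α * N) :
    ∑ x ∈ range N, bal A N α x ^ 2 ≤ α * N := by
  have h1 : ∀ x ∈ range N, bal A N α x ^ 2 = (1 - 2 * α) * ind A x + α ^ 2 := by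
    intro x hx
    rw [bal_of_lt (mem_range.1 hx), ind]
    split_ifs <;> ring
  rw [sum_congr rfl h1, sum_add_distrib, ← mul_sum, sum_ind h, hc, sum_const, card_range,
    nsmul_eq_mul]
  have : (0 : ℝ) ≤ α ^ 2 * N := by positivity
  nlinarith

theorem corr_le (h : A ⊆ range N) (hc : (A.card : ℝ) = α * N) (h0 : 0 ≤ α) {k : ℕ}
    (hk : ∀ a ∈ A, a + k ∉ A) (hk2 : (k : ℝ) ≤ α * N / 4) :
    ∑ x ∈ range N, bal A N α x * bal A N α (x + k) ≤ -(α ^ 2 * N / 2) := by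
  have h1 : ∀ x ∈ range N, bal A N α x * bal A N α (x + k) ≤
      -α * ind A x + α * (1 - ind (range N) (x + k)) - α * ind A (x + k) + α ^ 2 := by
    intro x hx
    rw [bal_of_lt (mem_range.1 hx), bal]
    have a1 := ind_nonneg A x
    have a2 := ind_le_one A x
    have a3 := ind_nonneg (range N) (x + k)
    have a4 := ind_le_one (range N) (x + k)
    have a5 : ind A x * ind A (x + k) = 0 := by
      unfold ind
      by_cases hA : x ∈ A
      · simp [hk x hA]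
      · simp [hA]
    have a6 : 0 ≤ α * ((1 - ind A x) * (1 - ind (range N) (x + k))) :=
      mul_nonneg h0 (mul_nonneg (by linarith) (by linarith))
    have a7 : 0 ≤ α ^ 2 * (1 - ind (range N) (x + k)) := mul_nonneg (sq_nonneg _) (by linarith)
    nlinarith
  refine (sum_le_sum h1).trans ?_
  have b1 := shift_ge (N := N) (ind_nonneg A) (ind_le_one A) k
  have b2 := shift_ge (N := N) (ind_nonneg (range N)) (ind_le_one (range N)) k
  rw [sum_ind h, hc] at b1
  rw [sum_ind Subset.rfl, card_range] at b2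
  simp only [sum_add_distrib, sum_sub_distrib, ← mul_sum, sum_const, card_range, nsmul_eq_mul]
  rw [sum_ind h, hc]
  have c1 := mul_le_mul_of_nonneg_left b1 h0
  have c2 := mul_le_mul_of_nonneg_left b2 h0
  have c3 := mul_le_mul_of_nonneg_left hk2 h0
  nlinarith

end Bal

end Pool.Agent.MP_14ad9d_nt.Sark
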