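import Pool.Agent.MP_14ad9d_nt.Weyl
import Pool.Agent.MP_14ad9d_nt.Sark1

set_option autoImplicit false

namespace Pool.Agent.MP_14ad9d_nt

namespace Sark

open Finset
open scoped ComplexConjugate

/-- major arc condition -/
def Maj (q : ℕ) (w θ : ℝ) : Prop := |(q : ℝ) * θ - round ((q : ℝ) * θ)| ≤ w

open Classical in
theorem S_le {α R θ : ℝ} {T : ℕ} (h0 : 0 < α) (hR : 0 < R) (hT : 256000 ≤ α ^ 4 * T)
    (hT2 : α * R / 16 ≤ (T : ℝ) ^ 2) :
    ‖∑ t ∈ Icc 1 T, ee (θ * ((t ^ 2 : ℕ) : ℝ))‖ ≤ α * T / 4 +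
      ∑ q ∈ Icc 1 ⌊256 / α ^ 2⌋₊,
        if Maj q (2 ^ 20 / (α ^ 5 * R)) θ then 4 * T * (1 / √(q : ℝ)) else 0 := by
  set S := ‖∑ t ∈ Icc 1 T, ee (θ * ((t ^ 2 : ℕ) : ℝ))‖ with hS
  have hnn : ∀ q ∈ Icc 1 ⌊256 / α ^ 2⌋₊, (0 : ℝ) ≤
      if Maj q (2 ^ 20 / (α ^ 5 * R)) θ then 4 * T * (1 / √(q : ℝ)) else 0 := by
    intro q _
    split_ifs <;> positivity
  by_cases hle : S ≤ α * T / 4
  · linarith [sum_nonneg hnn]
  have hlt := not_le.1 hle
  have hT0 : (0 : ℝ) < T := by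
    rcases (Nat.cast_nonneg (α := ℝ) T).eq_or_lt with h | h
    · rw [← h] at hT; norm_num at hT
    · exact h
  have hST : S ≤ T := by
    refine (norm_sum_le _ _).trans ?_
    simp [norm_ee]
  set δ := S / T with hδ
  have hδα : α / 4 < δ := by rw [hδ, lt_div_iff₀ hT0]; linarith
  have hδ0 : 0 < δ := by linarith
  have hδ1 : δ ≤ 1 := (div_le_one hT0).2 hST
  have hδT : δ * T = S := div_mul_cancel₀ _ hT0.ne'
  have h4 : (α / 4) ^ 4 ≤ δ ^ 4 := by gcongr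
  have h2 : (α / 4) ^ 2 ≤ δ ^ 2 := by gcongr
  obtain ⟨q, hq0, hq1, hq2⟩ := weyl θ δ T hδ0 hδ1 (by nlinarith) (by
    rw [hδT, hS]
    refine le_of_eq ?_
    congr 1
    refine sum_congr rfl fun t _ => ?_
    unfold ee
    push_cast
    rfl)
  have hq3 : (q : ℝ) ≤ 256 / α ^ 2 := by
    refine hq1.trans ?_
    rw [div_le_div_iff₀ (by positivity) (by positivity)]
    nlinarith
  have hqm : q ∈ Icc 1 ⌊256 / α ^ 2⌋₊ := mem_Icc.2 ⟨hq0, Nat.le_floor hq3⟩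
  have hM : Maj q (2 ^ 20 / (α ^ 5 * R)) θ := by
    refine hq2.trans ?_
    rw [div_le_div_iff₀ (by positivity) (by positivity)]
    have : (α / 4) ^ 4 * (α * R / 16) ≤ δ ^ 4 * (T : ℝ) ^ 2 := by gcongr
    nlinarith
  have h5 := single_le_sum hnn hqm
  simp only [if_pos hM] at h5
  have hq0' : (0 : ℝ) < q := by exact_mod_cast hq0
  have hsq : 0 < √(q : ℝ) := Real.sqrt_pos.2 hq0'
  have h6 : δ * √(q : ℝ) ≤ 4 := by
    rw [le_div_iff₀ (by positivity)] at hq1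
    have e : (δ * √(q : ℝ)) ^ 2 = q * δ ^ 2 := by rw [mul_pow, Real.sq_sqrt hq0'.le]; ring
    refine le_of_sq_le_sq ?_ (by norm_num)
    rw [e]; linarith
  have h7 : S ≤ 4 * T * (1 / √(q : ℝ)) := by
    rw [← hδT, mul_one_div, le_div_iff₀ hsq]
    nlinarith
  have : 0 ≤ α * T / 4 := by positivity
  linarith

variable {A : Finset ℕ} {N : ℕ} {α : ℝ}

open Classical in
theorem major (h : A ⊆ range N) (hc : (A.card : ℝ) = α * N) (h0 : 0 < α) (h1 : α ≤ 1)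
    (hs : ∀ a ∈ A, ∀ t : ℕ, 0 < t → a + t ^ 2 ∉ A) (hN : 2 ^ 40 ≤ α ^ 9 * N) :
    ∃ q : ℕ, 0 < q ∧ (q : ℝ) ≤ 256 / α ^ 2 ∧ α ^ 3 * N * ((2 * N : ℕ) : ℝ) / 1024 <
      ∑ ξ ∈ range (2 * N), if Maj q (2 ^ 20 / (α ^ 5 * N)) ((ξ : ℝ) / ((2 * N : ℕ) : ℝ)) then
        ‖hat N (bal A N α) ((ξ : ℝ) / ((2 * N : ℕ) : ℝ))‖ ^ 2 else 0 := by
  set M := 2 * N with hM
  set f := bal A N α with hf
  have hN0 : (0 : ℝ) < N := by
    rcases (Nat.cast_nonneg (α := ℝ) N).eq_or_lt with h | h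
    · rw [← h] at hN; norm_num at hN
    · exact h
  have hM0 : (0 : ℝ) < M := by rw [hM]; push_cast; linarith
  have h8 : α ^ 8 ≤ 1 := pow_le_one₀ h0.le h1
  have hαN : 2 ^ 40 ≤ α * N := by
    have : α ^ 9 * N = α ^ 8 * (α * N) := by ring
    have h' : 0 ≤ α * N := by positivity
    nlinarith
  set T := Nat.sqrt (A.card / 4) with hT
  have hT1 : (T : ℝ) ^ 2 ≤ α * N / 4 := by
    have a1 : T ^ 2 ≤ A.card / 4 := Nat.sqrt_le' _
    have a2 : 4 * T ^ 2 ≤ A.card := by omega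
    have a3 : (4 : ℝ) * (T : ℝ) ^ 2 ≤ A.card := by exact_mod_cast a2
    linarith
  have hT2 : α * N / 4 < ((T : ℝ) + 1) ^ 2 := by
    have a1 : A.card / 4 < (T + 1) ^ 2 := Nat.lt_succ_sqrt' _
    have a2 : A.card < 4 * (T + 1) ^ 2 := by omega
    have a3 : (A.card : ℝ) < 4 * ((T : ℝ) + 1) ^ 2 := by exact_mod_cast a2
    linarith
  have hT3 : (1 : ℝ) ≤ T := by
    rcases Nat.eq_zero_or_pos T with h' | h'
    · rw [h'] at hT2; norm_num at hT2; linarith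
    · exact_mod_cast h'
  have hT4 : α * N / 16 ≤ (T : ℝ) ^ 2 := by nlinarith
  have hT5 : 256000 ≤ α ^ 4 * T := by
    refine le_of_sq_le_sq ?_ (by positivity)
    have : α ^ 8 * (α * N / 16) ≤ α ^ 8 * (T : ℝ) ^ 2 := by gcongr
    nlinarith
  have hTN : ∀ t ∈ Icc 1 T, N + t ^ 2 ≤ M := by
    intro t ht
    have a1 : t ^ 2 ≤ T ^ 2 := Nat.pow_le_pow_left (mem_Icc.1 ht).2 2
    have a2 : T ^ 2 ≤ A.card / 4 := Nat.sqrt_le' _
    have a3 : A.card ≤ N := by simpa using card_le_card h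
    omega
  have hhat : ∀ θ, hat M f θ = hat N f θ := by
    intro θ
    unfold hat
    refine (sum_subset (range_subset_range.2 (by omega)) fun x _ hx => ?_).symm
    rw [hf, bal_of_ge h (by simpa using hx), zero_smul]
  have e1 := parseval2 (le_refl M) (cv N f (Icc 1 T) fun t => t ^ 2) f
  have e2 := cv_sum f hTN f
  simp only [smul_eq_mul] at e2
  rw [e2] at e1
  simp_rw [hat_cv f hTN, hhat] at e1
  have e3 : ∑ t ∈ Icc 1 T, ∑ x ∈ range N, f x * f (x + t ^ 2) ≤ T * -(α ^ 2 * N / 2) := by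
    have := sum_le_card_nsmul (Icc 1 T) (fun t => ∑ x ∈ range N, f x * f (x + t ^ 2))
      (-(α ^ 2 * N / 2)) fun t ht => corr_le h hc h0.le (fun a ha => hs a ha t (mem_Icc.1 ht).1) (by
        have a1 : (t : ℝ) ≤ T := by exact_mod_cast (mem_Icc.1 ht).2
        have a2 : (t : ℝ) ^ 2 ≤ (T : ℝ) ^ 2 := by gcongr
        push_cast
        linarith)
    simpa using this
  have e4 : M * (T * (α ^ 2 * N / 2)) ≤ ∑ ξ ∈ range M, ‖hat N f ((ξ : ℝ) / M)‖ ^ 2 *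
      ‖∑ t ∈ Icc 1 T, ee ((ξ : ℝ) / M * ((t ^ 2 : ℕ) : ℝ))‖ := by
    have a1 := norm_sum_le (range M) (fun ξ => (hat N f ((ξ : ℝ) / M) *
      ∑ t ∈ Icc 1 T, ee ((ξ : ℝ) / M * ((t ^ 2 : ℕ) : ℝ))) * conj (hat N f ((ξ : ℝ) / M)))
    rw [e1, Complex.norm_real, Real.norm_eq_abs] at a1
    have a2 := neg_le_abs (M * ∑ t ∈ Icc 1 T, ∑ x ∈ range N, f x * f (x + t ^ 2))
    have a3 := mul_le_mul_of_nonneg_left e3 hM0.le
    refine le_trans (by linarith) (a1.trans (le_of_eq (sum_congr rfl fun ξ _ => ?_)))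
    rw [norm_mul, norm_mul, Complex.norm_conj]
    ring
  have e5 : ∑ ξ ∈ range M, ‖hat N f ((ξ : ℝ) / M)‖ ^ 2 ≤ M * (α * N) := by
    rw [parseval (by omega : N ≤ M)]
    exact mul_le_mul_of_nonneg_left (sum_bal_sq h hc) hM0.le
  by_contra hcon
  have hE : ∀ q ∈ Icc 1 ⌊256 / α ^ 2⌋₊, (∑ ξ ∈ range M,
      if Maj q (2 ^ 20 / (α ^ 5 * N)) ((ξ : ℝ) / M) then ‖hat N f ((ξ : ℝ) / M)‖ ^ 2 else 0) ≤
        α ^ 3 * N * M / 1024 := by
    intro q hq
    by_contra hlt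
    refine hcon ⟨q, (mem_Icc.1 hq).1, ?_, not_le.1 hlt⟩
    exact (Nat.le_floor_iff (by positivity)).1 (mem_Icc.1 hq).2
  have e6 : ∑ ξ ∈ range M, ‖hat N f ((ξ : ℝ) / M)‖ ^ 2 *
      ‖∑ t ∈ Icc 1 T, ee ((ξ : ℝ) / M * ((t ^ 2 : ℕ) : ℝ))‖ ≤
      α * T / 4 * ∑ ξ ∈ range M, ‖hat N f ((ξ : ℝ) / M)‖ ^ 2 +
      ∑ q ∈ Icc 1 ⌊256 / α ^ 2⌋₊, 4 * T * (1 / √(q : ℝ)) * ∑ ξ ∈ range M,
        if Maj q (2 ^ 20 / (α ^ 5 * N)) ((ξ : ℝ) / M) then ‖hat N f ((ξ : ℝ) / M)‖ ^ 2 else 0 := by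
    simp_rw [mul_sum]
    rw [sum_comm (s := Icc 1 ⌊256 / α ^ 2⌋₊), ← sum_add_distrib]
    refine sum_le_sum fun ξ _ => ?_
    refine (mul_le_mul_of_nonneg_left (S_le h0 hN0 hT5 hT4) (sq_nonneg _)).trans (le_of_eq ?_)
    rw [mul_add, mul_sum, mul_comm]
    congr 1
    refine sum_congr rfl fun q _ => ?_
    split_ifs <;> ring
  have e7 : ∑ q ∈ Icc 1 ⌊256 / α ^ 2⌋₊, 4 * T * (1 / √(q : ℝ)) * (∑ ξ ∈ range M,
        if Maj q (2 ^ 20 / (α ^ 5 * N)) ((ξ : ℝ) / M) then ‖hat N f ((ξ : ℝ) / M)‖ ^ 2 else 0) ≤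
      4 * T * (α ^ 3 * N * M / 1024) * (2 * (16 / α)) := by
    have a1 : √((⌊256 / α ^ 2⌋₊ : ℕ) : ℝ) ≤ 16 / α := by
      rw [Real.sqrt_le_left (by positivity)]
      refine (Nat.floor_le (by positivity)).trans (le_of_eq ?_)
      field_simp
      norm_num
    have a2 := sum_inv_sqrt ⌊256 / α ^ 2⌋₊
    calc _ ≤ ∑ q ∈ Icc 1 ⌊256 / α ^ 2⌋₊, 4 * T * (α ^ 3 * N * M / 1024) * (1 / √(q : ℝ)) := by
          refine sum_le_sum fun q hq => ?_
          have := mul_le_mul_of_nonneg_left (hE q hq)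
            (show (0 : ℝ) ≤ 4 * T * (1 / √(q : ℝ)) by positivity)
          linarith
      _ = 4 * T * (α ^ 3 * N * M / 1024) * ∑ q ∈ Icc 1 ⌊256 / α ^ 2⌋₊, 1 / √(q : ℝ) := by
          rw [mul_sum]
      _ ≤ _ := mul_le_mul_of_nonneg_left (by linarith) (by positivity)
  have e8 : 4 * T * (α ^ 3 * N * M / 1024) * (2 * (16 / α)) = M * (T * (α ^ 2 * N)) / 8 := by
    field_simp
    norm_num
  have e9 := mul_le_mul_of_nonneg_left e5 (show 0 ≤ α * T / 4 by positivity)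
  have e10 : 0 < M * (T * (α ^ 2 * N)) := by positivity
  nlinarith

open Classical in
theorem incr (h : A ⊆ range N) (hc : (A.card : ℝ) = α * N) (h0 : 0 < α) (h1 : α ≤ 1)
    (hs : ∀ a ∈ A, ∀ t : ℕ, 0 < t → a + t ^ 2 ∉ A) (hN : 2 ^ 40 ≤ α ^ 9 * N) :
    ∃ (L : ℕ) (B : Finset ℕ), B ⊆ range L ∧ (∀ a ∈ B, ∀ t : ℕ, 0 < t → a + t ^ 2 ∉ B) ∧
      α ^ 7 * N / 2 ^ 33 ≤ L ∧ (α + α ^ 2 / 8192) * L < B.card := by
  obtain ⟨q, hq0, hq1, hE⟩ := major h hc h0 h1 hs hN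
  set M := 2 * N with hM
  set f := bal A N α with hf
  have hN0 : (0 : ℝ) < N := by
    rcases (Nat.cast_nonneg (α := ℝ) N).eq_or_lt with h | h
    · rw [← h] at hN; norm_num at hN
    · exact h
  have hM0 : (0 : ℝ) < M := by rw [hM]; push_cast; linarith
  have h2 : α ^ 2 ≤ 1 := pow_le_one₀ h0.le h1
  have h3 : α ^ 3 ≤ 1 := pow_le_one₀ h0.le h1
  have hα7 : 2 ^ 40 ≤ α ^ 7 * N := by
    have : α ^ 9 * N = α ^ 2 * (α ^ 7 * N) := by ring
    have h' : 0 ≤ α ^ 7 * N := by positivity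
    nlinarith
  set L := ⌊α ^ 7 * N / 2 ^ 32⌋₊ with hL
  have hL1 : (L : ℝ) ≤ α ^ 7 * N / 2 ^ 32 := Nat.floor_le (by positivity)
  have hL2 : α ^ 7 * N / 2 ^ 33 ≤ L := by
    have := Nat.lt_floor_add_one (α ^ 7 * N / 2 ^ 32)
    rw [← hL] at this
    linarith
  have hL0 : (0 : ℝ) < L := lt_of_lt_of_le (by positivity) hL2
  have hqα : (q : ℝ) * α ^ 2 ≤ 256 := (le_div_iff₀ (by positivity)).1 hq1
  have hq0' : (0 : ℝ) ≤ q := Nat.cast_nonneg q
  have hD : ((q ^ 2 * L : ℕ) : ℝ) ≤ α ^ 3 * N / 2 ^ 16 := by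
    push_cast
    have a1 : (q : ℝ) ^ 2 * L ≤ (q : ℝ) ^ 2 * (α ^ 7 * N / 2 ^ 32) := by gcongr
    have a2 : ((q : ℝ) * α ^ 2) ^ 2 ≤ 256 ^ 2 := by gcongr
    have a3 : (q : ℝ) ^ 2 * (α ^ 7 * N / 2 ^ 32) =
      ((q : ℝ) * α ^ 2) ^ 2 * (α ^ 3 * N / 2 ^ 32) := by ring
    have a4 := mul_le_mul_of_nonneg_right a2 (show 0 ≤ α ^ 3 * N / 2 ^ 32 by positivity)
    linarith
  set D := q ^ 2 * L with hDdef
  have hDN : D ≤ N := by
    have : (D : ℝ) ≤ N := by nlinarith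
    exact_mod_cast this
  have hK : ∀ m ∈ range L, N + q ^ 2 * m ≤ N + D := fun m hm =>
    Nat.add_le_add_left (Nat.mul_le_mul_left _ (mem_range.1 hm).le) _
  set g := cv N f (range L) (fun m => q ^ 2 * m) with hg
  have hw : 16 * (q * L * (2 ^ 20 / (α ^ 5 * N))) ≤ (1 : ℝ) := by
    have a1 : (q : ℝ) * L * (2 ^ 20 / (α ^ 5 * N)) ≤
        q * (α ^ 7 * N / 2 ^ 32) * (2 ^ 20 / (α ^ 5 * N)) := by gcongr
    have a2 : (q : ℝ) * (α ^ 7 * N / 2 ^ 32) * (2 ^ 20 / (α ^ 5 * N)) = q * α ^ 2 / 2 ^ 12 := by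
      field_simp
    linarith
  have e1 : (L : ℝ) ^ 2 * (α ^ 3 * N / 4096) < ∑ y ∈ range (N + D), g y ^ 2 := by
    have a1 := parseval (show N + D ≤ M by omega) g
    simp_rw [hg, hat_cv f hK] at a1
    have a2 : ((L : ℝ) / 2) ^ 2 * (∑ ξ ∈ range M,
        if Maj q (2 ^ 20 / (α ^ 5 * N)) ((ξ : ℝ) / M) then ‖hat N f ((ξ : ℝ) / M)‖ ^ 2 else 0) ≤
        ∑ ξ ∈ range M, ‖hat N f ((ξ : ℝ) / M) *
          ∑ m ∈ range L, ee ((ξ : ℝ) / M * ((q ^ 2 * m : ℕ) : ℝ))‖ ^ 2 := by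
      rw [mul_sum]
      refine sum_le_sum fun ξ _ => ?_
      split_ifs with hm
      · have := norm_prog (L := L) hm hw
        rw [norm_mul, mul_pow, mul_comm]
        gcongr
      · rw [mul_zero]; positivity
    rw [a1] at a2
    have a3 := mul_lt_mul_of_pos_left hE (show 0 < ((L : ℝ) / 2) ^ 2 by positivity)
    refine lt_of_mul_lt_mul_left ?_ hM0.le
    rw [hg]
    linarith
  have e2 : ∑ y ∈ range (N + D), g y = 0 := by
    have := cv_sum f hK (fun _ => (1 : ℝ))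
    simp only [smul_eq_mul, mul_one] at this
    rw [hg, this, hf, sum_bal h hc, sum_const_zero]
  have e3 : ∀ y, |g y| ≤ L := by
    intro y
    rw [hg, cv]
    refine (abs_sum_le_sum_abs _ _).trans ?_
    have := sum_le_card_nsmul (range L) (fun m => |∑ x ∈ range N,
      if x + q ^ 2 * m = y then f x else 0|) 1 fun m _ => by
        rw [cv_one]
        split_ifs
        · exact abs_bal h0.le h1 _
        · simp
    simpa using this
  have e4 : ∀ y, D ≤ y → y < N →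
      g y = (((range L).filter fun m => y - q ^ 2 * m ∈ A).card : ℝ) - α * L := by
    intro y hy1 hy2
    have a1 : ∀ m ∈ range L, (∑ x ∈ range N, if x + q ^ 2 * m = y then f x else 0) =
        (if y - q ^ 2 * m ∈ A then 1 else 0) - α := by
      intro m hm
      have := hK m hm
      rw [cv_one, if_pos ⟨by omega, by omega⟩, hf, bal_of_lt (by omega), ind]
    rw [hg, cv, sum_congr rfl a1, sum_sub_distrib, sum_boole, sum_const, card_range, nsmul_eq_mul]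
    ring
  by_contra hcon
  set β := α ^ 2 / 8192 with hβ
  have hβ0 : 0 < β := by positivity
  have hβ1 : β ≤ 1 := by rw [hβ]; linarith
  have e5 : ∀ y, D ≤ y → y < N → g y ≤ β * L := by
    intro y hy1 hy2
    by_contra hlt
    refine hcon ⟨L, (range L).filter fun m => y - q ^ 2 * m ∈ A, filter_subset _ _, ?_, hL2, ?_⟩
    · intro m hm t ht hmt
      have a1 := hK _ (mem_filter.1 hmt).1
      have a2 := hs _ (mem_filter.1 hmt).2 (q * t) (Nat.mul_pos hq0 ht)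
      have a3 : q ^ 2 * (m + t ^ 2) = q ^ 2 * m + (q * t) ^ 2 := by ring
      have a4 : y - q ^ 2 * (m + t ^ 2) + (q * t) ^ 2 = y - q ^ 2 * m := by omega
      rw [a4] at a2
      exact a2 (mem_filter.1 hm).2
    · have := e4 y hy1 hy2
      linarith [not_le.1 hlt]
  have e6 : ∀ y, g y ^ 2 ≤ (β - α) * L * g y + 2 * (L : ℝ) ^ 2 := by
    intro y
    have a1 := abs_le.1 (e3 y)
    have a2 : g y ^ 2 ≤ (L : ℝ) ^ 2 := sq_le_sq' a1.1 a1.2
    have a3 : |(β - α) * g y| ≤ 1 * L := by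
      rw [abs_mul]
      exact mul_le_mul (abs_le.2 ⟨by linarith, by linarith⟩) (e3 y) (abs_nonneg _) zero_le_one
    have a4 := mul_le_mul_of_nonneg_left (abs_le.1 a3).1 hL0.le
    nlinarith
  have e7 : ∀ y ∈ range N, g y ^ 2 ≤ (β - α) * L * g y + α * β * (L : ℝ) ^ 2 +
      2 * (L : ℝ) ^ 2 * ind (range D) y := by
    intro y hy
    have a0 : 0 ≤ α * β * (L : ℝ) ^ 2 := by positivity
    by_cases hyD : y < D
    · have := e6 y
      rw [ind, if_pos (mem_range.2 hyD)]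
      linarith
    · rw [ind, if_neg (by simpa using hyD)]
      have a1 := e5 y (not_lt.1 hyD) (mem_range.1 hy)
      have a2 := e4 y (not_lt.1 hyD) (mem_range.1 hy)
      have a3 : -(α * L) ≤ g y := by
        have := Nat.cast_nonneg (α := ℝ) ((range L).filter fun m => y - q ^ 2 * m ∈ A).card
        linarith
      nlinarith [mul_nonneg (sub_nonneg.2 a1) (sub_nonneg.2 a3)]
  have e8 := sum_le_sum e7
  have e9 := sum_le_sum fun y (_ : y ∈ range D) => e6 (N + y)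
  rw [sum_range_add] at e1 e2
  simp only [sum_add_distrib, ← mul_sum, sum_const, card_range, nsmul_eq_mul] at e8 e9
  rw [sum_ind (range_subset_range.2 hDN), card_range] at e8
  have e10 : (β - α) * L * ∑ y ∈ range N, g y + (β - α) * L * ∑ y ∈ range D, g (N + y) = 0 := by
    rw [← mul_add, e2, mul_zero]
  have e11 := mul_le_mul_of_nonneg_left hD (show 0 ≤ 4 * (L : ℝ) ^ 2 by positivity)
  have e12 : 0 < (L : ℝ) ^ 2 * (α ^ 3 * N) := by positivity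
  have e13 : α * β * (L : ℝ) ^ 2 * N = (L : ℝ) ^ 2 * (α ^ 3 * N) / 8192 := by rw [hβ]; ring
  nlinarith

theorem iter {a : ℝ} (ha : 0 < a) (ha1 : a ≤ 1) (k : ℕ) : ∀ (N : ℕ) (A : Finset ℕ), A ⊆ range N →
    (∀ x ∈ A, ∀ t : ℕ, 0 < t → x + t ^ 2 ∉ A) → a * N ≤ A.card →
    (N : ℝ) < (1 + k / 16384) * A.card → (N : ℝ) ≤ (2 / a) ^ (40 + 33 * k) := by
  induction k with
  | zero =>
    intro N A h _ _ h4
    have : (A.card : ℝ) ≤ N := by exact_mod_cast (by simpa using card_le_card h : A.card ≤ N)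
    simp only [Nat.cast_zero, zero_div, add_zero, one_mul] at h4
    linarith
  | succ k ih =>
    intro N A h hs h3 h4
    have hb : (1 : ℝ) ≤ 2 / a := by rw [le_div_iff₀ ha]; linarith
    by_cases hsm : (N : ℝ) ≤ (2 / a) ^ 40
    · exact hsm.trans (pow_le_pow_right₀ hb (by omega))
    have hN := not_le.1 hsm
    have hN0 : (0 : ℝ) < N := lt_of_le_of_lt (by positivity) hN
    have hcN : (A.card : ℝ) ≤ N := by
      exact_mod_cast (by simpa using card_le_card h : A.card ≤ N)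
    set α : ℝ := A.card / N with hα
    have hc : (A.card : ℝ) = α * N := (div_mul_cancel₀ _ hN0.ne').symm
    have haα : a ≤ α := (le_div_iff₀ hN0).2 h3
    have h0 : 0 < α := ha.trans_le haα
    have h1 : α ≤ 1 := (div_le_one hN0).2 hcN
    clear_value α
    clear hα
    have hbig : 2 ^ 40 ≤ α ^ 9 * N := by
      rw [div_pow, div_lt_iff₀ (by positivity)] at hN
      have a1 : a ^ 40 ≤ a ^ 9 := pow_le_pow_of_le_one ha.le ha1 (by norm_num)
      have a2 : a ^ 9 ≤ α ^ 9 := by gcongr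
      have a3 := mul_le_mul_of_nonneg_left (a1.trans a2) hN0.le
      linarith
    obtain ⟨L, B, hB, hBs, hL, hBc⟩ := incr h hc h0 h1 hs hbig
    have hL0 : (0 : ℝ) < L := lt_of_lt_of_le (by positivity) hL
    have b1 : a * L ≤ B.card := by
      have : 0 ≤ α ^ 2 / 8192 := by positivity
      nlinarith
    have b2 : (L : ℝ) < (1 + k / 16384) * B.card := by
      rw [hc, ← mul_assoc] at h4
      have c1 : 1 < (1 + ((k + 1 : ℕ) : ℝ) / 16384) * α := by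
        by_contra hh
        have := mul_le_mul_of_nonneg_right (not_lt.1 hh) hN0.le
        linarith
      push_cast at c1
      have hk : (0 : ℝ) ≤ k := Nat.cast_nonneg k
      have c2 : 1 ≤ (1 + (k : ℝ) / 16384) * (α + α ^ 2 / 8192) := by
        have c3 : 1 - α / 16384 ≤ (1 + (k : ℝ) / 16384) * α := by linarith
        have c4 : (1 + (k : ℝ) / 16384) * (α + α ^ 2 / 8192) =
          (1 + (k : ℝ) / 16384) * α * (1 + α / 8192) := by ring
        have c5 := mul_le_mul_of_nonneg_right c3 (show 0 ≤ 1 + α / 8192 by positivity)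
        nlinarith
      have c6 := mul_lt_mul_of_pos_left hBc (show 0 < 1 + (k : ℝ) / 16384 by positivity)
      have c7 := mul_le_mul_of_nonneg_right c2 hL0.le
      linarith
    have b3 := ih L B hB hBs b1 b2
    have b4 : (N : ℝ) ≤ (2 / a) ^ 33 * L := by
      rw [div_pow, div_mul_eq_mul_div, le_div_iff₀ (by positivity)]
      have a1 : a ^ 33 ≤ a ^ 7 := pow_le_pow_of_le_one ha.le ha1 (by norm_num)
      have a2 : a ^ 7 ≤ α ^ 7 := by gcongr
      have a3 := mul_le_mul_of_nonneg_left (a1.trans a2) hN0.le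
      linarith
    calc (N : ℝ) ≤ (2 / a) ^ 33 * (2 / a) ^ (40 + 33 * k) :=
          b4.trans (mul_le_mul_of_nonneg_left b3 (by positivity))
      _ = _ := by rw [← pow_add]; congr 1; ring

end Sark

/-- quantitative Furstenberg-Sarkozy theorem -/
theorem sarkozy : ∃ C : ℝ, 0 < C ∧ ∀ (N : ℕ) (A : Finset ℕ) (α : ℝ), A ⊆ Finset.range N →
    (∀ a ∈ A, ∀ t : ℕ, 0 < t → a + t ^ 2 ∉ A) → 0 < α → α ≤ 1 → α * N ≤ A.card →
    Real.log N ≤ C / α * Real.log (2 / α) := by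
  refine ⟨1000000, by norm_num, fun N A α h hs h0 h1 hc => ?_⟩
  have hb : (1 : ℝ) ≤ 2 / α := by rw [le_div_iff₀ h0]; linarith
  have hlog : 0 ≤ Real.log (2 / α) := Real.log_nonneg hb
  rcases Nat.eq_zero_or_pos N with hN | hN
  · subst hN
    simp only [Nat.cast_zero, Real.log_zero]
    positivity
  have hN0 : (0 : ℝ) < N := by exact_mod_cast hN
  set k := ⌈16384 / α⌉₊ with hk
  have k1 : 16384 / α ≤ k := Nat.le_ceil _
  have k2 : (k : ℝ) < 16384 / α + 1 := Nat.ceil_lt_add_one (by positivity)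
  have k3 : 16384 ≤ (k : ℝ) * α := (div_le_iff₀ h0).1 k1
  have h2 := Sark.iter h0 h1 k N A h hs hc (by
    have a1 := mul_le_mul_of_nonneg_left hc (show 0 ≤ 1 + (k : ℝ) / 16384 by positivity)
    have a2 := mul_le_mul_of_nonneg_right k3 hN0.le
    have a3 := mul_pos h0 hN0
    nlinarith)
  refine (Real.log_le_log hN0 h2).trans ?_
  rw [Real.log_pow]
  refine mul_le_mul_of_nonneg_right ?_ hlog
  push_cast
  have a1 : (1 : ℝ) ≤ 1 / α := by rw [le_div_iff₀ h0]; linarith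
  have a2 : 16384 / α = 16384 * (1 / α) := by ring
  have a3 : 1000000 / α = 1000000 * (1 / α) := by ring
  linarith

end Pool.Agent.MP_14ad9d_nt
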