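import Pool.Agent.MP_14ad9d_nt.Defs

set_option autoImplicit false

open AlgebraicGeometry CategoryTheory TopologicalSpace

namespace Pool.Agent.MP_14ad9d_nt.Sch

/-- a locally closed subset carries a subscheme through which reduced schemes factor -/
theorem exists_sub (P : Scheme.{0}) (π : P ⟶ Spec (CommRingCat.of ℤ)) [LocallyOfFiniteType π]
    [QuasiCompact π] (Z : Closeds P) (U : P.Opens) :
    ∃ (X : Scheme.{0}) (κ : X ⟶ P), Mono κ ∧ LocallyOfFiniteType (κ ≫ π) ∧
      QuasiCompact (κ ≫ π) ∧ (∀ x, κ x ∈ Z ∧ κ x ∈ U) ∧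
      ∀ (T : Scheme.{0}) [IsReduced T] (g : T ⟶ P), (∀ t, g t ∈ Z ∧ g t ∈ U) →
        ∃ g' : T ⟶ X, g' ≫ κ = g := by
  let I := Scheme.IdealSheafData.vanishingIdeal Z
  let ι := I.subschemeι
  have hι : Set.range ι = Z := by
    rw [Scheme.IdealSheafData.range_subschemeι,
      Scheme.IdealSheafData.coe_support_vanishingIdeal]
  have hN : IsLocallyNoetherian I.subscheme := LocallyOfFiniteType.isLocallyNoetherian (ι ≫ π)
  refine ⟨(ι ⁻¹ᵁ U).toScheme, (ι ⁻¹ᵁ U).ι ≫ ι, inferInstance, inferInstance, inferInstance, ?_, ?_⟩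
  · intro x
    refine ⟨?_, ?_⟩
    · rw [← SetLike.mem_coe, ← hι, Scheme.Hom.comp_apply]
      exact ⟨_, rfl⟩
    · rw [Scheme.Hom.comp_apply]
      exact x.2
  · intro T _ g hg
    have H : ι.ker ≤ g.ker := by
      rw [Scheme.IdealSheafData.ker_subschemeι, ← Scheme.IdealSheafData.map_bot,
        ← Scheme.nilradical_eq_bot, ← Scheme.IdealSheafData.vanishingIdeal_top,
        Scheme.IdealSheafData.map_vanishingIdeal]
      apply Scheme.IdealSheafData.vanishingIdeal_antimono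
      rw [Closeds.closure_le]
      rintro _ ⟨t, -, rfl⟩
      exact (hg t).1
    let g1 := IsClosedImmersion.lift ι g H
    have hg1 : g1 ≫ ι = g := IsClosedImmersion.lift_fac _ _ _
    have H2 : Set.range g1 ⊆ Set.range (ι ⁻¹ᵁ U).ι := by
      rintro _ ⟨t, rfl⟩
      rw [Scheme.Opens.range_ι]
      have := (hg t).2
      rw [← hg1, Scheme.Hom.comp_apply] at this
      exact this
    refine ⟨IsOpenImmersion.lift _ g1 H2, ?_⟩
    rw [IsOpenImmersion.lift_fac_assoc, hg1]

/-- a point of `Proj` given by global sections, read in a chart -/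
theorem comp_fromOfGlobalSections {σ A : Type} [CommRing A] [SetLike σ A] [AddSubgroupClass σ A]
    (𝒜 : ℕ → σ) [GradedRing 𝒜] {X : Scheme.{0}} (f : A →+* Γ(X, ⊤))
    (hf : (HomogeneousIdeal.irrelevant 𝒜).toIdeal.map f = ⊤) {t : A} {d : ℕ} (hd : 0 < d)
    (ht : t ∈ 𝒜 d) {S : Type} [CommRing S] (g : Spec (CommRingCat.of S) ⟶ X)
    (γ : Γ(X, ⊤) →+* S) (hγ : g ≫ X.toSpecΓ = Spec.map (CommRingCat.ofHom γ))
    (hu : IsUnit ((γ.comp f) t)) :
    g ≫ Proj.fromOfGlobalSections 𝒜 f hf =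
      Spec.map (CommRingCat.ofHom ((IsLocalization.Away.lift (S := Localization.Away t) t hu).comp
        (algebraMap (HomogeneousLocalization.Away 𝒜 t) (Localization.Away t)))) ≫
        Proj.awayι 𝒜 t ht hd := by
  have H : Set.range g ⊆ Set.range (X.basicOpen (f t)).ι := by
    rintro _ ⟨x, rfl⟩
    rw [Scheme.Opens.range_ι, ← X.toSpecΓ_preimage_basicOpen]
    change X.toSpecΓ (g x) ∈ PrimeSpectrum.basicOpen (f t)
    rw [← Scheme.Hom.comp_apply, hγ]
    change γ (f t) ∉ x.asIdeal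
    intro h
    exact x.2.ne_top (Ideal.eq_top_of_isUnit_mem _ h hu)
  let u := IsOpenImmersion.lift _ g H
  have hu1 : u ≫ (X.basicOpen (f t)).ι = g := IsOpenImmersion.lift_fac _ _ _
  have h1 : (X.basicOpen (f t)).ι ≫ Proj.fromOfGlobalSections 𝒜 f hf =
      Proj.toBasicOpenOfGlobalSections 𝒜 f rfl hd ht ≫ (Proj.basicOpen 𝒜 t).ι := by
    rw [← Proj.fromOfGlobalSections_resLE 𝒜 f hf hd ht, Scheme.Hom.resLE_comp_ι]
  have hu' : IsUnit (γ (f t)) := hu
  have h2 : u ≫ (X.isoOfEq (X.toSpecΓ_preimage_basicOpen (f t))).inv ≫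
      X.toSpecΓ ∣_ (PrimeSpectrum.basicOpen (f t)) ≫ (basicOpenIsoSpecAway (f t)).hom =
      Spec.map (CommRingCat.ofHom
        (IsLocalization.Away.lift (S := Localization.Away (f t)) (f t) hu')) := by
    rw [← cancel_mono (Spec.map (CommRingCat.ofHom (algebraMap Γ(X, ⊤)
      (Localization.Away (f t)))))]
    simp only [Category.assoc, basicOpenIsoSpecAway_hom_SpecMap, morphismRestrict_ι,
      Scheme.isoOfEq_inv_ι_assoc]
    rw [reassoc_of% hu1, hγ, ← Spec.map_comp, ← CommRingCat.ofHom_comp,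
      IsLocalization.Away.lift_comp]
  rw [← hu1, Category.assoc, h1, Proj.toBasicOpenOfGlobalSections]
  simp only [Category.assoc, Proj.basicOpenIsoSpec_inv_ι]
  rw [reassoc_of% h2, ← Category.assoc, ← Spec.map_comp, ← CommRingCat.ofHom_comp]
  congr 3
  rw [← RingHom.comp_assoc]
  congr 1
  apply IsLocalization.ringHom_ext (M := .powers t)
  ext a
  simp

end Pool.Agent.MP_14ad9d_nt.Sch
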