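import Pool.Agent.MP_14ad9d_nt.Sch1

set_option autoImplicit false

open AlgebraicGeometry CategoryTheory TopologicalSpace MvPolynomial

namespace Pool.Agent.MP_14ad9d_nt.Sch

attribute [local instance] MvPolynomial.gradedAlgebra

variable (m : ℕ)

/-- the homogeneous coordinate ring -/
abbrev RA : Type := MvPolynomial (Option (Fin m)) ℤ

/-- its grading -/
noncomputable abbrev gr : ℕ → Submodule ℤ (RA m) := homogeneousSubmodule (Option (Fin m)) ℤ

theorem hX (o : Option (Fin m)) : (X o : RA m) ∈ gr m 1 := isHomogeneous_X ℤ o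

/-- projective space -/
noncomputable abbrev PP : Scheme.{0} := Proj (gr m)

/-- the coordinate ring of the standard chart -/
abbrev RB : Type := HomogeneousLocalization.Away (gr m) (X none)

/-- the standard chart -/
noncomputable abbrev jj : Spec (CommRingCat.of (RB m)) ⟶ PP m :=
  Proj.awayι (gr m) (X none) (hX m none) Nat.one_pos

/-- affine coordinates -/
noncomputable def yy (l : Fin m) : RB m :=
  HomogeneousLocalization.Away.mk (gr m) (hX m none) 1 (X (some l)) (by simpa using hX m (some l))

/-- the structure map -/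
noncomputable def pp : PP m ⟶ Spec (CommRingCat.of ℤ) :=
  Proj.toSpecZero (gr m) ≫ Spec.map (CommRingCat.ofHom (algebraMap ℤ (gr m 0)))

theorem alg_surj : Function.Surjective (algebraMap ℤ (gr m 0)) := by
  rintro ⟨a, ha⟩
  have ha' : a ∈ homogeneousSubmodule (Option (Fin m)) ℤ 0 := ha
  rw [homogeneousSubmodule_zero, Submodule.mem_one] at ha'
  obtain ⟨r, hr⟩ := ha'
  refine ⟨r, Subtype.ext ?_⟩
  have h := RingHom.ext_int ((algebraMap (gr m 0) (RA m)).comp (algebraMap ℤ (gr m 0)))
    (algebraMap ℤ (RA m))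
  exact (congr($h r)).trans hr

instance ft : Algebra.FiniteType (gr m 0) (RA m) := by
  have := IsScalarTower.of_algebraMap_eq' (R := ℤ) (S := gr m 0) (A := RA m) (RingHom.ext_int _ _)
  exact Algebra.FiniteType.of_restrictScalars_finiteType ℤ _ _

instance : LocallyOfFiniteType (pp m) := by
  have := IsClosedImmersion.spec_of_surjective (CommRingCat.ofHom (algebraMap ℤ (gr m 0)))
    (alg_surj m)
  unfold pp
  infer_instance

instance : QuasiCompact (pp m) := by
  unfold pp
  infer_instance

/-- evaluation of integral polynomials -/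
noncomputable abbrev ev {S σ : Type*} [CommRing S] (v : σ → S) : MvPolynomial σ ℤ →+* S :=
  eval₂Hom (Int.castRingHom S) v

theorem ev_ext {S σ : Type*} [CommRing S] {φ φ' : MvPolynomial σ ℤ →+* S}
    (h : ∀ i, φ (X i) = φ' (X i)) : φ = φ' :=
  ringHom_ext' (RingHom.ext_int _ _) h

theorem aeval_eq_ev {S σ : Type*} [CommRing S] [Algebra ℤ S] (v : σ → S) (p : MvPolynomial σ ℤ) :
    aeval v p = ev v p := by
  rw [aeval_def, coe_eval₂Hom, RingHom.ext_int (algebraMap ℤ S) (Int.castRingHom S)]

theorem eval_homog {S σ : Type*} [CommRing S] {a : MvPolynomial σ ℤ} {n : ℕ}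
    (ha : a.IsHomogeneous n) (c : S) (v : σ → S) :
    ev (fun o => c * v o) a = c ^ n * ev v a := by
  conv_lhs => rw [a.as_sum]
  conv_rhs => rw [a.as_sum]
  rw [map_sum, map_sum, Finset.mul_sum]
  refine Finset.sum_congr rfl fun s hs => ?_
  rw [eval₂Hom_monomial, eval₂Hom_monomial, ha.degree_eq_sum_deg_support hs]
  simp only [Finsupp.prod, mul_pow, Finset.prod_mul_distrib, Finset.prod_pow_eq_pow_sum]
  ring

theorem psi_surj : Function.Surjective (ev (yy m)) := by
  intro z
  obtain ⟨n, a, ha, rfl⟩ := HomogeneousLocalization.Away.mk_surjective (gr m) (hX m none) z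
  have ha' : a.IsHomogeneous n := by simpa using ha
  let L := Localization.Away (X none : RA m)
  let w : Option (Fin m) → MvPolynomial (Fin m) ℤ := fun o => o.elim 1 X
  refine ⟨ev w a, ?_⟩
  apply HomogeneousLocalization.val_injective
  let c : L := Localization.mk 1 ⟨X none, Submonoid.mem_powers _⟩
  let F : RB m →+* L := algebraMap (RB m) L
  have h1 : (F.comp ((ev (yy m)).comp (ev w))) =
      ev (fun o => c * algebraMap (RA m) L (X o)) := by
    apply ev_ext
    intro o
    cases o with
    | none =>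
      simp only [RingHom.comp_apply, eval₂Hom_X', w, Option.elim, map_one, c]
      rw [← Localization.mk_one_eq_algebraMap, Localization.mk_mul, ← Localization.mk_one,
        Localization.mk_eq_mk_iff, Localization.r_iff_exists]
      exact ⟨1, by simp⟩
    | some l =>
      simp only [RingHom.comp_apply, eval₂Hom_X', w, Option.elim, c]
      change (yy m l).val = _
      rw [yy, HomogeneousLocalization.Away.val_mk,
        ← Localization.mk_one_eq_algebraMap, Localization.mk_mul,
        Localization.mk_eq_mk_iff, Localization.r_iff_exists]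
      exact ⟨1, by simp⟩
  have h2 : ev (fun o => algebraMap (RA m) L (X o)) = algebraMap (RA m) L := by
    apply ev_ext
    intro o
    simp
  have h3 := congr($h1 a)
  rw [eval_homog ha', h2] at h3
  change (F.comp ((ev (yy m)).comp (ev w))) a = _
  rw [h3, HomogeneousLocalization.Away.val_mk,
    ← Localization.mk_one_eq_algebraMap, Localization.mk_pow, Localization.mk_mul,
    Localization.mk_eq_mk_iff, Localization.r_iff_exists]
  exact ⟨1, by simp⟩

theorem hom_ev {S : Type*} [CommRing S] (φ : RB m →+* S) (p : MvPolynomial (Fin m) ℤ) :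
    φ (ev (yy m) p) = ev (fun l => φ (yy m l)) p := by
  have : φ.comp (ev (yy m)) = ev (fun l => φ (yy m l)) := by
    apply ev_ext
    intro l
    simp
  exact congr($this p)

theorem hom_ext {S : Type*} [CommRing S] {φ φ' : RB m →+* S} (h : ∀ l, φ (yy m l) = φ' (yy m l)) :
    φ = φ' := by
  ext z
  obtain ⟨p, rfl⟩ := psi_surj m z
  rw [hom_ev, hom_ev, funext h]

/-- the integral point attached to a primitive vector -/
theorem exists_point (n c : Option (Fin m) → ℤ) (hc : ∑ o, n o * c o = 1) :
    ∃ s : Spec (CommRingCat.of ℤ) ⟶ PP m,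
      (∀ x, n none ∉ x.asIdeal → s x ∈ Proj.basicOpen (gr m) (X none)) ∧
      ∀ (S : Type) [CommRing S], IsUnit (n none : S) → ∃ φ : RB m →+* S,
        (∀ l, (n none : S) * φ (yy m l) = n (some l)) ∧
        Spec.map (CommRingCat.ofHom (algebraMap ℤ S)) ≫ s =
          Spec.map (CommRingCat.ofHom φ) ≫ jj m := by
  let f : RA m →+* Γ(Spec (CommRingCat.of ℤ), ⊤) :=
    (Scheme.ΓSpecIso (CommRingCat.of ℤ)).inv.hom.comp (eval n)
  have hf : (HomogeneousIdeal.irrelevant (gr m)).toIdeal.map f = ⊤ := by
    rw [Ideal.eq_top_iff_one]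
    have h1 : f (∑ o, X o * C (c o)) = 1 := by
      simp only [f, RingHom.comp_apply, map_sum (eval n), map_mul (eval n), eval_X, eval_C, hc,
        map_one]
    rw [← h1]
    refine Ideal.mem_map_of_mem _ (Ideal.sum_mem _ fun o _ => Ideal.mul_mem_right _ _ ?_)
    exact HomogeneousIdeal.mem_irrelevant_of_mem _ Nat.one_pos (hX m o)
  refine ⟨Proj.fromOfGlobalSections (gr m) f hf, ?_, ?_⟩
  · intro x hx
    change x ∈ Proj.fromOfGlobalSections (gr m) f hf ⁻¹ᵁ Proj.basicOpen (gr m) (X none)
    rw [Proj.fromOfGlobalSections_preimage_basicOpen _ _ _ Nat.one_pos (hX m none)]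
    simp only [f, RingHom.comp_apply, eval_X]
    erw [basicOpen_eq_of_affine]
    exact hx
  · intro S _ hS
    let γ : Γ(Spec (CommRingCat.of ℤ), ⊤) →+* S :=
      (algebraMap ℤ S).comp (Scheme.ΓSpecIso (CommRingCat.of ℤ)).hom.hom
    have hγf : ∀ o, (γ.comp f) (X o) = (n o : S) := by
      intro o
      simp [γ, f]
    have hu : IsUnit ((γ.comp f) (X none)) := by rw [hγf]; exact hS
    have hγ : Spec.map (CommRingCat.ofHom (algebraMap ℤ S)) ≫ (Spec (CommRingCat.of ℤ)).toSpecΓ =
        Spec.map (CommRingCat.ofHom γ) := by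
      rw [← SpecMap_ΓSpecIso_hom, ← Spec.map_comp]
      rfl
    refine ⟨_, ?_, comp_fromOfGlobalSections (gr m) f hf Nat.one_pos (hX m none) _ γ hγ hu⟩
    intro l
    rw [← hγf, ← hγf, ← IsLocalization.Away.lift_eq (S := Localization.Away (X none : RA m))
      (X none) hu, ← IsLocalization.Away.lift_eq (S := Localization.Away (X none : RA m))
      (X none) hu (X (some l)), RingHom.comp_apply, ← map_mul]
    congr 1
    simp only [HomogeneousLocalization.algebraMap_apply, yy, HomogeneousLocalization.Away.val_mk]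
    rw [← Localization.mk_one_eq_algebraMap, ← Localization.mk_one_eq_algebraMap,
      Localization.mk_mul, Localization.mk_eq_mk_iff, Localization.r_iff_exists]
    exact ⟨1, by simp⟩

/-- clearing odd denominators -/
theorem exists_vec (η : Fin m → ℚ) (h : ∀ l, TwoInt (η l)) :
    ∃ n c : Option (Fin m) → ℤ, ∑ o, n o * c o = 1 ∧ Odd (n none) ∧
      ∀ l, (n (some l) : ℚ) = n none * η l := by
  classical
  choose d hd hi using h
  have hi' : ∀ l, ∃ z : ℤ, (z : ℚ) = (d l : ℚ) * η l := fun l => by
    simpa using (IsIntegrallyClosed.isIntegral_iff (R := ℤ) (K := ℚ)).mp (hi l)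
  choose z hz using hi'
  let D : ℤ := ∏ l, (d l : ℤ)
  have hD : Odd D := by
    apply Finset.prod_induction _ Odd (fun a b => Odd.mul) odd_one
    intro l _
    exact_mod_cast hd l
  let v : Option (Fin m) → ℤ := fun o =>
    o.elim D (fun l => (∏ k ∈ Finset.univ.erase l, (d k : ℤ)) * z l)
  have hv : ∀ l, (v (some l) : ℚ) = v none * η l := by
    intro l
    simp only [v, Option.elim, D]
    rw [← Finset.mul_prod_erase _ _ (Finset.mem_univ l)]
    push_cast
    rw [hz]
    ring
  obtain ⟨n, hn, hg⟩ := Finset.extract_gcd (s := Finset.univ) v ⟨none, Finset.mem_univ _⟩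
  obtain ⟨c, hc⟩ := Finset.gcd_eq_sum_mul Finset.univ n
  have h0 : D = Finset.univ.gcd v * n none := hn none (Finset.mem_univ _)
  have hg0 : (Finset.univ.gcd v : ℤ) ≠ 0 := by
    intro h
    rw [h, zero_mul] at h0
    rw [h0] at hD
    simp at hD
  refine ⟨n, c, by rw [← hc, hg], ?_, ?_⟩
  · rw [h0] at hD
    exact (Int.odd_mul.mp hD).2
  · intro l
    have h1 := hv l
    rw [hn (some l) (Finset.mem_univ _), hn none (Finset.mem_univ _)] at h1
    push_cast at h1
    have : ((Finset.univ.gcd v : ℤ) : ℚ) ≠ 0 := by exact_mod_cast hg0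
    apply mul_left_cancel₀ this
    rw [h1]
    ring

end Pool.Agent.MP_14ad9d_nt.Sch
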