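import Pool.Agent.MP_14ad9d_nt.Dict

set_option autoImplicit false
set_option linter.unusedSectionVars false

open NumberField IsDedekindDomain

namespace Pool.Agent.MP_14ad9d_nt

/-- an algebraic closure of the Gaussian field -/
abbrev Om : Type := AlgebraicClosure Fi

/-- its automorphisms over the Gaussian field -/
abbrev Gam : Type := Om ≃ₐ[Fi] Om

/-- the square root of `-1` in the algebraic closure -/
noncomputable def iO : Om := algebraMap Fi Om iF

theorem iO_sq : iO ^ 2 = -1 := by rw [iO, ← map_pow, iF_sq]; simp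

theorem gi_i : gi ⟨0, 1⟩ = iF := by simp [gi, Zsqrtd.lift_apply_apply]

theorem gi_apply (u : GaussianInt) : gi u = u.re + u.im * iF := by
  simp [gi, Zsqrtd.lift_apply_apply]

theorem Fi.eq_add (u : Fi) : u = (u.re : Fi) + (u.im : Fi) * iF := by
  ext <;> simp [iF]

theorem gi_injective : Function.Injective gi := by
  rw [injective_iff_map_eq_zero]
  intro u hu
  rw [gi_apply] at hu
  have h1 := congrArg QuadraticAlgebra.re hu
  have h2 := congrArg QuadraticAlgebra.im hu
  simp [iF] at h1 h2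
  ext <;> simp [h1, h2]

theorem isIntegral_of_sq_neg_one {A : Type*} [CommRing A] {i : A} (hi : i ^ 2 = -1) :
    IsIntegral ℤ i := by
  refine IsIntegral.of_pow (n := 2) (by norm_num) ?_
  rw [hi]; exact isIntegral_one.neg

theorem isIntegral_map_gauss {A : Type*} [CommRing A] (f : GaussianInt →+* A) (u : GaussianInt) :
    IsIntegral ℤ (f u) := by
  have h1 : u = (u.re : GaussianInt) + (u.im : GaussianInt) * ⟨0, 1⟩ := by ext <;> simp
  have h2 : IsIntegral ℤ (f ⟨0, 1⟩) := isIntegral_of_sq_neg_one (by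
    rw [← map_pow, show (⟨0, 1⟩ : GaussianInt) ^ 2 = -1 by ext <;> simp [sq]]; simp)
  rw [h1, map_add, map_mul, map_intCast, map_intCast]
  exact (isIntegral_algebraMap (R := ℤ) (x := u.re)).add
    ((isIntegral_algebraMap (R := ℤ) (x := u.im)).mul h2)

/-- `g` fixes the square roots of `i` and of `1 + i` -/
def Fix0 (g : Gam) : Prop :=
  (∀ w : Om, w ^ 2 = iO → g w = w) ∧ ∀ w : Om, w ^ 2 = 1 + iO → g w = w

variable (M : Type) [Field M] [NumberField M] [Algebra Fi M]

/-- embeddings over the Gaussian field -/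
def Emb : Type := M →ₐ[Fi] Om

noncomputable instance : Fintype (Emb M) := inferInstanceAs (Fintype (M →ₐ[Fi] Om))

/-- the norm to the Gaussian field is a square -/
def New (x : M) : Prop := IsSquare (Algebra.norm Fi x)

/-- Gaussian integers inside `M` -/
noncomputable def gM : GaussianInt →+* M := (algebraMap Fi M).comp gi

variable {M}

/-- the underlying map -/
def Emb.hom (σ : Emb M) : M →ₐ[Fi] Om := σ

/-- build an embedding -/
def Emb.mk (σ : M →ₐ[Fi] Om) : Emb M := σ

theorem Emb.ext {σ τ : Emb M} (h : ∀ x, σ.hom x = τ.hom x) : σ = τ := AlgHom.ext h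

noncomputable instance : MulAction Gam (Emb M) where
  smul g σ := Emb.mk ((g : Om →ₐ[Fi] Om).comp σ.hom)
  one_smul _ := rfl
  mul_smul _ _ _ := rfl

@[simp] theorem Emb.smul_apply (g : Gam) (σ : Emb M) (x : M) : (g • σ).hom x = g (σ.hom x) := rfl

@[simp] theorem Emb.hom_mk (σ : M →ₐ[Fi] Om) : (Emb.mk σ).hom = σ := rfl

instance : Nonempty (Emb M) := ⟨Emb.mk IsAlgClosed.lift⟩

theorem Emb.card : Fintype.card (Emb M) = Module.finrank Fi M := AlgHom.card Fi M Om

theorem Emb.prod_eq (x : M) : ∏ σ : Emb M, σ.hom x = algebraMap Fi Om (Algebra.norm Fi x) :=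
  (Algebra.norm_eq_prod_embeddings Fi Om x).symm

theorem Emb.exists_smul (σ τ : Emb M) : ∃ g : Gam, g • σ = τ := by
  let : Algebra M Om := σ.hom.toRingHom.toAlgebra
  have : IsScalarTower Fi M Om :=
    IsScalarTower.of_algebraMap_eq fun x => (σ.hom.commutes x).symm
  let φ : Om →ₐ[Fi] Om := AlgHom.liftNormal τ.hom Om
  refine ⟨AlgEquiv.ofBijective φ (Algebra.IsAlgebraic.algHom_bijective φ), Emb.ext fun x => ?_⟩
  exact AlgHom.liftNormal_commutes τ.hom Om x

/-- an element fixed by the stabiliser of an embedding lies in its range -/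
theorem Emb.mem_range (σ : Emb M) (z : Om) (h : ∀ g : Gam, g • σ = σ → g z = z) :
    ∃ x, σ.hom x = z := by
  have h1 : z ∈ IntermediateField.fixedField σ.hom.fieldRange.fixingSubgroup := by
    rw [IntermediateField.mem_fixedField_iff]
    intro g hg
    refine h g (Emb.ext fun x => ?_)
    exact (IntermediateField.mem_fixingSubgroup_iff _ _).1 hg _ ⟨x, rfl⟩
  rw [InfiniteGalois.fixedField_fixingSubgroup] at h1
  exact h1

theorem gM_integral (u : GaussianInt) : IsIntegral ℤ (gM M u) := isIntegral_map_gauss _ u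

theorem gM_ne_zero {u : GaussianInt} (hu : u ≠ 0) : gM M u ≠ 0 := by
  rw [gM, RingHom.comp_apply, map_ne_zero]
  exact fun h => hu (gi_injective (by simpa using h))

theorem gM_le_one (P : HeightOneSpectrum (𝓞 M)) (u : GaussianInt) :
    P.valuation M (gM M u) ≤ 1 := valuation_le_one_of_isIntegral P (gM_integral u)

theorem gM_mul_star (u : GaussianInt) : gM M u * gM M (star u) = (u.norm : M) := by
  rw [← map_mul, ← Zsqrtd.norm_eq_mul_conj]; simp

theorem New.mul {x y : M} (hx : New M x) (hy : New M y) : New M (x * y) := by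
  unfold New at *
  rw [map_mul]; exact hx.mul hy

theorem new_sq (x : M) : New M (x ^ 2) := by
  unfold New
  rw [map_pow]; exact IsSquare.sq _

theorem new_one : New M 1 := by simpa using new_sq (1 : M)

/-- the decomposition of a Gaussian prime in `M` is governed by `g` -/
structure Pl (g : Gam) (S : Set Om) (p : ℕ) (π : GaussianInt)
    (pl : Emb M → HeightOneSpectrum (𝓞 M)) : Prop where
  prime : p.Prime
  ne_two : p ≠ 2
  disc : ¬ (p : ℤ) ∣ discr M
  norm : π.norm = p
  prim : Prim π
  dv : ∀ σ, Dv (pl σ) (gM M π)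
  surj : ∀ P, Dv P (gM M π) → ∃ σ, pl σ = P
  inv : ∀ σ, pl (g • σ) = pl σ
  ord_eq : ∀ σ, ord (pl σ) (gM M π) = 1
  new : ∀ x : M, x ≠ 0 → New M x → Even (∑ σ, ord (pl σ) x)
  neg : ∀ (σ : Emb M) (x : M) (s : Om) (k : ℕ), x ≠ 0 → s ∈ Submonoid.closure S →
    s ^ 2 = σ.hom x → g ^ k • σ = σ → (g ^ k) s = -s → ¬ LSq (pl σ) x
  pos : ∀ (σ : Emb M) (x : M) (s : Om), x ≠ 0 → s ∈ Submonoid.closure S →
    s ^ 2 = σ.hom x → g • σ = σ → g s = s → Even (ord (pl σ) x) → LSq (pl σ) x

end Pool.Agent.MP_14ad9d_nt
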